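import Pool.Agent.Lib.MP_666dc0_nt.FM.C1
import Pool.Agent.Lib.MP_666dc0_nt.FM.D0

/-!
# CL, A1: the ranks of rectangular matrices
-/

namespace Pool.Agent.Lib.MP_666dc0_nt.CL

open FM

section

variable {Λ : Type} [Ring Λ] {D : Type} [DivisionRing D] (φ : Λ →+* D)

/-- Right multiplication by the matrix `φ(X)` on row vectors. -/
noncomputable def rowM {κ R : Type} [Fintype κ] (X : Matrix κ R Λ) : (κ → D) →ₗ[D] (R → D) where
  toFun v q := ∑ p, v p * φ (X p q)
  map_add' a b := by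
    funext q
    simp only [Pi.add_apply, add_mul, Finset.sum_add_distrib]
  map_smul' c a := by
    funext q
    simp only [Pi.smul_apply, smul_eq_mul, RingHom.id_apply, Finset.mul_sum, mul_assoc]

theorem rowM_apply {κ R : Type} [Fintype κ] (X : Matrix κ R Λ) (v : κ → D) (q : R) :
    rowM φ X v q = ∑ p, v p * φ (X p q) := rfl

theorem rowM_mul {κ R R' : Type} [Fintype κ] [Fintype R] (X : Matrix κ R Λ) (Y : Matrix R R' Λ)
    (v : κ → D) : rowM φ (X * Y) v = rowM φ Y (rowM φ X v) := by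
  funext q
  simp only [rowM_apply, Matrix.mul_apply, map_sum, map_mul, Finset.mul_sum, Finset.sum_mul,
    mul_assoc]
  rw [Finset.sum_comm]

theorem rowM_zero {κ R : Type} [Fintype κ] : rowM φ (0 : Matrix κ R Λ) = 0 := by
  refine LinearMap.ext fun v => funext fun q => ?_
  simp only [rowM_apply, Matrix.zero_apply, map_zero, mul_zero, Finset.sum_const_zero,
    LinearMap.zero_apply, Pi.zero_apply]

theorem rowM_add {κ R : Type} [Fintype κ] (X Y : Matrix κ R Λ) :
    rowM φ (X + Y) = rowM φ X + rowM φ Y := by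
  refine LinearMap.ext fun v => funext fun q => ?_
  simp only [rowM_apply, Matrix.add_apply, map_add, mul_add, Finset.sum_add_distrib,
    LinearMap.add_apply, Pi.add_apply]

theorem rowM_one {R : Type} [Fintype R] [DecidableEq R] :
    rowM φ (1 : Matrix R R Λ) = LinearMap.id := by
  refine LinearMap.ext fun v => funext fun q => ?_
  rw [rowM_apply, LinearMap.id_apply, Finset.sum_eq_single q]
  · rw [Matrix.one_apply_eq, map_one, mul_one]
  · intro p _ hp
    rw [Matrix.one_apply_ne hp, map_zero, mul_zero]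
  · intro h
    exact absurd (Finset.mem_univ q) h

/-- The row of `φ(X)`. -/
def rowV {κ R : Type} (X : Matrix κ R Λ) (p : κ) : R → D := fun q => φ (X p q)

theorem rowV_mul {κ R R' : Type} [Fintype R] (X : Matrix κ R Λ) (Y : Matrix R R' Λ) (p : κ) :
    rowV φ (X * Y) p = rowM φ Y (rowV φ X p) := by
  funext q
  simp only [rowV, rowM_apply, Matrix.mul_apply, map_sum, map_mul]

theorem range_rowM {κ R : Type} [Fintype κ] (X : Matrix κ R Λ) :
    LinearMap.range (rowM φ X) = Submodule.span D (Set.range (rowV φ X)) := by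
  classical
  have h0 : ∀ p : κ, rowM φ X (Pi.single p 1) = rowV φ X p := by
    intro p
    funext q
    rw [rowM_apply, Finset.sum_eq_single p]
    · rw [Pi.single_eq_same, one_mul]
      rfl
    · intro p' _ hp
      rw [Pi.single_eq_of_ne hp, zero_mul]
    · intro h
      exact absurd (Finset.mem_univ p) h
  apply le_antisymm
  · rintro _ ⟨v, rfl⟩
    have h1 : rowM φ X v = ∑ p, v p • rowV φ X p := by
      funext q
      rw [rowM_apply, Finset.sum_apply]
      rfl
    rw [h1]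
    exact Submodule.sum_mem _ fun p _ => Submodule.smul_mem _ _ (Submodule.subset_span ⟨p, rfl⟩)
  · rw [Submodule.span_le]
    rintro _ ⟨p, rfl⟩
    exact ⟨Pi.single p 1, h0 p⟩

theorem eq_zero_of_rowM (hφ : Function.Injective φ) {κ R : Type} [Fintype κ] {X : Matrix κ R Λ}
    (h : rowM φ X = 0) : X = 0 := by
  ext p q
  have h1 : rowV φ X p ∈ LinearMap.range (rowM φ X) := by
    rw [range_rowM]
    exact Submodule.subset_span ⟨p, rfl⟩
  rw [h, LinearMap.range_zero, Submodule.mem_bot] at h1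
  have h2 : φ (X p q) = 0 := congrFun h1 q
  rw [Matrix.zero_apply]
  exact hφ (by rw [h2, map_zero])

/-- Clearing denominators of a finite-dimensional space of row vectors. -/
theorem exists_basis_rows (hφ : Function.Injective φ)
    (hden : ∀ s : Finset D, ∃ a : Λ, a ≠ 0 ∧ ∀ y ∈ s, ∃ b : Λ, φ a * y = φ b)
    {R : Type} [Fintype R] {e : ℕ} (b : Fin e → R → D) (hb : LinearIndependent D b) :
    ∃ (Y : Matrix (Fin e) R Λ) (a : D), a ≠ 0 ∧ (∀ p, rowV φ Y p = a • b p) ∧
      LinearIndependent D (rowV φ Y) := by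
  classical
  obtain ⟨a, ha, hs⟩ := hden (Finset.univ.image fun p : Fin e × R => b p.1 p.2)
  have h1 : ∀ p q, ∃ c : Λ, φ a * b p q = φ c := fun p q =>
    hs _ (Finset.mem_image_of_mem (fun p : Fin e × R => b p.1 p.2) (Finset.mem_univ (p, q)))
  choose Y hY using h1
  have hrow : ∀ p, rowV φ (Matrix.of Y) p = φ a • b p := by
    intro p
    funext q
    rw [Pi.smul_apply, smul_eq_mul, hY]
    rfl
  have ha' : φ a ≠ 0 := fun h => ha (hφ (by rw [h, map_zero]))
  refine ⟨Matrix.of Y, φ a, ha', hrow, ?_⟩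
  have h2 : rowV φ (Matrix.of Y) = fun p => φ a • b p := funext hrow
  rw [h2]
  rw [Fintype.linearIndependent_iff] at hb ⊢
  intro g hg p
  have h4 : ∑ i, (g i * φ a) • b i = 0 := by
    rw [← hg]
    exact Finset.sum_congr rfl fun i _ => mul_smul _ _ _
  have h5 := hb (fun i => g i * φ a) h4 p
  exact (mul_eq_zero.1 h5).resolve_right ha'

/-- The rows of a matrix over `Λ` which span a given space. -/
theorem exists_rows_span (hφ : Function.Injective φ)
    (hden : ∀ s : Finset D, ∃ a : Λ, a ≠ 0 ∧ ∀ y ∈ s, ∃ b : Λ, φ a * y = φ b)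
    {R : Type} [Fintype R] (V : Submodule D (R → D)) :
    ∃ (Y : Matrix (Fin (Module.finrank D V)) R Λ), (∀ p, rowV φ Y p ∈ V) ∧
      LinearIndependent D (rowV φ Y) := by
  let b := Module.finBasis D V
  have hb : LinearIndependent D fun p => (b p : R → D) :=
    b.linearIndependent.map' V.subtype (Submodule.ker_subtype _)
  obtain ⟨Y, a, ha, hY, hli⟩ := exists_basis_rows φ hφ hden _ hb
  refine ⟨Y, fun p => ?_, hli⟩
  rw [hY]
  exact V.smul_mem _ (b p).2

end

section

/-- The rank of a pair of maps. -/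
theorem finrank_map_ker {k V X Y : Type*} [Field k] [AddCommGroup V] [Module k V]
    [FiniteDimensional k V] [AddCommGroup X] [Module k X] [AddCommGroup Y] [Module k Y]
    (f : V →ₗ[k] X) (g : V →ₗ[k] Y) :
    Module.finrank k ((LinearMap.ker g).map f) + Module.finrank k (LinearMap.range g) =
      Module.finrank k (LinearMap.range (f.prod g)) := by
  have h1 := LinearMap.finrank_range_add_finrank_ker (f.domRestrict (LinearMap.ker g))
  have h2 := LinearMap.finrank_range_add_finrank_ker g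
  have h3 := LinearMap.finrank_range_add_finrank_ker (f.prod g)
  have h4 : LinearMap.range (f.domRestrict (LinearMap.ker g)) = (LinearMap.ker g).map f := by
    rw [LinearMap.range_domRestrict]
  have h5 : Module.finrank k (LinearMap.ker (f.domRestrict (LinearMap.ker g))) =
      Module.finrank k (LinearMap.ker (f.prod g)) := by
    rw [LinearMap.ker_domRestrict, LinearMap.ker_prod]
    rw [← Submodule.finrank_map_subtype_eq, Submodule.map_comap_subtype, inf_comm]
  rw [h4, h5] at h1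
  omega

end

section

variable {Λ : Type} [Ring Λ] {D : Type} [DivisionRing D] {φ : Λ →+* D} {Ω : Type} [Field Ω] {ℓ : ℕ}
  (𝒲 : MFam Λ Ω ℓ)

/-- An inequality up to errors of size `C / ℓ ^ dep i * dim (W i)`. -/
def Leq (f g : 𝒲.ix → ℝ) : Prop :=
  ∃ C : ℝ, ∀ i, f i ≤ g i + C / (ℓ : ℝ) ^ 𝒲.dep i * Module.finrank Ω (𝒲.W i)

variable {𝒲}

theorem Leq.of_le {f g : 𝒲.ix → ℝ} (h : ∀ i, f i ≤ g i) : Leq 𝒲 f g :=
  ⟨0, fun i => by rw [zero_div, zero_mul, add_zero]; exact h i⟩

theorem Leq.trans {f g h : 𝒲.ix → ℝ} (h1 : Leq 𝒲 f g) (h2 : Leq 𝒲 g h) : Leq 𝒲 f h := by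
  obtain ⟨C, hC⟩ := h1
  obtain ⟨C', hC'⟩ := h2
  refine ⟨C + C', fun i => ?_⟩
  rw [add_div, add_mul]
  linarith [hC i, hC' i]

theorem Leq.add {f g f' g' : 𝒲.ix → ℝ} (h1 : Leq 𝒲 f g) (h2 : Leq 𝒲 f' g') :
    Leq 𝒲 (fun i => f i + f' i) (fun i => g i + g' i) := by
  obtain ⟨C, hC⟩ := h1
  obtain ⟨C', hC'⟩ := h2
  refine ⟨C + C', fun i => ?_⟩
  rw [add_div, add_mul]
  linarith [hC i, hC' i]

theorem Leq.nat_mul {f g : 𝒲.ix → ℝ} (h : Leq 𝒲 f g) (n : ℕ) :
    Leq 𝒲 (fun i => n * f i) (fun i => n * g i) := by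
  obtain ⟨C, hC⟩ := h
  refine ⟨n * C, fun i => ?_⟩
  have h1 := mul_le_mul_of_nonneg_left (hC i) (Nat.cast_nonneg n : (0 : ℝ) ≤ n)
  refine h1.trans (le_of_eq ?_)
  ring

/-- Two natural numbers can be compared by the deep members. -/
theorem le_of_leq (hℓ : 1 < ℓ) (hdeep : ∀ s, ∃ i, s ≤ 𝒲.dep i ∧ 0 < Module.finrank Ω (𝒲.W i))
    {a b : ℕ} (h : Leq 𝒲 (fun i => a * Module.finrank Ω (𝒲.W i))
      (fun i => b * Module.finrank Ω (𝒲.W i))) : a ≤ b := by
  obtain ⟨c, hc⟩ := h
  by_contra hcon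
  have h1 : (1 : ℝ) ≤ (a : ℝ) - b := by
    have : (b : ℝ) + 1 ≤ a := by exact_mod_cast Nat.succ_le_of_lt (not_le.1 hcon)
    linarith
  have hℓ' : (1 : ℝ) < ℓ := by exact_mod_cast hℓ
  obtain ⟨s, hs⟩ := pow_unbounded_of_one_lt c hℓ'
  obtain ⟨i, hi, hpos⟩ := hdeep s
  have hpos' : (0 : ℝ) < Module.finrank Ω (𝒲.W i) := by exact_mod_cast hpos
  have h0 := hc i
  have h2 : (a : ℝ) - b ≤ c / (ℓ : ℝ) ^ 𝒲.dep i := by
    refine le_of_mul_le_mul_right ?_ hpos'
    linarith
  have h3 : (0 : ℝ) < (ℓ : ℝ) ^ 𝒲.dep i := by positivity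
  have h4 : c / (ℓ : ℝ) ^ 𝒲.dep i < 1 := by
    rw [div_lt_one h3]
    exact hs.trans_le (pow_le_pow_right₀ hℓ'.le hi)
  linarith

variable (𝒲)

/-- The lower bound for independent rows. -/
theorem leq_rows (hφ : Function.Injective φ)
    (hden : ∀ s : Finset D, ∃ a : Λ, a ≠ 0 ∧ ∀ y ∈ s, ∃ b : Λ, φ a * y = φ b) {R κ : Type}
    [Fintype R] [Fintype κ] (Z : Matrix κ R Λ) (hZ : LinearIndependent D (rowV φ Z)) :
    Leq 𝒲 (fun i => Fintype.card κ * Module.finrank Ω (𝒲.W i))
      (fun i => Module.finrank Ω (LinearMap.range (𝒲.mact i Z))) := by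
  obtain ⟨C, hC⟩ := rank_rows φ hφ hden 𝒲 Z hZ
  refine ⟨C, fun i => ?_⟩
  have h := hC i
  rw [sub_mul] at h
  linarith

/-- The lower bound for the rank. -/
theorem leq_rank (hφ : Function.Injective φ)
    (hden : ∀ s : Finset D, ∃ a : Λ, a ≠ 0 ∧ ∀ y ∈ s, ∃ b : Λ, φ a * y = φ b) {R κ : Type}
    [Fintype R] [Fintype κ] (X : Matrix κ R Λ) :
    Leq 𝒲 (fun i => Module.finrank D (LinearMap.range (rowM φ X)) * Module.finrank Ω (𝒲.W i))
      (fun i => Module.finrank Ω (LinearMap.range (𝒲.mact i X))) := by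
  classical
  obtain ⟨κ', a, ha, hsp, hli⟩ := exists_linearIndependent' D (rowV φ X)
  have hfin : Finite κ' := Finite.of_injective a ha
  let _ : Fintype κ' := Fintype.ofFinite κ'
  have h1 := finrank_span_eq_card hli
  rw [hsp, ← range_rowM] at h1
  let Z : Matrix κ' R Λ := fun p q => X (a p) q
  have hZ : LinearIndependent D (rowV φ Z) := hli
  have h2 := leq_rows 𝒲 hφ hden Z hZ
  rw [← h1] at h2
  refine h2.trans (Leq.of_le fun i => ?_)
  have h3 : LinearMap.range (𝒲.mact i Z) =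
      (LinearMap.range (𝒲.mact i X)).map (LinearMap.funLeft Ω (𝒲.W i) a) := by
    rw [← LinearMap.range_comp]
    rfl
  have h4 : Module.finrank Ω (LinearMap.range (𝒲.mact i Z)) ≤
      Module.finrank Ω (LinearMap.range (𝒲.mact i X)) := by
    rw [h3]
    exact Submodule.finrank_map_le _ _
  exact_mod_cast h4

theorem finrank_pi_W (i : 𝒲.ix) (R : Type) [Fintype R] :
    Module.finrank Ω (R → 𝒲.W i) = Fintype.card R * Module.finrank Ω (𝒲.W i) := by
  rw [Module.finrank_pi_fintype, Finset.sum_const, Finset.card_univ, smul_eq_mul]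

/-- The upper bound for the rank. -/
theorem rank_leq (hφ : Function.Injective φ)
    (hden : ∀ s : Finset D, ∃ a : Λ, a ≠ 0 ∧ ∀ y ∈ s, ∃ b : Λ, φ a * y = φ b) {R κ : Type}
    [Fintype R] [Fintype κ] (X : Matrix κ R Λ) :
    Leq 𝒲 (fun i => Module.finrank Ω (LinearMap.range (𝒲.mact i X)))
      (fun i => Module.finrank D (LinearMap.range (rowM φ X)) * Module.finrank Ω (𝒲.W i)) := by
  classical
  obtain ⟨Y, hY, hli⟩ := exists_rows_span φ hφ hden (LinearMap.ker (rowM φ X))
  obtain ⟨C, hC⟩ := leq_rows 𝒲 hφ hden Y hli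
  refine ⟨C, fun i => ?_⟩
  have h1 := hC i
  rw [Fintype.card_fin] at h1
  have h2 := LinearMap.finrank_range_add_finrank_ker (rowM φ X)
  rw [Module.finrank_fintype_fun_eq_card] at h2
  have hYX : Y * X = 0 := by
    ext p q
    have h3 := hY p
    rw [LinearMap.mem_ker, ← rowV_mul] at h3
    have h4 : φ ((Y * X) p q) = 0 := congrFun h3 q
    rw [Matrix.zero_apply]
    exact hφ (by rw [h4, map_zero])
  have h5 : LinearMap.range (𝒲.mact i X) ≤ LinearMap.ker (𝒲.mact i Y) := by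
    rintro _ ⟨w, rfl⟩
    rw [LinearMap.mem_ker, ← MFam.mact_mulM, hYX]
    funext p
    simp only [MFam.mact_apply, Matrix.zero_apply, map_zero, LinearMap.zero_apply,
      Finset.sum_const_zero, Pi.zero_apply]
  have h6 := Submodule.finrank_mono h5
  have h7 := LinearMap.finrank_range_add_finrank_ker (𝒲.mact i Y)
  rw [finrank_pi_W] at h7
  have h8 : (Module.finrank Ω (LinearMap.range (𝒲.mact i X)) : ℝ) ≤
      Module.finrank Ω (LinearMap.ker (𝒲.mact i Y)) := by exact_mod_cast h6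
  have h9 : (Module.finrank Ω (LinearMap.range (𝒲.mact i Y)) : ℝ) +
      Module.finrank Ω (LinearMap.ker (𝒲.mact i Y)) = Fintype.card κ * Module.finrank Ω (𝒲.W i) := by
    exact_mod_cast h7
  have h10 : (Module.finrank D (LinearMap.range (rowM φ X)) : ℝ) +
      Module.finrank D (LinearMap.ker (rowM φ X)) = Fintype.card κ := by exact_mod_cast h2
  rw [← h10, add_mul] at h9
  linarith

/-- The rank of the matrix `Y` on the kernel of `β`. -/
theorem map_ker_eq {κ C B : Type} [Fintype B] (Y : Matrix κ B Λ) (β : Matrix C B Λ)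
    [Fintype κ] [Fintype C] (i : 𝒲.ix) :
    Module.finrank Ω ((LinearMap.ker (𝒲.mact i β)).map (𝒲.mact i Y)) +
      Module.finrank Ω (LinearMap.range (𝒲.mact i β)) =
      Module.finrank Ω (LinearMap.range (𝒲.mact i (Matrix.fromRows Y β))) := by
  rw [finrank_map_ker]
  let e : (κ ⊕ C → 𝒲.W i) ≃ₗ[Ω] (κ → 𝒲.W i) × (C → 𝒲.W i) :=
    LinearEquiv.sumArrowLequivProdArrow κ C Ω (𝒲.W i)
  have h1 : (𝒲.mact i Y).prod (𝒲.mact i β) = e.toLinearMap ∘ₗ 𝒲.mact i (Matrix.fromRows Y β) := by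
    refine LinearMap.ext fun w => Prod.ext ?_ ?_
    · funext p
      rfl
    · funext p
      rfl
  rw [h1, LinearMap.range_comp]
  exact LinearEquiv.finrank_map_eq e _

end

end Pool.Agent.Lib.MP_666dc0_nt.CL
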