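import Pool.Agent.Lib.MP_666dc0_nt.FM.ODefs
import Pool.Agent.Lib.MP_666dc0_nt.FM.TDefs

/-!
# CL: three terms of a complex of free modules over a completed group ring, with operators that commute
up to homotopy (definitions)

`W^A → W^B → W^C` (matrices `α`, `β` acting on columns), `H = ker β / im α`; the chain endomorphisms
`(mA j, mx j, mC j)` act on `H`.
-/

namespace Pool.Agent.Lib.MP_666dc0_nt.CL

open FM

/-- Three terms of a complex of free modules over the inverse limit of the tower `𝒯`, with chain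
endomorphisms which commute up to homotopy. -/
structure Mats (𝒯 : RTow) (I : Type) where
  A : Type
  B : Type
  C : Type
  [finA : Fintype A]
  [finB : Fintype B]
  [finC : Fintype C]
  [decA : DecidableEq A]
  [decB : DecidableEq B]
  [decC : DecidableEq C]
  α : Matrix B A 𝒯.Lim
  β : Matrix C B 𝒯.Lim
  mx : I → Matrix B B 𝒯.Lim
  mA : I → Matrix A A 𝒯.Lim
  mC : I → Matrix C C 𝒯.Lim
  βα : β * α = 0
  comm_α : ∀ j, mx j * α = α * mA j
  comm_β : ∀ j, β * mx j = mC j * β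
  htpy : ∀ j k, ∃ (x : Matrix A B 𝒯.Lim) (y : Matrix B C 𝒯.Lim),
    mx j * mx k - mx k * mx j = α * x + y * β

attribute [instance] Mats.finA Mats.finB Mats.finC Mats.decA Mats.decB Mats.decC

variable {𝒯 : RTow} {Ω : Type} [NormedField Ω] {ℓ : ℕ} {I : Type}

/-- There are deep members of the family, and the inverse limit acts continuously. -/
structure FOk (fam : MFam 𝒯.Lim Ω ℓ) : Prop where
  one_lt : 1 < ℓ
  fin : ∀ s, Finite (𝒯.A s)
  deep : ∀ s, ∃ i, s ≤ fam.dep i ∧ 0 < Module.finrank Ω (fam.W i)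
  cont : ∀ i, ∃ (Y : Type) (f : Y → (fam.W i →ₗ[Ω] Ω)), (∀ w, (∀ y, f y w = 0) → w = 0) ∧
    ∀ w, ∀ ε : ℝ, 0 < ε → ∃ s, ∀ a : 𝒯.Lim, 𝒯.pi s a = 0 → ∀ y, ‖f y (fam.act i a w)‖ ≤ ε

variable (ℳ : Mats 𝒯 I) (fam : MFam 𝒯.Lim Ω ℓ)

/-- The kernel of `β` on `W^B`. -/
noncomputable def Mats.Z (i : fam.ix) : Submodule Ω (ℳ.B → fam.W i) :=
  LinearMap.ker (fam.mact i ℳ.β)

/-- The image of `α` in `W^B`. -/
noncomputable def Mats.Bd (i : fam.ix) : Submodule Ω (ℳ.B → fam.W i) :=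
  LinearMap.range (fam.mact i ℳ.α)

/-- The cohomology. -/
abbrev Mats.H (i : fam.ix) : Type := ℳ.Z fam i ⧸ (ℳ.Bd fam i).submoduleOf (ℳ.Z fam i)

/-- The chain endomorphisms. -/
structure Mats.Ch where
  a : Matrix ℳ.A ℳ.A 𝒯.Lim
  m : Matrix ℳ.B ℳ.B 𝒯.Lim
  c : Matrix ℳ.C ℳ.C 𝒯.Lim
  comm_α : m * ℳ.α = ℳ.α * a
  comm_β : ℳ.β * m = c * ℳ.β

/-- The endomorphism `(mA j, mx j, mC j)`. -/
def Mats.ch (j : I) : ℳ.Ch := ⟨ℳ.mA j, ℳ.mx j, ℳ.mC j, ℳ.comm_α j, ℳ.comm_β j⟩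

variable {ℳ}

theorem Mats.Ch.mem_Z (X : ℳ.Ch) {i : fam.ix} {w : ℳ.B → fam.W i} (hw : w ∈ ℳ.Z fam i) :
    fam.mact i X.m w ∈ ℳ.Z fam i := by
  have h0 : fam.mact i ℳ.β w = 0 := hw
  change fam.mact i ℳ.β (fam.mact i X.m w) = 0
  have h : ∀ {κ κ' κ'' : Type} [Fintype κ'] [Fintype κ''] (X : Matrix κ κ' 𝒯.Lim)
      (Y : Matrix κ' κ'' 𝒯.Lim) (w : κ'' → fam.W i),
      fam.mact i (X * Y) w = fam.mact i X (fam.mact i Y w) := by
    intro κ κ' κ'' _ _ X Y w
    funext p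
    simp only [MFam.mact_apply, Matrix.mul_apply, map_sum, map_mul, LinearMap.sum_apply,
      Module.End.mul_apply]
    exact Finset.sum_comm
  rw [← h, X.comm_β, h, h0, map_zero]

theorem Mats.Ch.mem_Bd (X : ℳ.Ch) {i : fam.ix} {w : ℳ.B → fam.W i} (hw : w ∈ ℳ.Bd fam i) :
    fam.mact i X.m w ∈ ℳ.Bd fam i := by
  obtain ⟨v, rfl⟩ := hw
  have h : ∀ {κ κ' κ'' : Type} [Fintype κ'] [Fintype κ''] (X : Matrix κ κ' 𝒯.Lim)
      (Y : Matrix κ' κ'' 𝒯.Lim) (w : κ'' → fam.W i),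
      fam.mact i (X * Y) w = fam.mact i X (fam.mact i Y w) := by
    intro κ κ' κ'' _ _ X Y w
    funext p
    simp only [MFam.mact_apply, Matrix.mul_apply, map_sum, map_mul, LinearMap.sum_apply,
      Module.End.mul_apply]
    exact Finset.sum_comm
  exact ⟨fam.mact i X.a v, by rw [← h, ← h, X.comm_α]⟩

/-- The endomorphism of the cohomology given by a chain endomorphism. -/
noncomputable def Mats.Ch.op (X : ℳ.Ch) (i : fam.ix) : Module.End Ω (ℳ.H fam i) :=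
  Submodule.mapQ _ _ ((fam.mact i X.m).restrict fun _ hw => X.mem_Z fam hw)
    fun _ hw => X.mem_Bd fam hw

theorem Mats.Ch.op_mk (X : ℳ.Ch) (i : fam.ix) (w : ℳ.Z fam i) :
    X.op fam i (Submodule.Quotient.mk w) =
      Submodule.Quotient.mk ⟨fam.mact i X.m w, X.mem_Z fam w.2⟩ := rfl

/-- The common eigenspace of the operators `op j`. -/
def jointE {I H : Type} [AddCommGroup H] [Module Ω H] (op : I → Module.End Ω H) (y : I → Ω) :
    Submodule Ω H := ⨅ j, Module.End.eigenspace (op j) (y j)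

/-- The common generalised eigenspace of the operators `op j`. -/
noncomputable def jointG {I H : Type} [AddCommGroup H] [Module Ω H] (op : I → Module.End Ω H)
    (y : I → Ω) : Submodule Ω H := ⨅ j, Module.End.maxGenEigenspace (op j) (y j)

/-- The vectors of order at most `N` in the common generalised eigenspace: they are killed by all
products of `N` operators `op j - y j`. -/
def jointO {I H : Type} [AddCommGroup H] [Module Ω H] (op : I → Module.End Ω H) (y : I → Ω) :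
    ℕ → Submodule Ω H
  | 0 => ⊥
  | N + 1 => ⨅ j, (jointO op y N).comap (op j - y j • (1 : Module.End Ω H))

/-- The value of a polynomial. -/
noncomputable def evP {I : Type} (y : I → Ω) : MvPolynomial I ℤ →+* Ω :=
  MvPolynomial.eval₂Hom (Int.castRingHom Ω) y

/-- The system `y` is controlled by the systems in `Fam`. -/
def Ctl {I : Type} (Fam : Set (I → Ω)) (y : I → Ω) : Prop :=
  ∀ ε : ℝ, 0 < ε → ∃ J : Set (I → Ω), J.Finite ∧ J ⊆ Fam ∧ ∃ δ : ℝ, 0 < δ ∧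
    ∀ P : MvPolynomial I ℤ, (∀ e ∈ J, ‖evP e P‖ ≤ δ) → ‖evP y P‖ ≤ ε

/-- The systems which occur in the spaces `M i`. -/
def Occ {I ix : Type} (M : ix → Type) [∀ i, AddCommGroup (M i)] [∀ i, Module Ω (M i)]
    (op : ∀ i, I → Module.End Ω (M i)) : Set (I → Ω) := {y | ∃ i, jointE (op i) y ≠ ⊥}

/-- The set `p` is closed: every system which occurs and is controlled by the systems in `p` which occur is
in `p`. -/
def IsCl {I ix : Type} (M : ix → Type) [∀ i, AddCommGroup (M i)] [∀ i, Module Ω (M i)]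
    (op : ∀ i, I → Module.End Ω (M i)) (p : Set (I → Ω)) : Prop :=
  ∀ y ∈ Occ M op, Ctl (p ∩ Occ M op) y → y ∈ p

open scoped Classical in
/-- The conclusion: the dimensions of the spaces `M i` with the operators `op i j`, compared with the
numbers `w i`, up to errors `C / ℓ ^ dep i * w i`. -/
structure Law {I ix : Type} (M : ix → Type) [∀ i, AddCommGroup (M i)] [∀ i, Module Ω (M i)]
    (op : ∀ i, I → Module.End Ω (M i)) (ℓ : ℕ) (dep w : ix → ℕ) (r : ℕ) : Prop where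
  dim : ∃ C : ℝ, ∀ i, |(Module.finrank Ω (M i) : ℝ) - r * w i| ≤ C / (ℓ : ℝ) ^ dep i * w i
  closed : ∃ (k : ℕ) (Z : Fin k → Set (I → Ω)) (b : Fin k → ℕ), (∀ j, 0 < b j) ∧ ∑ j, b j = r ∧
    (∀ j, Z j ⊆ Occ M op) ∧ (∀ j, IsCl M op (Z j)) ∧ ∀ p : Set (I → Ω), IsCl M op p →
      ∃ C : ℝ, ∀ i,
        (∀ N : ℕ, (Module.finrank Ω (⨆ y ∈ p, jointO (op i) y N : Submodule Ω (M i)) : ℝ) ≤
          ((∑ j with Z j ⊆ p, b j : ℕ) + N * C / (ℓ : ℝ) ^ dep i) * w i) ∧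
        (Module.finrank Ω (⨆ y ∈ pᶜ, jointG (op i) y : Submodule Ω (M i)) : ℝ) ≤
          ((∑ j with ¬ Z j ⊆ p, b j : ℕ) + C / (ℓ : ℝ) ^ dep i) * w i
  compact : ∀ y ∈ Occ M op, ∃ C : Set Ω, IsCompact C ∧ ∀ P : MvPolynomial I ℤ, evP y P ∈ C

end Pool.Agent.Lib.MP_666dc0_nt.CL
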