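import Pool.Agent.Lib.MP_666dc0_nt.CL.A1
import Pool.Agent.Lib.MP_666dc0_nt.CL.Defs

/-!
# CL, A2: the cohomology over the division ring of fractions, and the law for the rank of a chain map
-/

namespace Pool.Agent.Lib.MP_666dc0_nt.CL

open FM

theorem li_smul {D V κ : Type*} [DivisionRing D] [AddCommGroup V] [Module D V] [Fintype κ] {a : D}
    (ha : a ≠ 0) {b : κ → V} (hb : LinearIndependent D b) : LinearIndependent D fun p => a • b p := by
  rw [Fintype.linearIndependent_iff] at hb ⊢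
  intro g hg p
  have h4 : ∑ i, (g i * a) • b i = 0 := by
    rw [← hg]
    exact Finset.sum_congr rfl fun i _ => mul_smul _ _ _
  exact (mul_eq_zero.1 (hb (fun i => g i * a) h4 p)).resolve_right ha

/-- A basis of the image of an endomorphism. -/
theorem exists_li_range {D V : Type*} [DivisionRing D] [AddCommGroup V] [Module D V]
    [FiniteDimensional D V] (f : V →ₗ[D] V) {e : ℕ} (he : e = Module.finrank D (LinearMap.range f)) :
    ∃ b : Fin e → V, LinearIndependent D b ∧ ∀ p, b p ∈ LinearMap.range f := by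
  let b := Module.finBasis D (LinearMap.range f)
  subst he
  exact ⟨fun p => (b p : V), b.linearIndependent.map' (LinearMap.range f).subtype
    (Submodule.ker_subtype _), fun p => (b p).2⟩

theorem finrank_map_mkQ {D V : Type*} [DivisionRing D] [AddCommGroup V] [Module D V]
    [FiniteDimensional D V] {U₀ V₀ : Submodule D V} (h : U₀ ≤ V₀) :
    Module.finrank D (V₀.map U₀.mkQ) + Module.finrank D U₀ = Module.finrank D V₀ := by
  have h1 := LinearMap.finrank_range_add_finrank_ker (U₀.mkQ.domRestrict V₀)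
  have h2 : Module.finrank D (LinearMap.ker (U₀.mkQ.domRestrict V₀)) = Module.finrank D U₀ := by
    rw [LinearMap.ker_domRestrict, Submodule.ker_mkQ]
    exact (Submodule.submoduleOfEquivOfLe h).finrank_eq
  rw [LinearMap.range_domRestrict, h2] at h1
  exact h1

section D

variable {𝒯 : RTow} {I : Type} (ℳ : Mats 𝒯 I) {D : Type} [DivisionRing D] (φ : 𝒯.Lim →+* D)

/-- The kernel of `α` on row vectors. -/
noncomputable def VD : Submodule D (ℳ.B → D) := LinearMap.ker (rowM φ ℳ.α)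

/-- The image of `β` on row vectors. -/
noncomputable def UD : Submodule D (ℳ.B → D) := LinearMap.range (rowM φ ℳ.β)

theorem UD_le : UD ℳ φ ≤ VD ℳ φ := by
  rintro _ ⟨v, rfl⟩
  change rowM φ ℳ.α (rowM φ ℳ.β v) = 0
  rw [← rowM_mul, ℳ.βα, rowM_zero, LinearMap.zero_apply]

variable {ℳ}

theorem mem_VD (X : ℳ.Ch) {y : ℳ.B → D} (hy : y ∈ VD ℳ φ) : rowM φ X.m y ∈ VD ℳ φ := by
  have hy' : rowM φ ℳ.α y = 0 := hy
  change rowM φ ℳ.α (rowM φ X.m y) = 0
  rw [← rowM_mul, X.comm_α, rowM_mul, hy', map_zero]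

theorem mem_UD (X : ℳ.Ch) {y : ℳ.B → D} (hy : y ∈ UD ℳ φ) : rowM φ X.m y ∈ UD ℳ φ := by
  obtain ⟨v, rfl⟩ := hy
  exact ⟨rowM φ X.c v, by rw [← rowM_mul, ← rowM_mul, X.comm_β]⟩

variable (ℳ)

/-- The cohomology over the division ring. -/
noncomputable def HD : Submodule D ((ℳ.B → D) ⧸ UD ℳ φ) := (VD ℳ φ).map (UD ℳ φ).mkQ

variable {ℳ}

/-- The endomorphism of the row vectors modulo the image of `β`. -/
noncomputable def opQ (X : ℳ.Ch) : Module.End D ((ℳ.B → D) ⧸ UD ℳ φ) :=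
  Submodule.mapQ _ _ (rowM φ X.m) fun _ hy => mem_UD φ X hy

theorem opQ_mk (X : ℳ.Ch) (y : ℳ.B → D) :
    opQ φ X (Submodule.Quotient.mk y) = Submodule.Quotient.mk (rowM φ X.m y) := rfl

theorem opQ_mem (X : ℳ.Ch) : ∀ x ∈ HD ℳ φ, opQ φ X x ∈ HD ℳ φ := by
  rintro _ ⟨y, hy, rfl⟩
  exact ⟨rowM φ X.m y, mem_VD φ X hy, rfl⟩

/-- The endomorphism of the cohomology. -/
noncomputable def opD (X : ℳ.Ch) : Module.End D (HD ℳ φ) := (opQ φ X).restrict (opQ_mem φ X)

theorem opD_coe (X : ℳ.Ch) (x : HD ℳ φ) : (opD φ X x : (ℳ.B → D) ⧸ UD ℳ φ) = opQ φ X x := rfl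

variable (ℳ)

/-- The dimension of the cohomology. -/
noncomputable def hh : ℕ := Module.finrank D (HD ℳ φ)

theorem hh_add : hh ℳ φ + Module.finrank D (LinearMap.range (rowM φ ℳ.β)) +
    Module.finrank D (LinearMap.range (rowM φ ℳ.α)) = Fintype.card ℳ.B := by
  have h1 := finrank_map_mkQ (UD_le ℳ φ)
  have h2 := LinearMap.finrank_range_add_finrank_ker (rowM φ ℳ.α)
  rw [Module.finrank_fintype_fun_eq_card] at h2
  have h3 : Module.finrank D (LinearMap.ker (rowM φ ℳ.α)) = Module.finrank D (VD ℳ φ) := rfl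
  have h4 : Module.finrank D (LinearMap.range (rowM φ ℳ.β)) = Module.finrank D (UD ℳ φ) := rfl
  have h5 : hh ℳ φ = Module.finrank D ((VD ℳ φ).map (UD ℳ φ).mkQ) := rfl
  omega

end D

section law

variable {𝒯 : RTow} {I : Type} (ℳ : Mats 𝒯 I) {D : Type} [DivisionRing D] (φ : 𝒯.Lim →+* D)
  {Ω : Type} [NormedField Ω] {ℓ : ℕ} (fam : MFam 𝒯.Lim Ω ℓ)

theorem mact_zeroM {κ κ' : Type} [Fintype κ'] (i : fam.ix) :
    fam.mact i (0 : Matrix κ κ' 𝒯.Lim) = 0 := by
  refine LinearMap.ext fun w => funext fun p => ?_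
  simp only [MFam.mact_apply, Matrix.zero_apply, map_zero, LinearMap.zero_apply,
    Finset.sum_const_zero, Pi.zero_apply]

theorem Bd_le_Z (i : fam.ix) : ℳ.Bd fam i ≤ ℳ.Z fam i := by
  rintro _ ⟨v, rfl⟩
  change fam.mact i ℳ.β (fam.mact i ℳ.α v) = 0
  rw [← MFam.mact_mulM, ℳ.βα, mact_zeroM, LinearMap.zero_apply]

theorem finrank_H (i : fam.ix) : Module.finrank Ω (ℳ.H fam i) +
    Module.finrank Ω (LinearMap.range (fam.mact i ℳ.α)) +
    Module.finrank Ω (LinearMap.range (fam.mact i ℳ.β)) =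
      Fintype.card ℳ.B * Module.finrank Ω (fam.W i) := by
  have h1 : Module.finrank Ω (ℳ.H fam i) +
      Module.finrank Ω ((ℳ.Bd fam i).submoduleOf (ℳ.Z fam i)) = Module.finrank Ω (ℳ.Z fam i) :=
    Submodule.finrank_quotient_add_finrank _
  have h2 := LinearMap.finrank_range_add_finrank_ker (fam.mact i ℳ.β)
  rw [finrank_pi_W] at h2
  have h3 : Module.finrank Ω ((ℳ.Bd fam i).submoduleOf (ℳ.Z fam i)) =
      Module.finrank Ω (LinearMap.range (fam.mact i ℳ.α)) :=
    (Submodule.submoduleOfEquivOfLe (Bd_le_Z ℳ fam i)).finrank_eq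
  have h4 : Module.finrank Ω (LinearMap.ker (fam.mact i ℳ.β)) = Module.finrank Ω (ℳ.Z fam i) := rfl
  omega

variable (hφ : Function.Injective φ)
  (hden : ∀ s : Finset D, ∃ a : 𝒯.Lim, a ≠ 0 ∧ ∀ y ∈ s, ∃ b : 𝒯.Lim, φ a * y = φ b)
include hφ hden

/-- The dimension of the cohomology. -/
theorem dimH_leq : Leq fam (fun i => Module.finrank Ω (ℳ.H fam i))
    (fun i => hh ℳ φ * Module.finrank Ω (fam.W i)) := by
  obtain ⟨C, hC⟩ := (leq_rank fam hφ hden ℳ.α).add (leq_rank fam hφ hden ℳ.β)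
  refine ⟨C, fun i => ?_⟩
  have h1 := hC i
  have h2 : (Module.finrank Ω (ℳ.H fam i) : ℝ) +
      Module.finrank Ω (LinearMap.range (fam.mact i ℳ.α)) +
      Module.finrank Ω (LinearMap.range (fam.mact i ℳ.β)) =
      Fintype.card ℳ.B * Module.finrank Ω (fam.W i) := by exact_mod_cast finrank_H ℳ fam i
  have h3 : (hh ℳ φ : ℝ) + Module.finrank D (LinearMap.range (rowM φ ℳ.β)) +
      Module.finrank D (LinearMap.range (rowM φ ℳ.α)) = Fintype.card ℳ.B := by
    exact_mod_cast hh_add ℳ φ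
  rw [← h3, add_mul, add_mul] at h2
  linarith

theorem leq_dimH : Leq fam (fun i => hh ℳ φ * Module.finrank Ω (fam.W i))
    (fun i => Module.finrank Ω (ℳ.H fam i)) := by
  obtain ⟨C, hC⟩ := (rank_leq fam hφ hden ℳ.α).add (rank_leq fam hφ hden ℳ.β)
  refine ⟨C, fun i => ?_⟩
  have h1 := hC i
  have h2 : (Module.finrank Ω (ℳ.H fam i) : ℝ) +
      Module.finrank Ω (LinearMap.range (fam.mact i ℳ.α)) +
      Module.finrank Ω (LinearMap.range (fam.mact i ℳ.β)) =
      Fintype.card ℳ.B * Module.finrank Ω (fam.W i) := by exact_mod_cast finrank_H ℳ fam i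
  have h3 : (hh ℳ φ : ℝ) + Module.finrank D (LinearMap.range (rowM φ ℳ.β)) +
      Module.finrank D (LinearMap.range (rowM φ ℳ.α)) = Fintype.card ℳ.B := by
    exact_mod_cast hh_add ℳ φ
  rw [← h3, add_mul, add_mul] at h2
  linarith

omit hφ hden in
/-- The map given by a matrix which kills the boundaries. -/
noncomputable def barY {κ : Type} (Y : Matrix κ ℳ.B 𝒯.Lim) (hY : Y * ℳ.α = 0) (i : fam.ix) :
    ℳ.H fam i →ₗ[Ω] (κ → fam.W i) :=
  Submodule.liftQ _ ((fam.mact i Y) ∘ₗ (ℳ.Z fam i).subtype) (by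
    rintro ⟨_, hz⟩ ⟨v, rfl⟩
    change fam.mact i Y (fam.mact i ℳ.α v) = 0
    rw [← MFam.mact_mulM, hY, mact_zeroM, LinearMap.zero_apply])

omit hφ hden in
theorem barY_mk {κ : Type} (Y : Matrix κ ℳ.B 𝒯.Lim) (hY : Y * ℳ.α = 0) (i : fam.ix)
    (z : ℳ.Z fam i) : barY ℳ fam Y hY i (Submodule.Quotient.mk z) = fam.mact i Y z := rfl

variable {ℳ}

/-- The rank of a chain map on the cohomology. -/
theorem leq_op (X : ℳ.Ch) :
    Leq fam (fun i => Module.finrank D (LinearMap.range (opD φ X)) * Module.finrank Ω (fam.W i))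
      (fun i => Module.finrank Ω (LinearMap.range (X.op fam i))) := by
  classical
  obtain ⟨e, he⟩ : ∃ e, e = Module.finrank D (LinearMap.range (opD φ X)) := ⟨_, rfl⟩
  obtain ⟨b, hb, hbm⟩ := exists_li_range (opD φ X) he
  have hb' : LinearIndependent D fun p => (b p : (ℳ.B → D) ⧸ UD ℳ φ) :=
    hb.map' (HD ℳ φ).subtype (Submodule.ker_subtype (HD ℳ φ))
  have hex : ∀ p, ∃ y ∈ VD ℳ φ, (Submodule.Quotient.mk (rowM φ X.m y) : (ℳ.B → D) ⧸ UD ℳ φ) =
      (b p : (ℳ.B → D) ⧸ UD ℳ φ) := by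
    intro p
    obtain ⟨⟨_, y, hy, rfl⟩, hx⟩ := hbm p
    exact ⟨y, hy, congrArg Subtype.val hx⟩
  choose y hyV hy using hex
  have hg : LinearIndependent D fun p =>
      (Submodule.Quotient.mk (rowM φ X.m (y p)) : (ℳ.B → D) ⧸ UD ℳ φ) := by
    rw [funext hy]
    exact hb'
  have hyli : LinearIndependent D y :=
    LinearIndependent.of_comp ((UD ℳ φ).mkQ ∘ₗ rowM φ X.m) hg
  obtain ⟨Y, a, ha, hY, -⟩ := exists_basis_rows φ hφ hden y hyli
  have hYα : Y * ℳ.α = 0 := by
    refine Matrix.ext fun p q => ?_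
    have h1 : rowV φ (Y * ℳ.α) p = 0 := by
      rw [rowV_mul, hY, map_smul]
      have h2 : rowM φ ℳ.α (y p) = 0 := hyV p
      rw [h2, smul_zero]
    have h2 : φ ((Y * ℳ.α) p q) = 0 := congrFun h1 q
    rw [Matrix.zero_apply]
    exact hφ (h2.trans (map_zero φ).symm)
  obtain ⟨M, hM⟩ : ∃ M, M = Y * X.m := ⟨_, rfl⟩
  have hMrow : ∀ p, rowV φ M p = a • rowM φ X.m (y p) := by
    intro p
    rw [hM, rowV_mul, hY, map_smul]
  -- independent rows of `β`
  obtain ⟨κ', c, hc, hsp, hli⟩ := exists_linearIndependent' D (rowV φ ℳ.β)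
  have hfin : Finite κ' := Finite.of_injective c hc
  let _ : Fintype κ' := Fintype.ofFinite κ'
  have hcard := finrank_span_eq_card hli
  rw [hsp, ← range_rowM] at hcard
  let Zβ : Matrix κ' ℳ.B 𝒯.Lim := fun p q => ℳ.β (c p) q
  have hmemU : ∀ p, rowV φ Zβ p ∈ UD ℳ φ := by
    intro p
    change rowV φ ℳ.β (c p) ∈ LinearMap.range (rowM φ ℳ.β)
    rw [range_rowM]
    exact Submodule.subset_span ⟨c p, rfl⟩
  let fβ : κ' → UD ℳ φ := fun p => ⟨rowV φ Zβ p, hmemU p⟩
  have hfβ : LinearIndependent D fβ := by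
    refine LinearIndependent.of_comp (UD ℳ φ).subtype ?_
    exact hli
  have hsum : LinearIndependent D (rowV φ (Matrix.fromRows Zβ M)) := by
    have h1 : LinearIndependent D ((Submodule.Quotient.mk (p := UD ℳ φ)) ∘ rowV φ M) := by
      have h2 : (Submodule.Quotient.mk (p := UD ℳ φ)) ∘ rowV φ M = fun p => a •
          (Submodule.Quotient.mk (rowM φ X.m (y p)) : (ℳ.B → D) ⧸ UD ℳ φ) := by
        funext p
        rw [Function.comp_apply, hMrow]
        rfl
      rw [h2]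
      exact li_smul ha hg
    have h3 := LinearIndependent.sumElim_of_quotient hfβ (rowV φ M) h1
    have h4 : rowV φ (Matrix.fromRows Zβ M) = Sum.elim (fun p => (fβ p : ℳ.B → D)) (rowV φ M) := by
      funext p
      cases p <;> rfl
    rw [h4]
    exact h3
  obtain ⟨C, hC⟩ := (leq_rows fam hφ hden _ hsum).add (rank_leq fam hφ hden ℳ.β)
  refine ⟨C, fun i => ?_⟩
  have h0 := hC i
  rw [Fintype.card_sum, Fintype.card_fin] at h0
  have h1 : LinearMap.range (fam.mact i (Matrix.fromRows Zβ M)) =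
      (LinearMap.range (fam.mact i (Matrix.fromRows M ℳ.β))).map
        (LinearMap.funLeft Ω (fam.W i) (Sum.elim (fun p => Sum.inr (c p)) Sum.inl)) := by
    rw [← LinearMap.range_comp]
    congr 1
    refine LinearMap.ext fun w => funext fun p => ?_
    cases p <;> rfl
  have h2 : Module.finrank Ω (LinearMap.range (fam.mact i (Matrix.fromRows Zβ M))) ≤
      Module.finrank Ω (LinearMap.range (fam.mact i (Matrix.fromRows M ℳ.β))) := by
    rw [h1]
    exact Submodule.finrank_map_le _ _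
  have h3 := map_ker_eq fam M ℳ.β i
  have h4 : (LinearMap.ker (fam.mact i ℳ.β)).map (fam.mact i M) ≤
      (LinearMap.range (X.op fam i)).map (barY ℳ fam Y hYα i) := by
    rintro _ ⟨z, hz, rfl⟩
    refine ⟨X.op fam i (Submodule.Quotient.mk ⟨z, hz⟩), ⟨_, rfl⟩, ?_⟩
    rw [Mats.Ch.op_mk, barY_mk, hM, MFam.mact_mulM]
  have h5 := (Submodule.finrank_mono h4).trans (Submodule.finrank_map_le _ _)
  have h6 : Module.finrank Ω (LinearMap.range (fam.mact i (Matrix.fromRows Zβ M))) ≤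
      Module.finrank Ω (LinearMap.range (X.op fam i)) +
        Module.finrank Ω (LinearMap.range (fam.mact i ℳ.β)) := by
    refine h2.trans ?_
    rw [← h3]
    exact Nat.add_le_add_right h5 _
  have h7 : (Module.finrank Ω (LinearMap.range (fam.mact i (Matrix.fromRows Zβ M))) : ℝ) ≤
      Module.finrank Ω (LinearMap.range (X.op fam i)) +
        Module.finrank Ω (LinearMap.range (fam.mact i ℳ.β)) := by exact_mod_cast h6
  rw [← he]
  have h8 : ((Fintype.card κ' : ℝ)) = Module.finrank D (LinearMap.range (rowM φ ℳ.β)) := by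
    exact_mod_cast hcard.symm
  push_cast at h0
  rw [h8] at h0
  beta_reduce at h0 ⊢
  rw [add_mul] at h0
  linarith

end law

end Pool.Agent.Lib.MP_666dc0_nt.CL
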