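import Pool.Agent.Lib.MP_666dc0_nt.CL.A2

/-!
# CL, A2b: the upper bound for the rank of a chain map, and powers
-/

namespace Pool.Agent.Lib.MP_666dc0_nt.CL

open FM

section D

variable {𝒯 : RTow} {I : Type} {ℳ : Mats 𝒯 I} {D : Type} [DivisionRing D] (φ : 𝒯.Lim →+* D)

/-- The matrix of the mapping cone. -/
def cone (X : ℳ.Ch) : Matrix (ℳ.B ⊕ ℳ.C) (ℳ.B ⊕ ℳ.A) 𝒯.Lim :=
  Matrix.fromRows (Matrix.fromCols X.m ℳ.α) (Matrix.fromCols ℳ.β 0)

theorem rowM_cone_inl (X : ℳ.Ch) (y : ℳ.B ⊕ ℳ.C → D) (q : ℳ.B) :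
    rowM φ (cone X) y (Sum.inl q) =
      rowM φ X.m (fun p => y (Sum.inl p)) q + rowM φ ℳ.β (fun p => y (Sum.inr p)) q := by
  change ∑ p, y p * φ (cone X p (Sum.inl q)) = _
  rw [Fintype.sum_sum_type]
  rfl

theorem rowM_cone_inr (X : ℳ.Ch) (y : ℳ.B ⊕ ℳ.C → D) (q : ℳ.A) :
    rowM φ (cone X) y (Sum.inr q) = rowM φ ℳ.α (fun p => y (Sum.inl p)) q := by
  change ∑ p, y p * φ (cone X p (Sum.inr q)) = _
  rw [Fintype.sum_sum_type]
  have h1 : ∑ p : ℳ.C, y (Sum.inr p) * φ (cone X (Sum.inr p) (Sum.inr q)) = 0 := by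
    refine Finset.sum_eq_zero fun p _ => ?_
    have h2 : cone X (Sum.inr p) (Sum.inr q) = 0 := rfl
    rw [h2, map_zero, mul_zero]
  rw [h1, add_zero]
  rfl

theorem rank_cone_le (X : ℳ.Ch) : Module.finrank D (LinearMap.range (rowM φ (cone X))) ≤
    Module.finrank D (LinearMap.range (opD φ X)) +
      Module.finrank D (LinearMap.range (rowM φ ℳ.β)) +
        Module.finrank D (LinearMap.range (rowM φ ℳ.α)) := by
  let R : Submodule D (ℳ.B ⊕ ℳ.A → D) := LinearMap.range (rowM φ (cone X))
  let π : (ℳ.B ⊕ ℳ.A → D) →ₗ[D] (ℳ.A → D) := LinearMap.funLeft D D Sum.inr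
  let π' : (ℳ.B ⊕ ℳ.A → D) →ₗ[D] (ℳ.B → D) := LinearMap.funLeft D D Sum.inl
  let T : Submodule D (ℳ.B → D) := (VD ℳ φ).map (rowM φ X.m) ⊔ UD ℳ φ
  have h1 := LinearMap.finrank_range_add_finrank_ker (π.domRestrict R)
  have h2 : Module.finrank D (LinearMap.range (π.domRestrict R)) ≤
      Module.finrank D (LinearMap.range (rowM φ ℳ.α)) := by
    refine Submodule.finrank_mono ?_
    rintro _ ⟨⟨_, y, rfl⟩, rfl⟩
    refine ⟨fun p => y (Sum.inl p), funext fun q => ?_⟩
    exact (rowM_cone_inr φ X y q).symm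
  have h3 : Module.finrank D (LinearMap.ker (π.domRestrict R)) ≤ Module.finrank D T := by
    have hmem : ∀ x : LinearMap.ker (π.domRestrict R), π' x.1.1 ∈ T := by
      rintro ⟨⟨_, y, rfl⟩, hy⟩
      have h4 : rowM φ ℳ.α (fun p => y (Sum.inl p)) = 0 := by
        funext q
        rw [← rowM_cone_inr φ X y q]
        exact congrFun hy q
      have h5 : π' (rowM φ (cone X) y) = rowM φ X.m (fun p => y (Sum.inl p)) +
          rowM φ ℳ.β (fun p => y (Sum.inr p)) := funext fun q => rowM_cone_inl φ X y q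
      change π' (rowM φ (cone X) y) ∈ T
      rw [h5]
      exact Submodule.add_mem_sup ⟨_, h4, rfl⟩ ⟨_, rfl⟩
    let g : LinearMap.ker (π.domRestrict R) →ₗ[D] T :=
      ((π'.comp R.subtype).comp (LinearMap.ker (π.domRestrict R)).subtype).codRestrict T hmem
    refine LinearMap.finrank_le_finrank_of_injective (f := g) ?_
    rw [injective_iff_map_eq_zero]
    intro x hx
    refine Subtype.ext (Subtype.ext (funext fun q => ?_))
    have h6 : π' x.1.1 = 0 := congrArg Subtype.val hx
    have h7 : π x.1.1 = 0 := x.2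
    cases q with
    | inl q => exact congrFun h6 q
    | inr q => exact congrFun h7 q
  have h4 := finrank_map_mkQ (show UD ℳ φ ≤ T from le_sup_right)
  have h5 : Module.finrank D (T.map (UD ℳ φ).mkQ) ≤
      Module.finrank D (LinearMap.range (opD φ X)) := by
    have h6 : T.map (UD ℳ φ).mkQ ≤ (LinearMap.range (opD φ X)).map (HD ℳ φ).subtype := by
      rw [Submodule.map_sup, sup_le_iff]
      constructor
      · rintro _ ⟨_, ⟨y, hy, rfl⟩, rfl⟩
        exact ⟨opD φ X ⟨Submodule.Quotient.mk y, ⟨y, hy, rfl⟩⟩, ⟨_, rfl⟩, rfl⟩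
      · rintro _ ⟨y, hy, rfl⟩
        have h7 : (UD ℳ φ).mkQ y = 0 := by
          rw [Submodule.mkQ_apply, Submodule.Quotient.mk_eq_zero]
          exact hy
        rw [h7]
        exact Submodule.zero_mem _
    refine (Submodule.finrank_mono h6).trans ?_
    exact Submodule.finrank_map_le _ _
  have h8 : Module.finrank D (UD ℳ φ) = Module.finrank D (LinearMap.range (rowM φ ℳ.β)) := rfl
  have h9 : Module.finrank D R = Module.finrank D (LinearMap.range (rowM φ (cone X))) := rfl
  omega

end D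

section law

variable {𝒯 : RTow} {I : Type} {ℳ : Mats 𝒯 I} {D : Type} [DivisionRing D] (φ : 𝒯.Lim →+* D)
  {Ω : Type} [NormedField Ω] {ℓ : ℕ} (fam : MFam 𝒯.Lim Ω ℓ)

theorem le_rank_cone (X : ℳ.Ch) (i : fam.ix) : Module.finrank Ω (LinearMap.range (X.op fam i)) +
    Module.finrank Ω (LinearMap.range (fam.mact i ℳ.β)) +
      Module.finrank Ω (LinearMap.range (fam.mact i ℳ.α)) ≤
        Module.finrank Ω (LinearMap.range (fam.mact i (cone X))) := by
  let Y : Matrix ℳ.B (ℳ.B ⊕ ℳ.A) 𝒯.Lim := Matrix.fromCols X.m ℳ.α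
  let Q : Matrix ℳ.C (ℳ.B ⊕ ℳ.A) 𝒯.Lim := Matrix.fromCols ℳ.β 0
  have hY : ∀ w, fam.mact i Y w = fam.mact i X.m (fun q => w (Sum.inl q)) +
      fam.mact i ℳ.α (fun q => w (Sum.inr q)) := by
    intro w
    funext p
    rw [Pi.add_apply, MFam.mact_apply, Fintype.sum_sum_type]
    rfl
  have hQ : ∀ w, fam.mact i Q w = fam.mact i ℳ.β (fun q => w (Sum.inl q)) := by
    intro w
    funext p
    rw [MFam.mact_apply, Fintype.sum_sum_type]
    have h1 : ∑ q : ℳ.A, fam.act i (Q p (Sum.inr q)) (w (Sum.inr q)) = 0 := by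
      refine Finset.sum_eq_zero fun q _ => ?_
      have h2 : Q p (Sum.inr q) = 0 := rfl
      rw [h2, map_zero, LinearMap.zero_apply]
    rw [h1, add_zero]
    rfl
  have h1 := map_ker_eq fam Y Q i
  have h2 : Module.finrank Ω (LinearMap.range (fam.mact i ℳ.β)) ≤
      Module.finrank Ω (LinearMap.range (fam.mact i Q)) := by
    refine Submodule.finrank_mono ?_
    rintro _ ⟨w, rfl⟩
    exact ⟨Sum.elim w 0, hQ _⟩
  let N : Submodule Ω (ℳ.B → fam.W i) := (LinearMap.ker (fam.mact i Q)).map (fam.mact i Y)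
  have hNZ : N ≤ ℳ.Z fam i := by
    rintro _ ⟨w, hw, rfl⟩
    have hw' : fam.mact i ℳ.β (fun q => w (Sum.inl q)) = 0 := by
      rw [← hQ]
      exact hw
    rw [hY]
    exact Submodule.add_mem _ (X.mem_Z fam hw') (Bd_le_Z ℳ fam i ⟨_, rfl⟩)
  have hBN : ℳ.Bd fam i ≤ N := by
    rintro _ ⟨v, rfl⟩
    refine ⟨Sum.elim 0 v, ?_, ?_⟩
    · change fam.mact i Q _ = 0
      rw [hQ]
      exact map_zero _
    · rw [hY]
      have h3 : fam.mact i X.m (fun q => (Sum.elim (0 : ℳ.B → fam.W i) v) (Sum.inl q)) = 0 :=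
        map_zero _
      rw [h3, zero_add]
      rfl
  have h3 : (ℳ.Bd fam i).submoduleOf (ℳ.Z fam i) ≤ N.submoduleOf (ℳ.Z fam i) := fun x hx => hBN hx
  have h4 : Module.finrank Ω ((N.submoduleOf (ℳ.Z fam i)).map
      ((ℳ.Bd fam i).submoduleOf (ℳ.Z fam i)).mkQ) + Module.finrank Ω (ℳ.Bd fam i) =
        Module.finrank Ω N := by
    have h4 := finrank_map_mkQ h3
    have h5 := (Submodule.submoduleOfEquivOfLe (Bd_le_Z ℳ fam i)).finrank_eq
    have h6 := (Submodule.submoduleOfEquivOfLe hNZ).finrank_eq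
    rw [h5, h6] at h4
    exact h4
  have h7 : LinearMap.range (X.op fam i) ≤
      (N.submoduleOf (ℳ.Z fam i)).map ((ℳ.Bd fam i).submoduleOf (ℳ.Z fam i)).mkQ := by
    rintro _ ⟨x, rfl⟩
    obtain ⟨z, rfl⟩ := Submodule.Quotient.mk_surjective _ x
    refine ⟨⟨fam.mact i X.m z, X.mem_Z fam z.2⟩, ?_, rfl⟩
    refine ⟨Sum.elim z.1 0, ?_, ?_⟩
    · change fam.mact i Q _ = 0
      rw [hQ]
      exact z.2
    · rw [hY]
      have h8 : fam.mact i ℳ.α (fun q => (Sum.elim z.1 (0 : ℳ.A → fam.W i)) (Sum.inr q)) = 0 :=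
        map_zero _
      rw [h8, add_zero]
      rfl
  have h8 : Module.finrank Ω (LinearMap.range (X.op fam i)) ≤
      Module.finrank Ω ((N.submoduleOf (ℳ.Z fam i)).map
        ((ℳ.Bd fam i).submoduleOf (ℳ.Z fam i)).mkQ) := Submodule.finrank_mono h7
  have h9 : Module.finrank Ω (ℳ.Bd fam i) =
      Module.finrank Ω (LinearMap.range (fam.mact i ℳ.α)) := rfl
  have h10 : Module.finrank Ω (LinearMap.range (fam.mact i (Matrix.fromRows Y Q))) =
      Module.finrank Ω (LinearMap.range (fam.mact i (cone X))) := rfl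
  have h11 : Module.finrank Ω N = Module.finrank Ω
      ((LinearMap.ker (fam.mact i Q)).map (fam.mact i Y)) := rfl
  omega

variable (hφ : Function.Injective φ)
  (hden : ∀ s : Finset D, ∃ a : 𝒯.Lim, a ≠ 0 ∧ ∀ y ∈ s, ∃ b : 𝒯.Lim, φ a * y = φ b)
include hφ hden

theorem op_leq (X : ℳ.Ch) :
    Leq fam (fun i => Module.finrank Ω (LinearMap.range (X.op fam i)))
      (fun i => Module.finrank D (LinearMap.range (opD φ X)) * Module.finrank Ω (fam.W i)) := by
  obtain ⟨C₁, hC₁⟩ := rank_leq fam hφ hden (cone X)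
  obtain ⟨C₂, hC₂⟩ := leq_rank fam hφ hden ℳ.β
  obtain ⟨C₃, hC₃⟩ := leq_rank fam hφ hden ℳ.α
  refine ⟨C₁ + C₂ + C₃, fun i => ?_⟩
  have h1 := hC₁ i
  have h2 := hC₂ i
  have h3 := hC₃ i
  have h4 : (Module.finrank Ω (LinearMap.range (X.op fam i)) : ℝ) +
    Module.finrank Ω (LinearMap.range (fam.mact i ℳ.β)) +
      Module.finrank Ω (LinearMap.range (fam.mact i ℳ.α)) ≤
        Module.finrank Ω (LinearMap.range (fam.mact i (cone X))) := by
    exact_mod_cast le_rank_cone fam X i
  have h5 : (Module.finrank D (LinearMap.range (rowM φ (cone X))) : ℝ) *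
      Module.finrank Ω (fam.W i) ≤
    (Module.finrank D (LinearMap.range (opD φ X)) +
      Module.finrank D (LinearMap.range (rowM φ ℳ.β)) +
        Module.finrank D (LinearMap.range (rowM φ ℳ.α))) * Module.finrank Ω (fam.W i) :=
    mul_le_mul_of_nonneg_right (by exact_mod_cast rank_cone_le φ X) (Nat.cast_nonneg _)
  rw [add_div, add_div, add_mul, add_mul]
  rw [add_mul, add_mul] at h5
  linarith

end law

/-- The kernels of the powers of an endomorphism. -/
theorem finrank_ker_pow_le {K V : Type*} [Field K] [AddCommGroup V] [Module K V]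
    [FiniteDimensional K V] (A : Module.End K V) (N : ℕ) :
    Module.finrank K (LinearMap.ker (A ^ (N + 1))) + N * Module.finrank K (LinearMap.range (A ^ 2)) ≤
      Module.finrank K (LinearMap.ker A) + N * Module.finrank K (LinearMap.range A) := by
  have h1 : Module.finrank K (LinearMap.ker (A.domRestrict (LinearMap.range A))) +
      Module.finrank K (LinearMap.range (A ^ 2)) = Module.finrank K (LinearMap.range A) := by
    have h2 := LinearMap.finrank_range_add_finrank_ker (A.domRestrict (LinearMap.range A))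
    have h3 : LinearMap.range (A.domRestrict (LinearMap.range A)) = LinearMap.range (A ^ 2) := by
      rw [LinearMap.range_domRestrict, pow_two, Module.End.mul_eq_comp, LinearMap.range_comp]
    rw [h3] at h2
    omega
  induction N with
  | zero => rw [zero_add, pow_one, Nat.zero_mul, Nat.zero_mul]
  | succ N ih =>
    have h2 : Module.finrank K (LinearMap.ker (A ^ (N + 1 + 1))) ≤
        Module.finrank K (LinearMap.ker (A ^ (N + 1))) +
          Module.finrank K (LinearMap.ker (A.domRestrict (LinearMap.range A))) := by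
      have h3 := LinearMap.finrank_range_add_finrank_ker
        ((A ^ (N + 1)).domRestrict (LinearMap.ker (A ^ (N + 1 + 1))))
      have h4 : Module.finrank K (LinearMap.ker
          ((A ^ (N + 1)).domRestrict (LinearMap.ker (A ^ (N + 1 + 1))))) ≤
          Module.finrank K (LinearMap.ker (A ^ (N + 1))) := by
        refine LinearMap.finrank_le_finrank_of_injective (f :=
          ((LinearMap.ker (A ^ (N + 1 + 1))).subtype.comp (LinearMap.ker
            ((A ^ (N + 1)).domRestrict (LinearMap.ker (A ^ (N + 1 + 1))))).subtype).codRestrict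
              (LinearMap.ker (A ^ (N + 1))) fun x => x.2) ?_
        intro x y hxy
        have h := congrArg Subtype.val hxy
        exact Subtype.ext (Subtype.ext h)
      have h5 : Module.finrank K (LinearMap.range
          ((A ^ (N + 1)).domRestrict (LinearMap.ker (A ^ (N + 1 + 1))))) ≤
          Module.finrank K (LinearMap.ker (A.domRestrict (LinearMap.range A))) := by
        have h6 : ∀ x : LinearMap.range
            ((A ^ (N + 1)).domRestrict (LinearMap.ker (A ^ (N + 1 + 1)))),
            x.1 ∈ LinearMap.range A := by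
          rintro ⟨_, x, rfl⟩
          refine ⟨(A ^ N) x.1, ?_⟩
          exact (LinearMap.congr_fun (pow_succ' A N) x.1).symm
        have h7 : ∀ x : LinearMap.range
            ((A ^ (N + 1)).domRestrict (LinearMap.ker (A ^ (N + 1 + 1)))), A x.1 = 0 := by
          rintro ⟨_, x, rfl⟩
          have h8 : (A ^ (N + 1 + 1)) x.1 = 0 := x.2
          exact (LinearMap.congr_fun (pow_succ' A (N + 1)) x.1).symm.trans h8
        refine LinearMap.finrank_le_finrank_of_injective (f :=
          ((Submodule.subtype _).codRestrict (LinearMap.range A) h6).codRestrict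
            (LinearMap.ker (A.domRestrict (LinearMap.range A))) fun x => h7 x) ?_
        intro x y hxy
        have h := congrArg (fun z => z.1.1) hxy
        exact Subtype.ext h
      omega
    have h3 : (N + 1) * Module.finrank K (LinearMap.range (A ^ 2)) =
      N * Module.finrank K (LinearMap.range (A ^ 2)) +
        Module.finrank K (LinearMap.range (A ^ 2)) := by ring
    have h4 : (N + 1) * Module.finrank K (LinearMap.range A) =
      N * Module.finrank K (LinearMap.range A) + Module.finrank K (LinearMap.range A) := by ring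
    rw [h3, h4]
    omega

end Pool.Agent.Lib.MP_666dc0_nt.CL
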