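import Pool.Agent.Lib.MP_666dc0_nt.CL.A2
import Pool.Agent.Lib.MP_666dc0_nt.FM.C3

/-!
# CL, A3: the law for ideals
-/

namespace Pool.Agent.Lib.MP_666dc0_nt.CL

open FM

variable {𝒯 : RTow} {I : Type} (ℳ : Mats 𝒯 I)

/-- The product ring. -/
abbrev R3 (A' : Type) [Ring A'] : Type :=
  Matrix ℳ.A ℳ.A A' × Matrix ℳ.B ℳ.B A' × Matrix ℳ.C ℳ.C A'

/-- The ring of the chain endomorphisms. -/
noncomputable def ChS : Subring (R3 ℳ 𝒯.Lim) where
  carrier := {X | X.2.1 * ℳ.α = ℳ.α * X.1 ∧ ℳ.β * X.2.1 = X.2.2 * ℳ.β}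
  mul_mem' {X Y} hX hY := ⟨by
    change X.2.1 * Y.2.1 * ℳ.α = ℳ.α * (X.1 * Y.1)
    rw [Matrix.mul_assoc, hY.1, ← Matrix.mul_assoc, hX.1, Matrix.mul_assoc], by
    change ℳ.β * (X.2.1 * Y.2.1) = X.2.2 * Y.2.2 * ℳ.β
    rw [← Matrix.mul_assoc, hX.2, Matrix.mul_assoc, hY.2, Matrix.mul_assoc]⟩
  one_mem' := ⟨by
    change (1 : Matrix ℳ.B ℳ.B 𝒯.Lim) * ℳ.α = ℳ.α * 1
    rw [Matrix.one_mul, Matrix.mul_one], by
    change ℳ.β * (1 : Matrix ℳ.B ℳ.B 𝒯.Lim) = 1 * ℳ.β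
    rw [Matrix.one_mul, Matrix.mul_one]⟩
  add_mem' {X Y} hX hY := ⟨by
    change (X.2.1 + Y.2.1) * ℳ.α = ℳ.α * (X.1 + Y.1)
    rw [Matrix.add_mul, Matrix.mul_add, hX.1, hY.1], by
    change ℳ.β * (X.2.1 + Y.2.1) = (X.2.2 + Y.2.2) * ℳ.β
    rw [Matrix.add_mul, Matrix.mul_add, hX.2, hY.2]⟩
  zero_mem' := ⟨by
    change (0 : Matrix ℳ.B ℳ.B 𝒯.Lim) * ℳ.α = ℳ.α * 0
    rw [Matrix.zero_mul, Matrix.mul_zero], by
    change ℳ.β * (0 : Matrix ℳ.B ℳ.B 𝒯.Lim) = 0 * ℳ.β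
    rw [Matrix.zero_mul, Matrix.mul_zero]⟩
  neg_mem' {X} hX := ⟨by
    change (-X.2.1) * ℳ.α = ℳ.α * (-X.1)
    rw [Matrix.neg_mul, Matrix.mul_neg, hX.1], by
    change ℳ.β * (-X.2.1) = (-X.2.2) * ℳ.β
    rw [Matrix.neg_mul, Matrix.mul_neg, hX.2]⟩

variable {ℳ}

/-- The chain endomorphism given by an element of the ring. -/
def toCh (X : ChS ℳ) : ℳ.Ch := ⟨X.1.1, X.1.2.1, X.1.2.2, X.2.1, X.2.2⟩

theorem toCh_m (X : ChS ℳ) : (toCh X).m = X.1.2.1 := rfl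

section opH

variable {Ω : Type} [NormedField Ω] {ℓ : ℕ} (fam : MFam 𝒯.Lim Ω ℓ)

/-- The action of the ring of chain endomorphisms on the cohomology. -/
noncomputable def opH (i : fam.ix) : ChS ℳ →+* Module.End Ω (ℳ.H fam i) where
  toFun X := (toCh X).op fam i
  map_one' := by
    refine Submodule.linearMap_qext _ (LinearMap.ext fun w => ?_)
    change (Submodule.Quotient.mk _ : ℳ.H fam i) = Submodule.Quotient.mk w
    refine congrArg _ (Subtype.ext ?_)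
    exact MFam.mact_oneM fam i w.1
  map_mul' X Y := by
    refine Submodule.linearMap_qext _ (LinearMap.ext fun w => ?_)
    change (Submodule.Quotient.mk _ : ℳ.H fam i) = Submodule.Quotient.mk _
    refine congrArg _ (Subtype.ext ?_)
    exact MFam.mact_mulM fam i X.1.2.1 Y.1.2.1 w.1
  map_zero' := by
    refine Submodule.linearMap_qext _ (LinearMap.ext fun w => ?_)
    change (Submodule.Quotient.mk _ : ℳ.H fam i) = Submodule.Quotient.mk 0
    refine congrArg _ (Subtype.ext ?_)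
    exact LinearMap.congr_fun (mact_zeroM fam i) w.1
  map_add' X Y := by
    refine Submodule.linearMap_qext _ (LinearMap.ext fun w => ?_)
    change (Submodule.Quotient.mk _ : ℳ.H fam i) = Submodule.Quotient.mk _
    refine congrArg _ (Subtype.ext ?_)
    exact LinearMap.congr_fun (MFam.mact_addM fam i X.1.2.1 Y.1.2.1) w.1

theorem opH_apply (i : fam.ix) (X : ChS ℳ) : opH fam i X = (toCh X).op fam i := rfl

theorem opH_mk (i : fam.ix) (X : ChS ℳ) (w : ℳ.Z fam i) :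
    opH fam i X (Submodule.Quotient.mk w) =
      Submodule.Quotient.mk ⟨fam.mact i X.1.2.1 w, (toCh X).mem_Z fam w.2⟩ := rfl

end opH

section opDR

variable {D : Type} [DivisionRing D] (φ : 𝒯.Lim →+* D)

/-- The action on the cohomology over the division ring (it reverses products). -/
noncomputable def dR (X : ChS ℳ) : Module.End D (HD ℳ φ) := opD φ (toCh X)

theorem dR_ext {f g : Module.End D (HD ℳ φ)} (h : ∀ y (hy : y ∈ VD ℳ φ),
    f ⟨Submodule.Quotient.mk y, ⟨y, hy, rfl⟩⟩ = g ⟨Submodule.Quotient.mk y, ⟨y, hy, rfl⟩⟩) : f = g := by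
  refine LinearMap.ext ?_
  rintro ⟨_, y, hy, rfl⟩
  exact h y hy

theorem dR_mk (X : ChS ℳ) (y : ℳ.B → D) (hy : y ∈ VD ℳ φ) :
    (dR φ X ⟨Submodule.Quotient.mk y, ⟨y, hy, rfl⟩⟩ : HD ℳ φ) =
      ⟨Submodule.Quotient.mk (rowM φ X.1.2.1 y), ⟨_, mem_VD φ (toCh X) hy, rfl⟩⟩ := rfl

theorem dR_mul (X Y : ChS ℳ) : dR φ (X * Y) = dR φ Y * dR φ X := by
  refine dR_ext φ fun y hy => Subtype.ext ?_
  change (Submodule.Quotient.mk (rowM φ (X.1.2.1 * Y.1.2.1) y) : (ℳ.B → D) ⧸ UD ℳ φ) =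
    Submodule.Quotient.mk (rowM φ Y.1.2.1 (rowM φ X.1.2.1 y))
  rw [rowM_mul]

theorem dR_add (X Y : ChS ℳ) : dR φ (X + Y) = dR φ X + dR φ Y := by
  refine dR_ext φ fun y hy => Subtype.ext ?_
  change (Submodule.Quotient.mk (rowM φ (X.1.2.1 + Y.1.2.1) y) : (ℳ.B → D) ⧸ UD ℳ φ) =
    Submodule.Quotient.mk (rowM φ X.1.2.1 y) + Submodule.Quotient.mk (rowM φ Y.1.2.1 y)
  rw [← Submodule.Quotient.mk_add, rowM_add, LinearMap.add_apply]

theorem dR_one : dR φ (1 : ChS ℳ) = 1 := by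
  refine dR_ext φ fun y hy => Subtype.ext ?_
  change (Submodule.Quotient.mk (rowM φ (1 : Matrix ℳ.B ℳ.B 𝒯.Lim) y) : (ℳ.B → D) ⧸ UD ℳ φ) =
    Submodule.Quotient.mk y
  rw [rowM_one, LinearMap.id_apply]

theorem dR_zero : dR φ (0 : ChS ℳ) = 0 := by
  refine dR_ext φ fun y hy => Subtype.ext ?_
  change (Submodule.Quotient.mk (rowM φ (0 : Matrix ℳ.B ℳ.B 𝒯.Lim) y) : (ℳ.B → D) ⧸ UD ℳ φ) = 0
  rw [rowM_zero, LinearMap.zero_apply]
  rfl

theorem dR_pow (X : ChS ℳ) (k : ℕ) : dR φ (X ^ k) = dR φ X ^ k := by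
  induction k with
  | zero => rw [pow_zero, pow_zero, dR_one]
  | succ k ih => rw [pow_succ, dR_mul, ih, pow_succ']

theorem dR_natCast (c : ℕ) : dR φ (c : ChS ℳ) = (c : Module.End D (HD ℳ φ)) := by
  induction c with
  | zero => rw [Nat.cast_zero, Nat.cast_zero, dR_zero]
  | succ c ih => rw [Nat.cast_succ, Nat.cast_succ, dR_add, ih, dR_one]

end opDR

section law

variable {Ω : Type} [NormedField Ω] {ℓ : ℕ} {fam : MFam 𝒯.Lim Ω ℓ} {D : Type} [DivisionRing D]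
  (φ : 𝒯.Lim →+* D) (hφ : Function.Injective φ)
  (hden : ∀ s : Finset D, ∃ a : 𝒯.Lim, a ≠ 0 ∧ ∀ y ∈ s, ∃ b : 𝒯.Lim, φ a * y = φ b)
  (hfam : FOk fam)

include hφ hden hfam in
/-- A chain map which is zero on all spaces `H i` is zero over the division ring. -/
theorem dR_eq_zero (X : ChS ℳ) (h : ∀ i, opH fam i X = 0) : dR φ X = 0 := by
  have h1 := leq_op φ fam hφ hden (toCh X)
  have h2 : Module.finrank D (LinearMap.range (opD φ (toCh X))) ≤ 0 := by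
    refine le_of_leq hfam.one_lt hfam.deep (h1.trans (Leq.of_le fun i => ?_))
    have h3 : (toCh X).op fam i = 0 := h i
    rw [h3, LinearMap.range_zero, finrank_bot]
    simp
  have h3 : LinearMap.range (opD φ (toCh X)) = ⊥ :=
    Submodule.finrank_eq_zero.1 (Nat.le_zero.1 h2)
  exact LinearMap.range_eq_bot.1 h3

include hφ hden hfam in
theorem dR_commute {X Y : ChS ℳ}
    (h : ∀ i, opH fam i X * opH fam i Y = opH fam i Y * opH fam i X) :
    Commute (dR φ X) (dR φ Y) := by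
  have h1 := dR_eq_zero φ hφ hden hfam (X * Y - Y * X) fun i => by
    rw [map_sub, map_mul, map_mul, h i, sub_self]
  have h2 : dR φ (X * Y) = dR φ (Y * X) := by
    have h3 : X * Y = (X * Y - Y * X) + Y * X := by abel
    rw [h3, dR_add, h1, zero_add]
  rw [dR_mul, dR_mul] at h2
  exact h2.symm

theorem exists_max_of_le {α : Type} {s : Set α} (hs : s.Nonempty) (g : α → ℕ) (N : ℕ)
    (hg : ∀ t ∈ s, g t ≤ N) : ∃ t ∈ s, ∀ u ∈ s, g u ≤ g t := by
  classical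
  have hb : ∃ n, ∀ u ∈ s, g u ≤ n := ⟨N, hg⟩
  obtain ⟨n, hn, hmin⟩ : ∃ n, (∀ u ∈ s, g u ≤ n) ∧ ∀ k, k < n → ¬∀ u ∈ s, g u ≤ k :=
    ⟨Nat.find hb, Nat.find_spec hb, fun k hk => Nat.find_min hb hk⟩
  rcases Nat.eq_zero_or_pos n with h0 | hpos
  · obtain ⟨t, ht⟩ := hs
    exact ⟨t, ht, fun u hu => (hn u hu).trans (by omega)⟩
  · have h1 := hmin (n - 1) (by omega)
    push Not at h1
    obtain ⟨t, ht, hlt⟩ := h1
    exact ⟨t, ht, fun u hu => (hn u hu).trans (by omega)⟩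

/-- The rows over `Λ` in the image of `β` over the division ring. -/
noncomputable def satB (ℳ : Mats 𝒯 I) (φ : 𝒯.Lim →+* D) : Submodule 𝒯.Lim (ℳ.B → 𝒯.Lim) where
  carrier := {b | (fun q => φ (b q)) ∈ UD ℳ φ}
  add_mem' {a b} ha hb := by
    have h := (UD ℳ φ).add_mem ha hb
    have h1 : (fun q => φ ((a + b) q)) = (fun q => φ (a q)) + fun q => φ (b q) := by
      funext q
      exact map_add φ _ _
    change (fun q => φ ((a + b) q)) ∈ UD ℳ φ
    rw [h1]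
    exact h
  zero_mem' := by
    have h1 : (fun q => φ ((0 : ℳ.B → 𝒯.Lim) q)) = (0 : ℳ.B → D) := by
      funext q
      exact map_zero φ
    change (fun q => φ ((0 : ℳ.B → 𝒯.Lim) q)) ∈ UD ℳ φ
    rw [h1]
    exact (UD ℳ φ).zero_mem
  smul_mem' c b hb := by
    have h := (UD ℳ φ).smul_mem (φ c) hb
    have h1 : (fun q => φ ((c • b) q)) = φ c • fun q => φ (b q) := by
      funext q
      exact map_mul φ _ _
    change (fun q => φ ((c • b) q)) ∈ UD ℳ φ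
    rw [h1]
    exact h

theorem row_kill {k : ℕ} {s : Fin k → ℳ.B → 𝒯.Lim} {i : fam.ix} {w : ℳ.B → fam.W i}
    (hw : fam.mact i (Matrix.of s) w = 0) {b : ℳ.B → 𝒯.Lim}
    (hb : b ∈ Submodule.span 𝒯.Lim (Set.range s)) : ∑ q, fam.act i (b q) (w q) = 0 := by
  induction hb using Submodule.span_induction with
  | mem y hy =>
    obtain ⟨p, rfl⟩ := hy
    exact congrFun hw p
  | zero => simp only [Pi.zero_apply, map_zero, LinearMap.zero_apply, Finset.sum_const_zero]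
  | add a b _ _ ha hb =>
    simp only [Pi.add_apply, map_add, LinearMap.add_apply, Finset.sum_add_distrib, ha, hb, add_zero]
  | smul c a _ ha =>
    simp only [Pi.smul_apply, smul_eq_mul, map_mul, Module.End.mul_apply]
    rw [← map_sum, ha, map_zero]

end law

end Pool.Agent.Lib.MP_666dc0_nt.CL
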