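import Pool.Agent.Lib.MP_666dc0_nt.CL.A3
import Pool.Agent.Lib.MP_666dc0_nt.CL.A2b

/-!
# CL, A3b: the law for ideals, main part
-/

namespace Pool.Agent.Lib.MP_666dc0_nt.CL

open FM

variable {𝒯 : RTow} {I : Type} {ℳ : Mats 𝒯 I}
  {Ω : Type} [NormedField Ω] {ℓ : ℕ} {fam : MFam 𝒯.Lim Ω ℓ} {D : Type} [DivisionRing D]
  (φ : 𝒯.Lim →+* D) (hφ : Function.Injective φ)
  (hden : ∀ s : Finset D, ∃ a : 𝒯.Lim, a ≠ 0 ∧ ∀ y ∈ s, ∃ b : 𝒯.Lim, φ a * y = φ b)
  (hfam : FOk fam)

include hφ in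
theorem mul_α_eq_zero {κ : Type} [Fintype κ] {Y : Matrix κ ℳ.B 𝒯.Lim}
    (h : ∀ p, rowV φ Y p ∈ VD ℳ φ) : Y * ℳ.α = 0 := by
  refine Matrix.ext fun p q => ?_
  have h1 : rowV φ (Y * ℳ.α) p = 0 := by
    rw [rowV_mul]
    exact h p
  have h2 : φ ((Y * ℳ.α) p q) = 0 := congrFun h1 q
  rw [Matrix.zero_apply]
  exact hφ (h2.trans (map_zero φ).symm)

/-- The saturation of the rows of `β`: a matrix `β'` of the same rank, such that every matrix whose rows are,
over the division ring, combinations of the rows of `β`, kills the kernel of `β'`. -/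
theorem exists_sat (hn : IsNoetherianRing 𝒯.Lim) : ∃ (k : ℕ) (β' : Matrix (Fin k) ℳ.B 𝒯.Lim),
    (∀ p, rowV φ β' p ∈ UD ℳ φ) ∧
    ∀ {κ : Type} (M : Matrix κ ℳ.B 𝒯.Lim), (∀ p, rowV φ M p ∈ UD ℳ φ) → ∀ (i : fam.ix)
      (w : ℳ.B → fam.W i), fam.mact i β' w = 0 → fam.mact i M w = 0 := by
  have hnoeth : IsNoetherian 𝒯.Lim (ℳ.B → 𝒯.Lim) := by
    have := hn
    exact isNoetherian_pi
  obtain ⟨k, s, hs⟩ := Submodule.fg_iff_exists_fin_generating_family.1
    (hnoeth.noetherian (satB ℳ φ))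
  refine ⟨k, Matrix.of s, fun p => ?_, fun {κ} M hM i w hw => ?_⟩
  · have h1 : s p ∈ satB ℳ φ := by
      rw [← hs]
      exact Submodule.subset_span ⟨p, rfl⟩
    exact h1
  · funext p
    rw [MFam.mact_apply, Pi.zero_apply]
    refine row_kill hw ?_
    rw [hs]
    exact hM p

include hφ hden hfam in
/-- The law for ideals. -/
theorem ideal_law (hc0 : CharZero D) (hn : IsNoetherianRing 𝒯.Lim) (T : Set (ChS ℳ)) (J : AddSubgroup (ChS ℳ))
    (hJT : ∀ X ∈ J, X ∈ T) (hTJ : ∀ X ∈ T, ∀ Y ∈ J, X * Y ∈ J) (hnT : ∀ c : ℕ, (c : ChS ℳ) ∈ T)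
    (hcomm : ∀ i, ∀ X ∈ T, ∀ Y ∈ T, opH fam i X * opH fam i Y = opH fam i Y * opH fam i X) :
    ∃ e ≤ hh ℳ φ, (∃ t ∈ J, srk (dR φ t) = e) ∧ (∀ t ∈ J, srk (dR φ t) ≤ e) ∧
      (∃ C : ℝ, ∀ (i : fam.ix) (N : ℕ) (E : Submodule Ω (ℳ.H fam i)),
        (∀ X ∈ J, ∀ x ∈ E, (opH fam i X ^ N) x = 0) → (Module.finrank Ω E : ℝ) ≤
          ((hh ℳ φ : ℝ) - e + N * C / (ℓ : ℝ) ^ fam.dep i) * Module.finrank Ω (fam.W i)) ∧
      ∃ C : ℝ, ∀ (i : fam.ix) (G : Submodule Ω (ℳ.H fam i)),
        (∀ X ∈ T, ∀ x ∈ G, opH fam i X x ∈ G) →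
        (∃ X ∈ J, ∀ x ∈ G, opH fam i X x = 0 → x = 0) → (Module.finrank Ω G : ℝ) ≤
          (e + C / (ℓ : ℝ) ^ fam.dep i) * Module.finrank Ω (fam.W i) := by
  classical
  obtain ⟨C₅, hC₅⟩ := dimH_leq ℳ φ fam hφ hden
  rcases Nat.eq_zero_or_pos (hh ℳ φ) with h0 | hpos
  · have h0' : ∀ t : ChS ℳ, srk (dR φ t) ≤ 0 := fun t => by
      have h1 := Submodule.finrank_le (LinearMap.range (dR φ t ^ Module.finrank D (HD ℳ φ)))
      have h2 : Module.finrank D (HD ℳ φ) = 0 := h0
      rw [h2] at h1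
      unfold srk
      rw [h2]
      exact h1
    refine ⟨0, Nat.zero_le _, ⟨0, J.zero_mem, Nat.le_zero.1 (h0' 0)⟩, fun t _ => h0' t,
      ⟨|C₅|, fun i N E hE => ?_⟩, ⟨C₅, fun i G _ _ => ?_⟩⟩
    · rcases Nat.eq_zero_or_pos N with rfl | hN
      · have h1 : E = ⊥ := by
          rw [eq_bot_iff]
          intro x hx
          exact hE 0 J.zero_mem x hx
        rw [h1, finrank_bot, h0]
        simp
      · have h1 : (Module.finrank Ω E : ℝ) ≤ Module.finrank Ω (ℳ.H fam i) := by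
          exact_mod_cast Submodule.finrank_le E
        have h2 := hC₅ i
        rw [h0] at h2 ⊢
        push_cast at h2 ⊢
        rw [zero_mul, zero_add] at h2
        rw [sub_zero, zero_add]
        refine h1.trans (h2.trans ?_)
        have h3 : C₅ ≤ N * |C₅| := by
          have h4 : (1 : ℝ) ≤ N := by exact_mod_cast hN
          nlinarith [le_abs_self C₅, abs_nonneg C₅]
        gcongr
    · have h1 : (Module.finrank Ω G : ℝ) ≤ Module.finrank Ω (ℳ.H fam i) := by
        exact_mod_cast Submodule.finrank_le G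
      have h2 := hC₅ i
      rw [h0] at h2
      push_cast at h2 ⊢
      rw [zero_mul, zero_add] at h2
      rw [zero_add]
      exact h1.trans h2
  obtain ⟨N, hN⟩ : ∃ N, N = hh ℳ φ := ⟨_, rfl⟩
  have hNf : Module.finrank D (HD ℳ φ) = N := hN.symm
  rw [← hN] at hpos
  have hsrk : ∀ X : ChS ℳ, srk (dR φ X) = Module.finrank D (LinearMap.range (dR φ (X ^ N))) := by
    intro X
    rw [dR_pow]
    unfold srk
    rw [hNf]
  have hsrk_le : ∀ X : ChS ℳ, srk (dR φ X) ≤ N := fun X => by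
    rw [hsrk, ← hNf]
    exact Submodule.finrank_le _
  obtain ⟨t, ht, hmax⟩ := exists_max_of_le (s := (J : Set (ChS ℳ))) ⟨0, J.zero_mem⟩
    (fun X => srk (dR φ X)) N fun X _ => hsrk_le X
  have hpow : ∀ X ∈ J, ∀ k, 0 < k → X ^ k ∈ J := by
    intro X hX k hk
    obtain ⟨k, rfl⟩ : ∃ j, k = j + 1 := ⟨k - 1, by omega⟩
    clear hk
    induction k with
    | zero => rw [zero_add, pow_one]; exact hX
    | succ k ih =>
      rw [pow_succ']
      exact hTJ _ (hJT _ hX) _ ih
  have hkill : ∀ u ∈ J, ∀ v, (dR φ t ^ N) v = 0 → (dR φ u ^ N) v = 0 := by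
    intro u hu v hv
    have hcm : Commute (dR φ t) (dR φ u) := dR_commute φ hφ hden hfam fun i =>
      hcomm i t (hJT _ ht) u (hJT _ hu)
    have h := srk_max (D := D) (V := HD ℳ φ) (dR φ t) (dR φ u) hcm
    rw [hNf] at h
    refine h (fun c => ?_) v hv
    have hmem : (c : ChS ℳ) * t ^ N + u ^ N ∈ J :=
      J.add_mem (hTJ _ (hnT c) _ (hpow t ht N hpos)) (hpow u hu N hpos)
    have h2 : dR φ ((c : ChS ℳ) * t ^ N + u ^ N) =
        (c : Module.End D (HD ℳ φ)) * dR φ t ^ N + dR φ u ^ N := by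
      have h3 : (c : ChS ℳ) * t ^ N = t ^ N * (c : ChS ℳ) := (Nat.cast_commute c _).eq
      rw [h3, dR_add, dR_mul, dR_natCast, dR_pow, dR_pow]
    rw [← h2]
    exact hmax _ hmem
  obtain ⟨e, he⟩ : ∃ e, e = srk (dR φ t) := ⟨_, rfl⟩
  have heN : e ≤ N := he ▸ hsrk_le t
  -- the first inequality
  obtain ⟨C₆, hC₆⟩ := leq_op φ fam hφ hden (toCh (t ^ N))
  have hrank : Module.finrank D (LinearMap.range (opD φ (toCh (t ^ N)))) = e := by
    rw [he, hsrk]
    rfl
  rw [hrank] at hC₆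
  obtain ⟨C₇, hC₇⟩ := op_leq φ fam hφ hden (toCh (t ^ N))
  rw [hrank] at hC₇
  obtain ⟨C₈, hC₈⟩ := leq_op φ fam hφ hden (toCh (t ^ (N + N)))
  have hrank2 : Module.finrank D (LinearMap.range (opD φ (toCh (t ^ (N + N))))) = e := by
    have h1 : Module.finrank D (LinearMap.range (dR φ t ^ (N + N))) =
        Module.finrank D (LinearMap.range (dR φ t ^ N)) := by
      have h2 := LinearMap.finrank_range_add_finrank_ker (dR φ t ^ (N + N))
      have h3 := LinearMap.finrank_range_add_finrank_ker (dR φ t ^ N)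
      rw [Module.End.ker_pow_eq_ker_pow_finrank_of_le (by omega), hNf] at h2
      omega
    have h2 : Module.finrank D (LinearMap.range (opD φ (toCh (t ^ (N + N))))) =
        Module.finrank D (LinearMap.range (dR φ (t ^ (N + N)))) := rfl
    rw [h2, dR_pow, h1, ← dR_pow]
    exact hrank
  rw [hrank2] at hC₈
  -- the matrix `Y`
  let KD : Submodule D (HD ℳ φ) := LinearMap.ker (dR φ t ^ N)
  have hKD : Module.finrank D KD + e = N := by
    have h1 := LinearMap.finrank_range_add_finrank_ker (dR φ t ^ N)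
    rw [hNf] at h1
    have h2 : Module.finrank D (LinearMap.range (dR φ t ^ N)) = e := by
      rw [he, hsrk, dR_pow]
    rw [h2] at h1
    change Module.finrank D (LinearMap.ker (dR φ t ^ N)) + e = N
    omega
  let V₁ : Submodule D (ℳ.B → D) := (KD.map (HD ℳ φ).subtype).comap (UD ℳ φ).mkQ
  have hUV : UD ℳ φ ≤ V₁ := by
    intro y hy
    change (UD ℳ φ).mkQ y ∈ KD.map (HD ℳ φ).subtype
    have h1 : (UD ℳ φ).mkQ y = 0 := by
      rw [Submodule.mkQ_apply, Submodule.Quotient.mk_eq_zero]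
      exact hy
    rw [h1]
    exact Submodule.zero_mem _
  have hVV : V₁ ≤ VD ℳ φ := by
    intro y hy
    obtain ⟨⟨x, hx⟩, -, hxy⟩ := hy
    obtain ⟨y', hy', hy''⟩ := hx
    have h1 : (UD ℳ φ).mkQ y' = (UD ℳ φ).mkQ y := hy''.trans hxy
    rw [← sub_eq_zero, ← map_sub, Submodule.mkQ_apply, Submodule.Quotient.mk_eq_zero] at h1
    have h2 : y = y' - (y' - y) := by abel
    rw [h2]
    exact (VD ℳ φ).sub_mem hy' (UD_le ℳ φ h1)
  have hV₁ : Module.finrank D V₁ + e =
      N + Module.finrank D (LinearMap.range (rowM φ ℳ.β)) := by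
    have h1 := finrank_map_mkQ hUV
    have h2 : V₁.map (UD ℳ φ).mkQ = KD.map (HD ℳ φ).subtype :=
      Submodule.map_comap_eq_of_surjective (Submodule.mkQ_surjective _) _
    rw [h2] at h1
    have h3 : Module.finrank D (KD.map (HD ℳ φ).subtype) = Module.finrank D KD :=
      Submodule.finrank_map_subtype_eq _ _
    rw [h3] at h1
    have h4 : Module.finrank D (UD ℳ φ) = Module.finrank D (LinearMap.range (rowM φ ℳ.β)) := rfl
    omega
  obtain ⟨Y, hY, hYli⟩ := exists_rows_span φ hφ hden V₁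
  have hYα : Y * ℳ.α = 0 := mul_α_eq_zero φ hφ fun p => hVV (hY p)
  obtain ⟨k, β', hβ', hsat⟩ := exists_sat (fam := fam) (ℳ := ℳ) φ hn
  have hβ'α : β' * ℳ.α = 0 := mul_α_eq_zero φ hφ fun p => UD_le ℳ φ (hβ' p)
  have hYu : ∀ u ∈ J, ∀ p, rowV φ (Y * (u ^ N).1.2.1) p ∈ UD ℳ φ := by
    intro u hu p
    rw [rowV_mul]
    obtain ⟨⟨x, hx⟩, hxK, hxy⟩ := hY p
    have h1 : (dR φ t ^ N) ⟨x, hx⟩ = 0 := hxK
    have h2 := hkill u hu _ h1
    rw [← dR_pow] at h2
    have h3 : (opQ φ (toCh (u ^ N)) x) = 0 := congrArg Subtype.val h2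
    have h4 : x = Submodule.Quotient.mk (rowV φ Y p) := hxy
    rw [h4, opQ_mk, Submodule.Quotient.mk_eq_zero] at h3
    exact h3
  obtain ⟨C₁, hC₁⟩ := rank_leq fam hφ hden β'
  obtain ⟨C₂, hC₂⟩ := leq_rank fam hφ hden ℳ.β
  obtain ⟨C₃, hC₃⟩ := rank_leq fam hφ hden ℳ.β
  obtain ⟨C₄, hC₄⟩ := leq_rows fam hφ hden Y hYli
  have hβ'rk : Module.finrank D (LinearMap.range (rowM φ β')) ≤
      Module.finrank D (LinearMap.range (rowM φ ℳ.β)) := by
    refine Submodule.finrank_mono ?_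
    rw [range_rowM, Submodule.span_le]
    rintro _ ⟨p, rfl⟩
    exact hβ' p
  have heR : (e : ℝ) ≤ N := by exact_mod_cast heN
  refine ⟨e, hN ▸ heN, ⟨t, ht, he.symm⟩, fun u hu => he ▸ hmax u hu,
    ⟨|C₅| + |C₆| + |C₇| + |C₈|, fun i M E hE => ?_⟩, ⟨C₁ + C₂ + C₃ + C₄ + C₅, fun i G hG hinj => ?_⟩⟩
  · rcases Nat.eq_zero_or_pos M with rfl | hM
    · have h1 : E = ⊥ := by
        rw [eq_bot_iff]
        intro x hx
        exact hE 0 J.zero_mem x hx
      rw [h1, finrank_bot, ← hN]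
      simp only [Nat.cast_zero, zero_mul, zero_div, add_zero]
      exact mul_nonneg (by linarith) (Nat.cast_nonneg _)
    obtain ⟨M, rfl⟩ : ∃ k, M = k + 1 := ⟨M - 1, by omega⟩
    have h1 : E ≤ LinearMap.ker (opH fam i (t ^ N) ^ (M + 1)) := by
      intro x hx
      obtain ⟨k, hk⟩ : ∃ k, N * (M + 1) = k + (M + 1) := ⟨N * (M + 1) - (M + 1), by
        have : 1 * (M + 1) ≤ N * (M + 1) := Nat.mul_le_mul_right _ hpos
        omega⟩
      rw [LinearMap.mem_ker, map_pow, ← pow_mul, hk, pow_add, Module.End.mul_apply, hE t ht x hx,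
        map_zero]
    have h2 : (Module.finrank Ω E : ℝ) ≤
        Module.finrank Ω (LinearMap.ker (opH fam i (t ^ N) ^ (M + 1))) := by
      exact_mod_cast Submodule.finrank_mono h1
    have h3 : (Module.finrank Ω (LinearMap.ker (opH fam i (t ^ N) ^ (M + 1))) : ℝ) +
        M * Module.finrank Ω (LinearMap.range (opH fam i (t ^ N) ^ 2)) ≤
        Module.finrank Ω (LinearMap.ker (opH fam i (t ^ N))) +
          M * Module.finrank Ω (LinearMap.range (opH fam i (t ^ N))) := by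
      exact_mod_cast finrank_ker_pow_le (opH fam i (t ^ N)) M
    have h4 := hC₅ i
    have h5 := hC₆ i
    have h6 := hC₇ i
    have h7 := hC₈ i
    have h8 : (Module.finrank Ω (LinearMap.range (opH fam i (t ^ N))) : ℝ) +
        Module.finrank Ω (LinearMap.ker (opH fam i (t ^ N))) = Module.finrank Ω (ℳ.H fam i) := by
      exact_mod_cast LinearMap.finrank_range_add_finrank_ker (opH fam i (t ^ N))
    have h9 : (Module.finrank Ω (LinearMap.range ((toCh (t ^ N)).op fam i)) : ℝ) =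
        Module.finrank Ω (LinearMap.range (opH fam i (t ^ N))) := rfl
    have h10 : (Module.finrank Ω (LinearMap.range ((toCh (t ^ (N + N))).op fam i)) : ℝ) =
        Module.finrank Ω (LinearMap.range (opH fam i (t ^ N) ^ 2)) := by
      rw [← map_pow, ← pow_mul, mul_two]
      rfl
    beta_reduce at h4 h5 h6 h7
    rw [h9] at h5 h6
    rw [h10] at h7
    rw [← hN] at h4 ⊢
    obtain ⟨w, hw⟩ : ∃ w : ℝ, w = Module.finrank Ω (fam.W i) := ⟨_, rfl⟩
    obtain ⟨q, hq⟩ : ∃ q : ℝ, q = ((ℓ : ℝ) ^ fam.dep i)⁻¹ * w := ⟨_, rfl⟩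
    have hq0 : 0 ≤ q := by
      rw [hq, hw]
      positivity
    have hdiv : ∀ c : ℝ, c / (ℓ : ℝ) ^ fam.dep i * Module.finrank Ω (fam.W i) = c * q := by
      intro c
      rw [hq, hw, div_eq_mul_inv, mul_assoc]
    rw [hdiv] at h4 h5 h6 h7
    rw [add_mul, hdiv, sub_mul]
    have hM0 : (0 : ℝ) ≤ M := Nat.cast_nonneg M
    have k1 : (M : ℝ) * (Module.finrank Ω (LinearMap.range (opH fam i (t ^ N))) -
        Module.finrank Ω (LinearMap.range (opH fam i (t ^ N) ^ 2))) ≤ M * ((C₇ + C₈) * q) := by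
      refine mul_le_mul_of_nonneg_left ?_ hM0
      linarith
    have k2 : (C₅ + C₆) * q ≤ (|C₅| + |C₆|) * q :=
      mul_le_mul_of_nonneg_right (add_le_add (le_abs_self _) (le_abs_self _)) hq0
    have k3 : (M : ℝ) * ((C₇ + C₈) * q) ≤ M * ((|C₇| + |C₈|) * q) :=
      mul_le_mul_of_nonneg_left (mul_le_mul_of_nonneg_right
        (add_le_add (le_abs_self _) (le_abs_self _)) hq0) hM0
    have k4 : (0 : ℝ) ≤ M * ((|C₅| + |C₆|) * q) := by positivity
    have k5 : (0 : ℝ) ≤ (|C₇| + |C₈|) * q := by positivity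
    push_cast
    nlinarith
  · obtain ⟨u, hu, hinj⟩ := hinj
    -- the part of the cohomology given by the kernel of `β'`
    let Z' : Submodule Ω (ℳ.B → fam.W i) := LinearMap.ker (fam.mact i β')
    have hZ'Z : Z' ≤ ℳ.Z fam i := by
      intro w hw
      refine hsat ℳ.β (fun p => ?_) i w hw
      change rowV φ ℳ.β p ∈ LinearMap.range (rowM φ ℳ.β)
      rw [range_rowM]
      exact Submodule.subset_span ⟨p, rfl⟩
    have hBZ' : ℳ.Bd fam i ≤ Z' := by
      rintro _ ⟨v, rfl⟩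
      change fam.mact i β' (fam.mact i ℳ.α v) = 0
      rw [← MFam.mact_mulM, hβ'α, mact_zeroM, LinearMap.zero_apply]
    have hstab : ∀ (X : ChS ℳ) (w : ℳ.B → fam.W i), w ∈ Z' → fam.mact i X.1.2.1 w ∈ Z' := by
      intro X w hw
      change fam.mact i β' (fam.mact i X.1.2.1 w) = 0
      rw [← MFam.mact_mulM]
      refine hsat _ (fun p => ?_) i w hw
      rw [rowV_mul]
      exact mem_UD φ (toCh X) (hβ' p)
    let ZH : Submodule Ω (ℳ.H fam i) :=
      (Z'.submoduleOf (ℳ.Z fam i)).map ((ℳ.Bd fam i).submoduleOf (ℳ.Z fam i)).mkQ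
    have hZH : Module.finrank Ω ZH + Module.finrank Ω (ℳ.Bd fam i) = Module.finrank Ω Z' := by
      have h1 : (ℳ.Bd fam i).submoduleOf (ℳ.Z fam i) ≤ Z'.submoduleOf (ℳ.Z fam i) :=
        fun x hx => hBZ' hx
      have h2 := finrank_map_mkQ h1
      have h3 := (Submodule.submoduleOfEquivOfLe (Bd_le_Z ℳ fam i)).finrank_eq
      have h4 := (Submodule.submoduleOfEquivOfLe hZ'Z).finrank_eq
      rw [h3, h4] at h2
      exact h2
    have hH : Module.finrank Ω (ℳ.H fam i) + Module.finrank Ω (ℳ.Bd fam i) +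
        Module.finrank Ω (LinearMap.range (fam.mact i ℳ.β)) =
          Fintype.card ℳ.B * Module.finrank Ω (fam.W i) := finrank_H ℳ fam i
    have hZ'c : Module.finrank Ω (LinearMap.range (fam.mact i β')) + Module.finrank Ω Z' =
        Fintype.card ℳ.B * Module.finrank Ω (fam.W i) := by
      rw [← finrank_pi_W]
      exact LinearMap.finrank_range_add_finrank_ker (fam.mact i β')
    -- the kernel of `Y`
    let KY : Submodule Ω (ℳ.H fam i) := LinearMap.ker (barY ℳ fam Y hYα i)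
    have hKY : Module.finrank Ω (LinearMap.range (barY ℳ fam Y hYα i)) + Module.finrank Ω KY =
        Module.finrank Ω (ℳ.H fam i) := LinearMap.finrank_range_add_finrank_ker _
    have hrY : LinearMap.range (barY ℳ fam Y hYα i) =
        (LinearMap.ker (fam.mact i ℳ.β)).map (fam.mact i Y) := by
      apply le_antisymm
      · rintro _ ⟨x, rfl⟩
        obtain ⟨⟨z, hz⟩, rfl⟩ := Submodule.Quotient.mk_surjective _ x
        exact ⟨z, hz, rfl⟩
      · rintro _ ⟨z, hz, rfl⟩
        exact ⟨Submodule.Quotient.mk ⟨z, hz⟩, rfl⟩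
    have hYβ := map_ker_eq fam Y ℳ.β i
    have hYβ' : Module.finrank Ω (LinearMap.range (fam.mact i Y)) ≤
        Module.finrank Ω (LinearMap.range (fam.mact i (Matrix.fromRows Y ℳ.β))) := by
      have h1 : LinearMap.range (fam.mact i Y) =
          (LinearMap.range (fam.mact i (Matrix.fromRows Y ℳ.β))).map
            (LinearMap.funLeft Ω (fam.W i) Sum.inl) := by
        rw [← LinearMap.range_comp]
        rfl
      rw [h1]
      exact Submodule.finrank_map_le _ _
    -- the intersection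
    let G' : Submodule Ω (ℳ.H fam i) := G ⊓ ZH
    have hG' : Module.finrank Ω G + Module.finrank Ω ZH ≤
        Module.finrank Ω (ℳ.H fam i) + Module.finrank Ω G' := by
      have h1 := Submodule.finrank_sup_add_finrank_inf_eq G ZH
      have h2 : Module.finrank Ω (G ⊔ ZH : Submodule Ω (ℳ.H fam i)) ≤
          Module.finrank Ω (ℳ.H fam i) := Submodule.finrank_le _
      change Module.finrank Ω G + Module.finrank Ω ZH ≤
        Module.finrank Ω (ℳ.H fam i) + Module.finrank Ω (G ⊓ ZH : Submodule Ω (ℳ.H fam i))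
      omega
    have huG' : ∀ x ∈ G', opH fam i u x ∈ G' := by
      rintro x ⟨hx, hx'⟩
      refine ⟨hG u (hJT _ hu) x hx, ?_⟩
      obtain ⟨z, hz, rfl⟩ := hx'
      exact ⟨⟨fam.mact i u.1.2.1 z, (toCh u).mem_Z fam z.2⟩, hstab u z hz, rfl⟩
    have hinjN : ∀ k : ℕ, ∀ x ∈ G', (opH fam i u ^ k) x = 0 → x = 0 := by
      intro k
      induction k with
      | zero => intro x _ h; exact h
      | succ k ih =>
        intro x hx h
        rw [pow_succ, Module.End.mul_apply] at h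
        exact hinj x hx.1 (ih _ (huG' x hx) h)
    have hmapK : ∀ x ∈ G', (opH fam i u ^ N) x ∈ KY := by
      rintro x ⟨-, z, hz, rfl⟩
      rw [← map_pow]
      change fam.mact i Y (fam.mact i (u ^ N).1.2.1 z) = 0
      rw [← MFam.mact_mulM]
      exact hsat _ (hYu u hu) i z hz
    have hG'K : Module.finrank Ω G' ≤ Module.finrank Ω KY := by
      let f : G' →ₗ[Ω] KY := ((opH fam i u ^ N).domRestrict G').codRestrict KY
        (fun x => hmapK x x.2)
      have hf : Function.Injective f := by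
        rw [injective_iff_map_eq_zero]
        intro x hx
        exact Subtype.ext (hinjN N x x.2 (congrArg Subtype.val hx))
      exact LinearMap.finrank_le_finrank_of_injective hf
    rw [hrY] at hKY
    have h1 := hC₁ i
    have h2 := hC₂ i
    have h3 := hC₃ i
    have h4 := hC₄ i
    have h5 := hC₅ i
    rw [Fintype.card_fin] at h4
    rw [← hN] at h5
    have r1 : (Module.finrank Ω G : ℝ) + Module.finrank Ω ZH ≤
        Module.finrank Ω (ℳ.H fam i) + Module.finrank Ω G' := by exact_mod_cast hG'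
    have r2 : (Module.finrank Ω G' : ℝ) ≤ Module.finrank Ω KY := by exact_mod_cast hG'K
    have r3 : (Module.finrank Ω ((LinearMap.ker (fam.mact i ℳ.β)).map (fam.mact i Y)) : ℝ) +
        Module.finrank Ω KY = Module.finrank Ω (ℳ.H fam i) := by exact_mod_cast hKY
    have r4 : (Module.finrank Ω ((LinearMap.ker (fam.mact i ℳ.β)).map (fam.mact i Y)) : ℝ) +
        Module.finrank Ω (LinearMap.range (fam.mact i ℳ.β)) =
        Module.finrank Ω (LinearMap.range (fam.mact i (Matrix.fromRows Y ℳ.β))) := by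
      exact_mod_cast hYβ
    have r5 : (Module.finrank Ω (LinearMap.range (fam.mact i Y)) : ℝ) ≤
        Module.finrank Ω (LinearMap.range (fam.mact i (Matrix.fromRows Y ℳ.β))) := by
      exact_mod_cast hYβ'
    have r6 : (Module.finrank Ω ZH : ℝ) + Module.finrank Ω (ℳ.Bd fam i) =
        Module.finrank Ω Z' := by exact_mod_cast hZH
    have r7 : (Module.finrank Ω (ℳ.H fam i) : ℝ) + Module.finrank Ω (ℳ.Bd fam i) +
        Module.finrank Ω (LinearMap.range (fam.mact i ℳ.β)) =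
          Fintype.card ℳ.B * Module.finrank Ω (fam.W i) := by exact_mod_cast hH
    have r8 : (Module.finrank Ω (LinearMap.range (fam.mact i β')) : ℝ) + Module.finrank Ω Z' =
        Fintype.card ℳ.B * Module.finrank Ω (fam.W i) := by exact_mod_cast hZ'c
    have r9 : (Module.finrank D V₁ : ℝ) + e =
        N + Module.finrank D (LinearMap.range (rowM φ ℳ.β)) := by exact_mod_cast hV₁
    have r10 : (Module.finrank D (LinearMap.range (rowM φ β')) : ℝ) *
        Module.finrank Ω (fam.W i) ≤ Module.finrank D (LinearMap.range (rowM φ ℳ.β)) *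
        Module.finrank Ω (fam.W i) :=
      mul_le_mul_of_nonneg_right (by exact_mod_cast hβ'rk) (Nat.cast_nonneg _)
    have r11 : (Module.finrank D V₁ : ℝ) * Module.finrank Ω (fam.W i) =
        (N + Module.finrank D (LinearMap.range (rowM φ ℳ.β)) - e) * Module.finrank Ω (fam.W i) := by
      rw [← r9]
      ring
    rw [sub_mul, add_mul] at r11
    rw [add_mul, add_div, add_div, add_div, add_div, add_mul, add_mul, add_mul, add_mul]
    linarith

end Pool.Agent.Lib.MP_666dc0_nt.CL
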