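import Mathlib

/-!
# CL, A3c: the primes of a commuting family of endomorphisms of a finite-dimensional vector space over a
division ring
-/

namespace Pool.Agent.Lib.MP_666dc0_nt.CL

/-- A prime of a ring. -/
structure IsPr {S : Type} [Ring S] (P : AddSubgroup S) : Prop where
  left : ∀ x y, y ∈ P → x * y ∈ P
  right : ∀ x y, x ∈ P → x * y ∈ P
  prime : ∀ x y, x * y ∈ P → x ∈ P ∨ y ∈ P
  one : (1 : S) ∉ P
  nat : ∀ n : ℕ, n ≠ 0 → (n : S) ∉ P

theorem IsPr.tf {S : Type} [Ring S] {P : AddSubgroup S} (h : IsPr P) {n : ℕ} (hn : n ≠ 0) {x : S}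
    (hx : n • x ∈ P) : x ∈ P := by
  rw [nsmul_eq_mul] at hx
  exact (h.prime _ _ hx).resolve_left (h.nat n hn)

section

variable {S D V : Type} [Ring S] [DivisionRing D] [AddCommGroup V] [Module D V]
  (f : S →+* Module.End D V) {W : Submodule D V} (hs : ∀ x, ∀ w ∈ W, f x w ∈ W)

/-- The operators on the quotient. -/
def quotHom : S →+* Module.End D (V ⧸ W) where
  toFun x := W.mapQ W (f x) (hs x)
  map_one' := by
    refine Submodule.linearMap_qext _ (LinearMap.ext fun w => ?_)
    change (Submodule.Quotient.mk (f 1 w) : V ⧸ W) = Submodule.Quotient.mk w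
    rw [map_one, Module.End.one_apply]
  map_mul' x y := by
    refine Submodule.linearMap_qext _ (LinearMap.ext fun w => ?_)
    change (Submodule.Quotient.mk (f (x * y) w) : V ⧸ W) = Submodule.Quotient.mk (f x (f y w))
    rw [map_mul, Module.End.mul_apply]
  map_zero' := by
    refine Submodule.linearMap_qext _ (LinearMap.ext fun w => ?_)
    change (Submodule.Quotient.mk (f 0 w) : V ⧸ W) = 0
    rw [map_zero, LinearMap.zero_apply, Submodule.Quotient.mk_zero]
  map_add' x y := by
    refine Submodule.linearMap_qext _ (LinearMap.ext fun w => ?_)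
    change (Submodule.Quotient.mk (f (x + y) w) : V ⧸ W) =
      Submodule.Quotient.mk (f x w) + Submodule.Quotient.mk (f y w)
    rw [map_add, LinearMap.add_apply, Submodule.Quotient.mk_add]

theorem quotHom_mk (x : S) (w : V) :
    quotHom f hs x (Submodule.Quotient.mk w) = Submodule.Quotient.mk (f x w) := rfl

theorem quotHom_pow (x : S) (m : ℕ) (w : V) :
    (quotHom f hs x ^ m) (Submodule.Quotient.mk w) = Submodule.Quotient.mk ((f x ^ m) w) := by
  rw [← map_pow, ← map_pow]
  rfl

theorem map_range_pow (x : S) (m : ℕ) :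
    (LinearMap.range (f x ^ m)).map W.mkQ = LinearMap.range (quotHom f hs x ^ m) := by
  apply le_antisymm
  · rintro _ ⟨_, ⟨w, rfl⟩, rfl⟩
    exact ⟨Submodule.Quotient.mk w, quotHom_pow f hs x m w⟩
  · rintro _ ⟨w, rfl⟩
    obtain ⟨w, rfl⟩ := Submodule.Quotient.mk_surjective _ w
    exact ⟨_, ⟨w, rfl⟩, (quotHom_pow f hs x m w).symm⟩

end

open scoped Classical in
theorem exists_primes {S D : Type} [Ring S] [DivisionRing D] [CharZero D] :
    ∀ (n : ℕ) (V : Type) [AddCommGroup V] [Module D V] [FiniteDimensional D V]
      (f : S →+* Module.End D V), Module.finrank D V = n → (∀ x y, Commute (f x) (f y)) →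
      ∃ (k : ℕ) (P : Fin k → AddSubgroup S) (b : Fin k → ℕ), (∀ j, 0 < b j) ∧ ∑ j, b j = n ∧
        (∀ j, IsPr (P j)) ∧ ∀ x, ∀ m, n ≤ m →
          Module.finrank D (LinearMap.range (f x ^ m)) = ∑ j with x ∉ P j, b j := by
  intro n
  induction n using Nat.strong_induction_on with
  | _ n ih =>
  intro V _ _ _ f hV hf
  rcases Nat.eq_zero_or_pos n with h0 | hn
  · subst h0
    refine ⟨0, Fin.elim0, Fin.elim0, fun j => Fin.elim0 j, by simp, fun j => Fin.elim0 j,
      fun x m _ => ?_⟩
    have h1 := Submodule.finrank_le (LinearMap.range (f x ^ m))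
    rw [hV] at h1
    simp only [Finset.univ_eq_empty, Finset.filter_empty, Finset.sum_empty]
    omega
  · have hnt : Nontrivial V := Module.finrank_pos_iff.1 (hV ▸ hn)
    obtain ⟨W, ⟨hW0, hs⟩, hmin⟩ := IsArtinian.set_has_minimal (R := D) (M := V)
      {W : Submodule D V | W ≠ ⊥ ∧ ∀ x, ∀ w ∈ W, f x w ∈ W}
      ⟨⊤, bot_ne_top.symm, fun x w _ => Submodule.mem_top⟩
    have hsimple : ∀ x, (∀ w ∈ W, f x w = 0) ∨ ∀ w ∈ W, f x w = 0 → w = 0 := by
      intro x
      by_cases h1 : W ⊓ LinearMap.ker (f x) = ⊥
      · right
        intro w hw hw'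
        have h2 : w ∈ W ⊓ LinearMap.ker (f x) := ⟨hw, hw'⟩
        rw [h1] at h2
        exact (Submodule.mem_bot D).1 h2
      · left
        have h2 : W ⊓ LinearMap.ker (f x) = W := by
          by_contra hcon
          refine hmin _ ⟨h1, fun y w hw => ⟨hs y w hw.1, ?_⟩⟩ (lt_of_le_of_ne inf_le_left hcon)
          have h3 := LinearMap.congr_fun (hf x y).eq w
          have h4 : f x w = 0 := hw.2
          rw [Module.End.mul_apply, Module.End.mul_apply, h4, map_zero] at h3
          exact h3
        intro w hw
        rw [← h2] at hw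
        exact hw.2
    obtain ⟨w₀, hw₀, hw₀'⟩ := Submodule.exists_mem_ne_zero_of_ne_bot hW0
    let P₀ : AddSubgroup S :=
      { carrier := {x | ∀ w ∈ W, f x w = 0}
        zero_mem' := fun w _ => by rw [map_zero, LinearMap.zero_apply]
        add_mem' := fun {a b} ha hb w hw => by
          rw [map_add, LinearMap.add_apply, ha w hw, hb w hw, add_zero]
        neg_mem' := fun {a} ha w hw => by
          rw [map_neg, LinearMap.neg_apply, ha w hw, neg_zero] }
    have hP₀ : IsPr P₀ := by
      refine ⟨fun x y hy w hw => ?_, fun x y hx w hw => ?_, fun x y hxy => ?_, fun h => ?_,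
        fun n hn h => ?_⟩
      · rw [map_mul, Module.End.mul_apply, hy w hw, map_zero]
      · rw [map_mul, Module.End.mul_apply]
        exact hx _ (hs y w hw)
      · rcases hsimple x with hx | hx
        · exact Or.inl hx
        · refine Or.inr fun w hw => hx _ (hs y w hw) ?_
          have h1 := hxy w hw
          rwa [map_mul, Module.End.mul_apply] at h1
      · have h1 := h w₀ hw₀
        rw [map_one, Module.End.one_apply] at h1
        exact hw₀' h1
      · have h1 := h w₀ hw₀
        rw [map_natCast, Module.End.natCast_apply, ← Nat.cast_smul_eq_nsmul D, smul_eq_zero] at h1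
        rcases h1 with h1 | h1
        · exact hn (by exact_mod_cast h1)
        · exact hw₀' h1
    have hWpos : 0 < Module.finrank D W := by
      have := Submodule.nontrivial_iff_ne_bot.2 hW0
      exact Module.finrank_pos
    have hq := Submodule.finrank_quotient_add_finrank W
    obtain ⟨k, P, b, hb, hbs, hP, hrk⟩ := ih (Module.finrank D (V ⧸ W)) (by omega) (V ⧸ W)
      (quotHom f hs) rfl (fun x y => by
        refine Submodule.linearMap_qext _ (LinearMap.ext fun w => ?_)
        change (Submodule.Quotient.mk (f x (f y w)) : V ⧸ W) = Submodule.Quotient.mk (f y (f x w))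
        have h3 := LinearMap.congr_fun (hf x y).eq w
        rw [Module.End.mul_apply, Module.End.mul_apply] at h3
        rw [h3])
    refine ⟨k + 1, Fin.cons P₀ P, Fin.cons (Module.finrank D W) b, fun j => ?_, ?_, fun j => ?_,
      fun x m hm => ?_⟩
    · refine Fin.cases ?_ (fun j => ?_) j
      · exact hWpos
      · exact hb j
    · rw [Fin.sum_univ_succ]
      simp only [Fin.cons_zero, Fin.cons_succ]
      rw [hbs, ← hV]
      omega
    · refine Fin.cases ?_ (fun j => ?_) j
      · exact hP₀
      · exact hP j
    · have h1 := hrk x m (by omega)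
      rw [Finset.sum_filter, Fin.sum_univ_succ]
      simp only [Fin.cons_zero, Fin.cons_succ]
      rw [← Finset.sum_filter, ← h1, ← map_range_pow f hs x m]
      have h2 := LinearMap.finrank_range_add_finrank_ker
        (W.mkQ.domRestrict (LinearMap.range (f x ^ m)))
      rw [LinearMap.range_domRestrict] at h2
      by_cases hx : x ∈ P₀
      · rw [if_neg (not_not.2 hx), zero_add, ← h2]
        have h3 : LinearMap.ker (W.mkQ.domRestrict (LinearMap.range (f x ^ m))) = ⊥ := by
          rw [eq_bot_iff]
          rintro ⟨_, v, rfl⟩ h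
          have h4 : (f x ^ m) v ∈ W := (Submodule.Quotient.mk_eq_zero W).1 h
          have h5 : f x ((f x ^ m) v) = 0 := hx _ h4
          have h6 : v ∈ LinearMap.ker (f x ^ (m + 1)) := by
            rw [LinearMap.mem_ker, pow_succ', Module.End.mul_apply]
            exact h5
          rw [Module.End.ker_pow_eq_ker_pow_finrank_of_le (by omega),
            ← Module.End.ker_pow_eq_ker_pow_finrank_of_le (f := f x) (m := m) (by omega)] at h6
          exact (Submodule.mem_bot D).2 (Subtype.ext h6)
        rw [h3, finrank_bot, add_zero]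
      · rw [if_pos hx, ← h2, add_comm]
        congr 1
        have hinj : ∀ w ∈ W, f x w = 0 → w = 0 := (hsimple x).resolve_left hx
        have hpow : ∀ (m : ℕ), ∀ w ∈ W, (f x ^ m) w = 0 → w = 0 := by
          intro m
          induction m with
          | zero => intro w _ h; exact h
          | succ m ih =>
            intro w hw h
            rw [pow_succ, Module.End.mul_apply] at h
            exact hinj w hw (ih _ (hs x w hw) h)
        have hst : ∀ (m : ℕ), ∀ w ∈ W, (f x ^ m) w ∈ W := by
          intro m
          induction m with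
          | zero => intro w hw; exact hw
          | succ m ih =>
            intro w hw
            rw [pow_succ, Module.End.mul_apply]
            exact ih _ (hs x w hw)
        have hsurj : W ≤ LinearMap.range (f x ^ m) := by
          let g : W →ₗ[D] W := (f x ^ m).restrict (hst m)
          have hg : Function.Injective g := by
            rw [injective_iff_map_eq_zero]
            intro w hw
            exact Subtype.ext (hpow m w w.2 (congrArg Subtype.val hw))
          intro w hw
          obtain ⟨v, hv⟩ := LinearMap.surjective_of_injective hg ⟨w, hw⟩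
          exact ⟨v, congrArg Subtype.val hv⟩
        have h3 : LinearMap.ker (W.mkQ.domRestrict (LinearMap.range (f x ^ m))) =
            W.submoduleOf (LinearMap.range (f x ^ m)) := by
          ext v
          exact Submodule.Quotient.mk_eq_zero W
        rw [h3]
        exact (Submodule.submoduleOfEquivOfLe hsurj).finrank_eq

/-- Avoidance. -/
theorem exists_avoidP {T κ : Type*} [AddCommGroup T] (J : AddSubgroup T) (P : κ → AddSubgroup T)
    (hP : ∀ y, ∀ n : ℕ, n ≠ 0 → ∀ x, n • x ∈ P y → x ∈ P y) (s : Finset κ)
    (h : ∀ y ∈ s, ∃ X ∈ J, X ∉ P y) : ∃ X ∈ J, ∀ y ∈ s, X ∉ P y := by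
  classical
  induction s using Finset.induction_on with
  | empty => exact ⟨0, J.zero_mem, fun y hy => absurd hy (Finset.notMem_empty y)⟩
  | insert y₀ s hy₀ ih =>
    obtain ⟨u, hu, hus⟩ := ih fun y hy => h y (Finset.mem_insert_of_mem hy)
    obtain ⟨v, hv, hv0⟩ := h y₀ (Finset.mem_insert_self _ _)
    have hbad : (⋃ y ∈ insert y₀ s, {c : ℕ | u + c • v ∈ P y}).Finite := by
      refine Set.Finite.biUnion (Finset.finite_toSet (insert y₀ s)) fun y hy => ?_
      have key : ∀ c c' : ℕ, u + c • v ∈ P y → u + c' • v ∈ P y → c < c' → False := by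
        intro c c' h1 h2 hlt
        have h3 : (c' - c) • v ∈ P y := by
          have h4 := (P y).sub_mem h2 h1
          have h5 : u + c' • v - (u + c • v) = (c' - c) • v := by
            rw [sub_nsmul v hlt.le]
            abel
          rwa [h5] at h4
        have h4 : v ∈ P y := hP y _ (by omega) _ h3
        rcases Finset.mem_insert.1 hy with rfl | hy'
        · exact hv0 h4
        · refine hus y hy' ?_
          have h5 := (P y).sub_mem h1 ((P y).nsmul_mem h4 c)
          rwa [add_sub_cancel_right] at h5
      refine Set.Subsingleton.finite fun c hc c' hc' => ?_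
      rcases lt_trichotomy c c' with h1 | h1 | h1
      · exact (key c c' hc hc' h1).elim
      · exact h1
      · exact (key c' c hc' hc h1).elim
    obtain ⟨c, hc⟩ := hbad.exists_notMem
    refine ⟨u + c • v, J.add_mem hu (J.nsmul_mem hv c), fun y hy h0 => hc ?_⟩
    rw [Set.mem_iUnion₂]
    exact ⟨y, hy, h0⟩

end Pool.Agent.Lib.MP_666dc0_nt.CL
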