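import Pool.Agent.Lib.MP_666dc0_nt.CL.A3

/-!
# CL, A4: the closed ring generated by the operators, and its characters
-/

namespace Pool.Agent.Lib.MP_666dc0_nt.CL

open FM

variable {𝒯 : RTow} {I : Type} (ℳ : Mats 𝒯 I)

/-- The level `s`. -/
noncomputable def lv3 (s : ℕ) : R3 ℳ 𝒯.Lim →+* R3 ℳ (𝒯.A s) :=
  RingHom.prodMap (𝒯.pi s).mapMatrix (RingHom.prodMap (𝒯.pi s).mapMatrix (𝒯.pi s).mapMatrix)

theorem lv3_1 (s : ℕ) (X : R3 ℳ 𝒯.Lim) (p q) : (lv3 ℳ s X).1 p q = 𝒯.pi s (X.1 p q) := rfl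

theorem lv3_2 (s : ℕ) (X : R3 ℳ 𝒯.Lim) (p q) : (lv3 ℳ s X).2.1 p q = 𝒯.pi s (X.2.1 p q) := rfl

theorem lv3_3 (s : ℕ) (X : R3 ℳ 𝒯.Lim) (p q) : (lv3 ℳ s X).2.2 p q = 𝒯.pi s (X.2.2 p q) := rfl

theorem pi_zero_le {s s' : ℕ} (hs : s ≤ s') {a : 𝒯.Lim} (ha : 𝒯.pi s' a = 0) : 𝒯.pi s a = 0 := by
  induction hs with
  | refl => exact ha
  | step _ ih => exact ih (by rw [← RTow.f_pi, ha, map_zero])

theorem lv3_zero_le {s s' : ℕ} (hs : s ≤ s') {X : R3 ℳ 𝒯.Lim} (hX : lv3 ℳ s' X = 0) :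
    lv3 ℳ s X = 0 := by
  refine Prod.ext ?_ (Prod.ext ?_ ?_)
  · refine Matrix.ext fun p q => ?_
    have h1 : 𝒯.pi s' (X.1 p q) = 0 := by
      rw [← lv3_1, hX]
      rfl
    exact pi_zero_le hs h1
  · refine Matrix.ext fun p q => ?_
    have h1 : 𝒯.pi s' (X.2.1 p q) = 0 := by
      rw [← lv3_2, hX]
      rfl
    exact pi_zero_le hs h1
  · refine Matrix.ext fun p q => ?_
    have h1 : 𝒯.pi s' (X.2.2 p q) = 0 := by
      rw [← lv3_3, hX]
      rfl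
    exact pi_zero_le hs h1

theorem lv3_eq_le {s s' : ℕ} (hs : s ≤ s') {X Y : R3 ℳ 𝒯.Lim} (h : lv3 ℳ s' X = lv3 ℳ s' Y) :
    lv3 ℳ s X = lv3 ℳ s Y := by
  have h1 : lv3 ℳ s' (X - Y) = 0 := by rw [map_sub, h, sub_self]
  have h2 := lv3_zero_le ℳ hs h1
  rwa [map_sub, sub_eq_zero] at h2

/-- The generators. -/
def gen (j : I) : ChS ℳ := ⟨(ℳ.mA j, ℳ.mx j, ℳ.mC j), ℳ.comm_α j, ℳ.comm_β j⟩

/-- The chain map of a noncommutative polynomial. -/
noncomputable def nc : FreeAlgebra ℤ I →ₐ[ℤ] ChS ℳ := FreeAlgebra.lift ℤ (gen ℳ)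

/-- The commutative polynomial of a noncommutative polynomial. -/
noncomputable def ab (I : Type) : FreeAlgebra ℤ I →ₐ[ℤ] MvPolynomial I ℤ :=
  FreeAlgebra.lift ℤ MvPolynomial.X

theorem nc_ι (j : I) : nc ℳ (FreeAlgebra.ι ℤ j) = gen ℳ j := FreeAlgebra.lift_ι_apply _ _

theorem ab_surjective (I : Type) : Function.Surjective (ab I) := by
  intro P
  induction P using MvPolynomial.induction_on with
  | C a => exact ⟨algebraMap ℤ _ a, by rw [AlgHom.commutes]; rfl⟩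
  | add p q hp hq =>
    obtain ⟨f, rfl⟩ := hp
    obtain ⟨g, rfl⟩ := hq
    exact ⟨f + g, map_add _ _ _⟩
  | mul_X p j hp =>
    obtain ⟨f, rfl⟩ := hp
    refine ⟨f * FreeAlgebra.ι ℤ j, ?_⟩
    rw [map_mul]
    congr 1
    exact FreeAlgebra.lift_ι_apply _ _

/-- The closure of the ring generated by the generators. -/
noncomputable def T0 : Subring (ChS ℳ) where
  carrier := {X | ∀ s, ∃ f, lv3 ℳ s X.1 = lv3 ℳ s (nc ℳ f).1}
  mul_mem' {a b} ha hb s := by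
    obtain ⟨P, hP⟩ := ha s
    obtain ⟨Q, hQ⟩ := hb s
    exact ⟨P * Q, by rw [map_mul, Subring.coe_mul, Subring.coe_mul, map_mul, map_mul, hP, hQ]⟩
  one_mem' s := ⟨1, by rw [map_one (nc ℳ)]⟩
  add_mem' {a b} ha hb s := by
    obtain ⟨P, hP⟩ := ha s
    obtain ⟨Q, hQ⟩ := hb s
    exact ⟨P + Q, by rw [map_add, Subring.coe_add, Subring.coe_add, map_add, map_add, hP, hQ]⟩
  zero_mem' s := ⟨0, by rw [map_zero (nc ℳ)]⟩
  neg_mem' {a} ha s := by
    obtain ⟨P, hP⟩ := ha s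
    exact ⟨-P, by rw [map_neg, Subring.coe_neg, Subring.coe_neg, map_neg, map_neg, hP]⟩

theorem nc_mem (f : FreeAlgebra ℤ I) : nc ℳ f ∈ T0 ℳ := fun _ => ⟨f, rfl⟩

theorem gen_mem (j : I) : gen ℳ j ∈ T0 ℳ := by
  rw [← nc_ι]
  exact nc_mem ℳ _

variable {ℳ}

/-- Limits along an ultrafilter. -/
theorem exists_limit (hfin : ∀ s, Finite (𝒯.A s)) {Kx : Type} (𝓤 : Ultrafilter Kx)
    (g : Kx → T0 ℳ) : ∃ X : T0 ℳ, ∀ s, ∀ᶠ k in (𝓤 : Filter Kx), lv3 ℳ s X.1.1 = lv3 ℳ s (g k).1.1 := by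
  classical
  have h2 : ∀ s, ∃ B : R3 ℳ (𝒯.A s), ∀ᶠ k in (𝓤 : Filter Kx), lv3 ℳ s (g k).1.1 = B := by
    intro s
    have := hfin s
    have f1 : Finite (Matrix ℳ.A ℳ.A (𝒯.A s)) := inferInstanceAs (Finite (ℳ.A → ℳ.A → 𝒯.A s))
    have f2 : Finite (Matrix ℳ.B ℳ.B (𝒯.A s)) := inferInstanceAs (Finite (ℳ.B → ℳ.B → 𝒯.A s))
    have f3 : Finite (Matrix ℳ.C ℳ.C (𝒯.A s)) := inferInstanceAs (Finite (ℳ.C → ℳ.C → 𝒯.A s))
    obtain ⟨B, hB⟩ := (𝓤.map fun k => lv3 ℳ s (g k).1.1).eq_pure_of_finite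
    refine ⟨B, ?_⟩
    have h3 : {B} ∈ 𝓤.map fun k => lv3 ℳ s (g k).1.1 := by
      rw [hB, Ultrafilter.mem_pure]
      exact Set.mem_singleton B
    exact h3
  choose B hB using h2
  have c1 : ∀ s p q, 𝒯.f s ((B (s + 1)).1 p q) = (B s).1 p q := by
    intro s p q
    obtain ⟨k, hk1, hk2⟩ := ((hB s).and (hB (s + 1))).exists
    rw [← hk1, ← hk2, lv3_1, lv3_1, RTow.f_pi]
  have c2 : ∀ s p q, 𝒯.f s ((B (s + 1)).2.1 p q) = (B s).2.1 p q := by
    intro s p q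
    obtain ⟨k, hk1, hk2⟩ := ((hB s).and (hB (s + 1))).exists
    rw [← hk1, ← hk2, lv3_2, lv3_2, RTow.f_pi]
  have c3 : ∀ s p q, 𝒯.f s ((B (s + 1)).2.2 p q) = (B s).2.2 p q := by
    intro s p q
    obtain ⟨k, hk1, hk2⟩ := ((hB s).and (hB (s + 1))).exists
    rw [← hk1, ← hk2, lv3_3, lv3_3, RTow.f_pi]
  let X : R3 ℳ 𝒯.Lim := (fun p q => ⟨fun s => (B s).1 p q, fun s => c1 s p q⟩,
    fun p q => ⟨fun s => (B s).2.1 p q, fun s => c2 s p q⟩,
    fun p q => ⟨fun s => (B s).2.2 p q, fun s => c3 s p q⟩)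
  have hX : ∀ s, lv3 ℳ s X = B s := fun s => rfl
  have hmem : X ∈ ChS ℳ := by
    constructor
    · refine Matrix.ext fun p q => 𝒯.ext fun s => ?_
      obtain ⟨k, hk⟩ := (hB s).exists
      have h3 : lv3 ℳ s X = lv3 ℳ s (g k).1.1 := by rw [hX, hk]
      have h4 := congrFun (congrFun ((g k).1.2.1) p) q
      have h5 := congrArg (𝒯.pi s) h4
      rw [Matrix.mul_apply, Matrix.mul_apply, map_sum, map_sum] at h5 ⊢
      simp only [map_mul] at h5 ⊢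
      have h6 : ∀ p q, 𝒯.pi s (X.2.1 p q) = 𝒯.pi s ((g k).1.1.2.1 p q) := fun p q =>
        congrFun (congrFun (congrArg (fun Y : R3 ℳ (𝒯.A s) => Y.2.1) h3) p) q
      have h7 : ∀ p q, 𝒯.pi s (X.1 p q) = 𝒯.pi s ((g k).1.1.1 p q) := fun p q =>
        congrFun (congrFun (congrArg (fun Y : R3 ℳ (𝒯.A s) => Y.1) h3) p) q
      simp only [h6, h7]
      exact h5
    · refine Matrix.ext fun p q => 𝒯.ext fun s => ?_
      obtain ⟨k, hk⟩ := (hB s).exists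
      have h3 : lv3 ℳ s X = lv3 ℳ s (g k).1.1 := by rw [hX, hk]
      have h4 := congrFun (congrFun ((g k).1.2.2) p) q
      have h5 := congrArg (𝒯.pi s) h4
      rw [Matrix.mul_apply, Matrix.mul_apply, map_sum, map_sum] at h5 ⊢
      simp only [map_mul] at h5 ⊢
      have h6 : ∀ p q, 𝒯.pi s (X.2.1 p q) = 𝒯.pi s ((g k).1.1.2.1 p q) := fun p q =>
        congrFun (congrFun (congrArg (fun Y : R3 ℳ (𝒯.A s) => Y.2.1) h3) p) q
      have h7 : ∀ p q, 𝒯.pi s (X.2.2 p q) = 𝒯.pi s ((g k).1.1.2.2 p q) := fun p q =>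
        congrFun (congrFun (congrArg (fun Y : R3 ℳ (𝒯.A s) => Y.2.2) h3) p) q
      simp only [h6, h7]
      exact h5
  have hT : (⟨X, hmem⟩ : ChS ℳ) ∈ T0 ℳ := by
    intro s
    obtain ⟨k, hk⟩ := (hB s).exists
    obtain ⟨f, hf⟩ := (g k).2 s
    exact ⟨f, by rw [← hf, hk]; exact hX s⟩
  refine ⟨⟨⟨X, hmem⟩, hT⟩, fun s => ?_⟩
  filter_upwards [hB s] with k hk
  rw [hk]
  exact hX s

section cont

variable {Ω : Type} [NormedField Ω] {ℓ : ℕ} {fam : MFam 𝒯.Lim Ω ℓ} (hfam : FOk fam)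

include hfam in
/-- Every linear functional is continuous. -/
theorem small_all (i : fam.ix) (g : Module.Dual Ω (fam.W i)) (w : fam.W i) {ε : ℝ} (hε : 0 < ε) :
    ∃ s, ∀ a : 𝒯.Lim, 𝒯.pi s a = 0 → ‖g (fam.act i a w)‖ ≤ ε := by
  obtain ⟨Y, f, hf0, hf⟩ := hfam.cont i
  let P : Submodule Ω (Module.Dual Ω (fam.W i)) :=
    { carrier := {g | ∀ w, ∀ ε : ℝ, 0 < ε → ∃ s, ∀ a : 𝒯.Lim, 𝒯.pi s a = 0 →
        ‖g (fam.act i a w)‖ ≤ ε}
      add_mem' := by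
        intro a b ha hb w ε hε
        obtain ⟨s, hs⟩ := ha w (ε / 2) (half_pos hε)
        obtain ⟨s', hs'⟩ := hb w (ε / 2) (half_pos hε)
        refine ⟨max s s', fun c hc => ?_⟩
        have h1 := hs c (pi_zero_le (le_max_left _ _) hc)
        have h2 := hs' c (pi_zero_le (le_max_right _ _) hc)
        rw [LinearMap.add_apply]
        exact (norm_add_le _ _).trans (by linarith)
      zero_mem' := by
        intro w ε hε
        exact ⟨0, fun c _ => by rw [LinearMap.zero_apply, norm_zero]; exact hε.le⟩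
      smul_mem' := by
        intro c a ha w ε hε
        obtain ⟨s, hs⟩ := ha w (ε / (‖c‖ + 1)) (div_pos hε (by positivity))
        refine ⟨s, fun b hb => ?_⟩
        have h1 := hs b hb
        rw [LinearMap.smul_apply, norm_smul]
        rw [le_div_iff₀ (by positivity)] at h1
        nlinarith [norm_nonneg c, norm_nonneg (a (fam.act i b w))] }
  have hP : P = ⊤ := by
    have h1 : P.dualCoannihilator = ⊥ := by
      rw [eq_bot_iff]
      intro w hw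
      refine hf0 w fun y => ?_
      exact (Submodule.mem_dualCoannihilator w).1 hw (f y) fun w ε hε => by
        obtain ⟨s, hs⟩ := hf w ε hε
        exact ⟨s, fun a ha => hs a ha y⟩
    have h2 := Subspace.dualCoannihilator_dualAnnihilator_eq (W := P)
    rw [h1, Submodule.dualAnnihilator_bot] at h2
    exact h2.symm
  have h3 : g ∈ P := by
    rw [hP]
    exact Submodule.mem_top
  exact h3 w ε hε

include hfam in
/-- Small chain maps act by small endomorphisms. -/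
theorem small_H (i : fam.ix) (g : Module.Dual Ω (ℳ.H fam i)) (w : ℳ.H fam i) {ε : ℝ} (hε : 0 < ε) :
    ∃ s, ∀ X : ChS ℳ, lv3 ℳ s X.1 = 0 → ‖g (opH fam i X w)‖ ≤ ε := by
  classical
  obtain ⟨z, rfl⟩ := Submodule.Quotient.mk_surjective _ w
  obtain ⟨G, hG⟩ := LinearMap.exists_extend (g ∘ₗ ((ℳ.Bd fam i).submoduleOf (ℳ.Z fam i)).mkQ)
  have hN : (0 : ℝ) < Fintype.card ℳ.B * Fintype.card ℳ.B + 1 := by positivity
  have h1 : ∀ p q : ℳ.B, ∃ s, ∀ a : 𝒯.Lim, 𝒯.pi s a = 0 →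
      ‖G (Pi.single p (fam.act i a (z.1 q)))‖ ≤ ε / (Fintype.card ℳ.B * Fintype.card ℳ.B + 1) :=
    fun p q => small_all hfam i (G ∘ₗ LinearMap.single Ω (fun _ => fam.W i) p) (z.1 q)
      (div_pos hε hN)
  choose s hs using h1
  refine ⟨Finset.univ.sup fun p : ℳ.B × ℳ.B => s p.1 p.2, fun X hX => ?_⟩
  have h2 : g (opH fam i X (Submodule.Quotient.mk z)) = G (fam.mact i X.1.2.1 z.1) := by
    rw [opH_mk]
    exact (LinearMap.congr_fun hG ⟨fam.mact i X.1.2.1 z, (toCh X).mem_Z fam z.2⟩).symm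
  have h3 : fam.mact i X.1.2.1 z.1 = ∑ p, ∑ q, Pi.single p (fam.act i (X.1.2.1 p q) (z.1 q)) := by
    funext p
    rw [Finset.sum_apply, Finset.sum_eq_single p]
    · rw [MFam.mact_apply, Finset.sum_apply]
      refine Finset.sum_congr rfl fun q _ => ?_
      rw [Pi.single_eq_same]
    · intro p' _ hp
      rw [Finset.sum_apply]
      refine Finset.sum_eq_zero fun q _ => ?_
      rw [Pi.single_eq_of_ne (Ne.symm hp)]
    · intro h
      exact absurd (Finset.mem_univ p) h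
  rw [h2, h3, map_sum]
  simp only [map_sum]
  have h4 : ∀ p q, ‖G (Pi.single p (fam.act i (X.1.2.1 p q) (z.1 q)))‖ ≤
      ε / (Fintype.card ℳ.B * Fintype.card ℳ.B + 1) := by
    intro p q
    refine hs p q _ (pi_zero_le (Finset.le_sup (f := fun p : ℳ.B × ℳ.B => s p.1 p.2)
      (Finset.mem_univ (p, q))) ?_)
    rw [← lv3_2, hX]
    rfl
  refine (norm_sum_le _ _).trans ((Finset.sum_le_sum fun p _ => (norm_sum_le _ _).trans
    (Finset.sum_le_sum fun q _ => h4 p q)).trans ?_)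
  rw [Finset.sum_const, Finset.sum_const, nsmul_eq_mul, nsmul_eq_mul, Finset.card_univ,
    ← mul_assoc, mul_div_assoc', div_le_iff₀ hN]
  nlinarith [hε]

/-- A vector killed by all functionals. -/
theorem eq_zero_of_dual {V : Type*} [AddCommGroup V] [Module Ω V] {v : V}
    (h : ∀ g : Module.Dual Ω V, g v = 0) : v = 0 :=
  (Module.forall_dual_apply_eq_zero_iff Ω v).1 h

end cont

end Pool.Agent.Lib.MP_666dc0_nt.CL
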