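import Pool.Agent.Lib.MP_666dc0_nt.CL.A4

/-!
# CL, A5: the characters of the ring of operators
-/

namespace Pool.Agent.Lib.MP_666dc0_nt.CL

open FM

variable {𝒯 : RTow} {I : Type} {ℳ : Mats 𝒯 I}
  {Ω : Type} [NormedField Ω] {ℓ : ℕ} {fam : MFam 𝒯.Lim Ω ℓ}

variable (ℳ fam) in
/-- The systems which occur. -/
noncomputable def OccH : Set (I → Ω) := Occ (fun i => ℳ.H fam i) fun i j => (ℳ.ch j).op fam i

variable (ℳ fam) in
/-- The eigenspaces. -/
noncomputable def JE (i : fam.ix) (y : I → Ω) : Submodule Ω (ℳ.H fam i) := jointE (fun j => (ℳ.ch j).op fam i) y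

theorem exists_of_occH {y : I → Ω} (hy : y ∈ OccH ℳ fam) :
    ∃ (i : fam.ix) (x : ℳ.H fam i), x ∈ JE ℳ fam i y ∧ x ≠ 0 := by
  obtain ⟨i, hi⟩ := hy
  obtain ⟨x, hx, hx0⟩ := Submodule.exists_mem_ne_zero_of_ne_bot hi
  exact ⟨i, x, hx, hx0⟩

theorem exists_ringHom {T V : Type*} [Ring T] [AddCommGroup V] [Module Ω V]
    (f : T →+* Module.End Ω V) {x : V} (hx : x ≠ 0) (c : T → Ω) (hc : ∀ X, f X x = c X • x) :
    ∃ χ : T →+* Ω, ∀ X, χ X = c X := by
  have hu : ∀ a b : Ω, a • x = b • x → a = b := fun a b hab => smul_left_injective Ω hx hab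
  refine ⟨⟨⟨⟨c, hu _ _ ?_⟩, fun A B => hu _ _ ?_⟩, hu _ _ ?_, fun A B => hu _ _ ?_⟩, fun _ => rfl⟩
  · rw [← hc, one_smul, map_one, Module.End.one_apply]
  · rw [← hc, map_mul, Module.End.mul_apply, hc, map_smul, hc, smul_smul, mul_comm]
  · change c 0 • x = (0 : Ω) • x
    rw [← hc, zero_smul, map_zero, LinearMap.zero_apply]
  · change c (A + B) • x = (c A + c B) • x
    rw [← hc, add_smul, map_add, LinearMap.add_apply, hc, hc]

theorem smul_inj {V : Type*} [AddCommGroup V] [Module Ω V] {v : V} (hv : v ≠ 0) {a b : Ω}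
    (h : a • v = b • v) : a = b := smul_left_injective Ω hv h

theorem nc_jointE {i : fam.ix} {y : I → Ω} {x : ℳ.H fam i}
    (hx : x ∈ JE ℳ fam i y) (f : FreeAlgebra ℤ I) :
    opH fam i (nc ℳ f) x = evP y (ab I f) • x := by
  induction f using FreeAlgebra.induction with
  | grade0 a =>
    have h1 : (algebraMap ℤ (FreeAlgebra ℤ I) a) = ((a : ℤ) : FreeAlgebra ℤ I) := eq_intCast _ a
    rw [h1, map_intCast, map_intCast, map_intCast, map_intCast, Module.End.intCast_apply,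
      Int.cast_smul_eq_zsmul]
  | grade1 j =>
    have hj : (ℳ.ch j).op fam i x = y j • x := by
      have h2 := (Submodule.mem_iInf _).1 hx j
      exact Module.End.mem_eigenspace_iff.1 h2
    have h3 : ab I (FreeAlgebra.ι ℤ j) = MvPolynomial.X j := FreeAlgebra.lift_ι_apply _ _
    rw [nc_ι, h3]
    unfold evP
    rw [MvPolynomial.coe_eval₂Hom, MvPolynomial.eval₂_X]
    exact hj
  | mul a b ha hb =>
    rw [map_mul, map_mul, map_mul, map_mul, Module.End.mul_apply, hb, map_smul, ha, smul_smul,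
      mul_comm]
  | add a b ha hb =>
    rw [map_add, map_add, map_add, map_add, LinearMap.add_apply, ha, hb, add_smul]

theorem gen_comm (i : fam.ix) (j k : I) :
    Commute (opH fam i (gen ℳ j)) (opH fam i (gen ℳ k)) := by
  obtain ⟨a, b, hab⟩ := ℳ.htpy j k
  refine Submodule.linearMap_qext _ (LinearMap.ext fun w => ?_)
  change (Submodule.Quotient.mk _ : ℳ.H fam i) = Submodule.Quotient.mk _
  rw [Submodule.Quotient.eq]
  change fam.mact i (ℳ.mx j) (fam.mact i (ℳ.mx k) w.1) -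
    fam.mact i (ℳ.mx k) (fam.mact i (ℳ.mx j) w.1) ∈ ℳ.Bd fam i
  refine ⟨fam.mact i a w.1, ?_⟩
  have h0 : fam.mact i ℳ.β w.1 = 0 := w.2
  have h1 : fam.mact i (ℳ.mx j * ℳ.mx k - ℳ.mx k * ℳ.mx j) w.1 =
      fam.mact i (ℳ.α * a + b * ℳ.β) w.1 := by rw [hab]
  rw [MFam.mact_sub, LinearMap.sub_apply, MFam.mact_mulM, MFam.mact_mulM, MFam.mact_addM,
    LinearMap.add_apply, MFam.mact_mulM, MFam.mact_mulM, h0, map_zero, add_zero] at h1
  exact h1.symm

theorem nc_comm (i : fam.ix) (f g : FreeAlgebra ℤ I) :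
    Commute (opH fam i (nc ℳ f)) (opH fam i (nc ℳ g)) := by
  have h1 : ∀ (f : FreeAlgebra ℤ I) (k : I),
      Commute (opH fam i (nc ℳ f)) (opH fam i (gen ℳ k)) := by
    intro f k
    induction f using FreeAlgebra.induction with
    | grade0 a =>
      have h1 : (algebraMap ℤ (FreeAlgebra ℤ I) a) = ((a : ℤ) : FreeAlgebra ℤ I) := eq_intCast _ a
      rw [h1, map_intCast, map_intCast]
      exact Int.cast_commute _ _
    | grade1 j =>
      rw [nc_ι]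
      exact gen_comm i j k
    | mul a b ha hb =>
      rw [map_mul, map_mul]
      exact ha.mul_left hb
    | add a b ha hb =>
      rw [map_add, map_add]
      exact ha.add_left hb
  induction g using FreeAlgebra.induction with
  | grade0 a =>
    have h1 : (algebraMap ℤ (FreeAlgebra ℤ I) a) = ((a : ℤ) : FreeAlgebra ℤ I) := eq_intCast _ a
    rw [h1, map_intCast, map_intCast]
    exact (Int.cast_commute _ _).symm
  | grade1 j =>
    rw [nc_ι]
    exact h1 f j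
  | mul a b ha hb =>
    rw [map_mul, map_mul]
    exact ha.mul_right hb
  | add a b ha hb =>
    rw [map_add, map_add]
    exact ha.add_right hb

section cont

variable (hfam : FOk fam)

include hfam

theorem T0_comm (i : fam.ix) {X Y : ChS ℳ} (hX : X ∈ T0 ℳ) (hY : Y ∈ T0 ℳ) :
    opH fam i X * opH fam i Y = opH fam i Y * opH fam i X := by
  rw [← map_mul, ← map_mul, ← sub_eq_zero, ← map_sub]
  refine LinearMap.ext fun w => ?_
  rw [LinearMap.zero_apply]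
  refine eq_zero_of_dual (Ω := Ω) fun g => ?_
  rw [← norm_eq_zero]
  refine le_antisymm (le_of_forall_pos_le_add fun ε hε => ?_) (norm_nonneg _)
  rw [zero_add]
  obtain ⟨s, hs⟩ := small_H (ℳ := ℳ) hfam i g w hε
  obtain ⟨P, hP⟩ := hX s
  obtain ⟨Q, hQ⟩ := hY s
  have h1 : opH fam i (nc ℳ P * nc ℳ Q - nc ℳ Q * nc ℳ P) = 0 := by
    rw [map_sub, map_mul, map_mul, sub_eq_zero]
    exact nc_comm i P Q
  have h2 : lv3 ℳ s (X * Y - Y * X - (nc ℳ P * nc ℳ Q - nc ℳ Q * nc ℳ P) : ChS ℳ).1 = 0 := by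
    have h3 : (X * Y - Y * X - (nc ℳ P * nc ℳ Q - nc ℳ Q * nc ℳ P) : ChS ℳ).1 =
      X.1 * Y.1 - Y.1 * X.1 - ((nc ℳ P).1 * (nc ℳ Q).1 - (nc ℳ Q).1 * (nc ℳ P).1) := rfl
    rw [h3]
    simp only [map_sub, map_mul]
    rw [hP, hQ, sub_self]
  have h4 := hs _ h2
  rw [map_sub, h1, sub_zero] at h4
  exact h4

/-- Comparison of two eigenvectors. -/
theorem cross {y : I → Ω} {i i' : fam.ix} {x : ℳ.H fam i} {x' : ℳ.H fam i'}
    (hx : x ∈ JE ℳ fam i y) (hx' : x' ∈ JE ℳ fam i' y)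
    (g : Module.Dual Ω (ℳ.H fam i)) (g' : Module.Dual Ω (ℳ.H fam i')) (X : T0 ℳ) :
    g x * g' (opH fam i' X.1 x') = g' x' * g (opH fam i X.1 x) := by
  rw [← sub_eq_zero, ← norm_eq_zero]
  refine le_antisymm (le_of_forall_pos_le_add fun ε hε => ?_) (norm_nonneg _)
  rw [zero_add]
  set a := g x
  set b := g' x'
  have hab : (0 : ℝ) < ‖a‖ + ‖b‖ + 1 := by positivity
  obtain ⟨s, hs⟩ := small_H (ℳ := ℳ) hfam i g x (div_pos hε hab)
  obtain ⟨s', hs'⟩ := small_H (ℳ := ℳ) hfam i' g' x' (div_pos hε hab)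
  obtain ⟨P, hP⟩ := X.2 (max s s')
  have h0 : lv3 ℳ (max s s') (X.1 - nc ℳ P : ChS ℳ).1 = 0 := by
    have h3 : (X.1 - nc ℳ P : ChS ℳ).1 = X.1.1 - (nc ℳ P).1 := rfl
    rw [h3, map_sub, hP, sub_self]
  have h1 := hs _ (lv3_zero_le ℳ (le_max_left s s') h0)
  have h2 := hs' _ (lv3_zero_le ℳ (le_max_right s s') h0)
  rw [map_sub, LinearMap.sub_apply, nc_jointE hx, map_sub, map_smul, smul_eq_mul] at h1
  rw [map_sub, LinearMap.sub_apply, nc_jointE hx', map_sub, map_smul, smul_eq_mul] at h2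
  have h3 : a * g' (opH fam i' X.1 x') - b * g (opH fam i X.1 x) =
      a * (g' (opH fam i' X.1 x') - evP y (ab I P) * b) -
        b * (g (opH fam i X.1 x) - evP y (ab I P) * a) := by
    ring
  rw [h3]
  refine (norm_sub_le _ _).trans ?_
  rw [norm_mul, norm_mul]
  calc ‖a‖ * ‖g' (opH fam i' X.1 x') - evP y (ab I P) * b‖ +
        ‖b‖ * ‖g (opH fam i X.1 x) - evP y (ab I P) * a‖
      ≤ ‖a‖ * (ε / (‖a‖ + ‖b‖ + 1)) + ‖b‖ * (ε / (‖a‖ + ‖b‖ + 1)) :=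
        add_le_add (mul_le_mul_of_nonneg_left h2 (norm_nonneg _))
          (mul_le_mul_of_nonneg_left h1 (norm_nonneg _))
    _ = (‖a‖ + ‖b‖) * ε / (‖a‖ + ‖b‖ + 1) := by ring
    _ ≤ ε := by
      rw [div_le_iff₀ hab]
      nlinarith [norm_nonneg a, norm_nonneg b]

omit hfam in
theorem exists_dual_ne {V : Type*} [AddCommGroup V] [Module Ω V] {v : V} (hv : v ≠ 0) :
    ∃ g : Module.Dual Ω V, g v ≠ 0 := by
  by_contra hcon
  push Not at hcon
  exact hv (eq_zero_of_dual hcon)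

theorem exists_chi {y : I → Ω} (hy : y ∈ OccH ℳ fam)
    (X : T0 ℳ) : ∃ c : Ω, ∀ i, ∀ x ∈ JE ℳ fam i y,
      opH fam i X.1 x = c • x := by
  obtain ⟨i, x, hx, hx0⟩ := exists_of_occH hy
  obtain ⟨g, hg⟩ := exists_dual_ne (Ω := Ω) hx0
  refine ⟨g (opH fam i X.1 x) / g x, fun i' x' hx' => ?_⟩
  rw [← sub_eq_zero]
  refine eq_zero_of_dual (Ω := Ω) fun g' => ?_
  have h1 := cross hfam hx hx' g g' X
  rw [map_sub, map_smul, smul_eq_mul, sub_eq_zero, div_mul_eq_mul_div, eq_div_iff hg, mul_comm, h1,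
    mul_comm]

theorem exists_char {y : I → Ω} (hy : y ∈ OccH ℳ fam) :
    ∃ c : T0 ℳ →+* Ω, ∀ (X : T0 ℳ) i, ∀ x ∈ JE ℳ fam i y,
      opH fam i X.1 x = c X • x := by
  obtain ⟨i, x, hx, hx0⟩ := exists_of_occH hy
  choose c hc using exists_chi (ℳ := ℳ) hfam hy
  obtain ⟨χ, hχ⟩ := exists_ringHom ((opH fam i).comp (T0 ℳ).subtype) hx0 c fun X => hc X i x hx
  exact ⟨χ, fun X i x hx => by rw [hχ]; exact hc X i x hx⟩

/-- The character given by a system which occurs. -/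
noncomputable def chi {y : I → Ω}
    (hy : y ∈ OccH ℳ fam) : T0 ℳ →+* Ω :=
  (exists_char hfam hy).choose

theorem op_chi {y : I → Ω} (hy : y ∈ OccH ℳ fam)
    (X : T0 ℳ) {i} {x : ℳ.H fam i} (hx : x ∈ JE ℳ fam i y) :
    opH fam i X.1 x = chi hfam hy X • x :=
  (exists_char hfam hy).choose_spec X i x hx

theorem chi_nc {y : I → Ω} (hy : y ∈ OccH ℳ fam)
    (f : FreeAlgebra ℤ I) : chi hfam hy ⟨nc ℳ f, nc_mem ℳ f⟩ = evP y (ab I f) := by
  obtain ⟨i, x, hx, hx0⟩ := exists_of_occH hy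
  have h1 : opH fam i (nc ℳ f) x = chi hfam hy ⟨nc ℳ f, nc_mem ℳ f⟩ • x :=
    op_chi hfam hy ⟨nc ℳ f, nc_mem ℳ f⟩ hx
  have h2 : opH fam i (nc ℳ f) x = evP y (ab I f) • x := nc_jointE hx f
  exact smul_inj hx0 (h1.symm.trans h2)

/-- Uniform continuity of the characters. -/
theorem chi_close {y : I → Ω} (hy : y ∈ OccH ℳ fam)
    {ε : ℝ} (hε : 0 < ε) : ∃ s, ∀ X X' : T0 ℳ, lv3 ℳ s X.1.1 = lv3 ℳ s X'.1.1 →
      ‖chi hfam hy X - chi hfam hy X'‖ ≤ ε := by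
  obtain ⟨i, x, hx, hx0⟩ := exists_of_occH hy
  obtain ⟨g, hg⟩ := exists_dual_ne (Ω := Ω) hx0
  have hpos : 0 < ‖g x‖ := norm_pos_iff.2 hg
  obtain ⟨s, hs⟩ := small_H (ℳ := ℳ) hfam i g x (mul_pos hε hpos)
  refine ⟨s, fun X X' h => ?_⟩
  have h0 : lv3 ℳ s (X.1 - X'.1 : ChS ℳ).1 = 0 := by
    have h3 : (X.1 - X'.1 : ChS ℳ).1 = X.1.1 - X'.1.1 := rfl
    rw [h3, map_sub, h, sub_self]
  have h1 := hs _ h0
  rw [map_sub, LinearMap.sub_apply, op_chi hfam hy X hx, op_chi hfam hy X' hx, ← sub_smul,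
    map_smul, smul_eq_mul, norm_mul] at h1
  exact le_of_mul_le_mul_right h1 hpos

theorem exists_separating {Fam : Set (I → Ω)} {y : I → Ω}
    (hF : Fam ⊆ OccH ℳ fam)
    (hy : y ∈ OccH ℳ fam) (hc : ¬ Ctl Fam y) :
    ∃ t : T0 ℳ, (∀ z (hz : z ∈ Fam), chi hfam (hF hz) t = 0) ∧ chi hfam hy t ≠ 0 := by
  classical
  unfold Ctl at hc
  push Not at hc
  obtain ⟨ε, hε, hc⟩ := hc
  have h1 : ∀ k : Finset Fam × ℕ, ∃ f : FreeAlgebra ℤ I,
      (∀ e ∈ k.1, ‖evP e.1 (ab I f)‖ ≤ 1 / ((k.2 : ℝ) + 1)) ∧ ε < ‖evP y (ab I f)‖ := by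
    intro k
    obtain ⟨P, hP, hP'⟩ := hc (Subtype.val '' (k.1 : Set Fam)) (k.1.finite_toSet.image _)
      (by rintro _ ⟨e, -, rfl⟩; exact e.2) (1 / ((k.2 : ℝ) + 1)) (by positivity)
    obtain ⟨f, rfl⟩ := ab_surjective I P
    exact ⟨f, fun e he => hP _ ⟨e, he, rfl⟩, hP'⟩
  choose f hf hfl using h1
  let 𝓤 : Ultrafilter (Finset Fam × ℕ) := Ultrafilter.of Filter.atTop
  have hU : (𝓤 : Filter (Finset Fam × ℕ)) ≤ Filter.atTop := Ultrafilter.of_le _
  obtain ⟨X, hX⟩ := exists_limit hfam.fin 𝓤 fun k => (⟨nc ℳ (f k), nc_mem ℳ (f k)⟩ : T0 ℳ)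
  refine ⟨X, fun z hz => ?_, ?_⟩
  · rw [← norm_eq_zero]
    refine le_antisymm (le_of_forall_pos_le_add fun η hη => ?_) (norm_nonneg _)
    rw [zero_add]
    obtain ⟨s, hs⟩ := chi_close hfam (hF hz) (half_pos hη)
    obtain ⟨N, hN⟩ := exists_nat_one_div_lt (half_pos hη)
    obtain ⟨k, hk1, hk2⟩ := ((hX s).and (hU (Filter.mem_atTop (({⟨z, hz⟩} : Finset Fam), N)))).exists
    have h3 := hs X _ hk1
    rw [chi_nc] at h3
    have h4 := hf k ⟨z, hz⟩ (hk2.1 (Finset.mem_singleton_self _))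
    have h5 : 1 / ((k.2 : ℝ) + 1) ≤ 1 / ((N : ℝ) + 1) := by
      have h6 : (N : ℝ) ≤ k.2 := by exact_mod_cast hk2.2
      exact one_div_le_one_div_of_le (by positivity) (by linarith)
    calc ‖chi hfam (hF hz) X‖ = ‖(chi hfam (hF hz) X - evP z (ab I (f k))) + evP z (ab I (f k))‖ := by
          rw [sub_add_cancel]
      _ ≤ ‖chi hfam (hF hz) X - evP z (ab I (f k))‖ + ‖evP z (ab I (f k))‖ := norm_add_le _ _
      _ ≤ η / 2 + η / 2 := add_le_add h3 ((h4.trans h5).trans hN.le)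
      _ = η := add_halves η
  · intro h0
    obtain ⟨s, hs⟩ := chi_close hfam hy (half_pos hε)
    obtain ⟨k, hk1⟩ := (hX s).exists
    have h3 := hs X _ hk1
    rw [chi_nc, h0, zero_sub, norm_neg] at h3
    have h4 := hfl k
    linarith

theorem isCompact_chi {y : I → Ω}
    (hy : y ∈ OccH ℳ fam) :
    IsCompact (Set.range (chi hfam hy)) := by
  classical
  rw [isCompact_iff_ultrafilter_le_nhds]
  intro 𝓤 hU
  have h1 : ∀ c : Ω, ∃ X : T0 ℳ, c ∈ Set.range (chi hfam hy) → chi hfam hy X = c := by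
    intro c
    by_cases hc : c ∈ Set.range (chi hfam hy)
    · obtain ⟨X, hX⟩ := hc
      exact ⟨X, fun _ => hX⟩
    · exact ⟨0, fun h => absurd h hc⟩
  choose g hg using h1
  obtain ⟨X, hX⟩ := exists_limit hfam.fin 𝓤 g
  refine ⟨chi hfam hy X, ⟨X, rfl⟩, ?_⟩
  rw [Metric.nhds_basis_closedBall.ge_iff]
  intro ε hε
  obtain ⟨s, hs⟩ := chi_close hfam hy hε
  have h2 : ∀ᶠ c in (𝓤 : Filter Ω), c ∈ Set.range (chi hfam hy) := hU (Filter.mem_principal_self _)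
  filter_upwards [hX s, h2] with c hc1 hc2
  have h3 := hs X (g c) hc1
  rw [hg c hc2] at h3
  rw [Metric.mem_closedBall, dist_comm, dist_eq_norm]
  exact h3

theorem exists_compact {y : I → Ω}
    (hy : y ∈ OccH ℳ fam) :
    ∃ C : Set Ω, IsCompact C ∧ ∀ P : MvPolynomial I ℤ, evP y P ∈ C := by
  refine ⟨Set.range (chi hfam hy), isCompact_chi hfam hy, fun P => ?_⟩
  obtain ⟨f, rfl⟩ := ab_surjective I P
  exact ⟨_, chi_nc hfam hy f⟩

end cont

end Pool.Agent.Lib.MP_666dc0_nt.CL
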