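import Pool.Agent.Lib.MP_666dc0_nt.CL.Defs

/-!
# CL, A5b: commuting endomorphisms of a finite-dimensional space
-/

namespace Pool.Agent.Lib.MP_666dc0_nt.CL

variable {Ω : Type} [NormedField Ω] {ι V : Type} [AddCommGroup V] [Module Ω V]

theorem mem_jointE {f : ι → Module.End Ω V} {y : ι → Ω} {x : V} :
    x ∈ jointE f y ↔ ∀ j, f j x = y j • x := by
  unfold jointE
  rw [Submodule.mem_iInf]
  exact forall_congr' fun j => Module.End.mem_eigenspace_iff

theorem mem_jointG {f : ι → Module.End Ω V} {y : ι → Ω} {x : V} :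
    x ∈ jointG f y ↔ ∀ j, x ∈ Module.End.maxGenEigenspace (f j) (y j) := by
  unfold jointG
  rw [Submodule.mem_iInf]

theorem jointE_le_jointG (f : ι → Module.End Ω V) (y : ι → Ω) : jointE f y ≤ jointG f y := by
  intro x hx
  rw [mem_jointE] at hx
  rw [mem_jointG]
  intro j
  rw [Module.End.mem_maxGenEigenspace]
  refine ⟨1, ?_⟩
  rw [pow_one, LinearMap.sub_apply, hx j, LinearMap.smul_apply, Module.End.one_apply, sub_self]

theorem pow_sub_apply {f : Module.End Ω V} {x : V} {a b : Ω} (h : f x = a • x) (k : ℕ) :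
    ((f - b • (1 : Module.End Ω V)) ^ k) x = (a - b) ^ k • x := by
  induction k with
  | zero => rw [pow_zero, pow_zero, one_smul, Module.End.one_apply]
  | succ k ih =>
    rw [pow_succ, Module.End.mul_apply, LinearMap.sub_apply, LinearMap.smul_apply,
      Module.End.one_apply, h, ← sub_smul, map_smul, ih, smul_smul, pow_succ, mul_comm]

theorem eq_of_mem_maxGen {f : Module.End Ω V} {x : V} (hx : x ≠ 0) {a b : Ω} (h : f x = a • x)
    (h' : x ∈ Module.End.maxGenEigenspace f b) : a = b := by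
  rw [Module.End.mem_maxGenEigenspace] at h'
  obtain ⟨k, hk⟩ := h'
  rw [pow_sub_apply h, smul_eq_zero] at hk
  rcases hk with hk | hk
  · by_contra hne
    exact pow_ne_zero k (sub_ne_zero.2 hne) hk
  · exact absurd hk hx

theorem mapsTo_jointG {f : ι → Module.End Ω V} {g : Module.End Ω V} (hg : ∀ j, Commute (f j) g)
    {y : ι → Ω} {x : V} (hx : x ∈ jointG f y) : g x ∈ jointG f y := by
  rw [mem_jointG] at hx ⊢
  exact fun j => Module.End.mapsTo_maxGenEigenspace_of_comm (hg j) (y j) (hx j)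

theorem mem_jointO {f : ι → Module.End Ω V} {y : ι → Ω} {N : ℕ} {x : V} :
    x ∈ jointO f y (N + 1) ↔ ∀ j, f j x - y j • x ∈ jointO f y N := by
  change x ∈ ⨅ j, (jointO f y N).comap (f j - y j • (1 : Module.End Ω V)) ↔ _
  rw [Submodule.mem_iInf]
  rfl

theorem jointO_one (f : ι → Module.End Ω V) (y : ι → Ω) : jointO f y 1 = jointE f y := by
  ext x
  rw [mem_jointO, mem_jointE]
  refine forall_congr' fun j => ?_
  change f j x - y j • x ∈ (⊥ : Submodule Ω V) ↔ _
  rw [Submodule.mem_bot, sub_eq_zero]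

theorem jointO_le_succ (f : ι → Module.End Ω V) (y : ι → Ω) (N : ℕ) :
    jointO f y N ≤ jointO f y (N + 1) := by
  induction N with
  | zero => exact bot_le
  | succ N ih =>
    intro x hx
    rw [mem_jointO] at hx ⊢
    exact fun j => ih (hx j)

theorem jointO_stable (f : ι → Module.End Ω V) (y : ι → Ω) (N : ℕ) (j : ι) {x : V}
    (hx : x ∈ jointO f y N) : f j x ∈ jointO f y N := by
  cases N with
  | zero =>
    have h1 : x = 0 := (Submodule.mem_bot Ω).1 hx
    rw [h1, map_zero]
    exact Submodule.zero_mem _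
  | succ N =>
    have h1 : f j x = (f j x - y j • x) + y j • x := by rw [sub_add_cancel]
    rw [h1]
    exact Submodule.add_mem _ (jointO_le_succ f y N (mem_jointO.1 hx j)) (Submodule.smul_mem _ _ hx)

theorem jointO_eq_bot {f : ι → Module.End Ω V} {y : ι → Ω} (h : jointE f y = ⊥) (N : ℕ) :
    jointO f y N = ⊥ := by
  induction N with
  | zero => rfl
  | succ N ih =>
    rw [eq_bot_iff, ← h]
    intro x hx
    rw [mem_jointO, ih] at hx
    rw [mem_jointE]
    exact fun j => sub_eq_zero.1 ((Submodule.mem_bot Ω).1 (hx j))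

/-- The order of vectors and polynomials in the operators. -/
theorem jointO_hom {T : Type*} [Ring T] (F : T →+* Module.End Ω V) (χ : T →+* Ω) (s : Set T)
    (hs : Subring.closure s = ⊤) {f : ι → Module.End Ω V} {y : ι → Ω}
    (h : ∀ t ∈ s, ∃ j, F t = f j ∧ χ t = y j) (t : T) (N : ℕ) :
    (∀ x ∈ jointO f y N, F t x ∈ jointO f y N) ∧
      ∀ x ∈ jointO f y (N + 1), F t x - χ t • x ∈ jointO f y N := by
  have ht : t ∈ Subring.closure s := by rw [hs]; exact Subring.mem_top t
  induction ht using Subring.closure_induction with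
  | mem t ht =>
    obtain ⟨j, hj, hj'⟩ := h t ht
    rw [hj, hj']
    exact ⟨fun x hx => jointO_stable f y N j hx, fun x hx => mem_jointO.1 hx j⟩
  | zero =>
    rw [map_zero, map_zero]
    refine ⟨fun x _ => ?_, fun x _ => ?_⟩
    · rw [LinearMap.zero_apply]
      exact Submodule.zero_mem _
    · rw [LinearMap.zero_apply, zero_smul, sub_zero]
      exact Submodule.zero_mem _
  | one =>
    rw [map_one, map_one]
    refine ⟨fun x hx => hx, fun x _ => ?_⟩
    rw [Module.End.one_apply, one_smul, sub_self]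
    exact Submodule.zero_mem _
  | add a b _ _ iha ihb =>
    rw [map_add, map_add]
    refine ⟨fun x hx => Submodule.add_mem _ (iha.1 x hx) (ihb.1 x hx), fun x hx => ?_⟩
    rw [LinearMap.add_apply, add_smul, add_sub_add_comm]
    exact Submodule.add_mem _ (iha.2 x hx) (ihb.2 x hx)
  | neg a _ iha =>
    rw [map_neg, map_neg]
    refine ⟨fun x hx => Submodule.neg_mem _ (iha.1 x hx), fun x hx => ?_⟩
    have h1 := Submodule.neg_mem _ (iha.2 x hx)
    have h2 : (-F a) x - -χ a • x = -(F a x - χ a • x) := by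
      rw [LinearMap.neg_apply, neg_smul]
      abel
    rw [h2]
    exact h1
  | mul a b _ _ iha ihb =>
    rw [map_mul, map_mul]
    refine ⟨fun x hx => iha.1 _ (ihb.1 x hx), fun x hx => ?_⟩
    have h1 : (F a * F b) x - (χ a * χ b) • x = F a (F b x - χ b • x) + χ b • (F a x - χ a • x) := by
      rw [Module.End.mul_apply, map_sub, map_smul, smul_sub, smul_smul, mul_comm (χ b) (χ a)]
      abel
    rw [h1]
    exact Submodule.add_mem _ (iha.1 _ (ihb.2 x hx)) (Submodule.smul_mem _ _ (iha.2 x hx))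

section fd

variable [FiniteDimensional Ω V]

theorem exists_joint [IsAlgClosed Ω] {f : ι → Module.End Ω V} (hf : ∀ j k, Commute (f j) (f k))
    {K : Submodule Ω V} (hK : K ≠ ⊥) (hs : ∀ j, ∀ x ∈ K, f j x ∈ K) :
    ∃ (y : ι → Ω) (x : V), x ∈ K ∧ x ≠ 0 ∧ ∀ j, f j x = y j • x := by
  obtain ⟨W, ⟨hW0, hWK, hWs⟩, hmin⟩ := IsArtinian.set_has_minimal (R := Ω) (M := V)
    {W : Submodule Ω V | W ≠ ⊥ ∧ W ≤ K ∧ ∀ j, ∀ x ∈ W, f j x ∈ W} ⟨K, hK, le_rfl, hs⟩
  have h1 : ∀ j, ∃ μ : Ω, ∀ x ∈ W, f j x = μ • x := by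
    intro j
    have hnt : Nontrivial W := Submodule.nontrivial_iff_ne_bot.2 hW0
    obtain ⟨μ, hμ⟩ := Module.End.exists_eigenvalue ((f j).restrict (hWs j))
    obtain ⟨v, hv⟩ := hμ.exists_hasEigenvector
    have hv1 : f j v.1 = μ • v.1 := congrArg Subtype.val (Module.End.mem_eigenspace_iff.1 hv.1)
    have hv0 : v.1 ≠ 0 := fun h => hv.2 (Subtype.ext h)
    refine ⟨μ, ?_⟩
    have h2 : W ⊓ Module.End.eigenspace (f j) μ = W := by
      by_contra hcon
      have h3 : W ⊓ Module.End.eigenspace (f j) μ < W := lt_of_le_of_ne inf_le_left hcon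
      refine hmin _ ⟨?_, inf_le_left.trans hWK, fun k x hx => ?_⟩ h3
      · intro h4
        have h5 : v.1 ∈ W ⊓ Module.End.eigenspace (f j) μ :=
          ⟨v.2, Module.End.mem_eigenspace_iff.2 hv1⟩
        rw [h4] at h5
        exact hv0 ((Submodule.mem_bot Ω).1 h5)
      · refine ⟨hWs k x hx.1, ?_⟩
        have h4 : f j x = μ • x := Module.End.mem_eigenspace_iff.1 hx.2
        rw [SetLike.mem_coe, Module.End.mem_eigenspace_iff]
        have h5 := LinearMap.congr_fun (hf j k).eq x
        rw [Module.End.mul_apply, Module.End.mul_apply, h4, map_smul] at h5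
        exact h5
    intro x hx
    rw [← h2] at hx
    exact Module.End.mem_eigenspace_iff.1 hx.2
  choose y hy using h1
  obtain ⟨x, hx, hx0⟩ := Submodule.exists_mem_ne_zero_of_ne_bot hW0
  exact ⟨y, x, hWK hx, hx0, fun j => hy j x hx⟩

theorem jointE_ne_bot [IsAlgClosed Ω] {f : ι → Module.End Ω V} (hf : ∀ j k, Commute (f j) (f k))
    {y : ι → Ω} (h : jointG f y ≠ ⊥) : jointE f y ≠ ⊥ := by
  obtain ⟨z, x, hx, hx0, hz⟩ := exists_joint hf h fun j x hx => mapsTo_jointG (fun k => hf k j) hx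
  have h1 : z = y := funext fun j => eq_of_mem_maxGen hx0 (hz j) (mem_jointG.1 hx j)
  rw [h1] at hz
  intro h2
  have h3 : x ∈ jointE f y := mem_jointE.2 hz
  rw [h2] at h3
  exact hx0 ((Submodule.mem_bot Ω).1 h3)

omit [FiniteDimensional Ω V] in
theorem indep_jointG {f : ι → Module.End Ω V} (hf : ∀ j k, Commute (f j) (f k)) :
    iSupIndep fun y : ι → Ω => jointG f y :=
  Module.End.independent_iInf_maxGenEigenspace_of_forall_mapsTo f fun j k φ =>
    Module.End.mapsTo_maxGenEigenspace_of_comm (hf k j) φ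

theorem finite_jointG {f : ι → Module.End Ω V} (hf : ∀ j k, Commute (f j) (f k)) :
    {y : ι → Ω | jointG f y ≠ ⊥}.Finite :=
  WellFoundedGT.finite_ne_bot_of_iSupIndep (indep_jointG hf)

theorem iSup_jointG [IsAlgClosed Ω] {f : ι → Module.End Ω V} (hf : ∀ j k, Commute (f j) (f k)) :
    ⨆ y : ι → Ω, jointG f y = ⊤ :=
  Module.End.iSup_iInf_maxGenEigenspace_eq_top_of_forall_mapsTo f
    (fun j k φ => Module.End.mapsTo_maxGenEigenspace_of_comm (hf k j) φ)
    fun j => Module.End.iSup_maxGenEigenspace_eq_top (f j)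

end fd

/-- Avoidance: finitely many non-zero additive maps do not vanish simultaneously at some point. -/
theorem exists_avoid {T κ : Type*} [AddCommGroup T] [CharZero Ω] (J : AddSubgroup T)
    (χ : κ → T →+ Ω) (s : Finset κ) (h : ∀ y ∈ s, ∃ X ∈ J, χ y X ≠ 0) :
    ∃ X ∈ J, ∀ y ∈ s, χ y X ≠ 0 := by
  classical
  induction s using Finset.induction_on with
  | empty => exact ⟨0, J.zero_mem, fun y hy => absurd hy (Finset.notMem_empty y)⟩
  | insert y₀ s hy₀ ih =>
    obtain ⟨u, hu, hus⟩ := ih fun y hy => h y (Finset.mem_insert_of_mem hy)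
    obtain ⟨v, hv, hv0⟩ := h y₀ (Finset.mem_insert_self _ _)
    have hbad : (⋃ y ∈ insert y₀ s, {c : ℕ | χ y u + c * χ y v = 0}).Finite := by
      refine Set.Finite.biUnion (Finset.finite_toSet (insert y₀ s)) fun y hy => ?_
      refine Set.Subsingleton.finite fun c hc c' hc' => ?_
      have h1 : χ y u + c * χ y v = 0 := hc
      have h2 : χ y u + c' * χ y v = 0 := hc'
      by_cases hv1 : χ y v = 0
      · rw [hv1, mul_zero, add_zero] at h1
        rcases Finset.mem_insert.1 hy with rfl | hy'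
        · exact absurd hv1 hv0
        · exact absurd h1 (hus y hy')
      · have h3 : ((c : Ω) - c') * χ y v = 0 := by linear_combination h1 - h2
        rcases mul_eq_zero.1 h3 with h4 | h4
        · exact_mod_cast sub_eq_zero.1 h4
        · exact absurd h4 hv1
    obtain ⟨c, hc⟩ := hbad.exists_notMem
    refine ⟨u + c • v, J.add_mem hu (J.nsmul_mem hv c), fun y hy h0 => hc ?_⟩
    rw [Set.mem_iUnion₂]
    refine ⟨y, hy, ?_⟩
    rw [map_add, map_nsmul, nsmul_eq_mul] at h0
    exact h0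

end Pool.Agent.Lib.MP_666dc0_nt.CL
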