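import Pool.Agent.Lib.MP_666dc0_nt.CL.A5
import Pool.Agent.Lib.MP_666dc0_nt.CL.A5b
import Pool.Agent.Lib.MP_666dc0_nt.CL.A3b
import Pool.Agent.Lib.MP_666dc0_nt.CL.A3c
import Pool.Agent.Lib.MP_666dc0_nt.FM.C0

/-!
# CL, A6: the law for the cohomology of a complex of free modules
-/

namespace Pool.Agent.Lib.MP_666dc0_nt.CL

open FM

variable {𝒯 : RTow} {I : Type} {ℳ : Mats 𝒯 I} {Ω : Type} [NormedField Ω] {ℓ : ℕ}
  {fam : MFam 𝒯.Lim Ω ℓ}

/-- The operators. -/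
noncomputable abbrev gop (ℳ : Mats 𝒯 I) (fam : MFam 𝒯.Lim Ω ℓ) (i : fam.ix) (j : I) :
    Module.End Ω (ℳ.H fam i) := (ℳ.ch j).op fam i

theorem gop_eq (i : fam.ix) (j : I) : gop ℳ fam i j = opH fam i (gen ℳ j) := rfl

theorem gop_comm (i : fam.ix) (j k : I) : Commute (gop ℳ fam i j) (gop ℳ fam i k) := by
  rw [gop_eq, gop_eq]
  exact gen_comm i j k

theorem gop_T0 (hfam : FOk fam) (i : fam.ix) (j : I) {X : ChS ℳ} (hX : X ∈ T0 ℳ) :
    Commute (gop ℳ fam i j) (opH fam i X) := by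
  have h := T0_comm (ℳ := ℳ) hfam i (gen_mem ℳ j) hX
  rw [← gop_eq] at h
  exact h

theorem mem_occH [IsAlgClosed Ω] {i : fam.ix} {y : I → Ω} (h : jointG (gop ℳ fam i) y ≠ ⊥) :
    y ∈ OccH ℳ fam := ⟨i, jointE_ne_bot (gop_comm i) h⟩

variable (ℳ fam) in
/-- The span of the generalised eigenspaces for the systems outside `p`. -/
noncomputable def GS (p : Set (I → Ω)) (i : fam.ix) : Submodule Ω (ℳ.H fam i) :=
  ⨆ y ∈ pᶜ, jointG (gop ℳ fam i) y

variable (hfam : FOk fam)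

include hfam in
theorem G_stable (p : Set (I → Ω)) {X : ChS ℳ} (hX : X ∈ T0 ℳ) (i : fam.ix) {x : ℳ.H fam i}
    (hx : x ∈ GS ℳ fam p i) : opH fam i X x ∈ GS ℳ fam p i := by
  have h1 : GS ℳ fam p i ≤ (GS ℳ fam p i).comap (opH fam i X) := by
    refine iSup₂_le fun y hy x hx => ?_
    have h2 : opH fam i X x ∈ jointG (gop ℳ fam i) y :=
      mapsTo_jointG (fun j => gop_T0 hfam i j hX) hx
    exact (le_iSup₂ (f := fun y (_ : y ∈ pᶜ) => jointG (gop ℳ fam i) y) y hy) h2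
  exact h1 hx

/-- Controlled systems. -/
theorem le_of_zero {Fam : Set (I → Ω)} {y : I → Ω} (hF : Fam ⊆ OccH ℳ fam)
    (hy : y ∈ OccH ℳ fam) (hc : Ctl Fam y) (X : T0 ℳ)
    (hX : ∀ z (hz : z ∈ Fam), chi hfam (hF hz) X = 0) : chi hfam hy X = 0 := by
  classical
  rw [← norm_eq_zero]
  refine le_antisymm (le_of_forall_pos_le_add fun ε hε => ?_) (norm_nonneg _)
  rw [zero_add]
  obtain ⟨J, hJ, hJF, δ, hδ, hP⟩ := hc (ε / 2) (half_pos hε)
  have h1 : ∀ z : I → Ω, ∃ s, ∀ hz : z ∈ Fam, ∀ X X' : T0 ℳ, lv3 ℳ s X.1.1 = lv3 ℳ s X'.1.1 →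
      ‖chi hfam (hF hz) X - chi hfam (hF hz) X'‖ ≤ δ := by
    intro z
    by_cases hz : z ∈ Fam
    · obtain ⟨s, hs⟩ := chi_close hfam (hF hz) hδ
      exact ⟨s, fun _ => hs⟩
    · exact ⟨0, fun h => absurd h hz⟩
  choose s hs using h1
  obtain ⟨s', hs'⟩ := chi_close hfam hy (half_pos hε)
  obtain ⟨f, hf⟩ := X.2 (max (hJ.toFinset.sup s) s')
  have h2 : ‖evP y (ab I f)‖ ≤ ε / 2 := by
    refine hP _ fun e he => ?_
    have h3 := hs e (hJF he) X ⟨nc ℳ f, nc_mem ℳ f⟩ (lv3_eq_le ℳ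
      ((Finset.le_sup (hJ.mem_toFinset.2 he)).trans (le_max_left _ _)) hf)
    rwa [hX e (hJF he), chi_nc, zero_sub, norm_neg] at h3
  have h3 := hs' X ⟨nc ℳ f, nc_mem ℳ f⟩ (lv3_eq_le ℳ (le_max_right _ _) hf)
  rw [chi_nc] at h3
  calc ‖chi hfam hy X‖ = ‖(chi hfam hy X - evP y (ab I f)) + evP y (ab I f)‖ := by
        rw [sub_add_cancel]
    _ ≤ ‖chi hfam hy X - evP y (ab I f)‖ + ‖evP y (ab I f)‖ := norm_add_le _ _
    _ ≤ ε / 2 + ε / 2 := add_le_add h3 h2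
    _ = ε := add_halves ε

theorem closure_ι (I : Type) :
    Subring.closure (Set.range (FreeAlgebra.ι ℤ : I → FreeAlgebra ℤ I)) = ⊤ := by
  rw [eq_top_iff]
  intro f _
  induction f using FreeAlgebra.induction with
  | grade0 a =>
    have h1 : (algebraMap ℤ (FreeAlgebra ℤ I) a) = ((a : ℤ) : FreeAlgebra ℤ I) := eq_intCast _ a
    rw [h1]
    exact intCast_mem _ a
  | grade1 j => exact Subring.subset_closure ⟨j, rfl⟩
  | mul a b ha hb => exact Subring.mul_mem _ (ha (Subring.mem_top a)) (hb (Subring.mem_top b))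
  | add a b ha hb => exact Subring.add_mem _ (ha (Subring.mem_top a)) (hb (Subring.mem_top b))

theorem jointO_nc (i : fam.ix) (y : I → Ω) (f : FreeAlgebra ℤ I) (N : ℕ) {x : ℳ.H fam i}
    (hx : x ∈ jointO (gop ℳ fam i) y (N + 1)) :
    opH fam i (nc ℳ f) x - evP y (ab I f) • x ∈ jointO (gop ℳ fam i) y N := by
  refine (jointO_hom ((opH fam i).comp (nc ℳ : FreeAlgebra ℤ I →+* ChS ℳ))
    ((evP y).comp (ab I : FreeAlgebra ℤ I →+* MvPolynomial I ℤ))
    (Set.range (FreeAlgebra.ι ℤ)) (closure_ι I) (f := gop ℳ fam i) (y := y) ?_ f N).2 x hx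
  rintro _ ⟨j, rfl⟩
  refine ⟨j, ?_, ?_⟩
  · change opH fam i (nc ℳ (FreeAlgebra.ι ℤ j)) = _
    rw [nc_ι, gop_eq]
  · change evP y (ab I (FreeAlgebra.ι ℤ j)) = y j
    have h3 : ab I (FreeAlgebra.ι ℤ j) = MvPolynomial.X j := FreeAlgebra.lift_ι_apply _ _
    rw [h3]
    unfold evP
    rw [MvPolynomial.coe_eval₂Hom, MvPolynomial.eval₂_X]

/-- Elements of the closed ring and the order of vectors. -/
theorem jointO_T0 {y : I → Ω} (hy : y ∈ OccH ℳ fam) (X : T0 ℳ) (i : fam.ix) (N : ℕ)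
    {x : ℳ.H fam i} (hx : x ∈ jointO (gop ℳ fam i) y (N + 1)) :
    opH fam i X.1 x - chi hfam hy X • x ∈ jointO (gop ℳ fam i) y N := by
  have key : ∀ g : Module.Dual Ω (ℳ.H fam i), (∀ v ∈ jointO (gop ℳ fam i) y N, g v = 0) →
      g (opH fam i X.1 x - chi hfam hy X • x) = 0 := by
    intro g hg
    rw [← norm_eq_zero]
    refine le_antisymm (le_of_forall_pos_le_add fun ε hε => ?_) (norm_nonneg _)
    rw [zero_add]
    have hgx : (0 : ℝ) < ‖g x‖ + 1 := by positivity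
    obtain ⟨s, hs⟩ := small_H (ℳ := ℳ) hfam i g x (half_pos hε)
    obtain ⟨s', hs'⟩ := chi_close hfam hy (div_pos (half_pos hε) hgx)
    obtain ⟨f, hf⟩ := X.2 (max s s')
    have h0 : lv3 ℳ (max s s') (X.1 - nc ℳ f : ChS ℳ).1 = 0 := by
      have h3 : (X.1 - nc ℳ f : ChS ℳ).1 = X.1.1 - (nc ℳ f).1 := rfl
      rw [h3, map_sub, hf, sub_self]
    have h1 := hs _ (lv3_zero_le ℳ (le_max_left s s') h0)
    have h2 := hs' X ⟨nc ℳ f, nc_mem ℳ f⟩ (lv3_eq_le ℳ (le_max_right s s') hf)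
    rw [chi_nc] at h2
    have h3 := hg _ (jointO_nc i y f N hx)
    rw [map_sub, LinearMap.sub_apply] at h1
    have h4 : g (opH fam i X.1 x - chi hfam hy X • x) =
        g (opH fam i X.1 x - opH fam i (nc ℳ f) x) - (chi hfam hy X - evP y (ab I f)) * g x := by
      rw [map_sub, map_smul, smul_eq_mul, sub_eq_zero] at h3
      rw [map_sub, map_smul, smul_eq_mul, map_sub, h3]
      ring
    rw [h4]
    refine (norm_sub_le _ _).trans ?_
    rw [norm_mul]
    calc ‖g (opH fam i X.1 x - opH fam i (nc ℳ f) x)‖ + ‖chi hfam hy X - evP y (ab I f)‖ * ‖g x‖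
        ≤ ε / 2 + ε / 2 / (‖g x‖ + 1) * (‖g x‖ + 1) :=
          add_le_add h1 (mul_le_mul h2 (by linarith) (norm_nonneg _) (by positivity))
      _ = ε := by
        rw [div_mul_cancel₀ _ hgx.ne']
        ring
  by_contra hne
  have h5 : (jointO (gop ℳ fam i) y N).dualAnnihilator.dualCoannihilator =
      jointO (gop ℳ fam i) y N := Subspace.dualAnnihilator_dualCoannihilator_eq
  refine hne ?_
  rw [← h5, Submodule.mem_dualCoannihilator]
  exact fun g hg => key g ((Submodule.mem_dualAnnihilator g).1 hg)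

section primes

variable {k : ℕ} (P : Fin k → AddSubgroup (T0 ℳ)) (hP : ∀ j, IsPr (P j))

/-- The systems killed by a prime. -/
def ZZ (j : Fin k) : Set (I → Ω) :=
  {z | ∃ hz : z ∈ OccH ℳ fam, ∀ X ∈ P j, chi hfam hz X = 0}

theorem isCl_ZZ (j : Fin k) :
    IsCl (fun i => ℳ.H fam i) (fun i j => (ℳ.ch j).op fam i) (ZZ hfam P j) := by
  intro y hy hc
  have hy' : y ∈ OccH ℳ fam := hy
  refine ⟨hy', fun X hX => ?_⟩
  refine le_of_zero hfam (Fam := ZZ hfam P j ∩ OccH ℳ fam) (fun z hz => hz.2) hy' hc X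
    fun z hz => ?_
  obtain ⟨h1, h2⟩ := hz.1
  exact h2 X hX

/-- The elements which are killed by the characters in `p`, in the primes `P j`, `ZZ j ⊆ p`. -/
noncomputable def Jq (p : Set (I → Ω)) : AddSubgroup (T0 ℳ) where
  carrier := {X | (∀ z (hz : z ∈ OccH ℳ fam), z ∈ p → chi hfam hz X = 0) ∧
    ∀ j, ZZ hfam P j ⊆ p → X ∈ P j}
  zero_mem' := ⟨fun z hz _ => map_zero (chi hfam hz), fun j _ => (P j).zero_mem⟩
  add_mem' := by
    rintro a b ⟨ha, ha'⟩ ⟨hb, hb'⟩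
    refine ⟨fun z hz hzp => ?_, fun j hj => (P j).add_mem (ha' j hj) (hb' j hj)⟩
    rw [map_add, ha z hz hzp, hb z hz hzp, add_zero]
  neg_mem' := by
    rintro a ⟨ha, ha'⟩
    refine ⟨fun z hz hzp => ?_, fun j hj => (P j).neg_mem (ha' j hj)⟩
    rw [map_neg, ha z hz hzp, neg_zero]

include hP in
theorem Jq_mul {p : Set (I → Ω)} (X : T0 ℳ) {Y : T0 ℳ} (hY : Y ∈ Jq hfam P p) :
    X * Y ∈ Jq hfam P p :=
  ⟨fun z hz hzp => by rw [map_mul, hY.1 z hz hzp, mul_zero],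
    fun j hj => (hP j).left _ _ (hY.2 j hj)⟩

include hP in
/-- There are enough elements. -/
theorem exists_Jq {p : Set (I → Ω)}
    (hp : IsCl (fun i => ℳ.H fam i) (fun i j => (ℳ.ch j).op fam i) p) {y : I → Ω}
    (hy : y ∈ OccH ℳ fam) (hyp : y ∉ p) : ∃ X ∈ Jq hfam P p, chi hfam hy X ≠ 0 := by
  classical
  have h1 : ∀ s : Finset (Fin k), (∀ j ∈ s, ZZ hfam P j ⊆ p) → ∃ X : T0 ℳ,
      (∀ z (hz : z ∈ OccH ℳ fam), z ∈ p → chi hfam hz X = 0) ∧ (∀ j ∈ s, X ∈ P j) ∧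
        chi hfam hy X ≠ 0 := by
    intro s
    induction s using Finset.induction_on with
    | empty =>
      intro _
      obtain ⟨t, ht, ht'⟩ := exists_separating hfam (Fam := p ∩ OccH ℳ fam)
        (fun z hz => hz.2) hy fun hc => hyp (hp y hy hc)
      exact ⟨t, fun z hz hzp => ht z ⟨hzp, hz⟩, fun j hj => absurd hj (Finset.notMem_empty j), ht'⟩
    | insert j₀ s hj₀ ih =>
      intro hs
      obtain ⟨X, hX1, hX2, hX3⟩ := ih fun j hj => hs j (Finset.mem_insert_of_mem hj)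
      have h2 : y ∉ ZZ hfam P j₀ := fun h => hyp (hs j₀ (Finset.mem_insert_self _ _) h)
      have h3 : ∃ Y ∈ P j₀, chi hfam hy Y ≠ 0 := by
        by_contra hcon
        push Not at hcon
        exact h2 ⟨hy, hcon⟩
      obtain ⟨Y, hY, hY'⟩ := h3
      refine ⟨X * Y, fun z hz hzp => by rw [map_mul, hX1 z hz hzp, zero_mul], fun j hj => ?_, ?_⟩
      · rcases Finset.mem_insert.1 hj with rfl | hj
        · exact (hP j).left _ _ hY
        · exact (hP j).right _ _ (hX2 j hj)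
      · rw [map_mul]
        exact mul_ne_zero hX3 hY'
  obtain ⟨X, hX1, hX2, hX3⟩ := h1 (Finset.univ.filter fun j => ZZ hfam P j ⊆ p)
    fun j hj => (Finset.mem_filter.1 hj).2
  exact ⟨X, ⟨hX1, fun j hj => hX2 j (Finset.mem_filter.2 ⟨Finset.mem_univ j, hj⟩)⟩, hX3⟩

theorem Jq_kill {p : Set (I → Ω)} {X : T0 ℳ} (hX : X ∈ Jq hfam P p) (i : fam.ix) (N : ℕ) :
    (⨆ y ∈ p, jointO (gop ℳ fam i) y N) ≤ LinearMap.ker (opH fam i X.1 ^ N) := by
  refine iSup₂_le fun y hy => ?_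
  by_cases hocc : y ∈ OccH ℳ fam
  · induction N with
    | zero => exact bot_le
    | succ N ih =>
      intro x hx
      have h1 := jointO_T0 hfam hocc X i N hx
      rw [hX.1 y hocc hy, zero_smul, sub_zero] at h1
      have h2 := ih h1
      rw [LinearMap.mem_ker] at h2 ⊢
      rw [pow_succ, Module.End.mul_apply]
      exact h2
  · have h1 : jointE (gop ℳ fam i) y = ⊥ := by
      by_contra hne
      exact hocc ⟨i, hne⟩
    rw [jointO_eq_bot h1]
    exact bot_le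

include hP in
theorem exists_inj [IsAlgClosed Ω] [CharZero Ω] {p : Set (I → Ω)}
    (hp : IsCl (fun i => ℳ.H fam i) (fun i j => (ℳ.ch j).op fam i) p) (i : fam.ix) :
    ∃ X ∈ Jq hfam P p, ∀ x ∈ GS ℳ fam p i, opH fam i X.1 x = 0 → x = 0 := by
  classical
  have hfin : {y : {y // y ∈ OccH ℳ fam} | y.1 ∉ p ∧ jointG (gop ℳ fam i) y.1 ≠ ⊥}.Finite := by
    refine ((finite_jointG (gop_comm (ℳ := ℳ) i)).preimage
      (f := Subtype.val) (Subtype.val_injective.injOn)).subset ?_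
    exact fun y hy => hy.2
  obtain ⟨X, hX, hX'⟩ := exists_avoidP (T := T0 ℳ) (Jq hfam P p)
    (fun y : {y // y ∈ OccH ℳ fam} => (chi hfam y.2).toAddMonoidHom.ker) (by
      intro y n hn x hx
      rw [AddMonoidHom.mem_ker, map_nsmul, smul_eq_zero] at hx
      exact hx.resolve_left hn) hfin.toFinset (by
      intro y hy
      rw [Set.Finite.mem_toFinset] at hy
      obtain ⟨t, ht, ht'⟩ := exists_Jq hfam P hP hp y.2 hy.1
      exact ⟨t, ht, ht'⟩)
  refine ⟨X, hX, fun x hx hx0 => ?_⟩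
  by_contra hne
  have hK : GS ℳ fam p i ⊓ LinearMap.ker (opH fam i X.1) ≠ ⊥ := by
    intro h
    have h1 : x ∈ GS ℳ fam p i ⊓ LinearMap.ker (opH fam i X.1) := ⟨hx, hx0⟩
    rw [h] at h1
    exact hne ((Submodule.mem_bot Ω).1 h1)
  obtain ⟨z, v, hv, hv0, hz⟩ := exists_joint (gop_comm (ℳ := ℳ) i) hK (by
    intro j x hx
    have h3 : opH fam i (gen ℳ j) x ∈ GS ℳ fam p i := G_stable hfam p (gen_mem ℳ j) i hx.1
    rw [← gop_eq] at h3
    refine ⟨h3, ?_⟩
    have h1 := LinearMap.congr_fun (gop_T0 hfam i j X.2).eq x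
    have h2 : opH fam i X.1 x = 0 := hx.2
    rw [Module.End.mul_apply, Module.End.mul_apply, h2, map_zero] at h1
    exact h1.symm)
  have hvE : v ∈ jointE (gop ℳ fam i) z := mem_jointE.2 hz
  have hvG : v ∈ jointG (gop ℳ fam i) z := jointE_le_jointG _ _ hvE
  have hG0 : jointG (gop ℳ fam i) z ≠ ⊥ := by
    intro h
    rw [h] at hvG
    exact hv0 ((Submodule.mem_bot Ω).1 hvG)
  have hzp : z ∉ p := by
    intro hzp
    have h1 := (indep_jointG (gop_comm (ℳ := ℳ) i)).disjoint_biSup (x := z) (y := pᶜ)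
      fun h => h hzp
    exact hv0 ((Submodule.disjoint_def.1 h1) v hvG hv.1)
  have hocc : z ∈ OccH ℳ fam := mem_occH hG0
  have h1 := hX' ⟨z, hocc⟩ (by
    rw [Set.Finite.mem_toFinset]
    exact ⟨hzp, hG0⟩)
  have h2 : opH fam i X.1 v = chi hfam hocc X • v := op_chi hfam hocc X hvE
  have h3 : opH fam i X.1 v = 0 := hv.2
  rw [h3] at h2
  exact h1 ((smul_eq_zero.1 h2.symm).resolve_right hv0)

end primes

section hom

variable {D : Type} [DivisionRing D]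
  (φ : 𝒯.Lim →+* D) (hφ : Function.Injective φ)
  (hden : ∀ s : Finset D, ∃ a : 𝒯.Lim, a ≠ 0 ∧ ∀ y ∈ s, ∃ b : 𝒯.Lim, φ a * y = φ b)

include hφ hden hfam in
theorem dR_T0_comm (X Y : T0 ℳ) : Commute (dR φ X.1) (dR φ Y.1) :=
  dR_commute φ hφ hden hfam fun i => T0_comm hfam i X.2 Y.2

/-- The action of the ring `T0` over the division ring. -/
noncomputable def dRhom : T0 ℳ →+* Module.End D (HD ℳ φ) where
  toFun X := dR φ X.1
  map_one' := dR_one φ
  map_mul' X Y := by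
    have h1 : dR φ (X.1 * Y.1) = dR φ Y.1 * dR φ X.1 := dR_mul φ X.1 Y.1
    have h2 := (dR_T0_comm hfam φ hφ hden X Y).eq
    rw [h2, ← h1]
    rfl
  map_zero' := dR_zero φ
  map_add' X Y := dR_add φ X.1 Y.1

end hom

theorem law_H {𝒯 : RTow} {I : Type} (ℳ : Mats 𝒯 I) {Ω : Type} [NormedField Ω] [IsAlgClosed Ω]
    [CharZero Ω] {ℓ : ℕ} (fam : MFam 𝒯.Lim Ω ℓ) (hfam : FOk fam) [NoZeroDivisors 𝒯.Lim]
    [CharZero 𝒯.Lim] [Nontrivial 𝒯.Lim] (hn : IsNoetherianRing 𝒯.Lim) (ho : LeftOre 𝒯.Lim) :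
    ∃ r, Law (fun i => ℳ.H fam i) (fun i j => (ℳ.ch j).op fam i) ℓ fam.dep
      (fun i => Module.finrank Ω (fam.W i)) r := by
  classical
  obtain ⟨D, _, φ, hφ, hden⟩ := exists_division ho
  have hc0 : CharZero D := by
    constructor
    intro a b hab
    have h1 : φ (a : 𝒯.Lim) = φ (b : 𝒯.Lim) := by rw [map_natCast, map_natCast, hab]
    exact_mod_cast hφ h1
  refine ⟨hh ℳ φ, ?_, ?_, fun y hy => exists_compact hfam hy⟩
  · obtain ⟨C, hC⟩ := dimH_leq ℳ φ fam hφ hden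
    obtain ⟨C', hC'⟩ := leq_dimH ℳ φ fam hφ hden
    refine ⟨max C C', fun i => abs_le.2 ⟨?_, ?_⟩⟩
    · have h1 := hC' i
      have h2 : C' / (ℓ : ℝ) ^ fam.dep i * Module.finrank Ω (fam.W i) ≤
          max C C' / (ℓ : ℝ) ^ fam.dep i * Module.finrank Ω (fam.W i) := by
        gcongr
        exact le_max_right _ _
      linarith
    · have h1 := hC i
      have h2 : C / (ℓ : ℝ) ^ fam.dep i * Module.finrank Ω (fam.W i) ≤
          max C C' / (ℓ : ℝ) ^ fam.dep i * Module.finrank Ω (fam.W i) := by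
        gcongr
        exact le_max_left _ _
      linarith
  · obtain ⟨k, P, b, hb, hbs, hP, hrk⟩ := exists_primes (hh ℳ φ) (HD ℳ φ)
      (dRhom hfam φ hφ hden) rfl (dR_T0_comm hfam φ hφ hden)
    have hsrk : ∀ X : T0 ℳ, srk (dR φ X.1) = ∑ j with X ∉ P j, b j := fun X =>
      hrk X (hh ℳ φ) le_rfl
    refine ⟨k, ZZ hfam P, b, hb, hbs, fun j z hz => hz.1, isCl_ZZ hfam P, fun p hp => ?_⟩
    obtain ⟨e, he, ⟨t, ht, het⟩, hmax, ⟨C, hC⟩, ⟨C', hC'⟩⟩ := ideal_law (fam := fam) φ hφ hden hfam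
      hc0 hn (T0 ℳ : Set (ChS ℳ)) ((Jq hfam P p).map (T0 ℳ).subtype.toAddMonoidHom)
      (fun X hX => by
        obtain ⟨Y, -, rfl⟩ := hX
        exact Y.2)
      (fun X hX Y hY => by
        obtain ⟨Y, hY, rfl⟩ := hY
        exact ⟨⟨X, hX⟩ * Y, Jq_mul hfam P hP _ hY, rfl⟩)
      (fun c => natCast_mem (T0 ℳ) c) (fun i X hX Y hY => T0_comm hfam i hX hY)
    -- the value of `e`
    have hev : e = ∑ j with ¬ ZZ hfam P j ⊆ p, b j := by
      apply le_antisymm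
      · obtain ⟨t, ht, rfl⟩ := ht
        rw [← het]
        change srk (dR φ t.1) ≤ _
        rw [hsrk]
        refine Finset.sum_le_sum_of_subset fun j hj => ?_
        rw [Finset.mem_filter] at hj ⊢
        exact ⟨hj.1, fun h => hj.2 (ht.2 j h)⟩
      · obtain ⟨X, hX, hX'⟩ := exists_avoidP (T := T0 ℳ) (Jq hfam P p) P
          (fun j n hn x hx => (hP j).tf hn hx) (Finset.univ.filter fun j => ¬ ZZ hfam P j ⊆ p) (by
            intro j hj
            obtain ⟨z, hz, hzp⟩ := Set.not_subset.1 (Finset.mem_filter.1 hj).2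
            obtain ⟨hzo, hz⟩ := hz
            obtain ⟨X, hX, hX'⟩ := exists_Jq hfam P hP hp hzo hzp
            exact ⟨X, hX, fun h => hX' (hz X h)⟩)
        have h1 : srk (dR φ X.1) ≤ e := hmax X.1 ⟨X, hX, rfl⟩
        rw [hsrk] at h1
        refine le_trans (Finset.sum_le_sum_of_subset fun j hj => ?_) h1
        rw [Finset.mem_filter]
        exact ⟨Finset.mem_univ j, hX' j hj⟩
    have hsum : (∑ j with ZZ hfam P j ⊆ p, b j) + e = hh ℳ φ := by
      rw [hev, Finset.sum_filter_add_sum_filter_not]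
      exact hbs
    refine ⟨max C C', fun i => ⟨fun N => ?_, ?_⟩⟩
    · have h1 := hC i N (⨆ y ∈ p, jointO (gop ℳ fam i) y N) fun X hX x hx => by
        obtain ⟨X, hX, rfl⟩ := hX
        exact Jq_kill hfam P hX i N hx
      refine h1.trans ?_
      have h2 : ((∑ j with ZZ hfam P j ⊆ p, b j : ℕ) : ℝ) = (hh ℳ φ : ℝ) - e := by
        rw [← hsum]
        push_cast
        ring
      rw [h2]
      gcongr
      exact le_max_left _ _
    · obtain ⟨X, hX, hX'⟩ := exists_inj hfam P hP hp i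
      have h1 := hC' i (GS ℳ fam p i)
        (fun X hX x hx => G_stable hfam p hX i hx) ⟨X.1, ⟨X, hX, rfl⟩, hX'⟩
      refine h1.trans ?_
      rw [hev]
      gcongr
      exact le_max_right _ _

end Pool.Agent.Lib.MP_666dc0_nt.CL
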