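import Pool.Agent.Lib.MP_666dc0_nt.CL.A5b

/-!
# CL, B1: the law for a direct factor

`N i` with the operators `S i P` (`P` a polynomial), `S 1` is `m` times a projector onto the image of `M i`, on which `S P` is
`m` times the operator `TT i P`. The systems of `N` are `0` (on the kernel of `S 1`) and `yz m z = (P ↦ m * P(z))`.
-/

namespace Pool.Agent.Lib.MP_666dc0_nt.CL

open FM

variable {Ω : Type} [NormedField Ω]

section gen

variable {M : Type} [AddCommGroup M] [Module Ω M]

theorem B1_add {f g : Module.End Ω M} (h : Commute f g) {a b : Ω} {u : M}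
    (hf : u ∈ f.maxGenEigenspace a) (hg : u ∈ g.maxGenEigenspace b) :
    u ∈ (f + g).maxGenEigenspace (a + b) := by
  rw [Module.End.mem_maxGenEigenspace] at hf hg ⊢
  obtain ⟨k, hk⟩ := hf
  obtain ⟨l, hl⟩ := hg
  have h1 : u ∈ f.genEigenspace a k := Module.End.mem_genEigenspace.2 ⟨k, le_rfl, hk⟩
  have h2 : u ∈ g.genEigenspace b l := Module.End.mem_genEigenspace.2 ⟨l, le_rfl, hl⟩
  have h3 := Module.End.genEigenspace_inf_le_add f g a b k l h ⟨h1, h2⟩
  obtain ⟨n, -, hn⟩ := Module.End.mem_genEigenspace.1 h3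
  exact ⟨n, hn⟩

theorem B1_nil_mul {f g : Module.End Ω M} (h : Commute f g) {u : M}
    (hg : u ∈ g.maxGenEigenspace 0) : u ∈ (f * g).maxGenEigenspace 0 := by
  rw [Module.End.mem_maxGenEigenspace] at hg ⊢
  obtain ⟨l, hl⟩ := hg
  refine ⟨l, ?_⟩
  rw [zero_smul, sub_zero] at hl ⊢
  rw [h.mul_pow, Module.End.mul_apply, hl, map_zero]

theorem B1_shift {f : Module.End Ω M} {a : Ω} {u : M} :
    u ∈ f.maxGenEigenspace a ↔ u ∈ (f - a • (1 : Module.End Ω M)).maxGenEigenspace 0 := by
  rw [Module.End.mem_maxGenEigenspace, Module.End.mem_maxGenEigenspace]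
  simp only [zero_smul, sub_zero]

theorem B1_mul {f g : Module.End Ω M} (h : Commute f g) {a b : Ω} {u : M}
    (hf : u ∈ f.maxGenEigenspace a) (hg : u ∈ g.maxGenEigenspace b) :
    u ∈ (f * g).maxGenEigenspace (a * b) := by
  rw [B1_shift] at hf hg ⊢
  have hb : Commute f (g - b • (1 : Module.End Ω M)) :=
    h.sub_right ((Commute.one_right f).smul_right b)
  have ha : Commute (b • (1 : Module.End Ω M)) (f - a • (1 : Module.End Ω M)) :=
    ((Commute.one_left _).smul_left b)
  have h1 := B1_nil_mul hb hg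
  have h2 := B1_nil_mul ha hf
  have h3 : Commute (f * (g - b • (1 : Module.End Ω M)))
      (b • (1 : Module.End Ω M) * (f - a • (1 : Module.End Ω M))) := by
    have h4 : Commute f (f - a • (1 : Module.End Ω M)) :=
      (Commute.refl f).sub_right ((Commute.one_right f).smul_right a)
    have h5 : Commute (g - b • (1 : Module.End Ω M)) (f - a • (1 : Module.End Ω M)) :=
      (h.symm.sub_right ((Commute.one_right g).smul_right a)).sub_left ((Commute.one_left _).smul_left b)
    exact (Commute.mul_left (((Commute.one_right f).smul_right b))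
      (((Commute.one_right _).smul_right b))).mul_right (Commute.mul_left h4 h5)
  have h4 := B1_add h3 h1 h2
  rw [add_zero] at h4
  have h5 : f * (g - b • (1 : Module.End Ω M)) + b • (1 : Module.End Ω M) * (f - a • (1 : Module.End Ω M)) =
      f * g - (a * b) • (1 : Module.End Ω M) := by
    rw [mul_sub, smul_one_mul, smul_sub, mul_smul_comm, mul_one, smul_smul, mul_comm b a]
    abel
  rw [h5] at h4
  exact h4

variable {I : Type} (TT : MvPolynomial I ℤ →+* Module.End Ω M)

theorem B1_C (a : ℤ) : TT (MvPolynomial.C a) = (a : Ω) • (1 : Module.End Ω M) := by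
  have h1 : TT (MvPolynomial.C a) = (a : Module.End Ω M) := by
    rw [← eq_intCast (TT.comp MvPolynomial.C) a]
    rfl
  rw [h1, ← Algebra.algebraMap_eq_smul_one, map_intCast]

theorem evP_C (z : I → Ω) (a : ℤ) : evP z (MvPolynomial.C a) = (a : Ω) := by
  change MvPolynomial.eval₂Hom (Int.castRingHom Ω) z (MvPolynomial.C a) = _
  rw [MvPolynomial.coe_eval₂Hom, MvPolynomial.eval₂_C]
  rfl

theorem evP_X (z : I → Ω) (j : I) : evP z (MvPolynomial.X j) = z j := MvPolynomial.eval₂_X _ _ _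

theorem closure_range_X' {I : Type} :
    Subring.closure (Set.range (MvPolynomial.X : I → MvPolynomial I ℤ)) = ⊤ := by
  refine eq_top_iff.2 fun t _ => ?_
  induction t using MvPolynomial.induction_on with
  | C a =>
    rw [eq_intCast (MvPolynomial.C : ℤ →+* MvPolynomial I ℤ) a]
    exact intCast_mem _ a
  | add p q hp hq => exact add_mem (hp trivial) (hq trivial)
  | mul_X p j hp => exact mul_mem (hp trivial) (Subring.subset_closure ⟨j, rfl⟩)

theorem B1_polyG {z : I → Ω} {u : M} (hu : u ∈ jointG (fun j => TT (MvPolynomial.X j)) z)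
    (P : MvPolynomial I ℤ) : u ∈ (TT P).maxGenEigenspace (evP z P) := by
  have hcomm : ∀ P Q, Commute (TT P) (TT Q) := fun P Q => by
    rw [commute_iff_eq, ← map_mul, mul_comm, map_mul]
  induction P using MvPolynomial.induction_on with
  | C a =>
    rw [Module.End.mem_maxGenEigenspace, B1_C, evP_C]
    exact ⟨1, by rw [sub_self, pow_one, LinearMap.zero_apply]⟩
  | add p q hp hq =>
    rw [map_add, map_add]
    exact B1_add (hcomm p q) hp hq
  | mul_X p j hp =>
    rw [map_mul, map_mul, evP_X]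
    have h1 : u ∈ (TT (MvPolynomial.X j)).maxGenEigenspace (z j) := (Submodule.mem_iInf _).1 hu j
    exact B1_mul (hcomm _ _) hp h1

theorem B1_polyE {z : I → Ω} {u : M} (hu : u ∈ jointE (fun j => TT (MvPolynomial.X j)) z)
    (P : MvPolynomial I ℤ) : TT P u = evP z P • u := by
  induction P using MvPolynomial.induction_on with
  | C a =>
    rw [B1_C, evP_C]
    rfl
  | add p q hp hq =>
    rw [map_add, map_add, LinearMap.add_apply, hp, hq, add_smul]
  | mul_X p j hp =>
    have h1 : TT (MvPolynomial.X j) u = z j • u :=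
      Module.End.mem_eigenspace_iff.1 ((Submodule.mem_iInf _).1 hu j)
    rw [map_mul, map_mul, evP_X, Module.End.mul_apply, h1, map_smul, hp, smul_smul, mul_comm]

end gen

/-- The system of the factor. -/
noncomputable def yz {I : Type} (m : ℕ) (z : I → Ω) : MvPolynomial I ℤ → Ω := fun P => (m : Ω) * evP z P

section proj

variable {I : Type} {M N : Type} [AddCommGroup M] [Module Ω M] [AddCommGroup N] [Module Ω N]
  (TT : MvPolynomial I ℤ →+* Module.End Ω M) (S : MvPolynomial I ℤ → Module.End Ω N) (m : ℕ)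

/-- `S 1` is `m` times a projector onto the image of `f`. -/
structure IsProj (f : M →ₗ[Ω] N) : Prop where
  left : ∀ P, S 1 * S P = (m : Ω) • S P
  right : ∀ P, S P * S 1 = (m : Ω) • S P
  inj : Function.Injective f
  range : LinearMap.range f = LinearMap.range (S 1)
  op : ∀ P u, S P (f u) = (m : Ω) • f (TT P u)

variable {TT S m} {f : M →ₗ[Ω] N} (h : IsProj TT S m f) (hm : (m : Ω) ≠ 0)

include h

theorem IsProj.mapE {z : I → Ω} {u : M} (hu : u ∈ jointE (fun j => TT (MvPolynomial.X j)) z) :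
    f u ∈ jointE S (yz m z) := by
  refine (Submodule.mem_iInf _).2 fun P => Module.End.mem_eigenspace_iff.2 ?_
  rw [h.op, B1_polyE TT hu P, map_smul, smul_smul]
  rfl

theorem IsProj.mapO {z : I → Ω} (N' : ℕ) : ∀ {u : M},
    u ∈ jointO (fun j => TT (MvPolynomial.X j)) z N' → f u ∈ jointO S (yz m z) N' := by
  induction N' with
  | zero =>
    intro u hu
    have h1 : u = 0 := (Submodule.mem_bot Ω).1 hu
    rw [h1, map_zero]
    exact Submodule.zero_mem _
  | succ N' ih =>
    intro u hu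
    rw [mem_jointO]
    intro P
    have h1 := (jointO_hom TT (evP z) _ closure_range_X' (f := fun j => TT (MvPolynomial.X j)) (y := z)
      (by
        rintro _ ⟨j, rfl⟩
        exact ⟨j, rfl, evP_X z j⟩) P N').2 u hu
    have h2 : S P (f u) - yz m z P • f u = (m : Ω) • f (TT P u - evP z P • u) := by
      rw [h.op, map_sub, map_smul, smul_sub, smul_smul]
      rfl
    rw [h2]
    exact Submodule.smul_mem _ _ (ih h1)

theorem IsProj.mapG {z : I → Ω} {u : M} (hu : u ∈ jointG (fun j => TT (MvPolynomial.X j)) z) :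
    f u ∈ jointG S (yz m z) := by
  refine (Submodule.mem_iInf _).2 fun P => ?_
  have h1 := B1_polyG TT hu P
  rw [Module.End.mem_maxGenEigenspace] at h1 ⊢
  obtain ⟨k, hk⟩ := h1
  have key : ∀ (k : ℕ) (v : M), ((S P - yz m z P • (1 : Module.End Ω N)) ^ k) (f v) =
      (m : Ω) ^ k • f (((TT P - evP z P • (1 : Module.End Ω M)) ^ k) v) := by
    intro k
    induction k with
    | zero => intro v; rw [pow_zero, pow_zero, pow_zero, one_smul]; rfl
    | succ k ih =>
      intro v
      have h2 : (S P - yz m z P • (1 : Module.End Ω N)) (f v) =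
          (m : Ω) • f ((TT P - evP z P • (1 : Module.End Ω M)) v) := by
        change S P (f v) - yz m z P • f v = (m : Ω) • f (TT P v - evP z P • v)
        rw [h.op, map_sub, map_smul, smul_sub, smul_smul]
        rfl
      rw [pow_succ, pow_succ, pow_succ, Module.End.mul_apply, Module.End.mul_apply, h2, map_smul, ih,
        smul_smul, mul_comm]
  refine ⟨k, ?_⟩
  rw [key, hk, map_zero, smul_zero]

include hm

theorem IsProj.ker {v : N} (hv : S 1 v = 0) : v ∈ jointE S (fun _ => 0) := by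
  refine (Submodule.mem_iInf _).2 fun P => Module.End.mem_eigenspace_iff.2 ?_
  rw [zero_smul]
  have h1 := LinearMap.congr_fun (h.right P) v
  rw [Module.End.mul_apply, hv, map_zero] at h1
  exact (smul_eq_zero.1 h1.symm).resolve_left hm

theorem IsProj.occ {y : MvPolynomial I ℤ → Ω} (hy : jointE S y ≠ ⊥) :
    y = (fun _ => 0) ∨ ∃ z : I → Ω, jointE (fun j => TT (MvPolynomial.X j)) z ≠ ⊥ ∧ y = yz m z := by
  obtain ⟨v, hv, hv0⟩ := (Submodule.ne_bot_iff _).1 hy
  have h0 : ∀ P, S P v = y P • v := fun P =>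
    Module.End.mem_eigenspace_iff.1 ((Submodule.mem_iInf _).1 hv P)
  have h1 : ∀ P, y P * y 1 = m * y P := by
    intro P
    have h2 := LinearMap.congr_fun (h.left P) v
    rw [Module.End.mul_apply, h0, map_smul, h0, LinearMap.smul_apply, h0, smul_smul, smul_smul] at h2
    exact smul_left_injective Ω hv0 h2
  by_cases hy1 : y 1 = 0
  · left
    funext P
    have h2 := h1 P
    rw [hy1, mul_zero] at h2
    exact (mul_eq_zero.1 h2.symm).resolve_left hm
  · right
    have hy1' : y 1 = m := mul_right_cancel₀ hy1 (h1 1)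
    have h3 : v ∈ LinearMap.range f := by
      rw [h.range]
      refine ⟨(m : Ω)⁻¹ • v, ?_⟩
      rw [map_smul, h0, hy1', smul_smul, inv_mul_cancel₀ hm, one_smul]
    obtain ⟨u, rfl⟩ := h3
    have hu0 : u ≠ 0 := by
      rintro rfl
      exact hv0 (map_zero f)
    have h4 : ∀ P, TT P u = (y P / m) • u := by
      intro P
      have h5 := h0 P
      rw [h.op, ← map_smul f, ← map_smul f] at h5
      have h6 := h.inj h5
      rw [div_eq_inv_mul, mul_smul, ← h6, smul_smul, inv_mul_cancel₀ hm, one_smul]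
    have h5 : u ∈ jointE (fun j => TT (MvPolynomial.X j)) fun j => y (MvPolynomial.X j) / m :=
      (Submodule.mem_iInf _).2 fun j => Module.End.mem_eigenspace_iff.2 (h4 _)
    refine ⟨_, (Submodule.ne_bot_iff _).2 ⟨u, h5, hu0⟩, ?_⟩
    funext P
    have h6 := B1_polyE TT h5 P
    rw [h4] at h6
    have h7 := smul_left_injective Ω hu0 h6
    rw [yz, ← h7, mul_div_cancel₀ _ hm]

theorem IsProj.disj : Disjoint (LinearMap.ker (S 1)) (LinearMap.range f) := by
  rw [Submodule.disjoint_def]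
  intro v hv hv'
  rw [h.range] at hv'
  obtain ⟨x, rfl⟩ := hv'
  have h1 := LinearMap.congr_fun (h.left 1) x
  rw [Module.End.mul_apply, (LinearMap.mem_ker.1 hv)] at h1
  exact (smul_eq_zero.1 h1.symm).resolve_left hm

omit hm in
theorem IsProj.finrank [FiniteDimensional Ω N] :
    Module.finrank Ω (LinearMap.ker (S 1)) + Module.finrank Ω M = Module.finrank Ω N := by
  have h1 := LinearMap.finrank_range_add_finrank_ker (S 1)
  rw [← h.range, LinearMap.finrank_range_of_inj h.inj] at h1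
  omega

end proj

theorem yz_inj {I : Type} {m : ℕ} (hm : (m : Ω) ≠ 0) {z z' : I → Ω} (h : yz m z = yz m z') : z = z' := by
  funext j
  have h1 := congrFun h (MvPolynomial.X j)
  unfold yz at h1
  rw [evP_X, evP_X] at h1
  exact mul_left_cancel₀ hm h1

theorem yz_one {I : Type} (m : ℕ) (z : I → Ω) : yz m z 1 = m := by
  unfold yz
  rw [map_one, mul_one]

theorem B1_finrank_map {M N : Type} [AddCommGroup M] [Module Ω M] [AddCommGroup N] [Module Ω N]
    {f : M →ₗ[Ω] N} (hf : Function.Injective f) (A : Submodule Ω M) :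
    Module.finrank Ω (A.map f) = Module.finrank Ω A :=
  (LinearEquiv.finrank_eq (Submodule.equivMapOfInjective f hf A)).symm

section law

variable {I ix : Type} {M N : ix → Type} [∀ i, AddCommGroup (M i)] [∀ i, Module Ω (M i)]
  [∀ i, AddCommGroup (N i)] [∀ i, Module Ω (N i)]
  {TT : ∀ i, MvPolynomial I ℤ →+* Module.End Ω (M i)} {S : ∀ i, MvPolynomial I ℤ → Module.End Ω (N i)}
  {m : ℕ} {f : ∀ i, M i →ₗ[Ω] N i}

/-- The operators on the factor. -/
noncomputable def opX (TT : ∀ i, MvPolynomial I ℤ →+* Module.End Ω (M i)) :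
    ∀ i, I → Module.End Ω (M i) := fun i j => TT i (MvPolynomial.X j)

theorem yz_mem_occ (h : ∀ i, IsProj (TT i) (S i) m (f i)) (hm : (m : Ω) ≠ 0) {z : I → Ω} :
    yz m z ∈ Occ N S ↔ z ∈ Occ M (opX TT) := by
  constructor
  · rintro ⟨i, hi⟩
    rcases (h i).occ hm hi with h0 | ⟨z', hz', h1⟩
    · exfalso
      have h2 := congrFun h0 1
      rw [yz_one] at h2
      exact hm h2
    · rw [yz_inj hm h1]
      exact ⟨i, hz'⟩
  · rintro ⟨i, hi⟩
    obtain ⟨u, hu, hu0⟩ := (Submodule.ne_bot_iff _).1 hi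
    exact ⟨i, (Submodule.ne_bot_iff _).2 ⟨f i u, (h i).mapE hu, fun h1 => hu0
      ((h i).inj (h1.trans (map_zero _).symm))⟩⟩

theorem occ_cases (h : ∀ i, IsProj (TT i) (S i) m (f i)) (hm : (m : Ω) ≠ 0)
    {y : MvPolynomial I ℤ → Ω} (hy : y ∈ Occ N S) :
    y = (fun _ => 0) ∨ ∃ z ∈ Occ M (opX TT), y = yz m z := by
  obtain ⟨i, hi⟩ := hy
  rcases (h i).occ hm hi with h0 | ⟨z', hz', h1⟩
  · exact Or.inl h0
  · exact Or.inr ⟨z', ⟨i, hz'⟩, h1⟩

/-- The values of the polynomials at `yz m z`. -/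
theorem evP_yz {I : Type} (m : ℕ) (z : I → Ω) (Q : MvPolynomial (MvPolynomial I ℤ) ℤ) :
    evP (yz m z) Q = evP z (MvPolynomial.eval₂Hom (MvPolynomial.C : ℤ →+* MvPolynomial I ℤ)
      (fun P => MvPolynomial.C (m : ℤ) * P) Q) := by
  have h : evP (yz m z) = (evP z).comp (MvPolynomial.eval₂Hom (MvPolynomial.C : ℤ →+* MvPolynomial I ℤ)
      (fun P => MvPolynomial.C (m : ℤ) * P)) := by
    refine MvPolynomial.ringHom_ext (fun r => ?_) (fun j => ?_)
    · rw [evP_C, RingHom.comp_apply, MvPolynomial.coe_eval₂Hom, MvPolynomial.eval₂_C, evP_C]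
    · rw [evP_X, RingHom.comp_apply, MvPolynomial.coe_eval₂Hom, MvPolynomial.eval₂_X, map_mul, evP_C,
        Int.cast_natCast]
      rfl
  rw [h]
  rfl

/-- The inverse image of a closed set. -/
theorem closed_preimage (h : ∀ i, IsProj (TT i) (S i) m (f i)) (hm : (m : Ω) ≠ 0)
    {Z : Set (MvPolynomial I ℤ → Ω)} (hZ : IsCl N S Z) : IsCl M (opX TT) {z | yz m z ∈ Z} := by
  intro z hz hctl
  refine hZ _ ((yz_mem_occ h hm).2 hz) fun ε hε => ?_
  obtain ⟨J, hJ, hJp, δ, hδ, hP⟩ := hctl ε hε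
  refine ⟨yz m '' J, hJ.image _, ?_, δ, hδ, fun Q hQ => ?_⟩
  · rintro _ ⟨z', hz', rfl⟩
    exact ⟨(hJp hz').1, (yz_mem_occ h hm).2 (hJp hz').2⟩
  · rw [evP_yz]
    refine hP _ fun e he => ?_
    rw [← evP_yz]
    exact hQ _ ⟨e, he, rfl⟩

/-- The closed set of the systems of `N` for a closed set of systems of `M`. -/
theorem closed_yz (h : ∀ i, IsProj (TT i) (S i) m (f i)) (hm : (m : Ω) ≠ 0) {p : Set (I → Ω)}
    (hp : IsCl M (opX TT) p) : IsCl N S ({y | y 1 = 0} ∪ yz m '' p) := by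
  intro y hy hctl
  have hm' : 0 < ‖(m : Ω)‖ := norm_pos_iff.2 hm
  rcases occ_cases h hm hy with rfl | ⟨z, hz, rfl⟩
  · exact Or.inl rfl
  · refine Or.inr ⟨z, hp z hz fun ε hε => ?_, rfl⟩
    obtain ⟨J, hJ, hJp, δ, hδ, hP⟩ := hctl (‖(m : Ω)‖ * ε) (by positivity)
    refine ⟨yz m ⁻¹' J, hJ.preimage (fun _ _ _ _ h => yz_inj hm h), fun z' hz' => ?_,
      δ / ‖(m : Ω)‖, by positivity, fun P hPz => ?_⟩
    · have h1 := hJp hz'
      refine ⟨?_, (yz_mem_occ h hm).1 h1.2⟩
      rcases h1.1 with h2 | ⟨z'', hz'', h2⟩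
      · exfalso
        have h3 : yz m z' 1 = 0 := h2
        rw [yz_one] at h3
        exact hm h3
      · rw [← yz_inj hm h2]
        exact hz''
    · have h1 := hP (MvPolynomial.X P) (fun e he => by
        rcases occ_cases h hm (hJp he).2 with h2 | ⟨z', hz', h2⟩
        · rw [evP_X, h2, norm_zero]
          exact hδ.le
        · have h3 := hPz z' (by
            change yz m z' ∈ J
            rw [← h2]
            exact he)
          rw [evP_X, h2]
          unfold yz
          rw [norm_mul]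
          rwa [le_div_iff₀ hm', mul_comm] at h3)
      rw [evP_X] at h1
      unfold yz at h1
      rw [norm_mul] at h1
      exact le_of_mul_le_mul_left h1 hm'

/-- The systems with the value `0` at `1` are a closed set. -/
theorem closed_one : IsCl N S {y | y 1 = 0} := by
  intro y _ hctl
  change y 1 = 0
  by_contra hne
  have hpos : 0 < ‖y 1‖ := norm_pos_iff.2 hne
  obtain ⟨J, hJ, hJp, δ, hδ, hP⟩ := hctl (‖y 1‖ / 2) (by positivity)
  have h1 := hP (MvPolynomial.X 1) (fun e he => by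
    have h2 : e 1 = 0 := (hJp he).1
    rw [evP_X, h2, norm_zero]
    exact hδ.le)
  rw [evP_X] at h1
  linarith

theorem Law.of_proj [IsAlgClosed Ω] [∀ i, FiniteDimensional Ω (M i)] [∀ i, FiniteDimensional Ω (N i)]
    (h : ∀ i, IsProj (TT i) (S i) m (f i)) (hm : (m : Ω) ≠ 0)
    {ℓ : ℕ} {dep w : ix → ℕ} {r : ℕ} (hL : Law N S ℓ dep w r) :
    ∃ r', r' ≤ r ∧ Law M (opX TT) ℓ dep w r' := by
  classical
  have hT : ∀ i, 0 ≤ (w i : ℝ) / (ℓ : ℝ) ^ dep i := fun i => by positivity
  have hd : ∀ i, (Module.finrank Ω (LinearMap.ker (S i 1)) : ℝ) + Module.finrank Ω (M i) =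
      Module.finrank Ω (N i) := fun i => by exact_mod_cast (h i).finrank
  obtain ⟨C₁, hC₁⟩ := hL.dim
  obtain ⟨k, Z, b, hb, hsum, hZ, hcl, hall⟩ := hL.closed
  -- the systems with the value `0` at `1`
  obtain ⟨C₀, hC₀⟩ := hall {y | y 1 = 0} closed_one
  let a₀ : ℕ := ∑ j with Z j ⊆ {y | y 1 = 0}, b j
  let r' : ℕ := ∑ j with ¬ Z j ⊆ {y | y 1 = 0}, b j
  have har : a₀ + r' = r := by
    rw [← hsum]
    exact Finset.sum_filter_add_sum_filter_not _ _ _
  have har' : (a₀ : ℝ) + r' = r := by exact_mod_cast har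
  have hker : ∀ i, (Module.finrank Ω (LinearMap.ker (S i 1)) : ℝ) ≤
      (a₀ + C₀ / (ℓ : ℝ) ^ dep i) * w i := by
    intro i
    have h0 := (hC₀ i).1 1
    rw [Nat.cast_one, one_mul] at h0
    refine le_trans ?_ h0
    have h1 : LinearMap.ker (S i 1) ≤ ⨆ y ∈ {y : MvPolynomial I ℤ → Ω | y 1 = 0}, jointO (S i) y 1 := by
      intro v hv
      have h2 : jointO (S i) (fun _ => 0) 1 ≤
          ⨆ y ∈ {y : MvPolynomial I ℤ → Ω | y 1 = 0}, jointO (S i) y 1 :=
        le_iSup₂_of_le (fun _ => 0) rfl le_rfl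
      refine h2 ?_
      rw [jointO_one]
      exact (h i).ker hm hv
    exact_mod_cast Submodule.finrank_mono h1
  have htop : ∀ i, ⨆ z : I → Ω, jointG (opX TT i) z = ⊤ := by
    intro i
    refine Module.End.iSup_iInf_maxGenEigenspace_eq_top_of_iSup_maxGenEigenspace_eq_top_of_commute _
      (fun j k _ => ?_) fun j => Module.End.iSup_maxGenEigenspace_eq_top _
    change TT i _ * TT i _ = TT i _ * TT i _
    rw [← map_mul, mul_comm, map_mul]
  have hM : ∀ i, (Module.finrank Ω (M i) : ℝ) ≤ (r' + C₀ / (ℓ : ℝ) ^ dep i) * w i := by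
    intro i
    refine le_trans ?_ (hC₀ i).2
    have h1 : LinearMap.range (f i) ≤
        ⨆ y ∈ ({y : MvPolynomial I ℤ → Ω | y 1 = 0})ᶜ, jointG (S i) y := by
      rw [LinearMap.range_eq_map, ← htop i, Submodule.map_iSup]
      refine iSup_le fun z => ?_
      rintro _ ⟨u, hu, rfl⟩
      have h2 : jointG (S i) (yz m z) ≤
          ⨆ y ∈ ({y : MvPolynomial I ℤ → Ω | y 1 = 0})ᶜ, jointG (S i) y :=
        le_iSup₂_of_le (yz m z) (fun h3 => hm (by
          have h4 : yz m z 1 = 0 := h3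
          rwa [yz_one] at h4)) le_rfl
      exact h2 ((h i).mapG hu)
    have h2 := Submodule.finrank_mono h1
    rw [LinearMap.finrank_range_of_inj (h i).inj] at h2
    exact_mod_cast h2
  have hN : ∀ i, (r : ℝ) * w i - C₁ / (ℓ : ℝ) ^ dep i * w i ≤ Module.finrank Ω (N i) := fun i => by
    have := (abs_le.1 (hC₁ i)).1
    linarith
  have hbound : ∀ (C : ℝ) i, C / (ℓ : ℝ) ^ dep i * w i = C * ((w i : ℝ) / (ℓ : ℝ) ^ dep i) :=
    fun C i => by ring
  -- the families
  let Js : Finset (Fin k) := Finset.univ.filter fun j => ¬ Z j ⊆ {y | y 1 = 0}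
  let e : Fin Js.card ≃ Js := Js.equivFin.symm
  have hJs : ∀ j : Js, ¬ Z j.1 ⊆ {y | y 1 = 0} := fun j => (Finset.mem_filter.1 j.2).2
  have hsumJ : ∀ q : Fin k → Prop, (∑ j with q (e j).1, b (e j).1) = ∑ j ∈ Js with q j, b j := by
    intro q
    rw [Finset.sum_filter, Finset.sum_filter, e.sum_comp (fun j : Js => if q j.1 then b j.1 else 0)]
    exact Finset.sum_coe_sort Js fun j => if q j then b j else 0
  refine ⟨r', by omega, ⟨|C₀| + |C₁|, fun i => ?_⟩, ⟨Js.card, fun j => {z | yz m z ∈ Z (e j).1},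
    fun j => b (e j).1, fun j => hb _, ?_, ?_, fun j => closed_preimage h hm (hcl _), fun p hp => ?_⟩,
    fun z hz => ?_⟩
  · rw [abs_le]
    have h1 := hker i
    have h2 := hM i
    have h3 := hN i
    have h4 := hd i
    have h5 : C₀ * ((w i : ℝ) / (ℓ : ℝ) ^ dep i) ≤ |C₀| * ((w i : ℝ) / (ℓ : ℝ) ^ dep i) :=
      mul_le_mul_of_nonneg_right (le_abs_self _) (hT i)
    have h6 : C₁ * ((w i : ℝ) / (ℓ : ℝ) ^ dep i) ≤ |C₁| * ((w i : ℝ) / (ℓ : ℝ) ^ dep i) :=
      mul_le_mul_of_nonneg_right (le_abs_self _) (hT i)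
    have h7 : 0 ≤ |C₀| * ((w i : ℝ) / (ℓ : ℝ) ^ dep i) := mul_nonneg (abs_nonneg _) (hT i)
    have h8 : 0 ≤ |C₁| * ((w i : ℝ) / (ℓ : ℝ) ^ dep i) := mul_nonneg (abs_nonneg _) (hT i)
    rw [add_mul, hbound] at h1 h2
    rw [hbound] at h3
    rw [hbound, add_mul]
    rw [← har', add_mul] at h3
    constructor <;> linarith
  · have h1 := hsumJ fun _ => True
    simp only [Finset.filter_true] at h1
    exact h1
  · intro j z hz
    exact (yz_mem_occ h hm).1 (hZ _ hz)
  · obtain ⟨C, hC⟩ := hall _ (closed_yz h hm hp)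
    have hq : ∀ j, ¬ Z j ⊆ {y | y 1 = 0} →
        (Z j ⊆ {y | y 1 = 0} ∪ yz m '' p ↔ {z | yz m z ∈ Z j} ⊆ p) := by
      intro j _
      constructor
      · intro h1 z hz
        rcases h1 hz with h2 | ⟨z', hz', h2⟩
        · exfalso
          have h3 : yz m z 1 = 0 := h2
          rw [yz_one] at h3
          exact hm h3
        · rw [← yz_inj hm h2]
          exact hz'
      · intro h1 y hy
        rcases occ_cases h hm (hZ j hy) with h2 | ⟨z, hz, h2⟩
        · left
          rw [h2]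
          rfl
        · right
          refine ⟨z, h1 ?_, h2.symm⟩
          change yz m z ∈ Z j
          rw [← h2]
          exact hy
    have s1 : (∑ j with Z j ⊆ {y | y 1 = 0} ∪ yz m '' p, b j) =
        a₀ + ∑ j with {z | yz m z ∈ Z (e j).1} ⊆ p, b (e j).1 := by
      rw [hsumJ fun j => {z | yz m z ∈ Z j} ⊆ p]
      rw [← Finset.sum_filter_add_sum_filter_not (Finset.univ.filter fun j =>
        Z j ⊆ {y | y 1 = 0} ∪ yz m '' p) (fun j => Z j ⊆ {y | y 1 = 0})]
      congr 1
      · refine Finset.sum_congr ?_ fun _ _ => rfl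
        ext j
        simp only [Finset.mem_filter, Finset.mem_univ, true_and]
        exact ⟨fun h1 => h1.2, fun h1 => ⟨h1.trans Set.subset_union_left, h1⟩⟩
      · refine Finset.sum_congr ?_ fun _ _ => rfl
        ext j
        simp only [Js, Finset.mem_filter, Finset.mem_univ, true_and]
        exact ⟨fun h1 => ⟨h1.2, (hq j h1.2).1 h1.1⟩, fun h1 => ⟨(hq j h1.1).2 h1.2, h1.1⟩⟩
    have s2 : (∑ j with ¬ Z j ⊆ {y | y 1 = 0} ∪ yz m '' p, b j) =
        ∑ j with ¬ {z | yz m z ∈ Z (e j).1} ⊆ p, b (e j).1 := by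
      have h9 : (∑ j with ¬ {z | yz m z ∈ Z (e j).1} ⊆ p, b (e j).1) =
          ∑ j ∈ Js with ¬ {z | yz m z ∈ Z j} ⊆ p, b j := by
        convert hsumJ fun j => ¬ {z | yz m z ∈ Z j} ⊆ p
      rw [h9]
      refine Finset.sum_congr ?_ fun _ _ => rfl
      ext j
      simp only [Js, Finset.mem_filter, Finset.mem_univ, true_and]
      constructor
      · intro h1
        have h2 : ¬ Z j ⊆ {y | y 1 = 0} := fun h2 => h1 (h2.trans Set.subset_union_left)
        exact ⟨h2, fun h3 => h1 ((hq j h2).2 h3)⟩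
      · rintro ⟨h1, h2⟩ h3
        exact h2 ((hq j h1).1 h3)
    rw [s1, s2] at hC
    have hE : ∀ i (N' : ℕ), (Module.finrank Ω (LinearMap.ker (S i 1)) : ℝ) +
        Module.finrank Ω (⨆ z ∈ p, jointO (opX TT i) z (N' + 1) : Submodule Ω (M i)) ≤
        ((a₀ + ∑ j with {z | yz m z ∈ Z (e j).1} ⊆ p, b (e j).1 : ℕ) +
          (N' + 1 : ℕ) * C / (ℓ : ℝ) ^ dep i) * w i := by
      intro i N'
      refine le_trans ?_ ((hC i).1 (N' + 1))
      have h1 : (⨆ z ∈ p, jointO (opX TT i) z (N' + 1) : Submodule Ω (M i)).map (f i) ≤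
          ⨆ y ∈ {y : MvPolynomial I ℤ → Ω | y 1 = 0} ∪ yz m '' p, jointO (S i) y (N' + 1) := by
        rw [Submodule.map_iSup]
        refine iSup_le fun z => ?_
        rw [Submodule.map_iSup]
        refine iSup_le fun hz => ?_
        rintro _ ⟨u, hu, rfl⟩
        have h2 : jointO (S i) (yz m z) (N' + 1) ≤
            ⨆ y ∈ {y : MvPolynomial I ℤ → Ω | y 1 = 0} ∪ yz m '' p, jointO (S i) y (N' + 1) :=
          le_iSup₂_of_le (yz m z) (Or.inr ⟨z, hz, rfl⟩) le_rfl
        exact h2 ((h i).mapO _ hu)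
      have h2 : LinearMap.ker (S i 1) ≤
          ⨆ y ∈ {y : MvPolynomial I ℤ → Ω | y 1 = 0} ∪ yz m '' p, jointO (S i) y (N' + 1) := by
        intro v hv
        have h2 : jointO (S i) (fun _ => 0) (N' + 1) ≤
            ⨆ y ∈ {y : MvPolynomial I ℤ → Ω | y 1 = 0} ∪ yz m '' p, jointO (S i) y (N' + 1) :=
          le_iSup₂_of_le (fun _ => 0) (Or.inl rfl) le_rfl
        refine h2 ?_
        have h3 : v ∈ jointO (S i) (fun _ => 0) 1 := by
          rw [jointO_one]
          exact (h i).ker hm hv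
        clear h2 h1
        induction N' with
        | zero => exact h3
        | succ N' ih => exact jointO_le_succ _ _ _ ih
      have h3 := Submodule.finrank_mono (sup_le h2 h1)
      have h4 : Disjoint (LinearMap.ker (S i 1))
          ((⨆ z ∈ p, jointO (opX TT i) z (N' + 1) : Submodule Ω (M i)).map (f i)) :=
        ((h i).disj hm).mono_right (LinearMap.map_le_range)
      have h5 := Submodule.finrank_sup_add_finrank_inf_eq (LinearMap.ker (S i 1))
        ((⨆ z ∈ p, jointO (opX TT i) z (N' + 1) : Submodule Ω (M i)).map (f i))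
      rw [h4.eq_bot, finrank_bot, add_zero, B1_finrank_map (h i).inj] at h5
      rw [h5] at h3
      exact_mod_cast h3
    have hG : ∀ i,
        (Module.finrank Ω (⨆ z ∈ pᶜ, jointG (opX TT i) z : Submodule Ω (M i)) : ℝ) ≤
        ((∑ j with ¬ {z | yz m z ∈ Z (e j).1} ⊆ p, b (e j).1 : ℕ) + C / (ℓ : ℝ) ^ dep i) * w i := by
      intro i
      refine le_trans ?_ (hC i).2
      have h1 : (⨆ z ∈ pᶜ, jointG (opX TT i) z : Submodule Ω (M i)).map (f i) ≤
          ⨆ y ∈ ({y : MvPolynomial I ℤ → Ω | y 1 = 0} ∪ yz m '' p)ᶜ, jointG (S i) y := by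
        rw [Submodule.map_iSup]
        refine iSup_le fun z => ?_
        rw [Submodule.map_iSup]
        refine iSup_le fun hz => ?_
        rintro _ ⟨u, hu, rfl⟩
        have h2 : jointG (S i) (yz m z) ≤
            ⨆ y ∈ ({y : MvPolynomial I ℤ → Ω | y 1 = 0} ∪ yz m '' p)ᶜ, jointG (S i) y :=
          le_iSup₂_of_le (yz m z) (by
            rintro (h3 | ⟨z', hz', h3⟩)
            · have h4 : yz m z 1 = 0 := h3
              rw [yz_one] at h4
              exact hm h4
            · exact hz ((yz_inj hm h3) ▸ hz')) le_rfl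
        exact h2 ((h i).mapG hu)
      have h2 := Submodule.finrank_mono h1
      rw [B1_finrank_map (h i).inj] at h2
      exact_mod_cast h2
    refine ⟨|C| + |C₀| + |C₁|, fun i => ⟨fun N' => ?_, ?_⟩⟩
    · cases N' with
      | zero =>
        have h1 : (⨆ z ∈ p, jointO (opX TT i) z 0 : Submodule Ω (M i)) = ⊥ :=
          iSup₂_eq_bot.2 fun _ _ => rfl
        rw [h1, finrank_bot, Nat.cast_zero, zero_mul, zero_div, add_zero]
        positivity
      | succ N' =>
        have e0 := hT i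
        have e1 := hE i N'
        have e4 := hM i
        have e5 := hN i
        have e6 := hd i
        have n0 : (1 : ℝ) ≤ ((N' + 1 : ℕ) : ℝ) := by
          rw [Nat.cast_add, Nat.cast_one]
          have : (0 : ℝ) ≤ N' := Nat.cast_nonneg _
          linarith
        have c0 : ((N' + 1 : ℕ) : ℝ) * C * ((w i : ℝ) / (ℓ : ℝ) ^ dep i) ≤
            ((N' + 1 : ℕ) : ℝ) * |C| * ((w i : ℝ) / (ℓ : ℝ) ^ dep i) :=
          mul_le_mul_of_nonneg_right (mul_le_mul_of_nonneg_left (le_abs_self _) (by linarith)) e0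
        have c1 : C₀ * ((w i : ℝ) / (ℓ : ℝ) ^ dep i) ≤
            ((N' + 1 : ℕ) : ℝ) * |C₀| * ((w i : ℝ) / (ℓ : ℝ) ^ dep i) :=
          mul_le_mul_of_nonneg_right ((le_abs_self _).trans (le_mul_of_one_le_left (abs_nonneg _) n0)) e0
        have c2 : C₁ * ((w i : ℝ) / (ℓ : ℝ) ^ dep i) ≤
            ((N' + 1 : ℕ) : ℝ) * |C₁| * ((w i : ℝ) / (ℓ : ℝ) ^ dep i) :=
          mul_le_mul_of_nonneg_right ((le_abs_self _).trans (le_mul_of_one_le_left (abs_nonneg _) n0)) e0
        rw [Nat.cast_add a₀, add_mul, add_mul, hbound] at e1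
        rw [add_mul, hbound] at e4
        rw [hbound, ← har', add_mul] at e5
        rw [mul_add, mul_add, add_mul, hbound, add_mul, add_mul]
        linarith
    · have e0 := hT i
      have e2 := hG i
      have c0 : C * ((w i : ℝ) / (ℓ : ℝ) ^ dep i) ≤ |C| * ((w i : ℝ) / (ℓ : ℝ) ^ dep i) :=
        mul_le_mul_of_nonneg_right (le_abs_self _) e0
      have c4 : 0 ≤ |C₀| * ((w i : ℝ) / (ℓ : ℝ) ^ dep i) := mul_nonneg (abs_nonneg _) e0
      have c5 : 0 ≤ |C₁| * ((w i : ℝ) / (ℓ : ℝ) ^ dep i) := mul_nonneg (abs_nonneg _) e0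
      rw [add_mul, hbound] at e2
      rw [add_mul, hbound, add_mul, add_mul]
      linarith
  · obtain ⟨C, hC, hC'⟩ := hL.compact (yz m z) ((yz_mem_occ h hm).2 hz)
    refine ⟨(fun x => (m : Ω)⁻¹ * x) '' C, hC.image (continuous_const.mul continuous_id), fun P => ?_⟩
    refine ⟨_, hC' (MvPolynomial.X P), ?_⟩
    rw [evP_X]
    unfold yz
    exact inv_mul_cancel_left₀ hm _

end law

end Pool.Agent.Lib.MP_666dc0_nt.CL
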