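import Pool.Agent.Lib.MP_666dc0_nt.CL.B1
import Pool.Agent.Lib.MP_666dc0_nt.Mg.G101
import Pool.Agent.Lib.MP_666dc0_nt.EP.C1b
import Pool.Agent.Lib.MP_666dc0_nt.Mg.G058

/-!
# CL, B2: the law for the cohomology of the complex of equivariant cochains
-/

namespace Pool.Agent.Lib.MP_666dc0_nt.CL

open FM EP

section ring

variable {R : Type} {A : Type} [CommRing R] [Group A] {E X : Type} [MulAction A E] [MulAction A X]
  {L V : Type} [Field L] [Algebra R L] [AddCommGroup V] [Module L V] (ρ : Representation L A V)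

theorem B2_pull_ext {m : ℕ} (c : (X →₀ R) →ₗ[R] (X →₀ R)) (f : Simp E X m → V) (e : Fin (m + 1) → E)
    (x : X) : pull L V (ext (E := E) m c) f (e, x) = pull L V c (fun x => f (e, x)) x := by
  change ((ext m c (Finsupp.single (e, x) 1)).sum fun z r => algebraMap R L r • f z) =
    (c (Finsupp.single x 1)).sum fun z r => algebraMap R L r • f (e, z)
  rw [ext_single, Finsupp.sum_mapDomain_index (fun z => by rw [map_zero, zero_smul])
    (fun z r r' => by rw [map_add, add_smul])]

theorem B2_one (m : ℕ) : pull L V (ext (E := E) m (1 : Module.End R (X →₀ R))) = LinearMap.id := by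
  refine LinearMap.ext fun f => funext fun y => ?_
  obtain ⟨e, x⟩ := y
  rw [B2_pull_ext]
  have h : pull L V (1 : Module.End R (X →₀ R)) = LinearMap.id := pull_id
  rw [h]
  rfl

theorem B2_add (m : ℕ) (c c' : Module.End R (X →₀ R)) : pull L V (ext (E := E) m (c + c')) =
    pull L V (ext (E := E) m c) + pull L V (ext (E := E) m c') := by
  refine LinearMap.ext fun f => funext fun y => ?_
  obtain ⟨e, x⟩ := y
  rw [B2_pull_ext, pull_add, LinearMap.add_apply, Pi.add_apply, LinearMap.add_apply, Pi.add_apply,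
    B2_pull_ext, B2_pull_ext]

theorem B2_mul (m : ℕ) (c c' : Module.End R (X →₀ R)) : pull L V (ext (E := E) m (c * c')) =
    pull L V (ext (E := E) m c') ∘ₗ pull L V (ext (E := E) m c) := by
  refine LinearMap.ext fun f => funext fun y => ?_
  obtain ⟨e, x⟩ := y
  have h : pull L V (c * c') = pull L V c' ∘ₗ pull L V c := pull_comp c c'
  have h2 : (fun x => pull L V (ext (E := E) m c) f (e, x)) = pull L V c (fun x => f (e, x)) :=
    funext fun x => B2_pull_ext c f e x
  rw [B2_pull_ext, h, LinearMap.comp_apply, LinearMap.comp_apply, B2_pull_ext, h2]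

theorem B2_zero (m : ℕ) : pull L V (ext (E := E) m (0 : Module.End R (X →₀ R))) = 0 := by
  have h := B2_add (E := E) (L := L) (V := V) m (0 : Module.End R (X →₀ R)) 0
  rw [add_zero] at h
  exact left_eq_add.1 h

/-- The operators on the cohomology. -/
noncomputable def EHring {I : Type} (θ : MvPolynomial I ℤ →+* Module.End R (X →₀ R))
    (hθ : ∀ P, Equi A (θ P)) (n : ℕ) : MvPolynomial I ℤ →+* Module.End L (EH R E X ρ n) where
  toFun P := EHop ρ (hθ P) n
  map_one' := by
    refine LinearMap.ext fun q => ?_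
    obtain ⟨u, rfl⟩ := Submodule.Quotient.mk_surjective _ q
    rw [EHop_mk]
    change Submodule.Quotient.mk _ = Submodule.Quotient.mk u
    congr 1
    apply Subtype.ext
    change pull L V (ext (E := E) n (θ 1)) u.1 = u.1
    rw [map_one, B2_one]
    rfl
  map_zero' := by
    refine LinearMap.ext fun q => ?_
    obtain ⟨u, rfl⟩ := Submodule.Quotient.mk_surjective _ q
    rw [EHop_mk]
    change Submodule.Quotient.mk _ = Submodule.Quotient.mk 0
    congr 1
    apply Subtype.ext
    change pull L V (ext (E := E) n (θ 0)) u.1 = 0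
    rw [map_zero, B2_zero]
    rfl
  map_add' P Q := by
    refine LinearMap.ext fun q => ?_
    obtain ⟨u, rfl⟩ := Submodule.Quotient.mk_surjective _ q
    rw [LinearMap.add_apply, EHop_mk, EHop_mk, EHop_mk, ← Submodule.Quotient.mk_add]
    congr 1
    apply Subtype.ext
    change pull L V (ext (E := E) n (θ (P + Q))) u.1 = pull L V (ext (E := E) n (θ P)) u.1 +
      pull L V (ext (E := E) n (θ Q)) u.1
    rw [map_add, B2_add]
    rfl
  map_mul' P Q := by
    refine LinearMap.ext fun q => ?_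
    obtain ⟨u, rfl⟩ := Submodule.Quotient.mk_surjective _ q
    rw [Module.End.mul_apply, EHop_mk, EHop_mk, EHop_mk]
    congr 1
    apply Subtype.ext
    change pull L V (ext (E := E) n (θ (P * Q))) u.1 = pull L V (ext (E := E) n (θ P))
      (pull L V (ext (E := E) n (θ Q)) u.1)
    rw [mul_comm, map_mul, B2_mul]
    rfl

end ring

/-- The law for the cohomology, from the law for the cohomology of the complexes of free modules. -/
theorem law_EH {R A E X : Type} [CommRing R] [Group A] [MulAction A E] [MulAction A X]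
    [Nonempty E] (hfree : ∀ (a : A) (e : E) (x : X), a • e = e → a • x = x → a = 1)
    (hFD : IsFD R A X) {𝒯 : RTow} {Ω : Type} [NormedField Ω] [CharZero Ω] [IsAlgClosed Ω] [Algebra R Ω]
    {ℓ : ℕ} (fam : MFam 𝒯.Lim Ω ℓ) (hfam : FOk fam) (c₀ : R →+* 𝒯.Lim) (c₁ : A →* 𝒯.Lim)
    (ρ : ∀ i, Representation Ω A (fam.W i))
    (h₀ : ∀ i r w, fam.act i (c₀ r) w = algebraMap R Ω r • w)
    (h₁ : ∀ i a w, fam.act i (c₁ a) w = ρ i a w)
    {I : Type} (θ : MvPolynomial I ℤ →+* Module.End R (X →₀ R)) (hθ : ∀ P, Equi A (θ P)) (n : ℕ)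
    (hlaw : ∀ ℳ : Mats 𝒯 (MvPolynomial I ℤ), ∃ r, Law (fun i => ℳ.H fam i)
      (fun i P => (ℳ.ch P).op fam i) ℓ fam.dep (fun i => Module.finrank Ω (fam.W i)) r) :
    (∀ i, FiniteDimensional Ω (EH R E X (ρ i) n)) ∧
    (∀ i j k, Commute (EHop (ρ i) (hθ (MvPolynomial.X j)) n : Module.End Ω (EH R E X (ρ i) n))
      (EHop (ρ i) (hθ (MvPolynomial.X k)) n)) ∧
    ∃ r, Law (fun i => EH R E X (ρ i) n) (fun i j => EHop (ρ i) (hθ (MvPolynomial.X j)) n) ℓ fam.dep
      (fun i => Module.finrank Ω (fam.W i)) r := by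
  obtain ⟨m, ℳ, hm, h1, h2, h3⟩ := exists_mats hfree hFD fam hfam c₀ c₁ ρ h₀ h₁ θ hθ n
  choose f hf hr hS using h3
  obtain ⟨r, hL⟩ := hlaw ℳ
  have hm' : (m : Ω) ≠ 0 := Nat.cast_ne_zero.2 hm.ne'
  have hW : ∀ i, FiniteDimensional Ω (fam.W i) := fun i => fam.fd i
  have hN : ∀ i, FiniteDimensional Ω (ℳ.H fam i) := fun i => by
    have := hW i
    infer_instance
  have hM : ∀ i, FiniteDimensional Ω (EH R E X (ρ i) n) := fun i => by
    have := hN i
    exact FiniteDimensional.of_injective (f i) (hf i)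
  have hP : ∀ i, IsProj (EHring (ρ i) θ hθ n) (fun P => (ℳ.ch P).op fam i) m (f i) := fun i =>
    ⟨h1 i, h2 i, hf i, hr i, hS i⟩
  obtain ⟨r', -, hL'⟩ := Law.of_proj (ix := fam.ix) (M := fun i => EH R E X (ρ i) n)
    (N := fun i => ℳ.H fam i) (TT := fun i => EHring (ρ i) θ hθ n)
    (S := fun i P => (ℳ.ch P).op fam i) (f := f) hP hm' hL
  refine ⟨hM, fun i j k => ?_, r', hL'⟩
  change EHring (ρ i) θ hθ n (MvPolynomial.X j) * EHring (ρ i) θ hθ n (MvPolynomial.X k) =
    EHring (ρ i) θ hθ n (MvPolynomial.X k) * EHring (ρ i) θ hθ n (MvPolynomial.X j)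
  rw [← map_mul, ← map_mul, mul_comm]

end Pool.Agent.Lib.MP_666dc0_nt.CL
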