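import Pool.Agent.Lib.MP_666dc0_nt.CL.C2
import Pool.Agent.Lib.MP_666dc0_nt.FM.A4

/-!
# CL, C0: the concrete cohomology and the cohomology of the complex of equivariant cochains (TASK II-C3)

With `exists_equiv`, `rel_del`, `rel_act`: the cocycles, the coboundaries, the (generalised) eigencocycles correspond.
Transport of the spans of classes under the semilinear bijection as in FM/D4a (`D4_img`, `D4_finrank_img`) or EC/B4 (`mult_eq`)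
and EP/U1 (`finrank_quot_eq`).
-/

open NumberField IsDedekindDomain
open scoped NumberField

namespace Pool.Agent.Lib.MP_666dc0_nt.CL

open WL ZO FM EP EC

variable {F : Type} [Field F] [NumberField F] {n : ℕ} {D : Datum F n} {ℓ : ℕ} [Fact ℓ.Prime]
  {S : Finset (HeightOneSpectrum (𝓞 F))} {U : Subgroup D.Ad} {K : ℕ → Subgroup D.Ad} {d : ℕ}
  {ι : ℂ ≃+* PadicAlgCl ℓ} (κ : Cz ℓ U K d ι)

/-- The dimension of a span of classes under a semilinear map. -/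
theorem C0_finrank {Ω M H : Type} [Field Ω] [AddCommGroup M] [Module ℂ M] [AddCommGroup H] [Module Ω H]
    (ι : ℂ ≃+* Ω) {Z C : Submodule ℂ M} (φ : Z →+ H) (hφ : ∀ (a : ℂ) z, φ (a • z) = ι a • φ z)
    (hker : ∀ z : Z, φ z = 0 ↔ z.1 ∈ C) (X : Set M) (hX : X ⊆ Z) :
    Set.finrank ℂ (Submodule.Quotient.mk (p := C) '' X) =
      Module.finrank Ω (Submodule.span Ω {h | ∃ z : Z, z.1 ∈ X ∧ φ z = h}) := by
  let _ : Algebra ℂ Ω := (ι : ℂ →+* Ω).toAlgebra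
  let _ : Module ℂ H := Module.compHom H (ι : ℂ →+* Ω)
  have : IsScalarTower ℂ Ω H := ⟨fun a b h => by
    change (ι a * b) • h = ι a • (b • h)
    rw [mul_smul]⟩
  let φ' : Z →ₗ[ℂ] H := { φ with map_smul' := fun a z => hφ a z }
  have hN : Submodule.span ℂ X ≤ Z := Submodule.span_le.2 hX
  let T1 : Submodule.span ℂ X →ₗ[ℂ] M ⧸ C := C.mkQ ∘ₗ (Submodule.span ℂ X).subtype
  let T2 : Submodule.span ℂ X →ₗ[ℂ] H := φ' ∘ₗ Submodule.inclusion hN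
  have hk : LinearMap.ker T1 = LinearMap.ker T2 := by
    ext z
    rw [LinearMap.mem_ker, LinearMap.mem_ker]
    change Submodule.Quotient.mk (p := C) z.1 = 0 ↔ φ ⟨z.1, hN z.2⟩ = 0
    rw [Submodule.Quotient.mk_eq_zero, hker]
  have h1 : LinearMap.range T1 = Submodule.span ℂ (Submodule.Quotient.mk (p := C) '' X) := by
    rw [LinearMap.range_comp, Submodule.range_subtype, Submodule.map_span]
    rfl
  have h2 : LinearMap.range T2 = Submodule.span ℂ {h | ∃ z : Z, z.1 ∈ X ∧ φ z = h} := by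
    have h3 : Submodule.map Z.subtype (Submodule.span ℂ (Subtype.val ⁻¹' X : Set Z)) = Submodule.span ℂ X := by
      rw [Submodule.map_span]
      congr 1
      ext x
      constructor
      · rintro ⟨y, hy, rfl⟩
        exact hy
      · intro hx
        exact ⟨⟨x, hX hx⟩, hx, rfl⟩
    have h4 : LinearMap.range (Submodule.inclusion hN) = Submodule.span ℂ (Subtype.val ⁻¹' X : Set Z) := by
      apply Submodule.map_injective_of_injective (Submodule.subtype_injective Z)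
      rw [h3, Submodule.range_inclusion, Submodule.map_comap_subtype]
      exact inf_eq_right.2 hN
    rw [LinearMap.range_comp, h4, Submodule.map_span]
    congr 1
  have h5 : Module.finrank ℂ (LinearMap.range T1) = Module.finrank ℂ (LinearMap.range T2) := by
    rw [← LinearEquiv.finrank_eq T1.quotKerEquivRange, ← LinearEquiv.finrank_eq T2.quotKerEquivRange, hk]
  have h6 := Submodule.restrictScalars_span ℂ Ω ι.surjective {h | ∃ z : Z, z.1 ∈ X ∧ φ z = h}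
  unfold Set.finrank
  rw [← h1, h5, h2, ← h6]
  let j : (Submodule.restrictScalars ℂ (Submodule.span Ω {h | ∃ z : Z, z.1 ∈ X ∧ φ z = h})) ≃+
      (Submodule.span Ω {h | ∃ z : Z, z.1 ∈ X ∧ φ z = h}) :=
    { toFun := fun x => ⟨x.1, x.2⟩
      invFun := fun x => ⟨x.1, x.2⟩
      left_inv := fun _ => rfl
      right_inv := fun _ => rfl
      map_add' := fun _ _ => rfl }
  exact congrArg Cardinal.toNat
    (rank_eq_of_equiv_equiv (fun a : ℂ => ι a) j ι.bijective fun a x => rfl)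

theorem Cz.equi_hx (hSl : ∀ v : HeightOneSpectrum (𝓞 F), (ℓ : 𝓞 F) ∈ v.asIdeal → v ∈ S)
    (hUS : ∀ v, v ∉ S → IsGoodAt U v) (x : IX ℓ S U) : Equi (D.Rat × κ.L.K) (κ.hx x) :=
  κ.L.equi_op (isGoodAt κ.L (hUS x.1.1 x.2.1)) (fun h' => x.2.1 (hSl x.1.1 h')) (ofInt κ.L x.1.2 x.2.2)

/-- The Hecke operators on the cohomology. -/
noncomputable def Cz.T (hSl : ∀ v : HeightOneSpectrum (𝓞 F), (ℓ : 𝓞 F) ∈ v.asIdeal → v ∈ S)
    (hUS : ∀ v, v ∉ S → IsGoodAt U v) (m : ℕ) (i : MIx ℓ U K) (x : IX ℓ S U) :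
    Module.End (PadicAlgCl ℓ) (EH (Zl ℓ) κ.L.E κ.L.X (κ.rep i) m) :=
  EHop (κ.rep i) (κ.equi_hx hSl hUS x) m


/-- Relations are additive and semilinear. -/
theorem Cz.Rel.zero {m : ℕ} (i : MIx ℓ U K) :
    κ.Rel i (0 : Coch D m) (0 : Simp κ.L.E κ.L.X m → κ.fam.W i) := by
  intro e g x
  have h : ∀ j, C2_ev κ i j (0 : κ.fam.W i) = 0 := fun j => map_zero _
  refine Eq.trans ?_ (Finset.sum_congr rfl fun j _ => congrArg (· * _) (h j).symm)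
  simp only [zero_mul, Finset.sum_const_zero]
  exact map_zero ι

theorem Cz.Rel.sub_smul {m : ℕ} {i : MIx ℓ U K} {z z' : Coch D m}
    {f f' : Simp κ.L.E κ.L.X m → κ.fam.W i} (h : κ.Rel i z f) (h' : κ.Rel i z' f') (c : ℂ) :
    κ.Rel i (fun e => z' e - c • z e) (f' - ι c • f) := by
  intro e g x
  have h1 : ∀ j, C2_ev κ i j (f' (e, κ.L.cls g) - ι c • f (e, κ.L.cls g)) =
      C2_ev κ i j (f' (e, κ.L.cls g)) - ι c * C2_ev κ i j (f (e, κ.L.cls g)) := by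
    intro j
    rw [map_sub, map_smul, smul_eq_mul]
  refine Eq.trans ?_ (Finset.sum_congr rfl fun j _ => congrArg (· * _) (h1 j).symm)
  have h2 := h e g x
  have h3 := h' e g x
  change ι (z' e g x - c * z e g x) = _
  rw [map_sub, map_mul, h2, h3, Finset.mul_sum, ← Finset.sum_sub_distrib]
  refine Finset.sum_congr rfl fun j _ => ?_
  change _ = ((f' (e, κ.L.cls g) : WI (i.J.subgroupOf (K 0)) (κ.ρ i)).1 1 j -
    ι c * (f (e, κ.L.cls g) : WI (i.J.subgroupOf (K 0)) (κ.ρ i)).1 1 j) * _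
  ring

/-- Cocycles. -/
theorem Cz.cocycle_iff {m : ℕ} {i : MIx ℓ U K} {z : Coch D m} (hz : IsCochain i.Q (U ⊔ i.J) z)
    {f : Simp κ.L.E κ.L.X m → κ.fam.W i} (hf : f ∈ Fun (κ.rep i) (Simp κ.L.E κ.L.X m))
    (h : κ.Rel i z f) :
    IsCocycle i.Q (U ⊔ i.J) z ↔ f ∈ cocyc (Zl ℓ) (κ.rep i) κ.L.E κ.L.X m := by
  have hbd : pull (PadicAlgCl ℓ) (κ.fam.W i) (bd (Zl ℓ) κ.L.E κ.L.X m) f ∈
      Fun (κ.rep i) (Simp κ.L.E κ.L.X (m + 1)) := pull_mem_Fun _ (equi_bd m) hf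
  constructor
  · intro h1
    refine ⟨hf, ?_⟩
    have h2 := κ.rel_del h
    rw [h1.2] at h2
    exact Cz.Rel.eq_right κ hbd (Submodule.zero_mem _) h2 (Cz.Rel.zero κ i)
  · intro h1
    refine ⟨hz, ?_⟩
    have h2 := κ.rel_del h
    have h3 : pull (PadicAlgCl ℓ) (κ.fam.W i) (bd (Zl ℓ) κ.L.E κ.L.X m) f = 0 := h1.2
    rw [h3] at h2
    exact Cz.Rel.eq_left κ h2 (Cz.Rel.zero κ i)

/-- Coboundaries. -/
theorem Cz.cob_iff {m : ℕ} {i : MIx ℓ U K} {z : Coch D m}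
    {f : Simp κ.L.E κ.L.X m → κ.fam.W i} (hf : f ∈ Fun (κ.rep i) (Simp κ.L.E κ.L.X m))
    (h : κ.Rel i z f) :
    IsCob i.Q (U ⊔ i.J) z ↔ f ∈ cobd (Zl ℓ) (κ.rep i) κ.L.E κ.L.X m := by
  cases m with
  | zero =>
    change z = 0 ↔ f = 0
    constructor
    · intro h1
      rw [h1] at h
      exact Cz.Rel.eq_right κ hf (Submodule.zero_mem _) h (Cz.Rel.zero κ i)
    · intro h1
      rw [h1] at h
      exact Cz.Rel.eq_left κ h (Cz.Rel.zero κ i)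
  | succ m =>
    obtain ⟨e, -, he⟩ := κ.exists_equiv m i
    change (∃ y, IsCochain i.Q (U ⊔ i.J) y ∧ z = del y) ↔
      f ∈ (Fun (κ.rep i) (Simp κ.L.E κ.L.X m)).map (pull (PadicAlgCl ℓ) _ (bd (Zl ℓ) κ.L.E κ.L.X m))
    constructor
    · rintro ⟨y, hy, rfl⟩
      have h1 := κ.rel_del (he ⟨y, hy⟩)
      refine ⟨(e ⟨y, hy⟩).1, (e ⟨y, hy⟩).2, ?_⟩
      exact Cz.Rel.eq_right κ (pull_mem_Fun _ (equi_bd m) (e ⟨y, hy⟩).2) hf h1 h
    · rintro ⟨f', hf', rfl⟩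
      have h1 := he (e.symm ⟨f', hf'⟩)
      rw [AddEquiv.apply_symm_apply] at h1
      exact ⟨(e.symm ⟨f', hf'⟩).1, (e.symm ⟨f', hf'⟩).2, Cz.Rel.eq_left κ h (κ.rel_del h1)⟩

/-- The coboundaries as a space. -/
noncomputable def cobS (Q : Submodule ℂ (D.Cpx → ℂ)) (V : Subgroup D.Ad) (m : ℕ) :
    Submodule ℂ (Coch D m) := Submodule.span ℂ {z : Coch D m | IsCob Q V z}

include κ in
theorem Cz.isCob_isCochain {m : ℕ} {i : MIx ℓ U K} {z : Coch D m} (hz : IsCob i.Q (U ⊔ i.J) z) :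
    IsCochain i.Q (U ⊔ i.J) z := by
  obtain ⟨e', -, he'⟩ := κ.exists_equiv m i
  cases m with
  | zero =>
    have h : z = 0 := hz
    rw [h]
    exact (cochS i.Q (U ⊔ i.J) 0).zero_mem
  | succ m =>
    obtain ⟨y, hy, rfl⟩ := hz
    obtain ⟨e, -, he⟩ := κ.exists_equiv m i
    have h1 := κ.rel_del (he ⟨y, hy⟩)
    have h3 : pull (PadicAlgCl ℓ) (κ.fam.W i) (bd (Zl ℓ) κ.L.E κ.L.X m) (e ⟨y, hy⟩).1 ∈
      Fun (κ.rep i) (Simp κ.L.E κ.L.X (m + 1)) := pull_mem_Fun _ (equi_bd m) (e ⟨y, hy⟩).2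
    have h2 := he' (e'.symm ⟨_, h3⟩)
    rw [AddEquiv.apply_symm_apply] at h2
    rw [Cz.Rel.eq_left κ h1 h2]
    exact (e'.symm _).2

include κ in
theorem Cz.mem_cobS {m : ℕ} {i : MIx ℓ U K} {z : Coch D m} :
    z ∈ cobS i.Q (U ⊔ i.J) m ↔ IsCob i.Q (U ⊔ i.J) z := by
  refine ⟨fun h => ?_, fun h => Submodule.subset_span h⟩
  obtain ⟨e, he1, he⟩ := κ.exists_equiv m i
  let P : Submodule ℂ (Coch D m) :=
    { carrier := {z | ∃ h : IsCochain i.Q (U ⊔ i.J) z, (e ⟨z, h⟩).1 ∈ cobd (Zl ℓ) (κ.rep i) κ.L.E κ.L.X m}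
      zero_mem' := by
        refine ⟨(cochS i.Q (U ⊔ i.J) m).zero_mem, ?_⟩
        have h1 : e (⟨0, (cochS i.Q (U ⊔ i.J) m).zero_mem⟩ : cochS i.Q (U ⊔ i.J) m) = 0 := map_zero e
        rw [h1]
        exact Submodule.zero_mem _
      add_mem' := by
        rintro a b ⟨ha, ha'⟩ ⟨hb, hb'⟩
        refine ⟨(cochS i.Q (U ⊔ i.J) m).add_mem ha hb, ?_⟩
        have h1 : e (⟨a + b, (cochS i.Q (U ⊔ i.J) m).add_mem ha hb⟩ : cochS i.Q (U ⊔ i.J) m) =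
            e ⟨a, ha⟩ + e ⟨b, hb⟩ := map_add e ⟨a, ha⟩ ⟨b, hb⟩
        rw [h1]
        exact Submodule.add_mem _ ha' hb'
      smul_mem' := by
        rintro c a ⟨ha, ha'⟩
        refine ⟨(cochS i.Q (U ⊔ i.J) m).smul_mem c ha, ?_⟩
        have h1 : e (⟨c • a, (cochS i.Q (U ⊔ i.J) m).smul_mem c ha⟩ : cochS i.Q (U ⊔ i.J) m) =
            ι c • e ⟨a, ha⟩ := he1 c ⟨a, ha⟩
        rw [h1]
        exact Submodule.smul_mem _ _ ha' }
  have hle : cobS i.Q (U ⊔ i.J) m ≤ P := by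
    refine Submodule.span_le.2 fun y hy => ?_
    have hy1 := κ.isCob_isCochain hy
    exact ⟨hy1, (κ.cob_iff (e ⟨y, hy1⟩).2 (he ⟨y, hy1⟩)).1 hy⟩
  obtain ⟨h1, h2⟩ := hle h
  exact (κ.cob_iff (e ⟨z, h1⟩).2 (he ⟨z, h1⟩)).2 h2

/-- The cocycles as a space. -/
noncomputable def cocS (Q : Submodule ℂ (D.Cpx → ℂ)) (V : Subgroup D.Ad) (m : ℕ) :
    Submodule ℂ (Coch D m) where
  carrier := {z | IsCocycle Q V z}
  zero_mem' := ⟨(cochS Q V m).zero_mem, by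
    funext e g x
    simp [del]⟩
  add_mem' {a b} ha hb := ⟨(cochS Q V m).add_mem ha.1 hb.1, by
    have h1 : del (a + b) = del a + del b := by
      funext e g x
      simp only [del, Pi.add_apply, smul_add, Finset.sum_add_distrib]
    rw [h1, ha.2, hb.2, add_zero]⟩
  smul_mem' c a ha := ⟨(cochS Q V m).smul_mem c ha.1, by
    have h1 : del (c • a) = c • del a := by
      funext e g
      simp only [del, Pi.smul_apply, Finset.smul_sum]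
      exact Finset.sum_congr rfl fun k _ => smul_comm _ _ _
    rw [h1, ha.2, smul_zero]⟩

/-- The class of a cocycle. -/
theorem Cz.exists_class (m : ℕ) (i : MIx ℓ U K) :
    ∃ φ : cocS i.Q (U ⊔ i.J) m →+ EH (Zl ℓ) κ.L.E κ.L.X (κ.rep i) m,
      (∀ (a : ℂ) z, φ (a • z) = ι a • φ z) ∧ (∀ z, φ z = 0 ↔ z.1 ∈ cobS i.Q (U ⊔ i.J) m) ∧
      Function.Surjective φ ∧ ∀ z, ∃ f : cocyc (Zl ℓ) (κ.rep i) κ.L.E κ.L.X m, κ.Rel i z.1 f.1 ∧
        φ z = Submodule.Quotient.mk f := by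
  obtain ⟨e, he1, he⟩ := κ.exists_equiv m i
  let ψ : cocS i.Q (U ⊔ i.J) m →+ cocyc (Zl ℓ) (κ.rep i) κ.L.E κ.L.X m :=
    { toFun := fun z => ⟨(e ⟨z.1, z.2.1⟩).1, (κ.cocycle_iff z.2.1 (e ⟨z.1, z.2.1⟩).2 (he ⟨z.1, z.2.1⟩)).1 z.2⟩
      map_zero' := by
        apply Subtype.ext
        have h := congrArg (fun f : Fun (κ.rep i) (Simp κ.L.E κ.L.X m) => f.1) (map_zero e)
        exact h
      map_add' := fun a b => by
        apply Subtype.ext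
        have h := congrArg (fun f : Fun (κ.rep i) (Simp κ.L.E κ.L.X m) => f.1)
          (map_add e ⟨a.1, a.2.1⟩ ⟨b.1, b.2.1⟩)
        exact h }
  let φ : cocS i.Q (U ⊔ i.J) m →+ EH (Zl ℓ) κ.L.E κ.L.X (κ.rep i) m :=
    { toFun := fun z => Submodule.Quotient.mk (ψ z)
      map_zero' := by rw [map_zero]; rfl
      map_add' := fun a b => by rw [map_add]; rfl }
  refine ⟨φ, fun a z => ?_, fun z => ?_, fun q => ?_, fun z => ⟨ψ z, he ⟨z.1, z.2.1⟩, rfl⟩⟩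
  · have h1 : ψ (a • z) = ι a • ψ z := by
      apply Subtype.ext
      have h := congrArg (fun f : Fun (κ.rep i) (Simp κ.L.E κ.L.X m) => f.1) (he1 a ⟨z.1, z.2.1⟩)
      exact h
    change Submodule.Quotient.mk (ψ (a • z)) = _
    rw [h1]
    rfl
  · change Submodule.Quotient.mk (ψ z) = 0 ↔ _
    rw [Submodule.Quotient.mk_eq_zero, κ.mem_cobS]
    exact (κ.cob_iff (e ⟨z.1, z.2.1⟩).2 (he ⟨z.1, z.2.1⟩)).symm
  · obtain ⟨f, rfl⟩ := Submodule.Quotient.mk_surjective _ q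
    obtain ⟨f, hf⟩ := f
    have h1 := he (e.symm ⟨f, hf.1⟩)
    rw [AddEquiv.apply_symm_apply] at h1
    have h2 := (κ.cocycle_iff (e.symm ⟨f, hf.1⟩).2 hf.1 h1).2 hf
    refine ⟨⟨(e.symm ⟨f, hf.1⟩).1, h2⟩, ?_⟩
    change Submodule.Quotient.mk (ψ _) = _
    congr 1
    apply Subtype.ext
    change (e (e.symm ⟨f, hf.1⟩)).1 = f
    rw [AddEquiv.apply_symm_apply]

variable (hSl : ∀ v : HeightOneSpectrum (𝓞 F), (ℓ : 𝓞 F) ∈ v.asIdeal → v ∈ S)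
  (hUS : ∀ v, v ∉ S → IsGoodAt U v)

theorem Cz.dimH_eq (m : ℕ) (i : MIx ℓ U K) :
    dimH i.Q U i.J m = Module.finrank (PadicAlgCl ℓ) (EH (Zl ℓ) κ.L.E κ.L.X (κ.rep i) m) := by
  obtain ⟨φ, h1, h2, h3, h4⟩ := κ.exists_class m i
  have h5 := C0_finrank ι (C := cobS i.Q (U ⊔ i.J) m) φ h1 h2 {z | IsCocycle i.Q (U ⊔ i.J) z}
    (fun z hz => hz)
  refine h5.trans ?_
  have h6 : {h | ∃ z : cocS i.Q (U ⊔ i.J) m, z.1 ∈ {z : Coch D m | IsCocycle i.Q (U ⊔ i.J) z} ∧ φ z = h} =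
      Set.univ := by
    refine Set.eq_univ_of_forall fun q => ?_
    obtain ⟨z, rfl⟩ := h3 q
    exact ⟨z, z.2, rfl⟩
  rw [h6, Submodule.span_univ, finrank_top]

theorem Cz.gen_step {m : ℕ} {i : MIx ℓ U K} (x : IX ℓ S U) (c : ℂ) {z : Coch D m}
    {f : cocyc (Zl ℓ) (κ.rep i) κ.L.E κ.L.X m} (h : κ.Rel i z f.1) (k : ℕ) :
    ∃ f' : cocyc (Zl ℓ) (κ.rep i) κ.L.E κ.L.X m, κ.Rel i ((opSub x.1.2 c)^[k] z) f'.1 ∧
      ((κ.T hSl hUS m i x - ι c • (1 : Module.End (PadicAlgCl ℓ) _)) ^ k :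
        Module.End (PadicAlgCl ℓ) (EH (Zl ℓ) κ.L.E κ.L.X (κ.rep i) m)) (Submodule.Quotient.mk f : EH (Zl ℓ) κ.L.E κ.L.X (κ.rep i) m) = Submodule.Quotient.mk f' := by
  induction k with
  | zero => exact ⟨f, h, rfl⟩
  | succ k ih =>
    obtain ⟨f', h1, h2⟩ := ih
    have hmem : pull (PadicAlgCl ℓ) (κ.fam.W i) (ext (E := κ.L.E) m (κ.hx x)) f'.1 ∈
        cocyc (Zl ℓ) (κ.rep i) κ.L.E κ.L.X m := ext_mem_cocyc (κ.rep i) (κ.equi_hx hSl hUS x) m f'.2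
    refine ⟨⟨_, hmem⟩ - ι c • f', ?_, ?_⟩
    · rw [Function.iterate_succ_apply']
      exact Cz.Rel.sub_smul κ h1 (κ.rel_act hSl hUS x h1) c
    · rw [pow_succ', Module.End.mul_apply, h2]
      rfl

theorem Cz.mk_eq_zero_iff {m : ℕ} {i : MIx ℓ U K} {z : Coch D m}
    {f : cocyc (Zl ℓ) (κ.rep i) κ.L.E κ.L.X m} (h : κ.Rel i z f.1) :
    (Submodule.Quotient.mk f : EH (Zl ℓ) κ.L.E κ.L.X (κ.rep i) m) = 0 ↔ IsCob i.Q (U ⊔ i.J) z := by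
  rw [Submodule.Quotient.mk_eq_zero]
  exact (κ.cob_iff f.2.1 h).symm

theorem Cz.isEig_iff {m : ℕ} {i : MIx ℓ U K} {z : Coch D m} (hz : IsCocycle i.Q (U ⊔ i.J) z)
    {f : cocyc (Zl ℓ) (κ.rep i) κ.L.E κ.L.X m} (h : κ.Rel i z f.1) (lam : ∀ v, Hecke U v → ℂ) :
    IsEig ℓ S i.Q (U ⊔ i.J) lam z ↔
      (Submodule.Quotient.mk f : EH (Zl ℓ) κ.L.E κ.L.X (κ.rep i) m) ∈
        jointE (κ.T hSl hUS m i) (iv ι lam) := by
  have key : ∀ x : IX ℓ S U, IsCob i.Q (U ⊔ i.J) (opSub x.1.2 (lam x.1.1 x.1.2) z) ↔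
      (Submodule.Quotient.mk f : EH (Zl ℓ) κ.L.E κ.L.X (κ.rep i) m) ∈
        Module.End.eigenspace (κ.T hSl hUS m i x) (iv ι lam x) := by
    intro x
    obtain ⟨f', h1, h2⟩ := κ.gen_step hSl hUS x (lam x.1.1 x.1.2) h 1
    have h3 := κ.mk_eq_zero_iff h1
    rw [Module.End.mem_eigenspace_iff, ← sub_eq_zero]
    refine h3.symm.trans ?_
    rw [← h2, pow_one]
    rfl
  unfold IsEig jointE
  rw [Submodule.mem_iInf]
  constructor
  · rintro ⟨-, h1⟩ x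
    exact (key x).1 (h1 x.1.1 x.2.1 x.1.2 x.2.2)
  · intro h1
    exact ⟨hz, fun v hv T hT => (key ⟨⟨v, T⟩, hv, hT⟩).2 (h1 _)⟩

theorem Cz.isGen_iff {m : ℕ} {i : MIx ℓ U K} {z : Coch D m} (hz : IsCocycle i.Q (U ⊔ i.J) z)
    {f : cocyc (Zl ℓ) (κ.rep i) κ.L.E κ.L.X m} (h : κ.Rel i z f.1) (lam : ∀ v, Hecke U v → ℂ) :
    IsGen ℓ S i.Q (U ⊔ i.J) lam z ↔
      (Submodule.Quotient.mk f : EH (Zl ℓ) κ.L.E κ.L.X (κ.rep i) m) ∈
        jointG (κ.T hSl hUS m i) (iv ι lam) := by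
  have key : ∀ x : IX ℓ S U, (∃ k : ℕ, IsCob i.Q (U ⊔ i.J) ((opSub x.1.2 (lam x.1.1 x.1.2))^[k] z)) ↔
      (Submodule.Quotient.mk f : EH (Zl ℓ) κ.L.E κ.L.X (κ.rep i) m) ∈
        Module.End.maxGenEigenspace (κ.T hSl hUS m i x) (iv ι lam x) := by
    intro x
    rw [Module.End.mem_maxGenEigenspace]
    refine exists_congr fun k => ?_
    obtain ⟨f', h1, h2⟩ := κ.gen_step hSl hUS x (lam x.1.1 x.1.2) h k
    refine (κ.mk_eq_zero_iff h1).symm.trans ?_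
    rw [← h2]
    rfl
  unfold IsGen jointG
  rw [Submodule.mem_iInf]
  constructor
  · rintro ⟨-, h1⟩ x
    exact (key x).1 (h1 x.1.1 x.2.1 x.1.2 x.2.2)
  · intro h1
    exact ⟨hz, fun v hv T hT => (key ⟨⟨v, T⟩, hv, hT⟩).2 (h1 _)⟩

/-- A function in relation with a cocycle is a cocycle. -/
theorem Cz.Rel.isCocycle {m : ℕ} {i : MIx ℓ U K} {z : Coch D m}
    {f : cocyc (Zl ℓ) (κ.rep i) κ.L.E κ.L.X m} (h : κ.Rel i z f.1) : IsCocycle i.Q (U ⊔ i.J) z := by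
  obtain ⟨e, -, he⟩ := κ.exists_equiv m i
  have h1 := he (e.symm ⟨f.1, f.2.1⟩)
  rw [AddEquiv.apply_symm_apply] at h1
  have h2 : IsCochain i.Q (U ⊔ i.J) z := by
    rw [Cz.Rel.eq_left κ h h1]
    exact (e.symm ⟨f.1, f.2.1⟩).2
  exact (κ.cocycle_iff h2 f.2.1 h).2 f.2

theorem Cz.isOrd_iff {m : ℕ} {i : MIx ℓ U K} (lam : ∀ v, Hecke U v → ℂ) (N : ℕ) :
    ∀ {z : Coch D m} {f : cocyc (Zl ℓ) (κ.rep i) κ.L.E κ.L.X m} (_ : κ.Rel i z f.1),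
      IsOrd ℓ S i.Q (U ⊔ i.J) lam N z ↔
        (Submodule.Quotient.mk f : EH (Zl ℓ) κ.L.E κ.L.X (κ.rep i) m) ∈
          jointO (κ.T hSl hUS m i) (iv ι lam) N := by
  induction N with
  | zero =>
    intro z f h
    exact (κ.mk_eq_zero_iff h).symm
  | succ N ih =>
    intro z f h
    have key : ∀ x : IX ℓ S U, IsOrd ℓ S i.Q (U ⊔ i.J) lam N (opSub x.1.2 (lam x.1.1 x.1.2) z) ↔
        (κ.T hSl hUS m i x - iv ι lam x • (1 : Module.End (PadicAlgCl ℓ) _) :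
          Module.End (PadicAlgCl ℓ) (EH (Zl ℓ) κ.L.E κ.L.X (κ.rep i) m))
          (Submodule.Quotient.mk f : EH (Zl ℓ) κ.L.E κ.L.X (κ.rep i) m) ∈
          jointO (κ.T hSl hUS m i) (iv ι lam) N := by
      intro x
      obtain ⟨f', h1, h2⟩ := κ.gen_step hSl hUS x (lam x.1.1 x.1.2) h 1
      rw [pow_one] at h2
      have h3 := ih h1
      rw [← h2] at h3
      exact h3
    constructor
    · rintro ⟨-, h1⟩
      exact (Submodule.mem_iInf _).2 fun x => (key x).1 (h1 x.1.1 x.2.1 x.1.2 x.2.2)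
    · intro h1
      exact ⟨Cz.Rel.isCocycle κ h, fun v hv T hT =>
        (key ⟨⟨v, T⟩, hv, hT⟩).2 ((Submodule.mem_iInf _).1 h1 ⟨⟨v, T⟩, hv, hT⟩)⟩

theorem Cz.dimOrd_eq (m N : ℕ) (i : MIx ℓ U K) (p : (∀ v, Hecke U v → ℂ) → Prop) :
    dimOrd ℓ S i.Q U i.J m N p = Module.finrank (PadicAlgCl ℓ)
      (⨆ y ∈ {y | ∃ lam, p lam ∧ iv ι lam = y}, jointO (κ.T hSl hUS m i) y N :
        Submodule (PadicAlgCl ℓ) (EH (Zl ℓ) κ.L.E κ.L.X (κ.rep i) m)) := by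
  obtain ⟨φ, h1, h2, h3, h4⟩ := κ.exists_class m i
  have h5 := C0_finrank ι (C := cobS i.Q (U ⊔ i.J) m) φ h1 h2
    {z : Coch D m | ∃ lam, p lam ∧ IsOrd ℓ S i.Q (U ⊔ i.J) lam N z} (by
      rintro z ⟨lam, -, hz⟩
      cases N with
      | zero =>
        have h6 : IsCob i.Q (U ⊔ i.J) z := hz
        have h7 := κ.isCob_isCochain h6
        obtain ⟨e, -, he⟩ := κ.exists_equiv m i
        have h8 := he ⟨z, h7⟩
        have h9 := (κ.cob_iff (e ⟨z, h7⟩).2 h8).1 h6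
        have hne : Nonempty κ.L.E := ⟨(1 : D.Rat)⟩
        rw [← std_cobd κ.L.free (κ.rep i) m] at h9
        exact (κ.cocycle_iff h7 (e ⟨z, h7⟩).2 h8).2
          ((Res.std (Zl ℓ) (D.Rat × κ.L.K) κ.L.E κ.L.X κ.L.free).cobd_le (κ.rep i) m h9)
      | succ N => exact hz.1)
  suffices h6 : Submodule.span (PadicAlgCl ℓ) {h | ∃ z : cocS i.Q (U ⊔ i.J) m,
      z.1 ∈ {z : Coch D m | ∃ lam, p lam ∧ IsOrd ℓ S i.Q (U ⊔ i.J) lam N z} ∧ φ z = h} =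
      ⨆ y ∈ {y | ∃ lam, p lam ∧ iv ι lam = y}, jointO (κ.T hSl hUS m i) y N by
    rw [h6] at h5
    exact h5
  refine le_antisymm (Submodule.span_le.2 ?_) (iSup₂_le ?_)
  · rintro _ ⟨z, ⟨lam, hp, hz⟩, rfl⟩
    obtain ⟨f, hf, hf'⟩ := h4 z
    rw [hf']
    have h6 := (κ.isOrd_iff hSl hUS lam N hf).1 hz
    have h7 : jointO (κ.T hSl hUS m i) (iv ι lam) N ≤
        ⨆ y ∈ {y | ∃ lam, p lam ∧ iv ι lam = y}, jointO (κ.T hSl hUS m i) y N :=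
      le_iSup₂_of_le (iv ι lam) ⟨lam, hp, rfl⟩ le_rfl
    exact h7 h6
  · rintro _ ⟨lam, hp, rfl⟩ q hq
    obtain ⟨z, rfl⟩ := h3 q
    obtain ⟨f, hf, hf'⟩ := h4 z
    refine Submodule.subset_span ⟨z, ⟨lam, hp, ?_⟩, rfl⟩
    rw [hf'] at hq
    exact (κ.isOrd_iff hSl hUS lam N hf).2 hq

theorem Cz.dimGen_eq (m : ℕ) (i : MIx ℓ U K) (p : (∀ v, Hecke U v → ℂ) → Prop) :
    dimGen ℓ S i.Q U i.J m p = Module.finrank (PadicAlgCl ℓ)
      (⨆ y ∈ {y | ∃ lam, p lam ∧ iv ι lam = y}, jointG (κ.T hSl hUS m i) y :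
        Submodule (PadicAlgCl ℓ) (EH (Zl ℓ) κ.L.E κ.L.X (κ.rep i) m)) := by
  obtain ⟨φ, h1, h2, h3, h4⟩ := κ.exists_class m i
  have h5 := C0_finrank ι (C := cobS i.Q (U ⊔ i.J) m) φ h1 h2
    {z : Coch D m | ∃ lam, p lam ∧ IsGen ℓ S i.Q (U ⊔ i.J) lam z} (by
      rintro z ⟨lam, -, hz⟩
      exact hz.1)
  suffices h6 : Submodule.span (PadicAlgCl ℓ) {h | ∃ z : cocS i.Q (U ⊔ i.J) m,
      z.1 ∈ {z : Coch D m | ∃ lam, p lam ∧ IsGen ℓ S i.Q (U ⊔ i.J) lam z} ∧ φ z = h} =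
      ⨆ y ∈ {y | ∃ lam, p lam ∧ iv ι lam = y}, jointG (κ.T hSl hUS m i) y by
    rw [h6] at h5
    exact h5
  refine le_antisymm (Submodule.span_le.2 ?_) (iSup₂_le ?_)
  · rintro _ ⟨z, ⟨lam, hp, hz⟩, rfl⟩
    obtain ⟨f, hf, hf'⟩ := h4 z
    rw [hf']
    have h6 := (κ.isGen_iff hSl hUS z.2 hf lam).1 hz
    have h7 : jointG (κ.T hSl hUS m i) (iv ι lam) ≤
        ⨆ y ∈ {y | ∃ lam, p lam ∧ iv ι lam = y}, jointG (κ.T hSl hUS m i) y :=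
      le_iSup₂_of_le (iv ι lam) ⟨lam, hp, rfl⟩ le_rfl
    exact h7 h6
  · rintro _ ⟨lam, hp, rfl⟩ q hq
    obtain ⟨z, rfl⟩ := h3 q
    obtain ⟨f, hf, hf'⟩ := h4 z
    refine Submodule.subset_span ⟨z, ⟨lam, hp, ?_⟩, rfl⟩
    rw [hf'] at hq
    exact (κ.isGen_iff hSl hUS z.2 hf lam).2 hq

theorem Cz.mem_CSys_aux (m : ℕ) (i : MIx ℓ U K) (lam : ∀ v, Hecke U v → ℂ) :
    (∃ z : Coch D m, IsEig ℓ S i.Q (U ⊔ i.J) lam z ∧ ¬ IsCob i.Q (U ⊔ i.J) z) ↔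
      jointE (κ.T hSl hUS m i) (iv ι lam) ≠ ⊥ := by
  obtain ⟨φ, h1, h2, h3, h4⟩ := κ.exists_class m i
  constructor
  · rintro ⟨z, hz, hnz⟩ hbot
    obtain ⟨f, hf, hf'⟩ := h4 ⟨z, hz.1⟩
    have h5 := (κ.isEig_iff hSl hUS hz.1 hf lam).1 hz
    rw [hbot, Submodule.mem_bot] at h5
    exact hnz ((κ.mk_eq_zero_iff hf).1 h5)
  · intro hi
    obtain ⟨q, hq, hq0⟩ := (Submodule.ne_bot_iff _).1 hi
    obtain ⟨z, rfl⟩ := h3 q
    obtain ⟨f, hf, hf'⟩ := h4 z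
    rw [hf'] at hq hq0
    exact ⟨z.1, (κ.isEig_iff hSl hUS z.2 hf lam).2 hq,
      fun hcob => hq0 ((κ.mk_eq_zero_iff hf).2 hcob)⟩

theorem Cz.mem_CSys (m : ℕ) (lam : ∀ v, Hecke U v → ℂ) :
    lam ∈ CSys ℓ S U (K 0) m ↔ ∃ i : MIx ℓ U K, jointE (κ.T hSl hUS m i) (iv ι lam) ≠ ⊥ := by
  constructor
  · rintro ⟨J, Q, z, hJ, hJK, hQ, hz, hnz⟩
    exact ⟨⟨(0, J, Q), hJ, hJK, hQ⟩,
      (κ.mem_CSys_aux hSl hUS m ⟨(0, J, Q), hJ, hJK, hQ⟩ lam).1 ⟨z, hz, hnz⟩⟩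
  · rintro ⟨i, hi⟩
    obtain ⟨z, hz, hnz⟩ := (κ.mem_CSys_aux hSl hUS m i lam).2 hi
    exact ⟨i.J, i.Q, z, i.level, i.le_zero κ.hK, i.weight, hz, hnz⟩

/-- The family is admissible (copy from `Ctx.ok` in FM/D6; `fin`: the levels `ℤ/ℓ^(s+1)[P s]` are finite). -/
theorem Cz.fok : FOk κ.fam where
  one_lt := (Fact.out : ℓ.Prime).one_lt
  fin s := FM.PA.la_finite κ.𝒯 s
  deep s := by
    let i : MIx ℓ U K := ⟨(s, K s, constSub D), κ.hK.level s, le_rfl, isWeight_const⟩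
    refine ⟨i, le_rfl, ?_⟩
    have h1 := (finrank_WI κ.𝒬 (i.J.subgroupOf (K 0)) (κ.hJ i) (κ.ρ i)).2
    have h2 : (i.J.subgroupOf (K 0)).index = ℓ ^ (s * d) := κ.hK.index s
    have h3 : Module.finrank ℂ i.Q = 1 := finrank_const
    change 0 < Module.finrank (PadicAlgCl ℓ) (WI (i.J.subgroupOf (K 0)) (κ.ρ i))
    refine lt_of_lt_of_eq ?_ h1.symm
    rw [h2, h3, mul_one]
    exact pow_pos (Fact.out : ℓ.Prime).pos _
  cont i := by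
    refine ⟨K 0 × Fin (Module.finrank ℂ (MIx.Q i)), fun y =>
      { toFun := fun Φ => Φ.1 y.1 y.2, map_add' := fun _ _ => rfl, map_smul' := fun _ _ => rfl },
      fun Φ hΦ => Subtype.ext (funext fun x => funext fun j => hΦ (x, j)), fun Φ ε hε => ?_⟩
    obtain ⟨s, hs⟩ := (κ.isAct i).cont Φ ε hε
    exact ⟨s, fun a ha y => hs a ha y.1 y.2⟩

end Pool.Agent.Lib.MP_666dc0_nt.CL
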