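import Pool.Agent.Lib.MP_666dc0_nt.CL.CDefs
import Pool.Agent.Lib.MP_666dc0_nt.WL.D1

/-!
# CL, C1: the cochains with values in the weight `Q` as equivariant functions with values in `WI J ρ` (TASK II-C1)

`e`: for `f ∈ Fun (κ.rep i) (Simp L.E L.X m)` put `Φ e g := (f (e, L.cls g)).1 1` (a vector in `Fin w → ℚ̄_ℓ`, `w = dim Q`) and
`z e g x := ι.symm (∑ j, Φ e g j * ι (q j (x * H.hat g)))` with the good basis `q` (`κ.gb i`).
`(f (e, cls g)).1 k = Φ e (g k)` for `k ∈ K 0`, because `(1, k⁻¹) • (e, cls g) = (e, cls (g k))` and `Cz.rep_apply`;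
`Φ (γ e) (γ g) = Φ e g`, `Φ e (g u) = Φ e g` (`u ∈ U`), `Φ e (g k) = ρ(k)⁻¹ Φ e g` (`k ∈ J`, from `WI`).
`Φ ↔ z`: exactly as `exists_toV` (ZO/Q3: `Q3_fwd`, `Q3_bwd`, `Q3_P`; there `IsForm D Q (U ⊔ K s)` for the function `z e`, here
with the extra variable `e`; use the tower `tow K i.J` and `tow K J 1 = J`). Conversely `f (e, x) = ` the function
`k ↦ Φ e (out x * k)`.
-/

open NumberField IsDedekindDomain
open scoped NumberField

namespace Pool.Agent.Lib.MP_666dc0_nt.CL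

open WL ZO FM EP EC

variable {F : Type} [Field F] [NumberField F] {n : ℕ} {D : Datum F n} {ℓ : ℕ} [Fact ℓ.Prime]
  {S : Finset (HeightOneSpectrum (𝓞 F))} {U : Subgroup D.Ad} {K : ℕ → Subgroup D.Ad} {d : ℕ}
  {ι : ℂ ≃+* PadicAlgCl ℓ} (κ : Cz ℓ U K d ι)

/-- The space of the cochains. -/
noncomputable def cochS (Q : Submodule ℂ (D.Cpx → ℂ)) (V : Subgroup D.Ad) (m : ℕ) :
    Submodule ℂ (Coch D m) where
  carrier := {z | IsCochain Q V z}
  zero_mem' := ⟨fun _ _ => Q.zero_mem, fun _ _ _ _ => rfl, fun _ _ _ _ => rfl⟩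
  add_mem' {f g} hf hg := ⟨fun e x => Q.add_mem (hf.mem e x) (hg.mem e x),
    fun γ e y x => by simp only [Pi.add_apply]; rw [hf.left, hg.left],
    fun e y k hk => by simp only [Pi.add_apply]; rw [hf.right e y k hk, hg.right e y k hk]⟩
  smul_mem' c f hf := ⟨fun e x => Q.smul_mem c (hf.mem e x),
    fun γ e y x => by simp only [Pi.smul_apply]; rw [hf.left],
    fun e y k hk => by simp only [Pi.smul_apply]; rw [hf.right e y k hk]⟩

/-- The relation between a cochain and an equivariant function. -/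
def Cz.Rel {m : ℕ} (i : MIx ℓ U K) (z : Coch D m) (f : Simp κ.L.E κ.L.X m → κ.fam.W i) : Prop :=
  ∀ (e : Fin (m + 1) → D.Rat) (g : D.Ad) (x : D.Cpx), ι (z e g x) =
    ∑ j, (f (e, κ.L.cls g) : WI (i.J.subgroupOf (K 0)) (κ.ρ i)).1 1 j *
      ι ((κ.gb i).q j (x * κ.H.hat D g))

private theorem C1_uniq {w : ℕ} {q : Fin w → D.Cpx → ℂ} (hq : LinearIndependent ℂ q)
    (a b : Fin w → PadicAlgCl ℓ)
    (h : ∀ x, ∑ j, a j * ι (q j x) = ∑ j, b j * ι (q j x)) : a = b := by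
  have h0 : ∑ j, ι.symm (a j - b j) • q j = 0 := by
    funext x
    rw [Finset.sum_apply, Pi.zero_apply]
    apply ι.injective
    rw [map_sum, map_zero]
    have h1 : ∀ j, ι ((ι.symm (a j - b j) • q j) x) = a j * ι (q j x) - b j * ι (q j x) := by
      intro j
      rw [Pi.smul_apply, smul_eq_mul, map_mul, RingEquiv.apply_symm_apply, sub_mul]
    rw [Finset.sum_congr rfl fun j _ => h1 j, Finset.sum_sub_distrib, h x, sub_self]
  funext j
  have h2 := Fintype.linearIndependent_iff.1 hq _ h0 j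
  have h3 : a j - b j = 0 := by
    have := congrArg ι h2
    rwa [RingEquiv.apply_symm_apply, map_zero] at this
  exact sub_eq_zero.1 h3

private theorem C1_exi {w : ℕ} {q : Fin w → D.Cpx → ℂ} {Q : Submodule ℂ (D.Cpx → ℂ)}
    (hs : Submodule.span ℂ (Set.range q) = Q) (p : D.Cpx → ℂ) (hp : p ∈ Q) :
    ∃ a : Fin w → PadicAlgCl ℓ, ∀ x, ι (p x) = ∑ j, a j * ι (q j x) := by
  rw [← hs, Submodule.mem_span_range_iff_exists_fun] at hp
  obtain ⟨c, hc⟩ := hp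
  refine ⟨fun j => ι (c j), fun x => ?_⟩
  rw [← hc, Finset.sum_apply, map_sum]
  refine Finset.sum_congr rfl fun j _ => ?_
  rw [Pi.smul_apply, smul_eq_mul, map_mul]

/-- The relation with a vector valued function. -/
def Cz.PRel {m : ℕ} (i : MIx ℓ U K) (z : Coch D m)
    (Φ : (Fin (m + 1) → D.Rat) → D.Ad → Fin (Module.finrank ℂ i.Q) → PadicAlgCl ℓ) : Prop :=
  ∀ (e : Fin (m + 1) → D.Rat) (g : D.Ad) (x : D.Cpx), ι (z e g x) =
    ∑ j, Φ e g j * ι ((κ.gb i).q j (x * κ.H.hat D g))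

/-- The conditions on a vector valued function. -/
structure Cz.IsP {m : ℕ} (i : MIx ℓ U K)
    (Φ : (Fin (m + 1) → D.Rat) → D.Ad → Fin (Module.finrank ℂ i.Q) → PadicAlgCl ℓ) : Prop where
  left : ∀ (γ : D.Rat) e g, Φ (fun a => γ * e a) (D.toAd γ * g) = Φ e g
  right : ∀ e g, ∀ u ∈ U, Φ e (g * u) = Φ e g
  eqv : ∀ e g (k : K 0), (k : D.Ad) ∈ i.J → Φ e (g * k) = (κ.ρ i k⁻¹).mulVec (Φ e g)

theorem Cz.PRel.uniq {m : ℕ} {i : MIx ℓ U K} {z : Coch D m}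
    {Φ Ψ : (Fin (m + 1) → D.Rat) → D.Ad → Fin (Module.finrank ℂ i.Q) → PadicAlgCl ℓ}
    (h : κ.PRel i z Φ) (h' : κ.PRel i z Ψ) : Φ = Ψ := by
  funext e g
  refine C1_uniq (ι := ι) (κ.gb i).indep _ _ fun x => ?_
  have h1 := h e g (x * (κ.H.hat D g)⁻¹)
  have h2 := h' e g (x * (κ.H.hat D g)⁻¹)
  rw [inv_mul_cancel_right] at h1 h2
  exact h1.symm.trans h2

theorem Cz.fwd {m : ℕ} (i : MIx ℓ U K) (z : Coch D m) (hz : IsCochain i.Q (U ⊔ i.J) z) :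
    ∃ Φ, κ.IsP i Φ ∧ κ.PRel i z Φ := by
  have hex : ∀ (e : Fin (m + 1) → D.Rat) (g : D.Ad), ∃ a : Fin (Module.finrank ℂ i.Q) → PadicAlgCl ℓ,
      ∀ x, ι (z e g (x * (κ.H.hat D g)⁻¹)) = ∑ j, a j * ι ((κ.gb i).q j x) := fun e g =>
    C1_exi (ι := ι) (κ.gb i).span _ (i.weight.trans (z e g) (hz.mem e g) (κ.H.hat D g)⁻¹)
  choose Φ hΦ using hex
  have hP : κ.PRel i z Φ := by
    intro e g x
    rw [← hΦ e g, mul_inv_cancel_right]
  refine ⟨Φ, ⟨?_, ?_, ?_⟩, hP⟩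
  · intro γ e g
    refine C1_uniq (ι := ι) (κ.gb i).indep _ _ fun x => ?_
    rw [← hΦ, ← hΦ, hz.left, map_mul, mul_inv_rev, hat_toAd, mul_assoc, mul_assoc, inv_mul_cancel,
      mul_one]
  · intro e g u hu
    refine C1_uniq (ι := ι) (κ.gb i).indep _ _ fun x => ?_
    rw [← hΦ, ← hΦ, hz.right e g u ((le_sup_left : U ≤ U ⊔ i.J) hu), map_mul,
      hat_eq_one κ.H (κ.hU u hu), mul_one]
  · intro e g k hk
    refine C1_uniq (ι := ι) (κ.gb i).indep _ _ fun x => ?_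
    have h1 : ∀ j, ι ((κ.gb i).q j (x * (κ.H.hat D (k : D.Ad))⁻¹)) =
        ∑ a, κ.ρ i k⁻¹ a j * ι ((κ.gb i).q a x) := by
      intro j
      have h5 : κ.H.hat D ((k⁻¹ : K 0) : D.Ad) = (κ.H.hat D (k : D.Ad))⁻¹ := by
        rw [Subgroup.coe_inv, map_inv]
      rw [← h5]
      exact (κ.gb i).act k⁻¹ j x
    rw [← hΦ, hz.right e g k ((le_sup_right : i.J ≤ U ⊔ i.J) hk), map_mul, mul_inv_rev, ← mul_assoc, hΦ]
    simp only [h1, Matrix.mulVec, dotProduct, Finset.mul_sum, Finset.sum_mul]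
    rw [Finset.sum_comm]
    refine Finset.sum_congr rfl fun a _ => Finset.sum_congr rfl fun j _ => ?_
    ring

theorem Cz.bwd {m : ℕ} (i : MIx ℓ U K)
    (Φ : (Fin (m + 1) → D.Rat) → D.Ad → Fin (Module.finrank ℂ i.Q) → PadicAlgCl ℓ) (hΦ : κ.IsP i Φ) :
    ∃ z : Coch D m, IsCochain i.Q (U ⊔ i.J) z ∧ κ.PRel i z Φ := by
  refine ⟨fun e g x => ι.symm (∑ j, Φ e g j * ι ((κ.gb i).q j (x * κ.H.hat D g))), ⟨?_, ?_, ?_⟩, ?_⟩
  · intro e g
    have hp : (∑ j, ι.symm (Φ e g j) • (κ.gb i).q j) ∈ i.Q := by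
      refine Submodule.sum_mem _ fun j _ => Submodule.smul_mem _ _ ?_
      have h0 : (κ.gb i).q j ∈ Submodule.span ℂ (Set.range (κ.gb i).q) := Submodule.subset_span ⟨j, rfl⟩
      exact (κ.gb i).span.le h0
    have := i.weight.trans _ hp (κ.H.hat D g)
    have he : (fun x => (∑ j, ι.symm (Φ e g j) • (κ.gb i).q j) (x * κ.H.hat D g)) =
        fun x => ι.symm (∑ j, Φ e g j * ι ((κ.gb i).q j (x * κ.H.hat D g))) := by
      funext x
      rw [Finset.sum_apply, map_sum]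
      refine Finset.sum_congr rfl fun j _ => ?_
      rw [Pi.smul_apply, smul_eq_mul, map_mul, RingEquiv.symm_apply_apply]
    rw [he] at this
    exact this
  · intro γ e g x
    simp only [hΦ.left, map_mul, hat_toAd, mul_assoc]
  · intro e g k hk
    rw [mem_sup_iff κ.hU i.level.supp] at hk
    obtain ⟨u, hu, k', hk', rfl⟩ := hk
    have hk0 : k' ∈ K 0 := i.le_zero κ.hK hk'
    have h1 : Φ e (g * (u * k')) = (κ.ρ i (⟨k', hk0⟩ : K 0)⁻¹).mulVec (Φ e g) := by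
      rw [← mul_assoc]
      have := hΦ.eqv e (g * u) ⟨k', hk0⟩ hk'
      rw [hΦ.right e g u hu] at this
      exact this
    have h2 : κ.H.hat D (g * (u * k')) = κ.H.hat D g * κ.H.hat D k' := by
      rw [map_mul, map_mul, hat_eq_one κ.H (κ.hU u hu), one_mul]
    funext x
    congr 1
    rw [h1, h2]
    have h3 : ∀ j, ι ((κ.gb i).q j (x * (κ.H.hat D g * κ.H.hat D k'))) =
        ∑ a, κ.ρ i ⟨k', hk0⟩ a j * ι ((κ.gb i).q a (x * κ.H.hat D g)) := by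
      intro j
      rw [← mul_assoc]
      exact (κ.gb i).act ⟨k', hk0⟩ j (x * κ.H.hat D g)
    have h4 : (κ.ρ i (⟨k', hk0⟩ : K 0)).mulVec ((κ.ρ i (⟨k', hk0⟩ : K 0)⁻¹).mulVec (Φ e g)) = Φ e g := by
      rw [Matrix.mulVec_mulVec, ← map_mul, mul_inv_cancel, map_one, Matrix.one_mulVec]
    generalize (κ.ρ i (⟨k', hk0⟩ : K 0)⁻¹).mulVec (Φ e g) = b at h4 ⊢
    rw [← h4]
    simp only [h3, Matrix.mulVec, dotProduct, Finset.mul_sum, Finset.sum_mul]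
    rw [Finset.sum_comm]
    refine Finset.sum_congr rfl fun a _ => Finset.sum_congr rfl fun j _ => ?_
    ring
  · intro e g x
    rw [RingEquiv.apply_symm_apply]

/-- The value at `1` of the vector valued functions. -/
noncomputable def Cz.toP {m : ℕ} (i : MIx ℓ U K) (f : Simp κ.L.E κ.L.X m → κ.fam.W i) :
    (Fin (m + 1) → D.Rat) → D.Ad → Fin (Module.finrank ℂ i.Q) → PadicAlgCl ℓ :=
  fun e g => (f (e, κ.L.cls g) : WI (i.J.subgroupOf (K 0)) (κ.ρ i)).1 1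

theorem Cz.smul_simp {m : ℕ} (γ : D.Rat) (k : K 0) (e : Fin (m + 1) → D.Rat) (g : D.Ad) :
    (((γ, k) : D.Rat × κ.L.K) • ((e, κ.L.cls g) : Simp κ.L.E κ.L.X m)) =
      ((fun a => γ * e a : Fin (m + 1) → D.Rat), κ.L.cls (D.toAd γ * g * (k : D.Ad)⁻¹)) := rfl

theorem Cz.toP_mul {m : ℕ} (i : MIx ℓ U K) {f : Simp κ.L.E κ.L.X m → κ.fam.W i}
    (hf : f ∈ Fun (κ.rep i) (Simp κ.L.E κ.L.X m)) (e : Fin (m + 1) → D.Rat) (g : D.Ad) (k : K 0) :
    (f (e, κ.L.cls g) : WI (i.J.subgroupOf (K 0)) (κ.ρ i)).1 k = κ.toP i f e (g * k) := by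
  have h1 := hf ((1 : D.Rat), (k⁻¹ : K 0)) (e, κ.L.cls g)
  rw [κ.smul_simp] at h1
  have h2 : (D.toAd 1 * g * ((k⁻¹ : K 0) : D.Ad)⁻¹) = g * k := by
    rw [map_one, one_mul, Subgroup.coe_inv, inv_inv]
  have h3 : (fun a => (1 : D.Rat) * e a) = e := funext fun a => one_mul _
  rw [h2, h3] at h1
  have h4 := congrArg (fun Φ : κ.fam.W i => (Φ : WI (i.J.subgroupOf (K 0)) (κ.ρ i)).1 1) h1
  refine Eq.symm (h4.trans ((κ.rep_apply i 1 k⁻¹ (f (e, κ.L.cls g)) 1).trans ?_))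
  rw [inv_inv, mul_one]

theorem Cz.isP_toP {m : ℕ} (i : MIx ℓ U K) {f : Simp κ.L.E κ.L.X m → κ.fam.W i}
    (hf : f ∈ Fun (κ.rep i) (Simp κ.L.E κ.L.X m)) : κ.IsP i (κ.toP i f) := by
  refine ⟨?_, ?_, ?_⟩
  · intro γ e g
    have h1 := hf (γ, (1 : K 0)) (e, κ.L.cls g)
    rw [κ.smul_simp] at h1
    rw [Subgroup.coe_one, inv_one, mul_one] at h1
    have h4 := congrArg (fun Φ : κ.fam.W i => (Φ : WI (i.J.subgroupOf (K 0)) (κ.ρ i)).1 1) h1
    refine h4.trans ((κ.rep_apply i γ 1 (f (e, κ.L.cls g)) 1).trans ?_)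
    rw [inv_one, one_mul]
    rfl
  · intro e g u hu
    have h1 : κ.L.cls (g * u) = κ.L.cls g := by
      rw [κ.L.cls_eq_iff]
      have h4 : (g * u)⁻¹ * g = u⁻¹ := by group
      rw [h4]
      exact κ.L.U.inv_mem hu
    unfold Cz.toP
    rw [h1]
  · intro e g k hk
    rw [← κ.toP_mul i hf]
    have h1 := (f (e, κ.L.cls g) : WI (i.J.subgroupOf (K 0)) (κ.ρ i)).2 1 k (Subgroup.mem_subgroupOf.2 hk)
    rw [one_mul] at h1
    exact h1

theorem Cz.rel_iff {m : ℕ} (i : MIx ℓ U K) {z : Coch D m} {f : Simp κ.L.E κ.L.X m → κ.fam.W i} :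
    κ.Rel i z f ↔ κ.PRel i z (κ.toP i f) := Iff.rfl

theorem Cz.exists_ofP {m : ℕ} (i : MIx ℓ U K)
    {Φ : (Fin (m + 1) → D.Rat) → D.Ad → Fin (Module.finrank ℂ i.Q) → PadicAlgCl ℓ} (hΦ : κ.IsP i Φ) :
    ∃ f ∈ Fun (κ.rep i) (Simp κ.L.E κ.L.X m), κ.toP i f = Φ := by
  have hmem : ∀ (e : Fin (m + 1) → D.Rat) (g : D.Ad),
      (fun k : K 0 => Φ e (g * k)) ∈ WI (i.J.subgroupOf (K 0)) (κ.ρ i) := by
    intro e g x k hk
    change Φ e (g * ((x * k : K 0) : D.Ad)) = _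
    rw [Subgroup.coe_mul, ← mul_assoc]
    exact hΦ.eqv e (g * x) k (Subgroup.mem_subgroupOf.1 hk)
  let f : Simp κ.L.E κ.L.X m → κ.fam.W i := fun y => ⟨_, hmem y.1 (Quotient.out y.2 : D.Ad)⟩
  have hf : ∀ (e : Fin (m + 1) → D.Rat) (g : D.Ad) (k : K 0),
      (f (e, κ.L.cls g) : WI (i.J.subgroupOf (K 0)) (κ.ρ i)).1 k = Φ e (g * k) := by
    intro e g k
    change Φ e ((Quotient.out (κ.L.cls g) : D.Ad) * k) = _
    have h1 : (Quotient.out (κ.L.cls g) : D.Ad)⁻¹ * g ∈ κ.L.U := κ.L.cls_eq_iff.1 (κ.L.cls_out _)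
    have h2 : g * (k : D.Ad) = (Quotient.out (κ.L.cls g) : D.Ad) * k *
        ((Quotient.out (κ.L.cls g) : D.Ad)⁻¹ * g) := by
      rw [mul_assoc, ← κ.L.comm h1 k.2, ← mul_assoc, mul_inv_cancel_left]
    rw [h2, hΦ.right _ _ _ h1]
  refine ⟨f, ?_, ?_⟩
  · rintro ⟨γ, k⟩ ⟨e, x⟩
    obtain ⟨g, rfl⟩ := κ.L.exists_cls x
    apply Subtype.ext
    funext k'
    rw [κ.rep_apply]
    let e' : Fin (m + 1) → D.Rat := e
    let k₀ : K 0 := k
    refine (hf (fun a => γ * e' a) (D.toAd γ * g * (k₀ : D.Ad)⁻¹) k').trans ?_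
    refine Eq.trans ?_ (hf e' g (k₀⁻¹ * k')).symm
    rw [Subgroup.coe_mul, Subgroup.coe_inv, mul_assoc, mul_assoc, hΦ.left]
  · funext e g
    refine (hf e g 1).trans ?_
    rw [Subgroup.coe_one, mul_one]

/-- Uniqueness. -/
theorem Cz.Rel.eq_left {m : ℕ} {i : MIx ℓ U K} {z z' : Coch D m}
    {f : Simp κ.L.E κ.L.X m → κ.fam.W i} (h : κ.Rel i z f) (h' : κ.Rel i z' f) : z = z' := by
  funext e g x
  exact ι.injective ((h e g x).trans (h' e g x).symm)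

theorem Cz.Rel.eq_right {m : ℕ} {i : MIx ℓ U K} {z : Coch D m}
    {f f' : Simp κ.L.E κ.L.X m → κ.fam.W i} (hf : f ∈ Fun (κ.rep i) (Simp κ.L.E κ.L.X m))
    (hf' : f' ∈ Fun (κ.rep i) (Simp κ.L.E κ.L.X m)) (h : κ.Rel i z f) (h' : κ.Rel i z f') : f = f' := by
  have h1 := Cz.PRel.uniq κ ((κ.rel_iff i).1 h) ((κ.rel_iff i).1 h')
  funext ⟨e, x⟩
  obtain ⟨g, rfl⟩ := κ.L.exists_cls x
  apply Subtype.ext
  funext k
  rw [κ.toP_mul i hf, κ.toP_mul i hf', h1]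

theorem Cz.exists_equiv (m : ℕ) (i : MIx ℓ U K) :
    ∃ e : cochS i.Q (U ⊔ i.J) m ≃+ Fun (κ.rep i) (Simp κ.L.E κ.L.X m),
      (∀ (a : ℂ) z, e (a • z) = ι a • e z) ∧ ∀ z, κ.Rel i z.1 (e z).1 := by
  have hex : ∀ z : cochS i.Q (U ⊔ i.J) m, ∃ f : Fun (κ.rep i) (Simp κ.L.E κ.L.X m), κ.Rel i z.1 f.1 := by
    intro z
    obtain ⟨Φ, h1, h2⟩ := κ.fwd i z.1 z.2
    obtain ⟨f, hf, h3⟩ := κ.exists_ofP i h1
    refine ⟨⟨f, hf⟩, (κ.rel_iff i).2 ?_⟩
    rw [h3]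
    exact h2
  choose E hE using hex
  have hsum : ∀ (y y' : Fin (Module.finrank ℂ i.Q) → PadicAlgCl ℓ) (x : D.Cpx),
      ∑ j, (y j + y' j) * ι ((κ.gb i).q j x) =
        ∑ j, y j * ι ((κ.gb i).q j x) + ∑ j, y' j * ι ((κ.gb i).q j x) := by
    intro y y' x
    rw [← Finset.sum_add_distrib]
    exact Finset.sum_congr rfl fun j _ => add_mul _ _ _
  let e₀ : cochS i.Q (U ⊔ i.J) m →+ Fun (κ.rep i) (Simp κ.L.E κ.L.X m) :=
    { toFun := E
      map_zero' := by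
        apply Subtype.ext
        refine Cz.Rel.eq_right κ (E 0).2 (Submodule.zero_mem _) (hE 0) ?_
        intro e g x
        change ι 0 = ∑ j, (0 : PadicAlgCl ℓ) * _
        simp
      map_add' := by
        intro f f'
        apply Subtype.ext
        refine Cz.Rel.eq_right κ (E (f + f')).2 (Submodule.add_mem _ (E f).2 (E f').2) (hE (f + f')) ?_
        intro e g x
        refine Eq.trans ?_ (hsum (κ.toP i (E f).1 e g) (κ.toP i (E f').1 e g) (x * κ.H.hat D g)).symm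
        change ι (f.1 e g x + f'.1 e g x) = _
        rw [map_add, hE f e g x, hE f' e g x]
        rfl }
  have hbij : Function.Bijective e₀ := by
    constructor
    · intro f f' h
      have h1 : (E f).1 = (E f').1 := congrArg Subtype.val h
      apply Subtype.ext
      have h2 := hE f'
      rw [← h1] at h2
      exact Cz.Rel.eq_left κ (hE f) h2
    · intro Φ
      obtain ⟨z, hz, hP⟩ := κ.bwd i _ (κ.isP_toP i Φ.2)
      refine ⟨⟨z, hz⟩, Subtype.ext ?_⟩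
      exact Cz.Rel.eq_right κ (E ⟨z, hz⟩).2 Φ.2 (hE ⟨z, hz⟩) ((κ.rel_iff i).2 hP)
  refine ⟨AddEquiv.ofBijective e₀ hbij, ?_, fun z => hE z⟩
  intro a f
  apply Subtype.ext
  refine Cz.Rel.eq_right κ (E (a • f)).2 (Submodule.smul_mem _ _ (E f).2) (hE (a • f)) ?_
  intro e g x
  change ι (a * f.1 e g x) = ∑ j, (ι a * κ.toP i (E f).1 e g j) * _
  rw [map_mul, hE f e g x, Finset.mul_sum]
  exact Finset.sum_congr rfl fun j _ => (mul_assoc _ _ _).symm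

end Pool.Agent.Lib.MP_666dc0_nt.CL
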