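import Pool.Agent.Lib.MP_666dc0_nt.CL.C1
import Pool.Agent.Lib.MP_666dc0_nt.WL.D1

/-!
# CL, C2: the differential and the Hecke operators (TASK II-C2)

`rel_del`: the definition of `bd` (as `del_unf` in EC/B3). `rel_act`: as `opSub_unf`, `pull_ext`, `pull_op` (EC/B2, B3; `pull_op` is
stated over `ℂ`, copy it over `ℚ̄_ℓ`: `algebraMap (Zl ℓ) (PadicAlgCl ℓ)` is the cast of rational numbers), and
`H.hat (g * out c) = H.hat g`, because `out c` has trivial components above `ℓ` (`hat_eq_one`, as in `toV_eigen`, ZO/Q3a).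
-/

open NumberField IsDedekindDomain
open scoped NumberField

namespace Pool.Agent.Lib.MP_666dc0_nt.CL

open WL ZO FM EP EC

variable {F : Type} [Field F] [NumberField F] {n : ℕ} {D : Datum F n} {ℓ : ℕ} [Fact ℓ.Prime]
  {S : Finset (HeightOneSpectrum (𝓞 F))} {U : Subgroup D.Ad} {K : ℕ → Subgroup D.Ad} {d : ℕ}
  {ι : ℂ ≃+* PadicAlgCl ℓ} (κ : Cz ℓ U K d ι)

/-- The scalars. -/
theorem C2_algebraMap (a : Zl ℓ) : algebraMap (Zl ℓ) (PadicAlgCl ℓ) a = ((a : ℚ) : PadicAlgCl ℓ) := by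
  have h : algebraMap (Zl ℓ) (PadicAlgCl ℓ) a =
      algebraMap ℚ_[ℓ] (PadicAlgCl ℓ) ((a : ℚ) : ℚ_[ℓ]) := rfl
  rw [h, map_ratCast]

/-- The transpose of the boundary. -/
theorem C2_pull_bd {R E X L V : Type} [CommRing R] [Field L] [Algebra R L] [AddCommGroup V] [Module L V]
    {m : ℕ} (f : Simp E X m → V) (e : Fin (m + 1 + 1) → E) (x : X) :
    pull L V (bd R E X m) f (e, x) =
      ∑ i : Fin (m + 2), (-1 : L) ^ (i : ℕ) • f ((fun j => e (i.succAbove j)), x) := by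
  change (bd R E X m (Finsupp.single (e, x) 1)).sum (fun z r => algebraMap R L r • f z) = _
  rw [bd_single, ← Finsupp.sum_finsetSum_index (fun z => by rw [map_zero, zero_smul])
    (fun z r r' => by rw [map_add, add_smul])]
  refine Finset.sum_congr rfl fun i _ => ?_
  rw [Finsupp.sum_single_index (by rw [map_zero, zero_smul]), map_pow, map_neg, map_one]

/-- The transpose of an extended operator. -/
theorem C2_pull_ext {R E X L V : Type} [CommRing R] [Field L] [Algebra R L] [AddCommGroup V] [Module L V]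
    {m : ℕ} (c : (X →₀ R) →ₗ[R] (X →₀ R)) (f : Simp E X m → V) (e : Fin (m + 1) → E) (x : X) :
    pull L V (ext (E := E) m c) f (e, x) = pull L V c (fun x => f (e, x)) x := by
  change ((ext m c (Finsupp.single (e, x) 1)).sum fun z r => algebraMap R L r • f z) =
    (c (Finsupp.single x 1)).sum fun z r => algebraMap R L r • f (e, z)
  rw [ext_single, Finsupp.sum_mapDomain_index (fun z => by rw [map_zero, zero_smul])
    (fun z r r' => by rw [map_add, add_smul])]

/-- The transpose of a Hecke operator. -/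
theorem C2_pull_op (L : Level D ℓ) {v : HeightOneSpectrum (𝓞 F)}
    (hv : ∀ u ∈ L.U, ∃ a ∈ L.U, a ∈ locSub D v ∧ TrivialAt v (a⁻¹ * u)) (h : Hecke L.U v)
    (hh : h.IsIntegral ℓ) {M : Type} [AddCommGroup M] [Module (PadicAlgCl ℓ) M] (f : L.X → M) (g : D.Ad) :
    pull (PadicAlgCl ℓ) M (L.op (ofInt L h hh)) f (L.cls g) =
      h.1.sum fun c a => ((a : ℚ) : PadicAlgCl ℓ) • f (L.cls (g * ((Quotient.out c : locSub D v) : D.Ad))) := by
  change ((L.op (ofInt L h hh) (Finsupp.single (L.cls g) 1)).sum fun z r =>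
    algebraMap (Zl ℓ) (PadicAlgCl ℓ) r • f z) = _
  rw [op_single' L hv]
  rw [Finsupp.sum_sum_index (fun z => by rw [map_zero, zero_smul])
    (fun z r s => by rw [map_add, add_smul])]
  have h1 : ∀ (c : LocQuot L.U v) (a : Zl ℓ),
      ((Finsupp.single (L.cls (g * ((Quotient.out c : locSub D v) : D.Ad))) a).sum fun z r =>
        algebraMap (Zl ℓ) (PadicAlgCl ℓ) r • f z) =
      ((a : ℚ) : PadicAlgCl ℓ) • f (L.cls (g * ((Quotient.out c : locSub D v) : D.Ad))) := by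
    intro c a
    rw [Finsupp.sum_single_index (by rw [map_zero, zero_smul]), C2_algebraMap]
  have h2 : ∀ w : LocQuot L.U v →₀ Zl ℓ, (w.sum fun c a =>
      ((Finsupp.single (L.cls (g * ((Quotient.out c : locSub D v) : D.Ad))) a).sum fun z r =>
        algebraMap (Zl ℓ) (PadicAlgCl ℓ) r • f z)) = w.sum fun c a =>
      ((a : ℚ) : PadicAlgCl ℓ) • f (L.cls (g * ((Quotient.out c : locSub D v) : D.Ad))) :=
    fun w => Finsupp.sum_congr fun c _ => h1 c _
  refine (h2 _).trans ?_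
  exact Finsupp.onFinset_sum (s := h.1.support) (f := fun c => (⟨h.1 c, hh c⟩ : Zl ℓ))
    (fun c hc => by
      rw [Finsupp.mem_support_iff]
      intro h0
      exact hc (Subtype.ext h0))
    (fun c => by rw [ZeroMemClass.coe_zero, Rat.cast_zero, zero_smul])

/-- The coordinates of the value at `1`. -/
noncomputable def C2_ev (i : MIx ℓ U K) (j : Fin (Module.finrank ℂ i.Q)) :
    κ.fam.W i →ₗ[PadicAlgCl ℓ] PadicAlgCl ℓ where
  toFun Φ := (Φ : WI (i.J.subgroupOf (K 0)) (κ.ρ i)).1 1 j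
  map_add' _ _ := rfl
  map_smul' _ _ := rfl

theorem Cz.rel_del {m : ℕ} {i : MIx ℓ U K} {z : Coch D m}
    {f : Simp κ.L.E κ.L.X m → κ.fam.W i} (h : κ.Rel i z f) :
    κ.Rel i (del z) (pull (PadicAlgCl ℓ) (κ.fam.W i) (bd (Zl ℓ) κ.L.E κ.L.X m) f) := by
  intro e g x
  rw [C2_pull_bd]
  have h1 : ι (del z e g x) = ∑ a : Fin (m + 2), (-1 : PadicAlgCl ℓ) ^ (a : ℕ) *
      ι (z (fun j => e (a.succAbove j)) g x) := by
    unfold del
    rw [Finset.sum_apply, map_sum]
    refine Finset.sum_congr rfl fun a _ => ?_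
    rw [Pi.smul_apply, smul_eq_mul, map_mul, map_pow, map_neg, map_one]
  have h2 : ∀ j, C2_ev κ i j (∑ a : Fin (m + 2), (-1 : PadicAlgCl ℓ) ^ (a : ℕ) •
      f ((fun j => e (a.succAbove j)), κ.L.cls g)) =
      ∑ a : Fin (m + 2), (-1 : PadicAlgCl ℓ) ^ (a : ℕ) *
        (f ((fun j => e (a.succAbove j)), κ.L.cls g) : WI (i.J.subgroupOf (K 0)) (κ.ρ i)).1 1 j := by
    intro j
    rw [map_sum]
    refine Finset.sum_congr rfl fun a _ => ?_
    rw [map_smul]
    rfl
  rw [h1]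
  refine Eq.trans ?_ (Finset.sum_congr rfl fun j _ => congrArg (· * _) (h2 j).symm)
  simp only [Finset.sum_mul]
  rw [Finset.sum_comm]
  refine Finset.sum_congr rfl fun a _ => ?_
  rw [h (fun j => e (a.succAbove j)) g x, Finset.mul_sum]
  refine Finset.sum_congr rfl fun j _ => ?_
  rw [mul_assoc]

theorem Cz.rel_act (hSl : ∀ v : HeightOneSpectrum (𝓞 F), (ℓ : 𝓞 F) ∈ v.asIdeal → v ∈ S)
    (hUS : ∀ v, v ∉ S → IsGoodAt U v) (x : IX ℓ S U) {m : ℕ} {i : MIx ℓ U K} {z : Coch D m}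
    {f : Simp κ.L.E κ.L.X m → κ.fam.W i} (h : κ.Rel i z f) :
    κ.Rel i (fun e => x.1.2.act (z e))
      (pull (PadicAlgCl ℓ) (κ.fam.W i) (ext (E := κ.L.E) m (κ.hx x)) f) := by
  obtain ⟨⟨v, T⟩, hv, hT⟩ := x
  intro e g y
  have hv' : v ∉ S := hv
  rw [C2_pull_ext]
  have hop := C2_pull_op κ.L (hUS v hv').split T hT (M := κ.fam.W i) (fun x => f (e, x)) g
  have hhat : ∀ c : locSub D v, κ.H.hat D (g * (c : D.Ad)) = κ.H.hat D g := fun c => by
    rw [map_mul, hat_eq_one κ.H (g := (c : D.Ad)), mul_one]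
    intro v' hv''
    exact c.2 v' fun e => hv' (hSl v (e ▸ hv''))
  have h2 : ∀ j, C2_ev κ i j (pull (PadicAlgCl ℓ) (κ.fam.W i) (κ.hx ⟨⟨v, T⟩, hv, hT⟩)
      (fun x => f (e, x)) (κ.L.cls g)) =
      T.1.sum fun c a => ((a : ℚ) : PadicAlgCl ℓ) *
        (f (e, κ.L.cls (g * ((Quotient.out c : locSub D v) : D.Ad))) :
          WI (i.J.subgroupOf (K 0)) (κ.ρ i)).1 1 j := by
    intro j
    have h3 : (pull (PadicAlgCl ℓ) (κ.fam.W i) (κ.hx ⟨⟨v, T⟩, hv, hT⟩) (fun x => f (e, x))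
      (κ.L.cls g)) = _ := hop
    rw [h3]
    unfold Finsupp.sum
    rw [map_sum]
    refine Finset.sum_congr rfl fun c _ => ?_
    rw [map_smul]
    rfl
  refine Eq.trans ?_ (Finset.sum_congr rfl fun j _ => congrArg (· * _) (h2 j).symm)
  change ι ((T.act (z e)) g y) = _
  unfold Hecke.act Finsupp.sum
  rw [Finset.sum_apply, map_sum]
  simp only [Finset.sum_mul]
  rw [Finset.sum_comm]
  refine Finset.sum_congr rfl fun c _ => ?_
  rw [Pi.smul_apply, smul_eq_mul, map_mul, h, map_ratCast, Finset.mul_sum]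
  refine Finset.sum_congr rfl fun j _ => ?_
  rw [hhat, mul_assoc]

end Pool.Agent.Lib.MP_666dc0_nt.CL
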