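import Pool.Agent.Lib.MP_666dc0_nt.FM.VDefs

/-!
# Families of systems of eigenvalues in the cohomology of arithmetic groups: definitions
-/

open NumberField IsDedekindDomain
open scoped NumberField

namespace Pool.Agent.Lib.MP_666dc0_nt.CL

open WL ZO FM

/-- The dimension of the space spanned by the classes of the elements with the property `P`, modulo the
span of the elements with the property `B`. -/
noncomputable def clsDim {M : Type} [AddCommGroup M] [Module ℂ M] (B P : M → Prop) : ℕ :=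
  Set.finrank ℂ (Submodule.Quotient.mk (p := Submodule.span ℂ {z | B z}) '' {z | P z})

/-- This space is finite-dimensional. -/
def ClsFin {M : Type} [AddCommGroup M] [Module ℂ M] (B P : M → Prop) : Prop :=
  (Submodule.span ℂ (Submodule.Quotient.mk (p := Submodule.span ℂ {z | B z}) '' {z | P z})).FG

open Classical in
/-- The sum of the numbers `a i` for the `i` with the property `q`. -/
noncomputable def sumOf {k : ℕ} (a : Fin k → ℕ) (q : Fin k → Prop) : ℕ := ∑ i with q i, a i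

/-- There is a homomorphism of groups with the property `P`. -/
def ExHom {Γ L : Type} [Group Γ] [Group L] (P : (Γ → L) → Prop) : Prop := ∃ r : Γ →* L, P r

variable {F : Type} [Field F] [NumberField F] {n : ℕ}

/-- The `SL_n(R)`-orbit of the pair of the form `q` and of the tensors `w i` is closed in the space of all
pairs over `R`. -/
def IsClosedOrbit (D : Datum F n) {R : Type} [CommRing R] [TopologicalSpace R] (e : F →+* R) : Prop :=
  IsClosed {t : Matrix (Fin n) (Fin n) R × (∀ i, (Fin (D.deg i) → Fin n) → R) |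
    ∃ h : Matrix (Fin n) (Fin n) R, h.det = 1 ∧ t.1 = h.transpose * D.q.map e * h ∧
      ∀ i, tensAct h (t.2 i) = fun I => e (D.w i I)}

/-- The case `R = F ⊗ ℝ`. -/
def ClosedOrbit (D : Datum F n) : Prop := IsClosedOrbit D (mixedEmbedding F)

/-- The spaces of functions on `G(F ⊗ ℂ)`. -/
abbrev FnSpace (D : Datum F n) : Type := Submodule ℂ (D.Cpx → ℂ)

/-- The complex valued functions `z(e_0, …, e_m; g)(x)` of `e_0, …, e_m ∈ G(F)`, `g ∈ G(𝔸_f)` and
`x ∈ G(F ⊗ ℂ)`. -/
abbrev Coch (D : Datum F n) (m : ℕ) : Type := (Fin (m + 1) → D.Rat) → D.Ad → D.Cpx → ℂ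

variable {D : Datum F n}

/-- The systems of complex numbers, one for each Hecke operator. -/
abbrev HSys (U : Subgroup D.Ad) : Type := ∀ v, Hecke U v → ℂ

/-- `z` is a homogeneous cochain of degree `m` of `G(F)` with values in the functions `f : G(𝔸_f) → Q`
with `f(g k) = f(g)` for `k ∈ V`, where `γ ∈ G(F)` acts by `(γ f)(γ g)(x) = f(g)(x γ)`. -/
structure IsCochain (Q : FnSpace D) (V : Subgroup D.Ad) {m : ℕ} (z : Coch D m) : Prop where
  mem : ∀ e g, z e g ∈ Q
  left : ∀ (γ : D.Rat) (e : Fin (m + 1) → D.Rat) (g : D.Ad) (x : D.Cpx),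
    z (fun i => γ * e i) (D.toAd γ * g) x = z e g (x * D.toCpx γ)
  right : ∀ e g, ∀ k ∈ V, z e (g * k) = z e g

variable {m : ℕ}

/-- The differential:
`(δ z)(e_0, …, e_{m+1}; g) = ∑ (-1)^i z(e_0, …, ê_i, …, e_{m+1}; g)`. -/
noncomputable def del (z : Coch D m) : Coch D (m + 1) := fun e g =>
  ∑ i : Fin (m + 2), (-1 : ℂ) ^ (i : ℕ) • z (fun j => e (i.succAbove j)) g

/-- `z` is a cocycle. -/
def IsCocycle (Q : FnSpace D) (V : Subgroup D.Ad) (z : Coch D m) : Prop :=
  IsCochain Q V z ∧ del z = 0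

/-- `z` is a coboundary. -/
def IsCob (Q : FnSpace D) (V : Subgroup D.Ad) : ∀ {m : ℕ}, Coch D m → Prop
  | 0, z => z = 0
  | _ + 1, z => ∃ y, IsCochain Q V y ∧ z = del y

variable {U : Subgroup D.Ad}

/-- The operator `T_h - c`. -/
noncomputable def opSub {v : HeightOneSpectrum (𝓞 F)} (h : Hecke U v) (c : ℂ) (z : Coch D m) :
    Coch D m := fun e => h.act (z e) - c • z e

/-- `z` is a cocycle, and its class is an eigenvector of the Hecke operators of the `ℓ`-integral Hecke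
functions `h` at the places `v ∉ S`, with eigenvalues `lam v h`. -/
def IsEig (ℓ : ℕ) [Fact ℓ.Prime] (S : Finset (HeightOneSpectrum (𝓞 F)))
    (Q : FnSpace D) (V : Subgroup D.Ad) (lam : HSys U) (z : Coch D m) : Prop :=
  IsCocycle Q V z ∧ ∀ v, v ∉ S → ∀ h : Hecke U v, h.IsIntegral ℓ → IsCob Q V (opSub h (lam v h) z)

/-- The class of `z` is of order at most `N` for the system `lam`: `z` is a cocycle (a coboundary for
`N = 0`), and its class is killed by all products of `N` operators `T_h - lam v h`, for `ℓ`-integral Hecke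
functions `h` at places `v ∉ S`. For `N = 1` this is `IsEig`. -/
def IsOrd (ℓ : ℕ) [Fact ℓ.Prime] (S : Finset (HeightOneSpectrum (𝓞 F)))
    (Q : FnSpace D) (V : Subgroup D.Ad) (lam : HSys U) : ℕ → Coch D m → Prop
  | 0, z => IsCob Q V z
  | N + 1, z => IsCocycle Q V z ∧ ∀ v, v ∉ S → ∀ h : Hecke U v, h.IsIntegral ℓ →
      IsOrd ℓ S Q V lam N (opSub h (lam v h) z)

/-- `z` is a cocycle, and its class is a generalised eigenvector of the Hecke operators of the
`ℓ`-integral Hecke functions `h` at the places `v ∉ S`, with eigenvalues `lam v h`. -/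
def IsGen (ℓ : ℕ) [Fact ℓ.Prime] (S : Finset (HeightOneSpectrum (𝓞 F)))
    (Q : FnSpace D) (V : Subgroup D.Ad) (lam : HSys U) (z : Coch D m) : Prop :=
  IsCocycle Q V z ∧ ∀ v, v ∉ S → ∀ h : Hecke U v, h.IsIntegral ℓ →
    ∃ k : ℕ, IsCob Q V ((opSub h (lam v h))^[k] z)

/-- The dimension of the cohomology of degree `m`, of weight `Q` and of level `U J`. -/
noncomputable def dimH (Q : FnSpace D) (U J : Subgroup D.Ad) (m : ℕ) : ℕ :=
  clsDim (M := Coch D m) (IsCob Q (U ⊔ J)) (IsCocycle Q (U ⊔ J))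

/-- The cohomology of degree `m`, of weight `Q` and of level `U J`, is finite-dimensional. -/
def FinH (Q : FnSpace D) (U J : Subgroup D.Ad) (m : ℕ) : Prop :=
  ClsFin (M := Coch D m) (IsCob Q (U ⊔ J)) (IsCocycle Q (U ⊔ J))

/-- The dimension of the span of the classes of order at most `N` (the eigenclasses for `N = 1`), in the
cohomology of degree `m`, of weight `Q` and of level `U J`, whose system of eigenvalues has the
property `p`. -/
noncomputable def dimOrd (ℓ : ℕ) [Fact ℓ.Prime] (S : Finset (HeightOneSpectrum (𝓞 F)))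
    (Q : FnSpace D) (U J : Subgroup D.Ad) (m N : ℕ) (p : HSys U → Prop) : ℕ :=
  clsDim (M := Coch D m) (IsCob Q (U ⊔ J)) fun z => ∃ lam, p lam ∧ IsOrd ℓ S Q (U ⊔ J) lam N z

/-- The same for the generalised eigenclasses. -/
noncomputable def dimGen (ℓ : ℕ) [Fact ℓ.Prime] (S : Finset (HeightOneSpectrum (𝓞 F)))
    (Q : FnSpace D) (U J : Subgroup D.Ad) (m : ℕ) (p : HSys U → Prop) : ℕ :=
  clsDim (M := Coch D m) (IsCob Q (U ⊔ J)) fun z => ∃ lam, p lam ∧ IsGen ℓ S Q (U ⊔ J) lam z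

/-- The systems of eigenvalues which occur in the cohomology of degree `m` for some weight and some
level `U J`, `J ⊆ K₀`. -/
def CSys (ℓ : ℕ) [Fact ℓ.Prime] (S : Finset (HeightOneSpectrum (𝓞 F))) (U K₀ : Subgroup D.Ad)
    (m : ℕ) : Set (HSys U) :=
  {lam | ∃ (J : Subgroup D.Ad) (Q : FnSpace D) (z : Coch D m), IsLevel ℓ U J ∧ J ≤ K₀ ∧
    IsWeight D Q ∧ IsEig ℓ S Q (U ⊔ J) lam z ∧ ¬ IsCob Q (U ⊔ J) z}

/-- The property `p` of the systems of eigenvalues in the cohomology of degree `m` is closed: every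
system which is controlled by the systems with the property `p` has the property `p`. -/
def IsClosedC (ℓ : ℕ) [Fact ℓ.Prime] (S : Finset (HeightOneSpectrum (𝓞 F))) (ι : ℂ ≃+* PadicAlgCl ℓ)
    (U K₀ : Subgroup D.Ad) (m : ℕ) (p : HSys U → Prop) : Prop :=
  ∀ lam ∈ CSys ℓ S U K₀ m, Controlled ℓ S ι {e | e ∈ CSys ℓ S U K₀ m ∧ p e} lam → p lam

/-- For some `c`, for all `s`, all levels `J ⊆ K s` and all weights `Q` the number `f Q J` is at most
`(a + c ℓ ^ (-s)) [K 0 : J] dim Q`. -/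
def AtMost (ℓ : ℕ) (U : Subgroup D.Ad) (K : ℕ → Subgroup D.Ad) (f : FnSpace D → Subgroup D.Ad → ℕ)
    (a : ℕ) : Prop :=
  ∃ c : ℝ, ∀ s J, IsLevel ℓ U J → J ≤ K s → ∀ Q, IsWeight D Q →
    (f Q J : ℝ) ≤ (a + c / (ℓ : ℝ) ^ s) * wt Q (K 0) J

/-- For some `c`, for all `N`, all `s`, all levels `J ⊆ K s` and all weights `Q` the number `f N Q J` is at
most `(a + N c ℓ ^ (-s)) [K 0 : J] dim Q`. -/
def AtMostN (ℓ : ℕ) (U : Subgroup D.Ad) (K : ℕ → Subgroup D.Ad)
    (f : ℕ → FnSpace D → Subgroup D.Ad → ℕ) (a : ℕ) : Prop :=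
  ∃ c : ℝ, ∀ N s J, IsLevel ℓ U J → J ≤ K s → ∀ Q, IsWeight D Q →
    (f N Q J : ℝ) ≤ (a + N * c / (ℓ : ℝ) ^ s) * wt Q (K 0) J

/-- For some `c`, for all `s`, all levels `J ⊆ K s` and all weights `Q` the number `f Q J` is at least
`(a - c ℓ ^ (-s)) [K 0 : J] dim Q`. -/
def AtLeast (ℓ : ℕ) (U : Subgroup D.Ad) (K : ℕ → Subgroup D.Ad) (f : FnSpace D → Subgroup D.Ad → ℕ)
    (a : ℕ) : Prop :=
  ∃ c : ℝ, ∀ s J, IsLevel ℓ U J → J ≤ K s → ∀ Q, IsWeight D Q →
    (a - c / (ℓ : ℝ) ^ s) * wt Q (K 0) J ≤ (f Q J : ℝ)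

/-- The closed families `C i` of systems of eigenvalues with the multiplicities `a i ≥ 1` describe the
cohomology of degree `m`: it is finite-dimensional, of dimension `∑ a i * [K 0 : J] dim Q`, up to an error
`O(ℓ ^ (-s)) [K 0 : J] dim Q`; and for every closed property `p`, with `a(p) = ∑ a i`, the sum over the `i`
such that all members of `C i` have the property, the classes of order at most `N` with the property span
at most `(a(p) + N O(ℓ ^ (-s))) [K 0 : J] dim Q`, the generalised eigenclasses with the property span at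
least `(a(p) - O(ℓ ^ (-s))) [K 0 : J] dim Q`, and those without the property span at most
`(∑ a i - a(p) + O(ℓ ^ (-s))) [K 0 : J] dim Q`. -/
structure IsFamiliesC (ℓ : ℕ) [Fact ℓ.Prime] (S : Finset (HeightOneSpectrum (𝓞 F)))
    (U : Subgroup D.Ad) (K : ℕ → Subgroup D.Ad) (ι : ℂ ≃+* PadicAlgCl ℓ) (m : ℕ) {k : ℕ}
    (C : Fin k → Set (HSys U)) (a : Fin k → ℕ) : Prop where
  pos : ∀ i, 0 < a i
  nonempty : ∀ i, (C i).Nonempty
  sub : ∀ i, C i ⊆ CSys ℓ S U (K 0) m
  closed : ∀ i, IsClosedC ℓ S ι U (K 0) m (· ∈ C i)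
  fin : ∀ J, IsLevel ℓ U J → J ≤ K 0 → ∀ Q, IsWeight D Q → FinH Q U J m
  dim_le : AtMost ℓ U K (fun Q J => dimH Q U J m) (∑ i, a i)
  le_dim : AtLeast ℓ U K (fun Q J => dimH Q U J m) (∑ i, a i)
  ord : ∀ p, IsClosedC ℓ S ι U (K 0) m p →
    AtMostN ℓ U K (fun N Q J => dimOrd ℓ S Q U J m N p) (sumOf a fun i => ∀ lam ∈ C i, p lam)
  gen : ∀ p, IsClosedC ℓ S ι U (K 0) m p →
    AtLeast ℓ U K (fun Q J => dimGen ℓ S Q U J m p) (sumOf a fun i => ∀ lam ∈ C i, p lam)
  gen_not : ∀ p, IsClosedC ℓ S ι U (K 0) m p →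
    AtMost ℓ U K (fun Q J => dimGen ℓ S Q U J m fun lam => ¬ p lam)
      (sumOf a fun i => ¬ ∀ lam ∈ C i, p lam)

/-- The multiplicities `r m` of the degrees `m` give the Euler characteristic: for some `N` and `s₀`, the
cohomology of all weights and all levels `J ⊆ K 0` vanishes in the degrees `m ≥ N`, and for all weights
`Q` and all levels `J ⊆ K s₀` its Euler characteristic is exactly `(∑ (-1) ^ m r m) [K 0 : J] dim Q`. -/
def IsEuler (ℓ : ℕ) (U : Subgroup D.Ad) (K : ℕ → Subgroup D.Ad) (r : ℕ → ℕ) : Prop :=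
  ∃ N s₀ : ℕ, ∀ J, IsLevel ℓ U J → J ≤ K 0 → ∀ Q, IsWeight D Q →
    (∀ m, N ≤ m → dimH Q U J m = 0) ∧
    (J ≤ K s₀ → ∑ m ∈ Finset.range N, (-1 : ℤ) ^ m * dimH Q U J m =
      (∑ m ∈ Finset.range N, (-1 : ℤ) ^ m * r m) * wt Q (K 0) J)

variable {B : Type} [CommRing B] (ℓ : ℕ) [Fact ℓ.Prime] [Algebra B (PadicAlgCl ℓ)] {O : Type}
  [CommRing O] [HopfAlgebra B O] (A : OverB.HopfAction B Gal(AlgebraicClosure F/F) O)
  (S : Finset (HeightOneSpectrum (𝓞 F))) (φ : HeightOneSpectrum (𝓞 F) → Gal(AlgebraicClosure F/F))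

/-- There is a homomorphism `r : Γ_F → ᴸG(ℚ̄_ℓ)` attached to the image under `ι` of the system `lam`: it
is compatible with the projections to `Γ_F`, continuous (every regular function `f` on `Ĝ` gives a
continuous function `γ ↦ f(r(γ))`), and for `v ∉ S` it is trivial on the inertia groups at `v` and every
invariant function `f` has the value `ι (lam v (sat v f))` at `r(φ v)`. -/
def HasGal (sat : ∀ v, InvFun A (φ v) → Hecke U v) (ι : ℂ ≃+* PadicAlgCl ℓ) (lam : HSys U) : Prop :=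
  ExHom (Γ := Gal(AlgebraicClosure F/F)) (L := A.LGroup (PadicAlgCl ℓ)) fun r =>
    (∀ γ, (r γ).right = γ) ∧ (∀ f : O, Continuous fun γ => (r γ).left.hom f) ∧
      ∀ v, v ∉ S → (∀ P u, IsInertiaAt v P u → (r u).left = 1) ∧
        ∀ f, (r (φ v)).left.hom f.1 = ι (lam v (sat v f))

end Pool.Agent.Lib.MP_666dc0_nt.CL
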