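import Pool.Agent.Lib.MP_666dc0_nt.CL.PDefs
import Pool.Agent.Lib.MP_666dc0_nt.CL.SDefs
import Pool.Agent.Lib.MP_666dc0_nt.EC.B2
import Pool.Agent.Lib.MP_666dc0_nt.EP.G3a
import Pool.Agent.Lib.MP_666dc0_nt.EP.T2b
import Pool.Agent.Lib.MP_666dc0_nt.EP.T2c
import Pool.Agent.Lib.MP_666dc0_nt.FM.D6

/-!
# CL: the family of the spaces `WI J ρ` as representations of `G(F) × K 0` (definitions)
-/

open NumberField IsDedekindDomain
open scoped NumberField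

namespace Pool.Agent.Lib.MP_666dc0_nt.CL

open WL ZO FM EP EC

variable {F : Type} [Field F] [NumberField F] {n : ℕ} {D : Datum F n} {ℓ : ℕ} [Fact ℓ.Prime]
  {S : Finset (HeightOneSpectrum (𝓞 F))} {U : Subgroup D.Ad} {K : ℕ → Subgroup D.Ad} {d : ℕ}
  {ι : ℂ ≃+* PadicAlgCl ℓ}

/-- The choices: the completed group ring of `K 0`. -/
structure Cz (ℓ : ℕ) [Fact ℓ.Prime] (U : Subgroup D.Ad) (K : ℕ → Subgroup D.Ad) (d : ℕ)
    (ι : ℂ ≃+* PadicAlgCl ℓ) where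
  H : HatData F ℓ ι
  𝒯 : UTow ℓ d
  𝒬 : QTow 𝒯 (K 0)
  hq : ∀ s x, 𝒬.q s x = 1 ↔ (x : D.Ad) ∈ K s
  hU : IsTame ℓ U
  hK : IsUniform ℓ d U K

variable (κ : Cz ℓ U K d ι)

/-- The level `U K 0`. -/
def Cz.L : Level D ℓ := ⟨U, K 0, κ.hU, κ.hK.level 0⟩

/-- A good basis of the weight of an index. -/
noncomputable def Cz.gb (i : MIx ℓ U K) : GoodBasis κ.H (tow K i.J) i.Q (Module.finrank ℂ i.Q) :=
  (exists_goodBasis κ.H (i.isTow κ.hU κ.hK) i.weight).some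

/-- The matrices of `K 0` on the weight of an index. -/
noncomputable def Cz.ρ (i : MIx ℓ U K) :
    K 0 →* Matrix (Fin (Module.finrank ℂ i.Q)) (Fin (Module.finrank ℂ i.Q)) (PadicAlgCl ℓ) :=
  (κ.gb i).ρ

theorem Cz.small (i : MIx ℓ U K) : IsSmall κ.𝒬 (κ.ρ i) where
  close := (κ.gb i).small.close
  field := (κ.gb i).small.field
  cont ε hε := by
    obtain ⟨s, hs⟩ := (κ.gb i).small.cont ε hε
    obtain ⟨s', hs'⟩ := exists_level_le κ.hU κ.hK.tow ((i.isTow κ.hU κ.hK).level s)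
    exact ⟨s', fun k hk => hs k (hs' ((κ.hq s' k).1 hk))⟩

theorem Cz.hJ (i : MIx ℓ U K) : ∃ s, ∀ x, κ.𝒬.q s x = 1 → x ∈ i.J.subgroupOf (K 0) := by
  obtain ⟨s, hs⟩ := exists_level_le κ.hU κ.hK.tow i.level
  exact ⟨s, fun x hx => Subgroup.mem_subgroupOf.2 (hs ((κ.hq s x).1 hx))⟩

/-- The action of the completed group ring. -/
noncomputable def Cz.act (i : MIx ℓ U K) :
    κ.𝒯.La →+* Module.End (PadicAlgCl ℓ) (WI (i.J.subgroupOf (K 0)) (κ.ρ i)) :=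
  (exists_act κ.𝒬 (i.J.subgroupOf (K 0)) (κ.hJ i) (κ.ρ i) (κ.small i)).choose

theorem Cz.isAct (i : MIx ℓ U K) : IsAct κ.𝒬 (i.J.subgroupOf (K 0)) (κ.ρ i) (κ.act i) :=
  (exists_act κ.𝒬 (i.J.subgroupOf (K 0)) (κ.hJ i) (κ.ρ i) (κ.small i)).choose_spec

/-- The family. -/
noncomputable def Cz.fam : MFam κ.𝒯.La (PadicAlgCl ℓ) ℓ where
  ix := MIx ℓ U K
  W i := WI (i.J.subgroupOf (K 0)) (κ.ρ i)
  fd i := (finrank_WI κ.𝒬 (i.J.subgroupOf (K 0)) (κ.hJ i) (κ.ρ i)).1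
  act i := κ.act i
  dep i := i.1.1
  lower a ha := by
    obtain ⟨C, hC⟩ := rank_act κ.𝒬 a ha
    refine ⟨C, fun i => hC i.1.1 (i.J.subgroupOf (K 0)) (κ.hJ i) (fun x hx => ?_) _ (κ.ρ i) (κ.small i) (κ.act i)
      (κ.isAct i)⟩
    exact (κ.hq _ x).2 (i.le (Subgroup.mem_subgroupOf.1 hx))

/-- The image of `ℤ_(ℓ)` in the completed group ring. -/
noncomputable def Cz.c₀ : Zl ℓ →+* κ.𝒯.La :=
  κ.𝒯.zl.comp
    { toFun := fun a => ⟨((a : ℚ) : ℚ_[ℓ]), a.2⟩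
      map_one' := Subtype.ext (by
        change (((1 : Zl ℓ) : ℚ) : ℚ_[ℓ]) = 1
        rw [OneMemClass.coe_one, Rat.cast_one])
      map_mul' := fun a b => Subtype.ext (by
        change (((a * b : Zl ℓ) : ℚ) : ℚ_[ℓ]) = ((a : ℚ) : ℚ_[ℓ]) * ((b : ℚ) : ℚ_[ℓ])
        rw [MulMemClass.coe_mul, Rat.cast_mul])
      map_zero' := Subtype.ext (by
        change (((0 : Zl ℓ) : ℚ) : ℚ_[ℓ]) = 0
        rw [ZeroMemClass.coe_zero, Rat.cast_zero])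
      map_add' := fun a b => Subtype.ext (by
        change (((a + b : Zl ℓ) : ℚ) : ℚ_[ℓ]) = ((a : ℚ) : ℚ_[ℓ]) + ((b : ℚ) : ℚ_[ℓ])
        rw [AddMemClass.coe_add, Rat.cast_add]) }

/-- The elements of the group in the completed group ring. -/
noncomputable def Cz.c₁ : D.Rat × κ.L.K →* κ.𝒯.La := κ.𝒬.gr.comp (MonoidHom.snd D.Rat (K 0))

/-- `G(F) × K 0` acts on `WI J ρ` by left translations with the elements of `K 0`. -/
noncomputable def Cz.rep (i : MIx ℓ U K) :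
    Representation (PadicAlgCl ℓ) (D.Rat × κ.L.K) (κ.fam.W i) :=
  (κ.act i).toMonoidHom.comp κ.c₁

theorem Cz.rep_apply (i : MIx ℓ U K) (γ : D.Rat) (k : K 0) (Φ : WI (i.J.subgroupOf (K 0)) (κ.ρ i))
    (x : K 0) : ((κ.rep i (γ, k) : Module.End _ _) Φ : WI (i.J.subgroupOf (K 0)) (κ.ρ i)).1 x =
      Φ.1 (k⁻¹ * x) := (κ.isAct i).gr k Φ x

/-- The Hecke operator `x` on `ℤ_(ℓ)[G(𝔸_f) / U]`. -/
noncomputable def Cz.hx (x : IX ℓ S U) : Module.End (Zl ℓ) (κ.L.X →₀ Zl ℓ) :=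
  κ.L.op (ofInt κ.L x.1.2 x.2.2)

end Pool.Agent.Lib.MP_666dc0_nt.CL
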