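import Pool.Agent.Lib.MP_666dc0_nt.CL.A5b

/-!
# CL, M0: transport of the law to another set of systems
-/

namespace Pool.Agent.Lib.MP_666dc0_nt.CL

open FM

variable {Ω : Type} [NormedField Ω] {I ix Sy : Type} {M : ix → Type}
  [∀ i, AddCommGroup (M i)] [∀ i, Module Ω (M i)]
  {op : ∀ i, I → Module.End Ω (M i)} {ev : Sy → (I → Ω)}

/-- The property `p` of the elements of `Sy` is closed. -/
def IsClS (M : ix → Type) [∀ i, AddCommGroup (M i)] [∀ i, Module Ω (M i)]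
    (op : ∀ i, I → Module.End Ω (M i)) (ev : Sy → (I → Ω)) (p : Sy → Prop) : Prop :=
  ∀ x, ev x ∈ Occ M op → Ctl (ev '' {x | ev x ∈ Occ M op ∧ p x}) (ev x) → p x

theorem ctl_self {Fam : Set (I → Ω)} {y : I → Ω} (h : y ∈ Fam) : Ctl Fam y := fun ε hε =>
  ⟨{y}, Set.finite_singleton _, Set.singleton_subset_iff.2 h, ε, hε, fun _ hP => hP y rfl⟩

theorem Ctl.mono {Fam Fam' : Set (I → Ω)} {y : I → Ω} (h : Ctl Fam y) (hF : Fam ⊆ Fam') : Ctl Fam' y := by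
  intro ε hε
  obtain ⟨J, hJ, hJF, δ, hδ, hP⟩ := h ε hε
  exact ⟨J, hJ, hJF.trans hF, δ, hδ, hP⟩

theorem IsClS.img (hs : Function.Surjective ev) {p : Sy → Prop} (h : IsClS M op ev p) :
    IsCl M op (ev '' {x | p x}) := by
  intro y hy hc
  obtain ⟨x, rfl⟩ := hs y
  refine ⟨x, h x hy (hc.mono ?_), rfl⟩
  rintro _ ⟨⟨x', hx', rfl⟩, hx''⟩
  exact ⟨x', ⟨hx'', hx'⟩, rfl⟩

theorem IsClS.of {Z : Set (I → Ω)} (h : IsCl M op Z) : IsClS M op ev fun x => ev x ∈ Z := by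
  intro x hx hc
  refine h _ hx (hc.mono ?_)
  rintro _ ⟨x', ⟨h1, h2⟩, rfl⟩
  exact ⟨h2, h1⟩

theorem IsClS.sub_iff (hs : Function.Surjective ev) {p : Sy → Prop} (h : IsClS M op ev p)
    {Z : Set (I → Ω)} (hZ : Z ⊆ Occ M op) : Z ⊆ ev '' {x | p x} ↔ ∀ x, ev x ∈ Z → p x := by
  constructor
  · intro h1 x hx
    obtain ⟨x', hx', h2⟩ := h1 hx
    refine h x (hZ hx) (ctl_self ⟨x', ⟨?_, hx'⟩, h2⟩)
    rw [h2]
    exact hZ hx
  · intro h1 y hy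
    obtain ⟨x, rfl⟩ := hs y
    exact ⟨x, h1 x hy, rfl⟩

theorem IsClS.compl_le {p : Sy → Prop} (h : IsClS M op ev p) {y : I → Ω}
    (hy : y ∈ Occ M op) (hy' : y ∈ ev '' {x | ¬ p x}) : y ∈ (ev '' {x | p x})ᶜ := by
  rintro ⟨x, hx, hxy⟩
  obtain ⟨x', hx', rfl⟩ := hy'
  refine hx' (h x' hy (ctl_self ⟨x, ⟨?_, hx⟩, hxy⟩))
  rw [hxy]
  exact hy

theorem isCl_empty : IsCl M op (∅ : Set (I → Ω)) := by
  intro y _ hc
  obtain ⟨J, -, hJ, δ, hδ, hP⟩ := hc (1 / 2) (by norm_num)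
  have h1 := hP 1 fun e he => (hJ he).1.elim
  rw [map_one, norm_one] at h1
  norm_num at h1

open scoped Classical in
/-- The families of a law are not empty. -/
theorem law_nonempty [IsAlgClosed Ω] [∀ i, FiniteDimensional Ω (M i)]
    (hc : ∀ i j k, Commute (op i j) (op i k)) {ℓ : ℕ} (hℓ : 1 < ℓ) {dep w : ix → ℕ}
    (hdeep : ∀ s, ∃ i, s ≤ dep i ∧ 0 < w i) {k : ℕ} {Z : Fin k → Set (I → Ω)} {b : Fin k → ℕ}
    (hb : ∀ j, 0 < b j)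
    (hdim : ∃ C : ℝ, ∀ i, |(Module.finrank Ω (M i) : ℝ) - (∑ j, b j : ℕ) * w i| ≤ C / (ℓ : ℝ) ^ dep i * w i)
    (h : ∃ C : ℝ, ∀ i, (Module.finrank Ω (⨆ y ∈ (∅ : Set (I → Ω))ᶜ, jointG (op i) y : Submodule Ω (M i)) : ℝ) ≤
          ((∑ j with ¬ Z j ⊆ (∅ : Set (I → Ω)), b j : ℕ) + C / (ℓ : ℝ) ^ dep i) * w i) (j : Fin k) :
    (Z j).Nonempty := by
  by_contra hne
  rw [Set.not_nonempty_iff_eq_empty] at hne
  obtain ⟨C, hC⟩ := h
  obtain ⟨C', hC'⟩ := hdim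
  have h1 : (∑ j with ¬ Z j ⊆ (∅ : Set (I → Ω)), b j) + b j ≤ ∑ j, b j := by
    have h2 : j ∉ Finset.univ.filter fun j => ¬ Z j ⊆ (∅ : Set (I → Ω)) := fun hj =>
      (Finset.mem_filter.1 hj).2 hne.subset
    have h3 := Finset.sum_insert (f := b) h2
    rw [add_comm, ← h3]
    exact Finset.sum_le_sum_of_subset (Finset.subset_univ _)
  have h2 : (((∑ j with ¬ Z j ⊆ (∅ : Set (I → Ω)), b j : ℕ) : ℝ)) + 1 ≤ ((∑ j, b j : ℕ) : ℝ) := by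
    have := hb j
    exact_mod_cast (by omega : (∑ j with ¬ Z j ⊆ (∅ : Set (I → Ω)), b j) + 1 ≤ ∑ j, b j)
  have hℓ' : (1 : ℝ) < ℓ := by exact_mod_cast hℓ
  obtain ⟨s, hs⟩ := pow_unbounded_of_one_lt (|C| + |C'|) hℓ'
  obtain ⟨i, hi, hwi⟩ := hdeep s
  have h3 := (abs_le.1 (hC' i)).1
  have h4 := hC i
  have htop : (⨆ y ∈ (∅ : Set (I → Ω))ᶜ, jointG (op i) y : Submodule Ω (M i)) = ⊤ := by
    rw [eq_top_iff, ← iSup_jointG (hc i)]
    exact iSup_le fun y => le_iSup₂_of_le y (Set.notMem_empty y) le_rfl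
  rw [htop, finrank_top] at h4
  have hw : (0 : ℝ) < w i := by exact_mod_cast hwi
  have hp : (|C| + |C'|) / (ℓ : ℝ) ^ dep i < 1 := by
    rw [div_lt_one (pow_pos (by linarith) _)]
    exact hs.trans_le (pow_le_pow_right₀ hℓ'.le hi)
  have hpos : (0 : ℝ) < (ℓ : ℝ) ^ dep i := pow_pos (by linarith) _
  have h5 : C / (ℓ : ℝ) ^ dep i + C' / (ℓ : ℝ) ^ dep i ≤ (|C| + |C'|) / (ℓ : ℝ) ^ dep i := by
    rw [← add_div]
    exact div_le_div_of_nonneg_right (add_le_add (le_abs_self _) (le_abs_self _)) hpos.le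
  have h6 : ((∑ j, b j : ℕ) : ℝ) * w i ≤
      ((∑ j with ¬ Z j ⊆ (∅ : Set (I → Ω)), b j : ℕ) + (C / (ℓ : ℝ) ^ dep i + C' / (ℓ : ℝ) ^ dep i)) * w i := by
    linarith
  have h7 := le_of_mul_le_mul_right h6 hw
  linarith

open scoped Classical in
/-- The transported law. -/
theorem Law.transport [IsAlgClosed Ω] [∀ i, FiniteDimensional Ω (M i)]
    (hc : ∀ i j k, Commute (op i j) (op i k)) (hs : Function.Surjective ev) {ℓ : ℕ} (hℓ : 1 < ℓ)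
    {dep w : ix → ℕ} (hdeep : ∀ s, ∃ i, s ≤ dep i ∧ 0 < w i) {r : ℕ} (hL : Law M op ℓ dep w r) :
    ∃ (k : ℕ) (Z : Fin k → Set (I → Ω)) (b : Fin k → ℕ), (∀ j, 0 < b j) ∧ ∑ j, b j = r ∧
      (∀ j, (Z j).Nonempty) ∧
      (∀ j, Z j ⊆ Occ M op) ∧ (∀ j, IsClS M op ev fun x => ev x ∈ Z j) ∧
      ∀ p : Sy → Prop, IsClS M op ev p → ∃ C : ℝ, ∀ i,
        (∀ N : ℕ, (Module.finrank Ω (⨆ y ∈ ev '' {x | p x}, jointO (op i) y N :
            Submodule Ω (M i)) : ℝ) ≤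
          ((∑ j with (∀ x, ev x ∈ Z j → p x), b j : ℕ) + N * C / (ℓ : ℝ) ^ dep i) * w i) ∧
        (Module.finrank Ω (⨆ y ∈ ev '' {x | ¬ p x}, jointG (op i) y : Submodule Ω (M i)) : ℝ) ≤
          ((∑ j with ¬ (∀ x, ev x ∈ Z j → p x), b j : ℕ) + C / (ℓ : ℝ) ^ dep i) * w i ∧
        ((∑ j with (∀ x, ev x ∈ Z j → p x), b j : ℕ) - C / (ℓ : ℝ) ^ dep i) * w i ≤
          (Module.finrank Ω (⨆ y ∈ ev '' {x | p x}, jointG (op i) y : Submodule Ω (M i)) : ℝ) := by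
  obtain ⟨k, Z, b, hb, hsum, hZ, hcl, h⟩ := hL.closed
  have hne : ∀ j, (Z j).Nonempty := law_nonempty hc hℓ hdeep hb (by rw [hsum]; exact hL.dim) (by
    obtain ⟨C, hC⟩ := h ∅ isCl_empty
    exact ⟨C, fun i => (hC i).2⟩)
  refine ⟨k, Z, b, hb, hsum, hne, hZ, fun j => .of (hcl j), fun p hp => ?_⟩
  obtain ⟨C, hC⟩ := h _ (hp.img hs)
  obtain ⟨C', hC'⟩ := hL.dim
  refine ⟨|C| + |C'|, fun i => ?_⟩
  obtain ⟨h1, h2⟩ := hC i
  have h3 := (abs_le.1 (hC' i)).1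
  have e1 : (∑ j with Z j ⊆ ev '' {x | p x}, b j) = ∑ j with (∀ x, ev x ∈ Z j → p x), b j := by
    congr 1
    ext j
    simp only [Finset.mem_filter, Finset.mem_univ, true_and]
    exact hp.sub_iff hs (hZ j)
  have e2 : (∑ j with ¬ Z j ⊆ ev '' {x | p x}, b j) =
      ∑ j with ¬ (∀ x, ev x ∈ Z j → p x), b j := by
    congr 1
    ext j
    simp only [Finset.mem_filter, Finset.mem_univ, true_and]
    exact not_congr (hp.sub_iff hs (hZ j))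
  rw [e2] at h2
  have hT : 0 ≤ ((ℓ : ℝ) ^ dep i)⁻¹ * w i := by positivity
  have hdiv : ∀ c : ℝ, c / (ℓ : ℝ) ^ dep i * w i = c * (((ℓ : ℝ) ^ dep i)⁻¹ * w i) := by
    intro c
    rw [div_eq_mul_inv, mul_assoc]
  have k1 : C * (((ℓ : ℝ) ^ dep i)⁻¹ * w i) ≤ |C| * (((ℓ : ℝ) ^ dep i)⁻¹ * w i) :=
    mul_le_mul_of_nonneg_right (le_abs_self _) hT
  have k2 : C' * (((ℓ : ℝ) ^ dep i)⁻¹ * w i) ≤ |C'| * (((ℓ : ℝ) ^ dep i)⁻¹ * w i) :=
    mul_le_mul_of_nonneg_right (le_abs_self _) hT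
  have k3 : 0 ≤ |C| * (((ℓ : ℝ) ^ dep i)⁻¹ * w i) := mul_nonneg (abs_nonneg _) hT
  have k4 : 0 ≤ |C'| * (((ℓ : ℝ) ^ dep i)⁻¹ * w i) := mul_nonneg (abs_nonneg _) hT
  have hGn : (Module.finrank Ω (⨆ y ∈ ev '' {x | ¬ p x}, jointG (op i) y : Submodule Ω (M i)) : ℝ) ≤
      ((∑ j with ¬ (∀ x, ev x ∈ Z j → p x), b j : ℕ) + C / (ℓ : ℝ) ^ dep i) * w i := by
    refine le_trans (Nat.cast_le.2 (Submodule.finrank_mono ?_)) h2
    refine iSup₂_le fun y hy => ?_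
    by_cases hbot : jointG (op i) y = ⊥
    · rw [hbot]
      exact bot_le
    · exact le_iSup₂_of_le y (hp.compl_le ⟨i, jointE_ne_bot (hc i) hbot⟩ hy) le_rfl
  have hsup : (⨆ y ∈ ev '' {x | p x}, jointG (op i) y) ⊔ (⨆ y ∈ ev '' {x | ¬ p x}, jointG (op i) y) =
      (⊤ : Submodule Ω (M i)) := by
    rw [eq_top_iff, ← iSup_jointG (hc i)]
    refine iSup_le fun y => ?_
    obtain ⟨x, rfl⟩ := hs y
    by_cases hx : p x
    · exact le_trans (le_iSup₂_of_le (ev x) ⟨x, hx, rfl⟩ le_rfl) le_sup_left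
    · exact le_trans (le_iSup₂_of_le (ev x) ⟨x, hx, rfl⟩ le_rfl) le_sup_right
  have hadd : (Module.finrank Ω (M i) : ℝ) ≤
      Module.finrank Ω (⨆ y ∈ ev '' {x | p x}, jointG (op i) y : Submodule Ω (M i)) +
        Module.finrank Ω (⨆ y ∈ ev '' {x | ¬ p x}, jointG (op i) y : Submodule Ω (M i)) := by
    have h4 := Submodule.finrank_add_le_finrank_add_finrank
      (⨆ y ∈ ev '' {x | p x}, jointG (op i) y : Submodule Ω (M i))
      (⨆ y ∈ ev '' {x | ¬ p x}, jointG (op i) y)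
    rw [hsup, finrank_top] at h4
    exact_mod_cast h4
  have hbs : ((∑ j with (∀ x, ev x ∈ Z j → p x), b j : ℕ) : ℝ) * w i +
      ((∑ j with ¬ (∀ x, ev x ∈ Z j → p x), b j : ℕ) : ℝ) * w i = r * w i := by
    rw [← add_mul, ← hsum, ← Finset.sum_filter_add_sum_filter_not Finset.univ
      fun j => ∀ x, ev x ∈ Z j → p x]
    push_cast
    rfl
  refine ⟨fun N => ?_, ?_, ?_⟩
  · have h4 := h1 N
    rw [e1] at h4
    refine h4.trans (mul_le_mul_of_nonneg_right ?_ (Nat.cast_nonneg _))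
    have h5 : C ≤ |C| + |C'| := (le_abs_self C).trans (le_add_of_nonneg_right (abs_nonneg _))
    gcongr
  · refine hGn.trans (mul_le_mul_of_nonneg_right ?_ (Nat.cast_nonneg _))
    have h5 : C ≤ |C| + |C'| := (le_abs_self C).trans (le_add_of_nonneg_right (abs_nonneg _))
    gcongr
  · rw [add_mul, hdiv] at hGn
    rw [hdiv] at h3
    rw [sub_mul, hdiv, add_mul]
    linarith

end Pool.Agent.Lib.MP_666dc0_nt.CL
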