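import Pool.Agent.Lib.MP_666dc0_nt.CL.B2
import Pool.Agent.Lib.MP_666dc0_nt.CL.C0
import Pool.Agent.Lib.MP_666dc0_nt.EP.BW6
import Pool.Agent.Lib.MP_666dc0_nt.Mg.G064
import Pool.Agent.Lib.MP_666dc0_nt.EP.P1c
import Pool.Agent.Lib.MP_666dc0_nt.EC.Defs

/-!
# CL, M1: the law for the cohomology of the spaces `WI J ρ`
-/

open NumberField IsDedekindDomain
open scoped NumberField

namespace Pool.Agent.Lib.MP_666dc0_nt.CL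

open WL ZO FM EP EC

variable {F : Type} [Field F] [NumberField F] {n : ℕ} {D : Datum F n} {ℓ : ℕ} [Fact ℓ.Prime]
  {S : Finset (HeightOneSpectrum (𝓞 F))} {U : Subgroup D.Ad} {K : ℕ → Subgroup D.Ad} {d : ℕ}
  {ι : ℂ ≃+* PadicAlgCl ℓ} (κ : Cz ℓ U K d ι)

theorem EHop_congr {R A E X L V : Type} [CommRing R] [Group A] [MulAction A E] [MulAction A X]
    [Field L] [Algebra R L] [AddCommGroup V] [Module L V] (ρ : Representation L A V)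
    {c c' : (X →₀ R) →ₗ[R] (X →₀ R)} (h : c = c') (hc : Equi A c) (hc' : Equi A c') (n : ℕ) :
    (EHop ρ hc n : Module.End L (EH R E X ρ n)) = EHop ρ hc' n := by
  subst h
  rfl

/-- The law. -/
theorem Cz.law (hq : D.q.det ≠ 0) (hcl : HasClosedOrbit D)
    (hSl : ∀ v : HeightOneSpectrum (𝓞 F), (ℓ : 𝓞 F) ∈ v.asIdeal → v ∈ S)
    (hUS : ∀ v, v ∉ S → IsGoodAt U v) (m : ℕ)
    (hlaw : ∀ ℳ : Mats κ.𝒯.la (MvPolynomial (IX ℓ S U) ℤ), ∃ r, Law (fun i => ℳ.H κ.fam i)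
      (fun i P => (ℳ.ch P).op κ.fam i) ℓ κ.fam.dep
      (fun i => Module.finrank (PadicAlgCl ℓ) (κ.fam.W i)) r) :
    (∀ i : MIx ℓ U K, FiniteDimensional (PadicAlgCl ℓ) (EH (Zl ℓ) κ.L.E κ.L.X (κ.rep i) m)) ∧
    (∀ i x y, Commute (κ.T hSl hUS m i x) (κ.T hSl hUS m i y)) ∧
    ∃ r, Law (fun i : MIx ℓ U K => EH (Zl ℓ) κ.L.E κ.L.X (κ.rep i) m) (κ.T hSl hUS m) ℓ
      (fun i => i.1.1) (fun i => Module.finrank (PadicAlgCl ℓ) (κ.fam.W i)) r := by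
  have hgood : ∀ v, v ∉ S → κ.L.IsGoodAt v := fun v hv => isGoodAt κ.L (hUS v hv)
  obtain ⟨θ₀, hX, hE⟩ := exists_action (A := D.Rat × κ.L.K) (fun x : IX ℓ S U => κ.hx x)
    (κ.equi_hx hSl hUS) fun x y => κ.L.commute_idx S hgood
      ⟨⟨x.1.1, x.2.1⟩, ofInt κ.L x.1.2 x.2.2⟩ ⟨⟨y.1.1, y.2.1⟩, ofInt κ.L y.1.2 y.2.2⟩
  let θ : MvPolynomial (IX ℓ S U) ℤ →+* Module.End (Zl ℓ) (κ.L.X →₀ Zl ℓ) :=
    (θ₀ : MvPolynomial (IX ℓ S U) (Zl ℓ) →+* Module.End (Zl ℓ) (κ.L.X →₀ Zl ℓ)).comp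
      (MvPolynomial.map (Int.castRingHom (Zl ℓ)))
  have hθ : ∀ P, Equi (D.Rat × κ.L.K) (θ P) := fun P => hE _
  have hθX : ∀ x, θ (MvPolynomial.X x) = κ.hx x := by
    intro x
    change θ₀ (MvPolynomial.map (Int.castRingHom (Zl ℓ)) (MvPolynomial.X x)) = _
    rw [MvPolynomial.map_X, hX]
  have hne : Nonempty κ.L.E := ⟨(1 : D.Rat)⟩
  obtain ⟨hfd, hc, r, hr⟩ := law_EH κ.L.free (κ.L.isFD (Zl ℓ) hq (closed_uR hq hcl)) κ.fam κ.fok κ.c₀ κ.c₁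
    κ.rep (fun i r w => (κ.isAct i).zl _ w) (fun i a w => rfl) θ hθ m hlaw
  have h1 : (fun (i : MIx ℓ U K) (x : IX ℓ S U) =>
      (EHop (κ.rep i) (hθ (MvPolynomial.X x)) m :
        Module.End (PadicAlgCl ℓ) (EH (Zl ℓ) κ.L.E κ.L.X (κ.rep i) m))) = κ.T hSl hUS m := by
    funext i x
    exact EHop_congr (κ.rep i) (hθX x) _ _ m
  rw [← h1]
  exact ⟨hfd, hc, r, hr⟩

/-- The dimension of `WI J ρ`. -/
theorem Cz.finrank_W (i : MIx ℓ U K) : Module.finrank (PadicAlgCl ℓ) (κ.fam.W i) =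
    (i.J.subgroupOf (K 0)).index * Module.finrank ℂ i.Q :=
  (finrank_WI κ.𝒬 (i.J.subgroupOf (K 0)) (κ.hJ i) (κ.ρ i)).2

end Pool.Agent.Lib.MP_666dc0_nt.CL
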