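import Pool.Agent.Lib.MP_666dc0_nt.CL.M0
import Pool.Agent.Lib.MP_666dc0_nt.CL.M1
import Pool.Agent.Lib.MP_666dc0_nt.CL.A6
import Pool.Agent.Lib.MP_666dc0_nt.FM.D

/-!
# CL, M2: the law for the cohomology in terms of concrete cochains
-/

open NumberField IsDedekindDomain
open scoped NumberField

namespace Pool.Agent.Lib.MP_666dc0_nt.CL

open WL ZO FM EP EC

variable {F : Type} [Field F] [NumberField F] {n : ℕ} {D : Datum F n} {ℓ : ℕ} [Fact ℓ.Prime]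
  {S : Finset (HeightOneSpectrum (𝓞 F))} {U : Subgroup D.Ad} {K : ℕ → Subgroup D.Ad} {d : ℕ}
  {ι : ℂ ≃+* PadicAlgCl ℓ}

/-- A system with given values. -/
noncomputable def sysOf (ι : ℂ ≃+* PadicAlgCl ℓ) (y : IX ℓ S U → PadicAlgCl ℓ) : ∀ v, Hecke U v → ℂ := by
  classical
  exact fun v h => if hx : v ∉ S ∧ h.IsIntegral ℓ then ι.symm (y ⟨⟨v, h⟩, hx⟩) else 0

theorem iv_sysOf (y : IX ℓ S U → PadicAlgCl ℓ) : iv ι (sysOf ι y) = y := by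
  classical
  funext x
  obtain ⟨⟨v, h⟩, hx⟩ := x
  change ι (sysOf ι y v h) = _
  unfold sysOf
  rw [dif_pos hx, RingEquiv.apply_symm_apply]

theorem iv_surj : Function.Surjective (iv (S := S) (U := U) ι) := fun y => ⟨_, iv_sysOf y⟩

theorem evP_iv (x : ∀ v, Hecke U v → ℂ) (P : MvPolynomial (IX ℓ S U) ℤ) :
    evP (iv ι x) P = ι (pval ℓ S x P) := by
  have h : evP (iv ι x) = ι.toRingHom.comp (pval ℓ S x) := by
    refine MvPolynomial.ringHom_ext (fun r => ?_) (fun j => ?_)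
    · rw [eq_intCast (MvPolynomial.C : ℤ →+* MvPolynomial (IX ℓ S U) ℤ) r, map_intCast, map_intCast]
    · unfold evP
      rw [MvPolynomial.coe_eval₂Hom, MvPolynomial.eval₂_X, RingHom.comp_apply]
      unfold pval
      change iv ι x j = ι (MvPolynomial.aeval _ (MvPolynomial.X j))
      rw [MvPolynomial.aeval_X]
      rfl
  rw [h]
  rfl

/-- `Controlled` and `Ctl`. -/
theorem controlled_iff {Fam : Set (∀ v, Hecke U v → ℂ)} {lam : ∀ v, Hecke U v → ℂ} :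
    Ctl (iv (S := S) ι '' Fam) (iv ι lam) ↔ Controlled ℓ S ι Fam lam := by
  constructor
  · intro h ε hε
    obtain ⟨J, hJ, hJP, δ, hδ, hh⟩ := h ε hε
    choose! e he1 he2 using hJP
    refine ⟨e '' J, hJ.image _, ?_, δ, hδ, fun Q hQ => ?_⟩
    · rintro _ ⟨y, hy, rfl⟩
      exact he1 hy
    · rw [← evP_iv]
      refine hh Q fun y hy => ?_
      rw [← he2 hy, evP_iv]
      exact hQ _ ⟨y, hy, rfl⟩
  · intro h ε hε
    obtain ⟨J, hJ, hJP, δ, hδ, hh⟩ := h ε hε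
    refine ⟨iv ι '' J, hJ.image _, Set.image_mono hJP, δ, hδ, fun Q hQ => ?_⟩
    rw [evP_iv]
    refine hh Q fun y hy => ?_
    rw [← evP_iv]
    exact hQ _ ⟨y, hy, rfl⟩

variable (κ : Cz ℓ U K d ι)

/-- The spaces. -/
abbrev Cz.HM (m : ℕ) (i : MIx ℓ U K) : Type := EH (Zl ℓ) κ.L.E κ.L.X (κ.rep i) m

theorem Cz.isClS_iff (hSl : ∀ v : HeightOneSpectrum (𝓞 F), (ℓ : 𝓞 F) ∈ v.asIdeal → v ∈ S)
    (hUS : ∀ v, v ∉ S → IsGoodAt U v) (m : ℕ) (p : (∀ v, Hecke U v → ℂ) → Prop) :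
    IsClS (κ.HM m) (κ.T hSl hUS m) (iv ι) p ↔ IsClosedC ℓ S ι U (K 0) m p := by
  have hocc : ∀ lam : ∀ v, Hecke U v → ℂ, lam ∈ CSys ℓ S U (K 0) m ↔
      iv ι lam ∈ Occ (κ.HM m) (κ.T hSl hUS m) := fun lam => κ.mem_CSys hSl hUS m lam
  unfold IsClS IsClosedC
  refine forall_congr' fun lam => ?_
  rw [← hocc lam, controlled_iff]
  have e : {x | iv ι x ∈ Occ (κ.HM m) (κ.T hSl hUS m) ∧ p x} = {e | e ∈ CSys ℓ S U (K 0) m ∧ p e} := by
    ext x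
    exact and_congr (hocc x).symm Iff.rfl
  rw [e]

/-- The choices exist. -/
theorem exists_Cz (hU : IsTame ℓ U) (hK : IsUniform ℓ d U K) (ι : ℂ ≃+* PadicAlgCl ℓ) :
    Nonempty (Cz ℓ U K d ι) := by
  obtain ⟨H⟩ := exists_hatData F ℓ ι
  obtain ⟨𝒯, 𝒬, hq⟩ := exists_utow hK
  exact ⟨⟨H, 𝒯, 𝒬, hq, hU, hK⟩⟩

/-- The law for the cohomology of degree `m`. -/
theorem Cz.exists_law (hq : D.q.det ≠ 0) (hcl : HasClosedOrbit D)
    (hSl : ∀ v : HeightOneSpectrum (𝓞 F), (ℓ : 𝓞 F) ∈ v.asIdeal → v ∈ S)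
    (hUS : ∀ v, v ∉ S → IsGoodAt U v) (m : ℕ) :
    (∀ i : MIx ℓ U K, FiniteDimensional (PadicAlgCl ℓ) (κ.HM m i)) ∧
    (∀ i x y, Commute (κ.T hSl hUS m i x) (κ.T hSl hUS m i y)) ∧
    ∃ r, Law (κ.HM m) (κ.T hSl hUS m) ℓ
      (fun i => i.1.1) (fun i => Module.finrank (PadicAlgCl ℓ) (κ.fam.W i)) r := by
  have i1 : NoZeroDivisors κ.𝒯.la.Lim := κ.𝒯.la_noZeroDivisors
  have i2 : CharZero κ.𝒯.la.Lim := κ.𝒯.la_charZero
  have i3 : Nontrivial κ.𝒯.la.Lim := ⟨⟨((0 : ℕ) : κ.𝒯.la.Lim), ((1 : ℕ) : κ.𝒯.la.Lim), fun h =>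
    zero_ne_one (Nat.cast_injective h)⟩⟩
  have i4 : IsNoetherianRing κ.𝒯.la.Lim := κ.𝒯.la_noetherian
  have i5 : LeftOre κ.𝒯.la.Lim := κ.𝒯.la_leftOre
  exact κ.law hq hcl hSl hUS m fun ℳ => law_H ℳ κ.fam κ.fok i4 i5

/-- Closed properties are the same for all systems with the same values. -/
theorem isClosedC_iv {m : ℕ} {Z : Set (IX ℓ S U → PadicAlgCl ℓ)}
    (hSl : ∀ v : HeightOneSpectrum (𝓞 F), (ℓ : 𝓞 F) ∈ v.asIdeal → v ∈ S)
    (hUS : ∀ v, v ∉ S → IsGoodAt U v)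
    (h : IsClS (κ.HM m) (κ.T hSl hUS m) (iv ι) fun x => iv ι x ∈ Z) :
    IsClosedC ℓ S ι U (K 0) m fun lam => iv ι lam ∈ Z := (κ.isClS_iff hSl hUS m _).1 h

theorem Cz.img_eq (p : (∀ v, Hecke U v → ℂ) → Prop) :
    {y : IX ℓ S U → PadicAlgCl ℓ | ∃ lam, p lam ∧ iv ι lam = y} = iv ι '' {x | p x} := rfl

/-- Finite dimension. -/
theorem Cz.finH (m : ℕ) (i : MIx ℓ U K) [FiniteDimensional (PadicAlgCl ℓ) (κ.HM m i)] :
    FinH i.Q U i.J m := by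
  obtain ⟨φ, h1, h2, h3, h4⟩ := κ.exists_class m i
  obtain ⟨T, hT⟩ := Module.finite_def.1 (inferInstance : Module.Finite (PadicAlgCl ℓ) (κ.HM m i))
  choose g hg using h3
  unfold FinH ClsFin
  classical
  refine ⟨T.image fun q => Submodule.Quotient.mk (p := cobS i.Q (U ⊔ i.J) m) (g q).1, ?_⟩
  refine le_antisymm (Submodule.span_le.2 ?_) (Submodule.span_le.2 ?_)
  · intro x hx
    obtain ⟨q, -, rfl⟩ := Finset.mem_image.1 hx
    exact Submodule.subset_span ⟨(g q).1, (g q).2, rfl⟩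
  · rintro _ ⟨z, hz, rfl⟩
    have h5 : φ ⟨z, hz⟩ ∈ Submodule.span (PadicAlgCl ℓ) (T : Set (κ.HM m i)) := by
      rw [hT]
      exact Submodule.mem_top
    -- every element of the span is the image of a cocycle in the span of the `g q`
    have h6 : ∀ x ∈ Submodule.span (PadicAlgCl ℓ) (T : Set (κ.HM m i)), ∃ y : cocS i.Q (U ⊔ i.J) m,
        φ y = x ∧ (Submodule.Quotient.mk y.1 : Coch D m ⧸ cobS i.Q (U ⊔ i.J) m) ∈ Submodule.span ℂ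
          ((T.image fun q => Submodule.Quotient.mk (p := cobS i.Q (U ⊔ i.J) m) (g q).1 : Finset _) :
            Set (Coch D m ⧸ cobS i.Q (U ⊔ i.J) m)) := by
      intro x hx
      induction hx using Submodule.span_induction with
      | mem x hx => exact ⟨g x, hg x, Submodule.subset_span (Finset.mem_image_of_mem _ hx)⟩
      | zero => exact ⟨0, map_zero φ, Submodule.zero_mem _⟩
      | add x y _ _ hx hy =>
        obtain ⟨a, ha, ha'⟩ := hx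
        obtain ⟨b, hb, hb'⟩ := hy
        refine ⟨a + b, by rw [map_add, ha, hb], ?_⟩
        exact Submodule.add_mem _ ha' hb'
      | smul c x _ hx =>
        obtain ⟨a, ha, ha'⟩ := hx
        refine ⟨ι.symm c • a, by rw [h1, ha, RingEquiv.apply_symm_apply], ?_⟩
        exact Submodule.smul_mem _ _ ha'
    obtain ⟨y, hy1, hy2⟩ := h6 _ h5
    have h7 : φ (⟨z, hz⟩ - y) = 0 := by rw [map_sub, hy1, sub_self]
    have h8 := (h2 _).1 h7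
    have h9 : (Submodule.Quotient.mk z : Coch D m ⧸ cobS i.Q (U ⊔ i.J) m) = Submodule.Quotient.mk y.1 :=
      (Submodule.Quotient.eq _).2 h8
    change (Submodule.Quotient.mk z : Coch D m ⧸ cobS i.Q (U ⊔ i.J) m) ∈ _
    rw [h9]
    exact hy2

open scoped Classical in
/-- The families. -/
theorem Cz.families (hSl : ∀ v : HeightOneSpectrum (𝓞 F), (ℓ : 𝓞 F) ∈ v.asIdeal → v ∈ S)
    (hUS : ∀ v, v ∉ S → IsGoodAt U v) (m : ℕ) {r : ℕ}
    (hfd : ∀ i : MIx ℓ U K, FiniteDimensional (PadicAlgCl ℓ) (κ.HM m i))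
    (hcomm : ∀ i x y, Commute (κ.T hSl hUS m i x) (κ.T hSl hUS m i y))
    (hL : Law (κ.HM m) (κ.T hSl hUS m) ℓ
      (fun i => i.1.1) (fun i => Module.finrank (PadicAlgCl ℓ) (κ.fam.W i)) r) :
    ∃ (k : ℕ) (C : Fin k → Set (HSys U)) (a : Fin k → ℕ), ∑ i, a i = r ∧
      IsFamiliesC ℓ S U K ι m C a := by
  have hw : ∀ i : MIx ℓ U K, Module.finrank (PadicAlgCl ℓ) (κ.fam.W i) = wt i.Q (K 0) i.J := fun i =>
    κ.finrank_W i
  obtain ⟨k, Z, b, hb, hsum, hne, hZ, hcl, hC⟩ := hL.transport hcomm (iv_surj (ι := ι)) κ.fok.one_lt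
    κ.fok.deep
  obtain ⟨C, hdim⟩ := hL.dim
  refine ⟨k, fun j => {lam | iv ι lam ∈ Z j}, b, hsum, ⟨hb, ?_, ?_, ?_, ?_, ?_, ?_, ?_, ?_, ?_⟩⟩
  · intro j
    obtain ⟨y, hy⟩ := hne j
    obtain ⟨lam, rfl⟩ := iv_surj (ι := ι) y
    exact ⟨lam, hy⟩
  · intro j lam hlam
    exact (κ.mem_CSys hSl hUS m lam).2 (hZ j hlam)
  · intro j
    exact (κ.isClS_iff hSl hUS m _).1 (hcl j)
  · intro J hJ hJs Q hQ
    have := hfd ⟨(0, J, Q), hJ, hJs, hQ⟩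
    exact κ.finH m ⟨(0, J, Q), hJ, hJs, hQ⟩
  · refine ⟨C, fun s J hJ hJs Q hQ => ?_⟩
    have h1 := (abs_le.1 (hdim ⟨(s, J, Q), hJ, hJs, hQ⟩)).2
    rw [hw, ← κ.dimH_eq, ← hsum] at h1
    change (dimH Q U J m : ℝ) - ((∑ i, b i : ℕ) : ℝ) * wt Q (K 0) J ≤ C / (ℓ : ℝ) ^ s * wt Q (K 0) J at h1
    rw [add_mul]
    linarith
  · refine ⟨C, fun s J hJ hJs Q hQ => ?_⟩
    have h1 := (abs_le.1 (hdim ⟨(s, J, Q), hJ, hJs, hQ⟩)).1
    rw [hw, ← κ.dimH_eq, ← hsum] at h1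
    change -(C / (ℓ : ℝ) ^ s * wt Q (K 0) J) ≤
      (dimH Q U J m : ℝ) - ((∑ i, b i : ℕ) : ℝ) * wt Q (K 0) J at h1
    rw [sub_mul]
    linarith
  · intro p hp
    obtain ⟨c, hc⟩ := hC p ((κ.isClS_iff hSl hUS m p).2 hp)
    refine ⟨c, fun N s J hJ hJs Q hQ => ?_⟩
    have h1 := (hc ⟨(s, J, Q), hJ, hJs, hQ⟩).1 N
    rw [hw, ← Cz.img_eq, ← κ.dimOrd_eq hSl hUS] at h1
    exact h1
  · intro p hp
    obtain ⟨c, hc⟩ := hC p ((κ.isClS_iff hSl hUS m p).2 hp)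
    refine ⟨c, fun s J hJ hJs Q hQ => ?_⟩
    have h1 := (hc ⟨(s, J, Q), hJ, hJs, hQ⟩).2.2
    rw [hw, ← Cz.img_eq, ← κ.dimGen_eq hSl hUS] at h1
    exact h1
  · intro p hp
    obtain ⟨c, hc⟩ := hC p ((κ.isClS_iff hSl hUS m p).2 hp)
    refine ⟨c, fun s J hJ hJs Q hQ => ?_⟩
    have h1 := (hc ⟨(s, J, Q), hJ, hJs, hQ⟩).2.1
    rw [hw, ← Cz.img_eq (fun x => ¬ p x), ← κ.dimGen_eq hSl hUS] at h1
    have e : (sumOf b fun i => ¬ ∀ lam ∈ {lam : HSys U | iv ι lam ∈ Z i}, p lam) =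
        ∑ j with ¬ (∀ x, iv ι x ∈ Z j → p x), b j := by
      unfold sumOf
      refine Finset.sum_congr ?_ fun _ _ => rfl
      ext j
      simp only [Finset.mem_filter, Finset.mem_univ, true_and, Set.mem_setOf_eq]
    rw [e]
    exact h1

end Pool.Agent.Lib.MP_666dc0_nt.CL
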