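import Pool.Agent.Lib.MP_666dc0_nt.Mg.G102

/-!
# Families of systems of eigenvalues in the cohomology of arithmetic groups: the main theorem
-/

open NumberField IsDedekindDomain TensorProduct
open scoped NumberField TensorProduct

namespace Pool.Agent.Lib.MP_666dc0_nt.CL

open WL ZO FM

variable {F : Type} [Field F] [NumberField F] {n : ℕ} {D : Datum F n} {ℓ : ℕ} [Fact ℓ.Prime]
  {S : Finset (HeightOneSpectrum (𝓞 F))} {U : Subgroup D.Ad} {K : ℕ → Subgroup D.Ad} {d : ℕ}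
  {ι : ℂ ≃+* PadicAlgCl ℓ}

/-- The Euler characteristic and the multiplicities. -/
theorem Cz.isEuler (κ : Cz ℓ U K d ι) (hq : D.q.det ≠ 0) (hcl : EC.HasClosedOrbit D) (r : ℕ → ℕ)
    (hr : ∀ m, ∃ C : ℝ, ∀ i : MIx ℓ U K,
      |(Module.finrank (PadicAlgCl ℓ) (κ.HM m i) : ℝ) -
        r m * Module.finrank (PadicAlgCl ℓ) (κ.fam.W i)| ≤
      C / (ℓ : ℝ) ^ i.1.1 * Module.finrank (PadicAlgCl ℓ) (κ.fam.W i)) : IsEuler ℓ U K r := by
  obtain ⟨N, s₀, h⟩ := κ.exists_euler hq hcl r hr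
  have hw : ∀ i : MIx ℓ U K, Module.finrank (PadicAlgCl ℓ) (κ.fam.W i) = wt i.Q (K 0) i.J := fun i =>
    κ.finrank_W i
  refine ⟨N, s₀, fun J hJ hJ0 Q hQ => ⟨fun m hm => ?_, fun hJs => ?_⟩⟩
  · have h1 := (h ⟨(0, J, Q), hJ, hJ0, hQ⟩).1 m hm
    rw [← κ.dimH_eq] at h1
    exact h1
  · have h1 := (h ⟨(s₀, J, Q), hJ, hJs, hQ⟩).2 le_rfl
    rw [hw] at h1
    simp only [← κ.dimH_eq] at h1
    exact h1

theorem main {F : Type} [Field F] [NumberField F] {n : ℕ} (D : Datum F n) (hq : D.q.det ≠ 0)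
    (hcl : ClosedOrbit D) (ℓ : ℕ) [Fact ℓ.Prime]
    {B : Type} [CommRing B] [IsDomain B] [IsPrincipalIdealRing B] [Algebra B ℚ]
    [IsFractionRing B ℚ] [Algebra B (PadicAlgCl ℓ)]
    {O : Type} [CommRing O] [HopfAlgebra B O] [Algebra.FiniteType B O] [Module.Free B O]
    (hO : LinearlyReductive (ℚ ⊗[B] O)) (A : OverB.HopfAction B Gal(AlgebraicClosure F/F) O)
    (hA : IsOpen (A.act.ker : Set Gal(AlgebraicClosure F/F)))
    (S : Finset (HeightOneSpectrum (𝓞 F)))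
    (hS : ∀ v, v ∉ S → ∀ P u, IsInertiaAt v P u → A.act u = 1)
    (hSl : ∀ v : HeightOneSpectrum (𝓞 F), (ℓ : 𝓞 F) ∈ v.asIdeal → v ∈ S)
    (φ : HeightOneSpectrum (𝓞 F) → Gal(AlgebraicClosure F/F))
    (hφ : ∀ v, v ∉ S → ∃ P : Ideal (𝓞 (AlgebraicClosure F)), IsOver v P ∧
      (IsFrob v P (φ v) ∨ IsFrob v P (φ v)⁻¹))
    (U : Subgroup D.Ad) (hU : IsTame ℓ U) (hUS : ∀ v, v ∉ S → IsGoodAt U v)
    (sat : ∀ v, InvFun A (φ v) → Hecke U v) (hsat : ∀ v f, (sat v f).IsIntegral ℓ)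
    (d : ℕ) (K : ℕ → Subgroup D.Ad) (hK : IsUniform ℓ d U K) (ι : ℂ ≃+* PadicAlgCl ℓ) :
    (∀ m, IsClosedC ℓ S ι U (K 0) m (HasGal ℓ A S φ sat ι)) ∧
    (∀ m (P : MvPolynomial (IX ℓ S U) ℤ),
      IsClosedC ℓ S ι U (K 0) m fun lam => pval ℓ S lam P = 0) ∧
    ∃ (k : ℕ → ℕ) (C : ∀ m, Fin (k m) → Set (HSys U)) (a : ∀ m, Fin (k m) → ℕ),
      (∀ m, IsFamiliesC ℓ S U K ι m (C m) (a m)) ∧ (IsEuler ℓ U K fun m => ∑ i, a m i) ∧
      ∀ m b, AtMostN ℓ U K (fun N Q J => dimOrd ℓ S Q U J m N (HasGal ℓ A S φ sat ι)) b ∨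
        AtLeast ℓ U K (fun Q J => dimGen ℓ S Q U J m (HasGal ℓ A S φ sat ι)) (b + 1) := by
  have hcl' : EC.HasClosedOrbit D := hcl
  obtain ⟨κ⟩ := exists_Cz hU hK ι
  choose hfd hc r hL using fun m => κ.exists_law hq hcl' hSl hUS m
  have hC : ∀ m, ∀ lam ∈ CSys ℓ S U (K 0) m, ∃ C : Set (PadicAlgCl ℓ), IsCompact C ∧
      ∀ P : MvPolynomial (IX ℓ S U) ℤ, ι (pval ℓ S lam P) ∈ C := by
    intro m lam hlam
    obtain ⟨C, h1, h2⟩ := (hL m).compact _ ((κ.mem_CSys hSl hUS m lam).1 hlam)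
    refine ⟨C, h1, fun P => ?_⟩
    rw [← evP_iv]
    exact h2 P
  have hatt : ∀ m, IsClosedC ℓ S ι U (K 0) m (HasGal ℓ A S φ sat ι) := fun m =>
    isClosedC_att hO A hA hS φ hφ sat hsat ι (K 0) m (hC m)
  choose k C a hsum h using fun m => κ.families hSl hUS m (hfd m) (hc m) (hL m)
  have hE : IsEuler ℓ U K fun m => ∑ i, a m i :=
    κ.isEuler hq hcl' (fun m => ∑ i, a m i) fun m => by
      obtain ⟨B, hB⟩ := (hL m).dim
      refine ⟨B, fun i => ?_⟩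
      have h1 := hB i
      rw [← hsum m] at h1
      exact h1
  exact ⟨hatt, fun m => isClosedC_pval ι (K 0) m, k, C, a, h, hE, fun m b => (h m).dich (hatt m) b⟩

end Pool.Agent.Lib.MP_666dc0_nt.CL
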