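import Pool.Agent.Lib.MP_666dc0_nt.CL.Defs
import Pool.Agent.Lib.MP_666dc0_nt.IG.Kj
import Pool.Agent.Lib.MP_666dc0_nt.IG.Kl
import Pool.Agent.Lib.MP_666dc0_nt.WL.G1
import Pool.Agent.Lib.MP_666dc0_nt.WL.G2

/-!
# CL, P2e: transfer of Galois representations along control
-/

open NumberField IsDedekindDomain TensorProduct
open scoped NumberField TensorProduct

namespace Pool.Agent.Lib.MP_666dc0_nt.CL

open WL

variable {F : Type} [Field F] [NumberField F] {ℓ : ℕ} [Fact ℓ.Prime]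
  {S : Finset (HeightOneSpectrum (𝓞 F))} {B : Type} [CommRing B]

/-- A homomorphism attached to all systems which control a given one can be transferred. -/
theorem exists_attached_of_ctl [IsDomain B] [IsPrincipalIdealRing B] [Algebra B ℚ]
    [IsFractionRing B ℚ] [Algebra B (PadicAlgCl ℓ)]
    {O : Type} [CommRing O] [HopfAlgebra B O] [Algebra.FiniteType B O] [Module.Free B O]
    (hO : LinearlyReductive (ℚ ⊗[B] O)) (A : OverB.HopfAction B Gal(AlgebraicClosure F/F) O)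
    (hA : IsOpen (A.act.ker : Set Gal(AlgebraicClosure F/F)))
    (hS : ∀ v, v ∉ S → ∀ P u, IsInertiaAt v P u → A.act u = 1)
    (φ : HeightOneSpectrum (𝓞 F) → Gal(AlgebraicClosure F/F))
    (hφ : ∀ v, v ∉ S → ∃ P : Ideal (𝓞 (AlgebraicClosure F)), IsOver v P ∧
      (IsFrob v P (φ v) ∨ IsFrob v P (φ v)⁻¹))
    {I : Type} (idx : ∀ v, v ∉ S → A.inv (φ v) → I)
    (Fam : Set (I → PadicAlgCl ℓ)) (y : I → PadicAlgCl ℓ) (hctl : Ctl Fam y)
    (hC : ∀ z ∈ insert y Fam, ∃ C : Set (PadicAlgCl ℓ), IsCompact C ∧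
      ∀ P : MvPolynomial I ℤ, evP z P ∈ C)
    (hatt : ∀ z ∈ Fam, ∃ (w : ∀ v, A.inv (φ v) → PadicAlgCl ℓ)
      (r : Gal(AlgebraicClosure F/F) →* A.LGroup (PadicAlgCl ℓ)),
      (∀ v (hv : v ∉ S) f, w v f = z (idx v hv f)) ∧ OverB.IsAttachedTo A S φ w r)
    (w₀ : ∀ v, A.inv (φ v) → PadicAlgCl ℓ) (hw₀ : ∀ v (hv : v ∉ S) f, w₀ v f = y (idx v hv f)) :
    ∃ r : Gal(AlgebraicClosure F/F) →* A.LGroup (PadicAlgCl ℓ),
      OverB.IsAttachedTo A S φ w₀ r := by
  classical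
  obtain ⟨T, i1, i2, i3, x, e, ye, he, hy, hex, hyx, hinj⟩ :=
    exists_compact_ring (P := MvPolynomial I ℤ) (Z := Fam) (K := PadicAlgCl ℓ)
      (fun z => evP z.1) (evP y) (fun z => hC z.1 (Set.mem_insert_of_mem _ z.2))
      (hC y (Set.mem_insert _ _))
      (fun ε hε => by
        obtain ⟨J, hJ, hJF, δ, hδ, hP⟩ := hctl ε hε
        refine ⟨Subtype.val ⁻¹' J, hJ.preimage Subtype.val_injective.injOn, δ, hδ, fun p hp =>
          hP p fun m hm => ?_⟩
        exact hp ⟨m, hJF hm⟩ hm)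
  obtain ⟨N, ρ, hρ⟩ := IG.exists_faithful_Z (A := A) hA
  have hX : ∀ (m : I → PadicAlgCl ℓ) (k : I), evP m (MvPolynomial.X k) = m k := by
    intro m k
    exact MvPolynomial.eval₂_X _ _ _
  let x' : ∀ v, A.inv (φ v) → T := fun v f =>
    if hv : v ∉ S then x (MvPolynomial.X (idx v hv f)) else 0
  have hx' : ∀ v (hv : v ∉ S) (f : A.inv (φ v)), x' v f =
      x (MvPolynomial.X (idx v hv f)) := fun v hv f => by
    simp only [x', dif_pos hv]
  obtain ⟨r, hr, -⟩ := IG.interpolation_Z hO hA hS hφ ρ hρ x' (Z := Fam)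
    (R := fun _ => PadicAlgCl ℓ) e he hinj
    (fun z => by
      obtain ⟨w, r, hw, hr⟩ := hatt z.1 z.2
      refine ⟨r, hr.proj, hr.cont, hr.unram, fun v hv f => ?_⟩
      rw [hr.value v hv f, hw v hv f, hx' v hv f, hex]
      exact (hX z.1 _).symm) ye hy
  refine ⟨r, hr.proj, hr.cont, hr.unram, fun v hv f => ?_⟩
  rw [hr.value v hv f, hx' v hv f, hyx, hw₀ v hv f]
  exact hX y _

end Pool.Agent.Lib.MP_666dc0_nt.CL
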