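import Pool.Agent.Lib.MP_666dc0_nt.CL.Defs
import Pool.Agent.Lib.MP_666dc0_nt.EP.G1
import Pool.Agent.Lib.MP_666dc0_nt.EP.FD5

/-!
# CL: the cohomology of the complex of equivariant cochains
-/

namespace Pool.Agent.Lib.MP_666dc0_nt.CL

open FM EP

variable {R : Type} {A : Type} [CommRing R] [Group A] {E X : Type} [MulAction A E] [MulAction A X]
  {L V : Type} [Field L] [Algebra R L] [AddCommGroup V] [Module L V] (ρ : Representation L A V)

variable (R E X) in
/-- The cohomology of degree `n`. -/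
abbrev EH (n : ℕ) : Type :=
  cocyc R ρ E X n ⧸ (cobd R ρ E X n).submoduleOf (cocyc R ρ E X n)

theorem ext_mem_cocyc {c : (X →₀ R) →ₗ[R] (X →₀ R)} (hc : Equi A c) (n : ℕ)
    {u : Simp E X n → V} (hu : u ∈ cocyc R ρ E X n) :
    pull L V (ext (E := E) n c) u ∈ cocyc R ρ E X n := by
  refine ⟨pull_mem_Fun ρ (equi_ext n hc) hu.1, ?_⟩
  have h5 : pull L V (bd R E X n) u = 0 := hu.2
  have h1 := congrArg (fun c => pull L V c u) (bd_comp_ext (E := E) n c)
  simp only [pull_comp] at h1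
  change pull L V (bd R E X n) (pull L V (ext n c) u) = 0
  refine h1.symm.trans ?_
  change pull L V (ext (n + 1) c) (pull L V (bd R E X n) u) = 0
  rw [h5, map_zero]

theorem ext_mem_cobd {c : (X →₀ R) →ₗ[R] (X →₀ R)} (hc : Equi A c) (n : ℕ)
    {u : Simp E X n → V} (hu : u ∈ cobd R ρ E X n) :
    pull L V (ext (E := E) n c) u ∈ cobd R ρ E X n := by
  cases n with
  | zero =>
    have h0 : u = 0 := hu
    rw [h0, map_zero]
    exact Submodule.zero_mem _
  | succ n =>
    obtain ⟨w, hw, rfl⟩ := hu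
    refine ⟨pull L V (ext n c) w, pull_mem_Fun ρ (equi_ext n hc) hw, ?_⟩
    have h1 := congrArg (fun c => pull L V c w) (bd_comp_ext (E := E) n c)
    simp only [pull_comp] at h1
    exact h1.symm

/-- The endomorphism of the cohomology given by the endomorphism `c` of `R[X]`. -/
noncomputable def EHop {c : (X →₀ R) →ₗ[R] (X →₀ R)} (hc : Equi A c) (n : ℕ) :
    Module.End L (EH R E X ρ n) :=
  Submodule.mapQ _ _ ((pull L V (ext (E := E) n c)).restrict fun _ hu => ext_mem_cocyc ρ hc n hu)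
    fun _ hu => ext_mem_cobd ρ hc n hu

theorem EHop_mk {c : (X →₀ R) →ₗ[R] (X →₀ R)} (hc : Equi A c) (n : ℕ) (u : cocyc R ρ E X n) :
    EHop ρ hc n (Submodule.Quotient.mk u) =
      Submodule.Quotient.mk ⟨pull L V (ext (E := E) n c) u.1, ext_mem_cocyc ρ hc n u.2⟩ := rfl

end Pool.Agent.Lib.MP_666dc0_nt.CL
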